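import Mathlib

set_option autoImplicit false

namespace Pool.Agent.H28.L2Ops

open scoped ENNReal

abbrev L2 (𝕜 : Type) [RCLike 𝕜] : Type := lp (fun _ : ℕ => 𝕜) 2

variable {𝕜 : Type} [RCLike 𝕜]

lemma mem_iff (f : ℕ → 𝕜) : Memℓp f (2 : ℝ≥0∞) ↔ Summable (fun n => ‖f n‖ ^ 2) := by
  rw [memℓp_gen_iff (by norm_num)]
  simp

lemma summ (x : L2 𝕜) : Summable (fun n => ‖x n‖ ^ 2) := (mem_iff _).1 x.2

lemma normsq (x : L2 𝕜) : ‖x‖ ^ 2 = ∑' n, ‖x n‖ ^ 2 := by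
  have := lp.norm_rpow_eq_tsum (p := 2) (by norm_num) x
  simpa using this

lemma norm_le_of {x y : L2 𝕜} {C : ℝ} (hC : 0 ≤ C) (h : ∀ n, ‖x n‖ ≤ C * ‖y n‖) :
    ‖x‖ ≤ C * ‖y‖ := by
  have h1 : ‖x‖ ^ 2 ≤ (C * ‖y‖) ^ 2 := by
    rw [mul_pow, normsq, normsq, ← tsum_mul_left]
    refine Summable.tsum_le_tsum (fun n => ?_) (summ x) ((summ y).mul_left _)
    rw [← mul_pow]
    exact pow_le_pow_left₀ (norm_nonneg _) (h n) 2
  exact (sq_le_sq₀ (norm_nonneg _) (by positivity)).1 h1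

noncomputable def diagL (w : ℕ → 𝕜) (C : ℝ) (hw : ∀ n, ‖w n‖ ≤ C) : L2 𝕜 →ₗ[𝕜] L2 𝕜 where
  toFun x := ⟨fun n => w n * x n, by
    refine (mem_iff _).2 (Summable.of_nonneg_of_le (fun n => by positivity) (fun n => ?_)
      ((summ x).mul_left (C ^ 2)))
    rw [← mul_pow, norm_mul]
    exact pow_le_pow_left₀ (by positivity)
      (mul_le_mul_of_nonneg_right (hw n) (norm_nonneg _)) 2⟩
  map_add' x y := by
    ext n
    exact mul_add _ _ _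
  map_smul' c x := by
    ext n
    simp [mul_left_comm]

noncomputable def diag (w : ℕ → 𝕜) (C : ℝ) (hw : ∀ n, ‖w n‖ ≤ C) : L2 𝕜 →L[𝕜] L2 𝕜 :=
  (diagL w C hw).mkContinuous C (fun x => by
    refine norm_le_of ((norm_nonneg _).trans (hw 0)) (fun n => ?_)
    change ‖w n * x n‖ ≤ _
    rw [norm_mul]
    exact mul_le_mul_of_nonneg_right (hw n) (norm_nonneg _))

@[simp] lemma diag_apply (w : ℕ → 𝕜) (C : ℝ) (hw : ∀ n, ‖w n‖ ≤ C) (x : L2 𝕜) (n : ℕ) :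
    diag w C hw x n = w n * x n := rfl

lemma norm_diag_le (w : ℕ → 𝕜) (C : ℝ) (hw : ∀ n, ‖w n‖ ≤ C) : ‖diag w C hw‖ ≤ C :=
  LinearMap.mkContinuous_norm_le _ ((norm_nonneg _).trans (hw 0)) _

lemma le_norm_diag (w : ℕ → 𝕜) (C : ℝ) (hw : ∀ n, ‖w n‖ ≤ C) (n : ℕ) :
    ‖w n‖ ≤ ‖diag w C hw‖ := by
  have h := (diag w C hw).le_opNorm (lp.single 2 n (1 : 𝕜))
  have h2 : ‖(lp.single 2 n (1 : 𝕜) : L2 𝕜)‖ = 1 := by
    rw [lp.norm_single (by norm_num)]; simp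
  have h3 := lp.norm_apply_le_norm (by norm_num) (diag w C hw (lp.single 2 n (1 : 𝕜))) n
  rw [diag_apply] at h3
  simp only [lp.single_apply_self, mul_one] at h3
  rw [h2, mul_one] at h
  exact h3.trans h

def sh (x : ℕ → 𝕜) : ℕ → 𝕜
  | 0 => 0
  | n + 1 => x n

noncomputable def shiftL : L2 𝕜 →ₗ[𝕜] L2 𝕜 where
  toFun x := ⟨sh x, by
    refine (mem_iff _).2 ?_
    rw [← summable_nat_add_iff 1]
    exact summ x⟩
  map_add' x y := by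
    ext n
    change sh (fun i => x i + y i) n = sh x n + sh y n
    cases n <;> simp [sh]
  map_smul' c x := by
    ext n
    cases n <;> simp [sh]

lemma norm_shiftL (x : L2 𝕜) : ‖shiftL x‖ = ‖x‖ := by
  have h : ‖shiftL x‖ ^ 2 = ‖x‖ ^ 2 := by
    rw [normsq, normsq, (summ (shiftL x)).tsum_eq_zero_add]
    change ‖sh x 0‖ ^ 2 + ∑' n, ‖sh x (n + 1)‖ ^ 2 = _
    simp [sh]
  exact (sq_eq_sq₀ (norm_nonneg _) (norm_nonneg _)).1 h

noncomputable def shift : L2 𝕜 →L[𝕜] L2 𝕜 :=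
  (shiftL).mkContinuous 1 (fun x => by rw [norm_shiftL, one_mul])

lemma norm_shift (x : L2 𝕜) : ‖shift x‖ = ‖x‖ := norm_shiftL x

@[simp] lemma shift_zero (x : L2 𝕜) : shift x 0 = 0 := rfl
@[simp] lemma shift_succ (x : L2 𝕜) (n : ℕ) : shift x (n + 1) = x n := rfl

end Pool.Agent.H28.L2Ops
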