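import Mathlib

/-! Birkhoff transitivity and slowly moving permutations of `ℕ`. -/

namespace Pool.Agent.H28.Birk

open Filter Topology

theorem birkhoff {X : Type*} [MetricSpace X] [CompleteSpace X] [TopologicalSpace.SeparableSpace X]
    [Nonempty X] (T : X → X) (hT : Continuous T)
    (h : ∀ x y, ∀ ε > 0, ∃ n z, dist z x < ε ∧ dist (T^[n] z) y < ε) :
    ∃ x, ∀ y, ∀ ε > 0, ∃ n, dist (T^[n] x) y < ε := by
  let d := TopologicalSpace.denseSeq X
  let U : ℕ × ℕ → Set X := fun p => ⋃ n, T^[n] ⁻¹' Metric.ball (d p.1) (1 / ((p.2 : ℝ) + 1))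
  have ho : ∀ p, IsOpen (U p) := fun p =>
    isOpen_iUnion fun n => Metric.isOpen_ball.preimage (hT.iterate n)
  have hd : ∀ p, Dense (U p) := fun p => Metric.dense_iff.2 fun x r hr => by
    obtain ⟨n, z, h1, h2⟩ := h x (d p.1) (min r (1 / ((p.2 : ℝ) + 1))) (by positivity)
    exact ⟨z, h1.trans_le (min_le_left _ _), Set.mem_iUnion.2 ⟨n, h2.trans_le (min_le_right _ _)⟩⟩
  obtain ⟨x, hx⟩ := (dense_iInter_of_isOpen ho hd).nonempty
  refine ⟨x, fun y ε hε => ?_⟩
  obtain ⟨i, hi⟩ := (TopologicalSpace.denseRange_denseSeq X).exists_dist_lt y (half_pos hε)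
  obtain ⟨k, hk⟩ := exists_nat_one_div_lt (half_pos hε)
  obtain ⟨n, hn⟩ := Set.mem_iUnion.1 (Set.mem_iInter.1 hx (i, k))
  refine ⟨n, ?_⟩
  have h1 : dist (T^[n] x) (d i) < 1 / ((k : ℝ) + 1) := hn
  have := dist_triangle_right (T^[n] x) y (d i)
  linarith

theorem chain {α : Type*} (r : α → α → Prop) (hr : ∀ a, r a a) (a : ℕ → α)
    (h : ∀ e, Relation.ReflTransGen r (a e) (a (e + 1))) :
    ∃ P : ℕ → α, P 0 = a 0 ∧ (∀ m, r (P m) (P (m + 1))) ∧ ∀ e, ∃ m, P m = a e := by
  have path : ∀ b c, Relation.ReflTransGen r b c →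
      ∃ (n : ℕ) (p : ℕ → α), p 0 = b ∧ p n = c ∧ ∀ i < n, r (p i) (p (i + 1)) := by
    intro b c hbc
    induction hbc with
    | refl => exact ⟨0, fun _ => b, rfl, rfl, by simp⟩
    | @tail c d _ hcd ih =>
      obtain ⟨n, p, h0, h1, h2⟩ := ih
      refine ⟨n + 1, fun i => if i ≤ n then p i else d, by simpa using h0, by simp, fun i hi => ?_⟩
      rcases (Nat.lt_succ_iff.1 hi).lt_or_eq with h | rfl
      · simpa [h.le, Nat.succ_le_of_lt h] using h2 i h
      · simpa [h1] using hcd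
  choose n p h0 h1 h2 using fun e => path _ _ (h e)
  let st : ℕ × ℕ → ℕ × ℕ := fun s => if s.2 < n s.1 then (s.1, s.2 + 1) else (s.1 + 1, 0)
  have hle : ∀ m, (st^[m] (0, 0)).2 ≤ n (st^[m] (0, 0)).1 := by
    intro m
    induction m with
    | zero => simp
    | succ m ih =>
      rw [Function.iterate_succ_apply']
      simp only [st]
      split_ifs with hh
      · exact hh
      · simp
  refine ⟨fun m => p (st^[m] (0, 0)).1 (st^[m] (0, 0)).2, h0 0, fun m => ?_, fun e => ?_⟩
  · have := hle m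
    simp only [Function.iterate_succ_apply']
    generalize st^[m] (0, 0) = s at this ⊢
    simp only [st]
    split_ifs with hh
    · exact h2 _ _ hh
    · rw [le_antisymm this (not_lt.1 hh), h1, h0]; exact hr _
  · suffices ∃ m, st^[m] (0, 0) = (e, 0) by
      obtain ⟨m, hm⟩ := this
      exact ⟨m, by simp only [hm, h0]⟩
    induction e with
    | zero => exact ⟨0, rfl⟩
    | succ e ih =>
      obtain ⟨m, hm⟩ := ih
      have : ∀ i ≤ n e, st^[i + m] (0, 0) = (e, i) := by
        intro i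
        induction i with
        | zero => simpa using hm
        | succ i ih =>
          intro hi
          rw [Nat.succ_add, Function.iterate_succ_apply', ih (by omega)]
          simp only [st]
          rw [if_pos (by omega)]
      refine ⟨n e + m + 1, ?_⟩
      rw [Function.iterate_succ_apply', this _ le_rfl]
      simp [st]

/-- one step moves every point by at most one place -/
def Near (a b : Equiv.Perm ℕ) : Prop := ∀ y, b y ≤ a y + 1 ∧ a y ≤ b y + 1

theorem move (a : Equiv.Perm ℕ) (b : ℕ) : ∃ c, Relation.ReflTransGen Near a c ∧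
    ∀ y, c y = if a y = 0 then b else if a y ≤ b then a y - 1 else a y := by
  induction b with
  | zero => exact ⟨a, .refl, fun y => by split_ifs <;> omega⟩
  | succ b ih =>
    obtain ⟨c, h1, h2⟩ := ih
    refine ⟨Equiv.swap b (b + 1) * c, h1.tail fun y => ?_, fun y => ?_⟩
    · rw [Equiv.Perm.mul_apply, Equiv.swap_apply_def]; split_ifs <;> omega
    · rw [Equiv.Perm.mul_apply, Equiv.swap_apply_def, h2]; split_ifs <;> omega

theorem spread (j M : ℕ) (hM : j < M) (i : ℕ) (hi : i ≤ j) : ∃ c, Relation.ReflTransGen Near 1 c ∧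
    (∀ x < i, c x = (j - x) * M) ∧ (∀ y, i ≤ y → y ≤ j → c y = y - i) ∧
    ∀ y, i ≤ y → c (y + 1) ≤ c y + (i + 1) ∧ c y ≤ c (y + 1) + (i + 1) := by
  induction i with
  | zero => exact ⟨1, .refl, by simp, by simp, fun y _ => by simp; omega⟩
  | succ i ih =>
    obtain ⟨c, h1, h2, h3, h4⟩ := ih (by omega)
    obtain ⟨c', h5, h6⟩ := move c ((j - i) * M)
    have hb : M ≤ (j - i) * M := Nat.le_mul_of_pos_left _ (by omega)
    have h0 : c i = 0 := by rw [h3 i le_rfl (by omega)]; omega
    have hne : ∀ y, y ≠ i → c y ≠ 0 := fun y hy h => hy (c.injective (h.trans h0.symm))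
    refine ⟨c', h1.trans h5, fun x hx => ?_, fun y hy hy' => ?_, fun y hy => ?_⟩
    · rw [h6]
      rcases (Nat.lt_succ_iff.1 hx).lt_or_eq with h | rfl
      · have : (j - i) * M < (j - x) * M := Nat.mul_lt_mul_of_pos_right (by omega) (by omega)
        rw [if_neg (hne x h.ne), h2 x h, if_neg (by omega)]
      · rw [if_pos h0]
    · rw [h6, h3 y (by omega) hy']; split_ifs <;> omega
    · have := h4 y (by omega)
      have := hne y (by omega)
      have := hne (y + 1) (by omega)
      rw [h6, h6]; split_ifs <;> omega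

theorem exists_P : ∃ P : ℕ → Equiv.Perm ℕ, P 0 = 1 ∧ (∀ m, Near (P m) (P (m + 1))) ∧
    ∀ j, ∃ m, (∀ x < j, P m x = (j - x) * (j + 1) ^ 2) ∧ P m j = 0 ∧
      ∀ y, j ≤ y → P m (y + 1) ≤ P m y + (j + 1) ∧ P m y ≤ P m (y + 1) + (j + 1) := by
  choose c h1 h2 h3 h4 using fun j => spread j ((j + 1) ^ 2) (by nlinarith) j le_rfl
  have hs : ∀ a b, Relation.ReflTransGen Near a b → Relation.ReflTransGen Near b a := by
    intro a b h
    induction h with
    | refl => exact .refl
    | tail _ h ih => exact .head (fun y => (h y).symm) ih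
  obtain ⟨P, p0, p1, p2⟩ := chain Near (fun a y => by omega) (fun e => Nat.casesOn e 1 c) (by
    rintro (_ | e)
    · exact h1 0
    · exact (hs _ _ (h1 e)).trans (h1 (e + 1)))
  refine ⟨P, p0, p1, fun j => ?_⟩
  obtain ⟨m, hm⟩ := p2 (j + 1)
  change P m = c j at hm
  exact ⟨m, hm ▸ h2 j, by rw [hm, h3 j j le_rfl le_rfl]; simp, hm ▸ h4 j⟩

end Pool.Agent.H28.Birk
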