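import Mathlib
import Pool.Agent.H28.Birk

/-! A bijective symbol with hypercyclic composition operator on the little Lipschitz space. -/

namespace Pool.Agent.H28.Comb

open Filter Topology Pool.Agent.H28.Birk
open scoped ZeroAtInfty

section defs
variable {V : Type}

/-- `par` is the parent map of a locally finite tree on `V` rooted at `o` in which every vertex
has a child (so no vertex other than the root has degree one); by convention `par o = o`. -/
def IsTree (o : V) (par : V → V) : Prop :=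
  par o = o ∧ (∀ v, ∃ n, par^[n] v = o) ∧ (∀ v, {w | par w = v}.Finite) ∧
    ∀ v, ∃ w, w ≠ o ∧ par w = v

/-- Membership in the little Lipschitz space. -/
def InL0 (par : V → V) (f : V → ℂ) : Prop :=
  ∀ ε > 0, {v | ε ≤ ‖f v - f (par v)‖}.Finite

/-- The norm of the little Lipschitz space. -/
noncomputable def nrm (o : V) (par : V → V) (f : V → ℂ) : ℝ :=
  max ‖f o‖ (⨆ v, ‖f v - f (par v)‖)

/-- `C_φ` maps the little Lipschitz space boundedly into itself. -/
def BddComp (o : V) (par φ : V → V) : Prop :=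
  (∀ f, InL0 par f → InL0 par (f ∘ φ)) ∧
    ∃ K, ∀ f, InL0 par f → nrm o par (f ∘ φ) ≤ K * nrm o par f

/-- `lam • C_φ` is hypercyclic on the little Lipschitz space. -/
def Hyp (o : V) (par φ : V → V) (lam : ℂ) : Prop :=
  ∃ f, InL0 par f ∧ ∀ g, InL0 par g → ∀ ε > 0, ∃ n : ℕ,
    nrm o par (lam ^ n • (f ∘ φ^[n]) - g) < ε

end defs

/-- vertices -/
abbrev W : Type := ℤ × ℕ

/-- parent map of the comb -/
def pa (v : W) : W := if v.2 = 0 then (v.1 - v.1.sign, 0) else (v.1, v.2 - 1)

/-- depth -/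
def dp (v : W) : ℕ := v.1.natAbs + v.2

theorem dp_pa (v : W) (h : v ≠ (0, 0)) : dp (pa v) + 1 = dp v := by
  obtain ⟨k, x⟩ := v
  simp only [pa, dp]
  split_ifs with hx
  · subst hx
    rcases lt_trichotomy k 0 with hk | rfl | hk
    · simp only [Int.sign_eq_neg_one_of_neg hk]; omega
    · exact absurd rfl h
    · simp only [Int.sign_eq_one_of_pos hk]; omega
  · simp only; omega

theorem dp_zero (v : W) (h : dp v = 0) : v = (0, 0) := by
  obtain ⟨k, x⟩ := v
  simp only [dp] at h
  ext <;> simp <;> omega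

theorem fin_dp (n : ℕ) : {v : W | dp v ≤ n}.Finite :=
  ((Set.finite_Icc (-(n : ℤ)) n).prod (Set.finite_Iic n)).subset fun v hv => by
    simp only [dp, Set.mem_setOf_eq] at hv
    simp only [Set.mem_prod, Set.mem_Icc, Set.mem_Iic]
    omega

theorem ind {p : W → Prop} (h0 : p (0, 0)) (h : ∀ v, v ≠ (0, 0) → p (pa v) → p v) (v : W) :
    p v := by
  induction hn : dp v generalizing v with
  | zero => rw [dp_zero v hn]; exact h0
  | succ n ih =>
    have hv : v ≠ (0, 0) := by rintro rfl; simp [dp] at hn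
    exact h v hv (ih _ (by have := dp_pa v hv; omega))

theorem tree : IsTree ((0, 0) : W) pa := by
  refine ⟨rfl, ind ⟨0, rfl⟩ fun v _ ⟨n, hn⟩ => ⟨n + 1, hn⟩, fun v => ?_, fun v => ?_⟩
  · refine (fin_dp (dp v + 1)).subset fun w hw => ?_
    by_cases h : w = (0, 0)
    · simp [h, dp]
    · have := dp_pa w h
      rw [show pa w = v from hw] at this
      exact this.ge
  · exact ⟨(v.1, v.2 + 1), by simp, by simp [pa]⟩

/-- difference operator -/
def D (f : W → ℂ) (v : W) : ℂ := if v = (0, 0) then f v else f v - f (pa v)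

/-- summation along paths -/
def J0 (a : W → ℂ) (v : W) : ℂ :=
  if h : v = (0, 0) then a v else have := dp_pa v h; a v + J0 a (pa v)
termination_by dp v
decreasing_by omega

theorem D_J0 (a : W → ℂ) : D (J0 a) = a := by
  ext v
  rw [D]
  split_ifs with h
  · rw [J0, dif_pos h]
  · rw [J0.eq_1 a v, dif_neg h]; simp

theorem D_inj {f g : W → ℂ} (h : D f = D g) : f = g := by
  ext v
  induction v using ind with
  | h0 => simpa [D] using congrFun h (0, 0)
  | h v hv ih => simpa [D, hv, ih] using congrFun h v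

theorem D_add (f g : W → ℂ) : D (f + g) = D f + D g := by
  ext v; simp only [D, Pi.add_apply]; split_ifs <;> ring

theorem D_smul (c : ℂ) (f : W → ℂ) : D (c • f) = c • D f := by
  ext v; simp only [D, Pi.smul_apply, smul_eq_mul]; split_ifs <;> ring

/-- the space -/
abbrev X : Type := C₀(W, ℂ)

/-- the function with given differences -/
noncomputable def J : X →ₗ[ℂ] W → ℂ where
  toFun a := J0 a
  map_add' a b := D_inj (by rw [D_add, D_J0, D_J0, D_J0]; rfl)
  map_smul' c a := D_inj (by rw [RingHom.id_apply, D_smul, D_J0, D_J0]; rfl)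

theorem D_J (a : X) : D (J a) = a := D_J0 a

theorem J_inj : Function.Injective J := fun a b h =>
  DFunLike.coe_injective (by have := congrArg D h; rwa [D_J, D_J] at this)

theorem L0_iff (f : W → ℂ) : InL0 pa f ↔ ∀ ε > 0, {v | ε ≤ ‖D f v‖}.Finite := by
  refine forall₂_congr fun ε _ => ⟨fun h => ?_, fun h => ?_⟩ <;>
    refine (h.insert (0, 0)).subset fun v hv => ?_ <;> by_cases h0 : v = (0, 0) <;>
    simp_all [D]

theorem tend_iff (a : W → ℂ) :
    Tendsto a (cocompact W) (𝓝 0) ↔ ∀ ε > 0, {v | ε ≤ ‖a v‖}.Finite := by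
  rw [cocompact_eq_cofinite, Metric.tendsto_nhds]
  simp [eventually_cofinite]

/-- differences of a function as an element of the space -/
def mk (f : W → ℂ) (hf : InL0 pa f) : X :=
  ⟨⟨D f, continuous_of_discreteTopology⟩, (tend_iff _).2 ((L0_iff f).1 hf)⟩

theorem J_mk (f : W → ℂ) (hf : InL0 pa f) : J (mk f hf) = f := D_inj (D_J _)

theorem J_L0 (a : X) : InL0 pa (J a) :=
  (L0_iff _).2 (by rw [D_J]; exact (tend_iff _).1 a.zero_at_infty')

theorem le_norm (a : X) (v : W) : ‖a v‖ ≤ ‖a‖ := a.toBCF.norm_coe_le_norm v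

theorem norm_le (a : X) (c : ℝ) (h : ∀ v, ‖D (J a) v‖ ≤ c) : ‖a‖ ≤ c := by
  rw [D_J] at h
  exact (BoundedContinuousFunction.norm_le_of_nonempty (f := a.toBCF)).2 h

theorem nrm_J (a : X) : nrm (0, 0) pa (J a) = ‖a‖ := by
  have h : ∀ v, ‖J a v - J a (pa v)‖ ≤ ‖a‖ := fun v => by
    by_cases h0 : v = (0, 0)
    · simp [h0, show pa (0, 0) = (0, 0) from rfl]
    · have := le_norm a v
      rwa [← D_J, D, if_neg h0] at this
  refine le_antisymm (max_le ?_ (ciSup_le h)) (norm_le _ _ fun v => ?_)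
  · have := le_norm a (0, 0)
    rwa [← D_J, D, if_pos rfl] at this
  · rw [D]
    split_ifs with h0
    · exact h0 ▸ le_max_left _ _
    · exact le_max_of_le_right (le_ciSup (f := fun v => ‖J a v - J a (pa v)‖)
        ⟨_, Set.forall_mem_range.2 h⟩ v)

theorem fin_L0 (f : W → ℂ) (n : ℕ) (h : ∀ v, n ≤ dp v → f v = 0) : InL0 pa f := by
  refine fun ε hε => (fin_dp (n + 1)).subset fun v hv => ?_
  by_contra hn
  simp only [Set.mem_setOf_eq, not_le] at hn hv
  have := dp_pa v (by rintro rfl; simp [dp] at hn)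
  rw [h v (by omega), h _ (by omega)] at hv
  simp at hv
  linarith

/-- point masses -/
noncomputable def dl (w : W) : X := mk (Pi.single w 1) (fin_L0 _ (dp w + 1) fun v hv =>
  Pi.single_eq_of_ne (by rintro rfl; omega) _)

theorem J_dl (w : W) : J (dl w) = Pi.single w 1 := J_mk _ _

theorem dense (S : Submodule ℂ X) (hS : IsClosed (S : Set X)) (h : ∀ w, dl w ∈ S) (a : X) :
    a ∈ S := by
  have h1 : ∀ b : X, ∀ n, (∀ v, n ≤ dp v → J b v = 0) → b ∈ S := by
    intro b n hb
    have : b = ∑ w ∈ (fin_dp n).toFinset, J b w • dl w := by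
      refine J_inj (funext fun v => ?_)
      simp only [map_sum, map_smul, J_dl, Finset.sum_apply, Pi.smul_apply, Pi.single_apply,
        smul_eq_mul, mul_ite, mul_one, mul_zero, Finset.sum_ite_eq, Set.Finite.mem_toFinset,
        Set.mem_setOf_eq]
      split_ifs with hv
      · rfl
      · exact hb v (by omega)
    rw [this]
    exact S.sum_mem fun w _ => S.smul_mem _ (h w)
  refine hS.closure_subset (Metric.mem_closure_iff.2 fun ε hε => ?_)
  obtain ⟨m, hm⟩ : ∃ m, ∀ v, m ≤ dp v → ‖a v‖ ≤ ε / 8 := by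
    obtain ⟨m, hm⟩ := (((tend_iff _).1 a.zero_at_infty' (ε / 8) (by positivity)).image dp).bddAbove
    exact ⟨m + 1, fun v hv => le_of_not_ge fun h => by have := hm ⟨v, h, rfl⟩; omega⟩
  have hb : ∀ v, ‖J a v‖ ≤ ‖a‖ * (min (dp v) m + 1 : ℕ) + ε / 8 * dp v := by
    refine ind ?_ fun v hv ih => ?_
    · have := le_norm a (0, 0)
      rw [← D_J, D, if_pos rfl] at this
      simpa [dp] using this
    · have e : J a v = a v + J a (pa v) := by rw [← D_J a, D, if_neg hv]; ring
      have h2 := norm_add_le (a v) (J a (pa v))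
      rw [e, ← dp_pa v hv]
      rcases le_or_gt m (dp (pa v)) with h3 | h3
      · have := hm v (by have := dp_pa v hv; omega)
        rw [min_eq_right h3] at ih
        rw [min_eq_right (by omega)]
        push_cast at ih ⊢
        linarith
      · have := le_norm a v
        rw [min_eq_left h3.le] at ih
        rw [min_eq_left (by omega)]
        push_cast at ih ⊢
        linarith
  obtain ⟨N, hN⟩ := exists_nat_gt (‖a‖ * (m + 1) / (ε / 8))
  have hN0 : (0 : ℝ) < N := lt_of_le_of_lt (by positivity) hN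
  rw [div_lt_iff₀ (by positivity)] at hN
  let c : W → ℝ := fun v => (min (dp v) N : ℕ) / N
  let f : W → ℂ := fun v => J a v * (1 - c v)
  have hf : ∀ v, N ≤ dp v → f v = 0 := fun v hv => by
    simp only [f, c, min_eq_right hv, div_self hN0.ne']; simp
  refine ⟨mk f (fin_L0 f N hf), h1 _ N (by rwa [J_mk]), ?_⟩
  rw [dist_eq_norm]
  refine (norm_le _ (ε / 2) fun v => ?_).trans_lt (by linarith)
  rw [map_sub, J_mk, D]
  split_ifs with hv
  · simp [hv, f, c, dp, (half_pos hε).le]
  have e : J a v = a v + J a (pa v) := by rw [← D_J a, D, if_neg hv]; ring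
  have e2 : (J a - f) v - (J a - f) (pa v) =
      a v * c v + J a (pa v) * ((c v - c (pa v) : ℝ) : ℂ) := by
    simp only [Pi.sub_apply, f, e]; push_cast; ring
  have hp := dp_pa v hv
  have b1 : ‖a v * c v‖ ≤ ε / 8 := by
    rw [norm_mul, Complex.norm_real, Real.norm_of_nonneg (by positivity), ← mul_div_assoc,
      div_le_iff₀ hN0]
    rcases le_or_gt m (dp v) with h3 | h3
    · exact mul_le_mul (hm v h3) (by exact_mod_cast min_le_right _ _) (by positivity)
        (by positivity)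
    · have : ((min (dp v) N : ℕ) : ℝ) ≤ m + 1 := by exact_mod_cast (by omega)
      nlinarith [mul_le_mul (le_norm a v) this (by positivity) (norm_nonneg _)]
  have b2 : ‖J a (pa v) * ((c v - c (pa v) : ℝ) : ℂ)‖ ≤ ε / 4 := by
    rcases le_or_gt N (dp (pa v)) with h3 | h3
    · simp only [c, min_eq_right h3, min_eq_right (by omega : N ≤ dp v)]
      simpa using (by positivity : 0 ≤ ε / 4)
    · have : c v - c (pa v) = 1 / N := by
        simp only [c, min_eq_left h3.le, min_eq_left (by omega : dp v ≤ N)]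
        rw [← hp]; push_cast; ring
      rw [this, norm_mul, Complex.norm_real, Real.norm_of_nonneg (by positivity), mul_one_div,
        div_le_iff₀ hN0]
      have h4 : ((min (dp (pa v)) m + 1 : ℕ) : ℝ) ≤ m + 1 := by exact_mod_cast (by omega)
      have h5 : (dp (pa v) : ℝ) ≤ N := by exact_mod_cast h3.le
      nlinarith [hb (pa v), mul_le_mul_of_nonneg_left h4 (norm_nonneg a)]
  rw [e2]
  linarith [norm_add_le (a v * c v) (J a (pa v) * ((c v - c (pa v) : ℝ) : ℂ))]

theorem ray (f : W → ℂ) (c : ℝ) (k : ℤ) (a b : ℕ) (hab : a ≤ b)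
    (h : ∀ y, a < y → ‖D f (k, y)‖ ≤ c) : ‖f (k, b) - f (k, a)‖ ≤ ((b - a : ℕ) : ℝ) * c := by
  induction b, hab using Nat.le_induction with
  | base => simp
  | succ b hb ih =>
    have h1 := h (b + 1) (by omega)
    rw [D, if_neg (by simp)] at h1
    simp only [pa, Nat.succ_ne_zero, if_false, Nat.add_sub_cancel] at h1
    have := norm_sub_le_norm_sub_add_norm_sub (f (k, b + 1)) (f (k, b)) (f (k, a))
    rw [show b + 1 - a = b - a + 1 by omega]
    push_cast
    linarith

theorem ray' (f : W → ℂ) (c : ℝ) (hc : 0 ≤ c) (k : ℤ) (a b r : ℕ) (h1 : a ≤ b + r) (h2 : b ≤ a + r)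
    (h : ∀ y, min a b < y → ‖D f (k, y)‖ ≤ c) : ‖f (k, b) - f (k, a)‖ ≤ r * c := by
  rcases le_total a b with hab | hab
  · refine (ray f c k a b hab fun y hy => h y (by omega)).trans ?_
    exact mul_le_mul_of_nonneg_right (by exact_mod_cast (by omega)) hc
  · rw [norm_sub_rev]
    refine (ray f c k b a hab fun y hy => h y (by omega)).trans ?_
    exact mul_le_mul_of_nonneg_right (by exact_mod_cast (by omega)) hc

theorem spine (f : W → ℂ) (c : ℝ) (p q : ℤ) (hpq : q = p + 1 ∨ p = q + 1)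
    (h1 : ‖D f (p, 0)‖ ≤ c) (h2 : ‖D f (q, 0)‖ ≤ c) : ‖f (p, 0) - f (q, 0)‖ ≤ c := by
  wlog h : q = p + 1 generalizing p q
  · rw [norm_sub_rev]; exact this q p hpq.symm h2 h1 (hpq.resolve_left h)
  subst h
  rcases le_or_gt 0 p with hp | hp
  · rw [D, if_neg (by simp; omega)] at h2
    simp only [pa, if_true, Int.sign_eq_one_of_pos (by omega : 0 < p + 1),
      add_sub_cancel_right] at h2
    rwa [norm_sub_rev]
  · rw [D, if_neg (by simp; omega)] at h1
    simpa only [pa, if_true, Int.sign_eq_neg_one_of_neg hp, sub_neg_eq_add] using h1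

theorem loc (f : W → ℂ) (c : ℝ) (hc : 0 ≤ c) (d : ℤ) (hd : d = 1 ∨ d = -1) (τ : ℤ → ℕ → ℕ)
    (hτ : ∀ k x, τ k x ≤ x + 1 ∧ x ≤ τ k x + 1) (v : W)
    (H : ∀ w, dp v ≤ dp w + 3 → ‖D f w‖ ≤ c) :
    ‖D (fun w => f (w.1 + d, τ w.1 w.2)) v‖ ≤ 3 * c := by
  obtain ⟨k, x⟩ := v
  have r0 : ∀ p l, x = 0 → k.natAbs ≤ p.natAbs + 3 → ‖f (p, τ l 0) - f (p, 0)‖ ≤ c := by
    intro p l hx hp
    have := hτ l 0
    simpa using ray' f c hc p 0 (τ l 0) 1 (by omega) (by omega) fun y _ => H _ (by
      simp only [dp]; omega)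
  rw [D]
  split_ifs with hv
  · obtain ⟨rfl, rfl⟩ := Prod.mk.inj hv
    have a1 := r0 (0 + d) 0 rfl (by omega)
    have a2 := spine f c (0 + d) 0 (by omega) (H _ (by simp [dp])) (H _ (by simp [dp]))
    have a3 := H (0, 0) (by simp)
    rw [D, if_pos rfl] at a3
    have := norm_add₃_le (a := f (0 + d, τ 0 0) - f (0 + d, 0)) (b := f (0 + d, 0) - f (0, 0))
      (c := f (0, 0))
    rw [sub_add_sub_cancel, sub_add_cancel] at this
    simp only
    linarith
  · rcases x with _ | x
    · have hs : k.sign = 1 ∨ k.sign = -1 := by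
        rcases lt_trichotomy k 0 with hk | rfl | hk
        · exact Or.inr (Int.sign_eq_neg_one_of_neg hk)
        · exact absurd rfl hv
        · exact Or.inl (Int.sign_eq_one_of_pos hk)
      have a1 := r0 (k + d) k rfl (by omega)
      have a2 := spine f c (k + d) (k - k.sign + d) (by omega) (H _ (by simp only [dp]; omega))
        (H _ (by simp only [dp]; omega))
      have a3 := r0 (k - k.sign + d) (k - k.sign) rfl (by omega)
      rw [norm_sub_rev] at a3
      have := norm_add₃_le (a := f (k + d, τ k 0) - f (k + d, 0))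
        (b := f (k + d, 0) - f (k - k.sign + d, 0))
        (c := f (k - k.sign + d, 0) - f (k - k.sign + d, τ (k - k.sign) 0))
      rw [sub_add_sub_cancel, sub_add_sub_cancel] at this
      simp only [pa, if_true]
      linarith
    · have := hτ k x
      have := hτ k (x + 1)
      simpa [pa] using ray' f c hc (k + d) (τ k x) (τ k (x + 1)) 3 (by omega) (by omega)
        fun y _ => H _ (by simp only [dp]; omega)

/-- the slowly moving permutations -/
noncomputable def P : ℕ → Equiv.Perm ℕ := exists_P.choose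

/-- the flow -/
noncomputable def Φ (t : ℤ) (v : W) : W :=
  (v.1 + t, P (v.1 + t).natAbs ((P v.1.natAbs).symm v.2))

theorem Φ_add (s t : ℤ) (v : W) : Φ s (Φ t v) = Φ (t + s) v := by simp [Φ, add_assoc]

theorem Φ_zero (v : W) : Φ 0 v = v := by simp [Φ]

theorem Φ_iter (d : ℤ) (n : ℕ) : (Φ d)^[n] = Φ (n * d) := by
  ext1 v
  induction n with
  | zero => simp [Φ_zero]
  | succ n ih => rw [Function.iterate_succ_apply', ih, Φ_add]; congr 1; push_cast; ring

theorem Φ_bij (t : ℤ) : Function.Bijective (Φ t) :=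
  Function.bijective_iff_has_inverse.2 ⟨Φ (-t), fun v => by simp [Φ_add, Φ_zero],
    fun v => by simp [Φ_add, Φ_zero]⟩

theorem Φ_loc (f : W → ℂ) (c : ℝ) (hc : 0 ≤ c) (d : ℤ) (hd : d = 1 ∨ d = -1) (v : W)
    (H : ∀ w, dp v ≤ dp w + 3 → ‖D f w‖ ≤ c) : ‖D (f ∘ Φ d) v‖ ≤ 3 * c := by
  refine loc f c hc d hd (fun k x => P (k + d).natAbs ((P k.natAbs).symm x)) (fun k x => ?_) v H
  have h : ∀ m, Near (P m) (P (m + 1)) := exists_P.choose_spec.2.1
  rcases (by omega : (k + d).natAbs = k.natAbs + 1 ∨ k.natAbs = (k + d).natAbs + 1) with e | e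
  · simpa [e] using h k.natAbs ((P k.natAbs).symm x)
  · have := h (k + d).natAbs ((P k.natAbs).symm x)
    rw [← e] at this
    simpa using this.symm

theorem Φ_L0 (f : W → ℂ) (hf : InL0 pa f) (d : ℤ) (hd : d = 1 ∨ d = -1) : InL0 pa (f ∘ Φ d) := by
  rw [L0_iff] at hf ⊢
  intro ε hε
  obtain ⟨m, hm⟩ := ((hf (ε / 4) (by positivity)).image dp).bddAbove
  refine (fin_dp (m + 3)).subset fun v hv => ?_
  by_contra hn
  simp only [Set.mem_setOf_eq, not_le] at hn hv
  have := Φ_loc f (ε / 4) (by positivity) d hd v fun w hw =>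
    le_of_not_ge fun h => by have := hm ⟨w, h, rfl⟩; omega
  linarith

/-- the composition operators in difference coordinates -/
noncomputable def A (d : ℤ) (hd : d = 1 ∨ d = -1) : X →L[ℂ] X :=
  LinearMap.mkContinuous
    { toFun := fun a => mk (J a ∘ Φ d) (Φ_L0 _ (J_L0 a) d hd)
      map_add' := fun a b => J_inj (by simp only [map_add, J_mk]; rfl)
      map_smul' := fun c a => J_inj (by simp only [map_smul, J_mk]; rfl) } 3
    fun a => norm_le _ _ fun v => by
      simp only [LinearMap.coe_mk, AddHom.coe_mk, J_mk]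
      exact Φ_loc _ _ (norm_nonneg _) d hd v fun w _ => by rw [D_J]; exact le_norm a w

theorem J_A (d : ℤ) (hd : d = 1 ∨ d = -1) (a : X) : J (A d hd a) = J a ∘ Φ d :=
  J_mk _ (Φ_L0 _ (J_L0 a) d hd)

theorem J_pow (d : ℤ) (hd : d = 1 ∨ d = -1) (n : ℕ) (a : X) :
    J ((A d hd ^ n) a) = J a ∘ Φ (n * d) := by
  induction n with
  | zero => ext v; simp [Φ_zero]
  | succ n ih =>
    ext v
    rw [pow_succ', ContinuousLinearMap.mul_apply, J_A, ih]
    simp only [Function.comp, Φ_add]
    rw [show d + n * d = ((n + 1 : ℕ) : ℤ) * d by push_cast; ring]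

/-- times -/
noncomputable def tm (j : ℕ) : ℕ := (exists_P.choose_spec.2.2 j).choose

/-- vectors approximated from small vectors at the times `tm` -/
def Good (B : X →L[ℂ] X) : Submodule ℂ X where
  carrier := {a | ∀ ε > 0, ∀ᶠ j in atTop, ∃ h, ‖h‖ < ε ∧ ‖(B ^ tm j) h - a‖ < ε}
  zero_mem' ε hε := Eventually.of_forall fun j => ⟨0, by simpa using hε, by simpa using hε⟩
  add_mem' {a b} ha hb ε hε := by
    filter_upwards [ha _ (half_pos hε), hb _ (half_pos hε)] with j ⟨h, h1, h2⟩ ⟨k, k1, k2⟩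
    refine ⟨h + k, by linarith [norm_add_le h k], ?_⟩
    rw [map_add, add_sub_add_comm]
    linarith [norm_add_le ((B ^ tm j) h - a) ((B ^ tm j) k - b)]
  smul_mem' c a ha ε hε := by
    have : ∀ x : X, ‖x‖ < ε / (‖c‖ + 1) → ‖c • x‖ < ε := fun x hx => by
      rw [lt_div_iff₀ (by positivity)] at hx
      rw [norm_smul]; nlinarith [norm_nonneg x]
    filter_upwards [ha (ε / (‖c‖ + 1)) (by positivity)] with j ⟨h, h1, h2⟩
    exact ⟨c • h, this _ h1, by
      have e : c • ((B ^ tm j) h - a) = c • (B ^ tm j) h - c • a := by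
        ext v; simp [mul_sub]
      rw [map_smul, ← e]; exact this _ h2⟩

theorem good_closed (B : X →L[ℂ] X) : IsClosed (Good B : Set X) := by
  refine isClosed_of_closure_subset fun a ha ε hε => ?_
  obtain ⟨b, hb, hab⟩ := Metric.mem_closure_iff.1 ha _ (half_pos hε)
  filter_upwards [hb _ (half_pos hε)] with j ⟨h, h1, h2⟩
  rw [dist_comm, dist_eq_norm] at hab
  exact ⟨h, by linarith, by linarith [norm_sub_le_norm_sub_add_norm_sub ((B ^ tm j) h) b a]⟩

theorem good_map (B C : X →L[ℂ] X) (hc : Commute B C) (a : X) (ha : a ∈ Good B) :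
    C a ∈ Good B := by
  intro ε hε
  have : ∀ x : X, ‖x‖ < ε / (‖C‖ + 1) → ‖C x‖ < ε := fun x hx => by
    rw [lt_div_iff₀ (by positivity)] at hx
    nlinarith [norm_nonneg x, C.le_opNorm x]
  filter_upwards [ha (ε / (‖C‖ + 1)) (by positivity)] with j ⟨h, h1, h2⟩
  refine ⟨C h, this _ h1, ?_⟩
  rw [← ContinuousLinearMap.mul_apply, (hc.pow_left _).eq, ContinuousLinearMap.mul_apply,
    ← map_sub]
  exact this _ h2

/-- tent -/
noncomputable def tent (c : ℕ) (M : ℝ) (y : ℕ) : ℝ := max 0 (1 - |(y : ℝ) - c| / M)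

theorem tent_lip (c : ℕ) (M : ℝ) (hM : 0 < M) (y z r : ℕ) (h1 : y ≤ z + r) (h2 : z ≤ y + r) :
    |tent c M y - tent c M z| ≤ r / M := by
  refine (abs_max_sub_max_le_max _ _ _ _).trans (max_le (by simp; positivity) ?_)
  rw [sub_sub_sub_cancel_left, ← sub_div, abs_div, abs_of_pos hM]
  refine div_le_div_of_nonneg_right ((abs_abs_sub_abs_le _ _).trans ?_) hM.le
  have h1 : (y : ℝ) ≤ z + r := by exact_mod_cast h1
  have h2 : (z : ℝ) ≤ y + r := by exact_mod_cast h2
  exact abs_le.2 ⟨by linarith, by linarith⟩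

theorem tent_zero (c M y : ℕ) (hM : 0 < M) (h : y + M ≤ c ∨ c + M ≤ y) : tent c M y = 0 := by
  refine max_eq_left ?_
  rw [sub_nonpos, one_le_div (by exact_mod_cast hM), le_abs]
  rcases h with h | h
  · have : (y : ℝ) + M ≤ c := by exact_mod_cast h
    right; linarith
  · have : (c : ℝ) + M ≤ y := by exact_mod_cast h
    left; linarith

theorem level (k : ℤ) (u : ℕ → ℝ) (c : ℝ) (h0 : u 0 = 0) (h : ∀ y, |u (y + 1) - u y| ≤ c) (v : W) :
    ‖D (fun w => if w.1 = k then (u w.2 : ℂ) else 0) v‖ ≤ c := by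
  have hc : 0 ≤ c := (abs_nonneg _).trans (h 0)
  obtain ⟨l, _ | y⟩ := v
  · simp [D, pa, h0, hc]
  · rw [D, if_neg (by simp)]
    simp only [pa, Nat.succ_ne_zero, if_false, Nat.add_sub_cancel]
    split_ifs
    · rw [← Complex.ofReal_sub, Complex.norm_real]; exact h y
    · simpa using hc

theorem good_dl (d : ℤ) (hd : d = 1 ∨ d = -1) (x : ℕ) : dl (0, x) ∈ Good (A d hd) := by
  intro ε hε
  obtain ⟨N, hN⟩ := exists_nat_one_div_lt hε
  filter_upwards [eventually_gt_atTop x, eventually_ge_atTop N] with j hx hj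
  obtain ⟨h1, h2, h3⟩ : (∀ x < j, P (tm j) x = (j - x) * (j + 1) ^ 2) ∧ P (tm j) j = 0 ∧
      ∀ y, j ≤ y → P (tm j) (y + 1) ≤ P (tm j) y + (j + 1) ∧
        P (tm j) y ≤ P (tm j) (y + 1) + (j + 1) := (exists_P.choose_spec.2.2 j).choose_spec
  have hP : P 0 = 1 := exists_P.choose_spec.1
  set M := (j + 1) ^ 2 with hM
  set π := P (tm j) with hπ
  have hM0 : 0 < M := by positivity
  have hM' : (0 : ℝ) < M := by exact_mod_cast hM0
  have hε' : ((j + 1 : ℕ) : ℝ) / M < ε := by
    refine lt_of_le_of_lt ?_ hN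
    have : (N : ℝ) ≤ j := by exact_mod_cast hj
    rw [hM]; push_cast
    rw [div_le_div_iff₀ (by positivity) (by positivity)]
    nlinarith [(Nat.cast_nonneg j : (0 : ℝ) ≤ j)]
  have t0 : tent (π x) M 0 = 0 := tent_zero _ _ _ hM0 (Or.inl (by
    rw [h1 x hx, zero_add]; exact Nat.le_mul_of_pos_left _ (by omega)))
  let g : W → ℂ := fun w => if w.1 = tm j * d then (tent (π x) M w.2 : ℂ) else 0
  have hg : InL0 pa g := fin_L0 g (tm j + π x + M) fun v hv => by
    simp only [g]
    split_ifs with h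
    · rw [tent_zero _ _ _ hM0 (Or.inr (by
        simp only [dp, h] at hv
        rcases hd with rfl | rfl <;> omega))]
      simp
    · rfl
  refine ⟨mk g hg, (norm_le _ _ fun v => ?_).trans_lt hε', (norm_le _ _ fun v => ?_).trans_lt hε'⟩
  · rw [J_mk]
    exact level _ _ _ t0 (fun y => tent_lip _ _ hM' _ _ _ (by omega) (by omega)) v
  · let u : ℕ → ℝ := fun y => tent (π x) M (π y) - if y = x then 1 else 0
    have hu : ∀ y ≤ j, u y = 0 := fun y hy => by
      simp only [u]
      split_ifs with h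
      · simp [h, tent]
      · rcases hy.lt_or_eq with hy | rfl
        · rw [tent_zero _ _ _ hM0, sub_zero]
          rw [h1 x hx, h1 y hy, ← Nat.succ_mul, ← Nat.succ_mul]
          rcases lt_or_gt_of_ne h with h | h
          · exact Or.inr (Nat.mul_le_mul_right _ (by omega))
          · exact Or.inl (Nat.mul_le_mul_right _ (by omega))
        · rw [h2, t0, sub_zero]
    have e : J ((A d hd ^ tm j) (mk g hg) - dl (0, x)) =
        fun w => if w.1 = 0 then (u w.2 : ℂ) else 0 := by
      rw [map_sub, J_pow, J_mk, J_dl]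
      ext ⟨k, y⟩
      have hn : ((tm j : ℤ) * d).natAbs = tm j := by rcases hd with rfl | rfl <;> simp
      have hs : ∀ y, (1 : Equiv.Perm ℕ).symm y = y := fun _ => rfl
      by_cases hk : k = 0
      · by_cases hy : y = x <;> simp [g, u, Φ, hk, hy, hn, hP, hπ, hs]
      · simp [g, Φ, hk]
    rw [e]
    refine level _ _ _ (hu 0 (by omega)) (fun y => ?_) v
    rcases lt_or_ge y j with hy | hy
    · rw [hu y hy.le, hu (y + 1) hy]; simp; positivity
    · simp only [u]
      rw [if_neg (by omega), if_neg (by omega), sub_zero, sub_zero]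
      exact tent_lip _ _ hM' _ _ _ (h3 y hy).1 (h3 y hy).2

theorem comm (d e : ℤ) (hd : d = 1 ∨ d = -1) (he : e = 1 ∨ e = -1) :
    Commute (A d hd) (A e he) :=
  ContinuousLinearMap.ext fun a => J_inj (funext fun v => by
    simp [J_A, Φ_add, add_comm])

theorem good (d : ℤ) (hd : d = 1 ∨ d = -1) (a : X) : a ∈ Good (A d hd) := by
  refine dense _ (good_closed _) (fun w => ?_) a
  obtain ⟨e, he, hk⟩ : ∃ e : ℤ, (e = 1 ∨ e = -1) ∧ w.1.natAbs * e = -w.1 := by
    rcases le_total 0 w.1 with h | h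
    · exact ⟨-1, Or.inr rfl, by omega⟩
    · exact ⟨1, Or.inl rfl, by omega⟩
  have : dl w = (A e he ^ w.1.natAbs) (dl (0, (Φ (-w.1) w).2)) := by
    refine J_inj (funext fun v => ?_)
    have e0 : ((0 : ℤ), (Φ (-w.1) w).2) = Φ (-w.1) w := by ext <;> simp [Φ]
    rw [J_pow, J_dl, J_dl, hk, e0]
    simp [Pi.single_apply, (Φ_bij _).1.eq_iff]
  rw [this]
  exact good_map _ _ ((comm d e hd he).pow_right _) _ (good_dl d hd _)

theorem main : BddComp ((0, 0) : W) pa (Φ 1) ∧ Hyp ((0, 0) : W) pa (Φ 1) 1 := by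
  refine ⟨⟨fun f hf => Φ_L0 f hf 1 (Or.inl rfl), ‖A 1 (Or.inl rfl)‖, fun f hf => ?_⟩, ?_⟩
  · have := (A 1 (Or.inl rfl)).le_opNorm (mk f hf)
    rwa [← nrm_J, ← nrm_J (mk f hf), J_A, J_mk] at this
  haveI : TopologicalSpace.SeparableSpace X := by
    have : (Set.univ : Set X) = closure (Submodule.span ℂ (Set.range dl)) :=
      (Set.eq_univ_of_forall (dense (Submodule.span ℂ (Set.range dl)).topologicalClosure
        (Submodule.isClosed_topologicalClosure _) fun w =>
          subset_closure (Submodule.subset_span ⟨w, rfl⟩))).symm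
    rw [← TopologicalSpace.isSeparable_univ_iff, this]
    exact (Set.countable_range _).isSeparable.span.closure
  obtain ⟨a, ha⟩ := birkhoff (A 1 (Or.inl rfl)) (A 1 (Or.inl rfl)).continuous fun x y ε hε => by
    obtain ⟨j, ⟨h, h1, h2⟩, ⟨k, k1, k2⟩⟩ := ((good 1 (Or.inl rfl) y _ (half_pos hε)).and
      (good (-1) (Or.inr rfl) x _ (half_pos hε))).exists
    refine ⟨tm j, h + (A (-1) (Or.inr rfl) ^ tm j) k, ?_, ?_⟩
    · rw [dist_eq_norm, add_sub_assoc]
      linarith [norm_add_le h ((A (-1) (Or.inr rfl) ^ tm j) k - x)]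
    · have : (A 1 (Or.inl rfl) ^ tm j) ((A (-1) (Or.inr rfl) ^ tm j) k) = k :=
        J_inj (funext fun v => by rw [J_pow, J_pow]; simp [Φ_add, Φ_zero])
      rw [← ContinuousLinearMap.coe_pow', map_add, this, dist_eq_norm, add_sub_right_comm]
      linarith [norm_add_le ((A 1 (Or.inl rfl) ^ tm j) h - y) k]
  refine ⟨J a, J_L0 a, fun g hg ε hε => ?_⟩
  obtain ⟨n, hn⟩ := ha (mk g hg) ε hε
  refine ⟨n, ?_⟩
  rw [← ContinuousLinearMap.coe_pow', dist_eq_norm, ← nrm_J, map_sub, J_pow, J_mk] at hn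
  rwa [one_pow, one_smul, Φ_iter]

end Pool.Agent.H28.Comb
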