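import Mathlib

set_option autoImplicit false

open Complex Metric
open scoped ComplexConjugate

namespace Pool.Agent.H28.Daut

noncomputable def aa (z : ℂ) : ℂ := (3 - I) - (1 - I) * z
noncomputable def NN (z : ℂ) : ℂ := (3 + I) * z - (1 + I)
noncomputable def DD (z : ℂ) : ℂ := z ^ 2 - (1 / 16) * (1 - z) ^ 4
noncomputable def ph (z : ℂ) : ℂ := NN z / aa z * DD z
noncomputable def ff (m : ℕ) (z : ℂ) : ℂ := (1 - z) ^ 5 / aa z * ph z ^ m

lemma n1 : ‖(1 : ℂ) - I‖ ≤ 2 := (norm_sub_le _ _).trans (by norm_num)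

lemma aa_ge {z : ℂ} (hz : ‖z‖ ≤ 1) : 1 ≤ ‖aa z‖ := by
  have h1 : (3 : ℝ) ≤ ‖(3 : ℂ) - I‖ := by simpa using re_le_norm ((3 : ℂ) - I)
  have h2 : ‖(1 - I) * z‖ ≤ 2 := by rw [norm_mul]; nlinarith [n1, norm_nonneg z, norm_nonneg (1 - I)]
  have := norm_sub_norm_le ((3 : ℂ) - I) ((1 - I) * z)
  unfold aa; linarith

lemma aa_ne {z : ℂ} (hz : ‖z‖ < 2) : aa z ≠ 0 := by
  intro h
  have h1 : z = 2 + I := by
    unfold aa at h
    linear_combination (-(1 + I) / 2) * h + (z / 2 - 1 / 2) * I_mul_I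
  have := re_le_norm z
  rw [h1] at this hz
  simp at this
  linarith

lemma NN_le {z : ℂ} (hz : ‖z‖ ≤ 1) : ‖NN z‖ ≤ ‖aa z‖ := by
  have h : ‖aa z‖ ^ 2 - ‖NN z‖ ^ 2 = 8 * (1 - ‖z‖ ^ 2) := by
    simp only [Complex.sq_norm, normSq_apply, aa, NN]
    simp
    ring
  refine le_of_sq_le_sq ?_ (norm_nonneg _)
  nlinarith [norm_nonneg z]

lemma circ {z : ℂ} (hz : ‖z‖ = 1) : DD z = z ^ 2 * ((1 - ‖1 - z‖ ^ 4 / 16 : ℝ) : ℂ) := by
  have h1 : z * conj z = 1 := by rw [mul_conj', hz]; simp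
  have h2 : (1 - z) * conj (1 - z) = (‖1 - z‖ : ℂ) ^ 2 := mul_conj' _
  rw [map_sub, map_one] at h2
  have h3 : (1 - z) ^ 2 = -z * (‖1 - z‖ : ℂ) ^ 2 := by
    rw [← h2]; linear_combination (-(1 - z)) * h1
  unfold DD
  push_cast
  rw [show (1 - z) ^ 4 = ((1 - z) ^ 2) ^ 2 by ring, h3]
  ring

lemma nsq (a b : ℂ) : ‖(a • EuclideanSpace.single (0 : Fin 2) (1 : ℂ) +
    b • EuclideanSpace.single (1 : Fin 2) (1 : ℂ) : EuclideanSpace ℂ (Fin 2))‖ ^ 2 =
    ‖a‖ ^ 2 + ‖b‖ ^ 2 := by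
  rw [EuclideanSpace.norm_sq_eq, Fin.sum_univ_two]
  simp

lemma one_sub_le {z : ℂ} (hz : ‖z‖ ≤ 1) : ‖1 - z‖ ≤ 2 :=
  (norm_sub_le _ _).trans (by rw [norm_one]; linarith)

lemma pow4_le {z : ℂ} (hz : ‖z‖ ≤ 1) : ‖1 - z‖ ^ 4 ≤ 16 :=
  (pow_le_pow_left₀ (norm_nonneg _) (one_sub_le hz) 4).trans (by norm_num)

lemma DD_le {z : ℂ} (hz : ‖z‖ ≤ 1) : ‖DD z‖ ≤ 1 - ‖1 - z‖ ^ 4 / 32 := by
  have hn : ∀ w : ℂ, ‖(1 - w) ^ 2 / 4‖ ^ 2 = ‖1 - w‖ ^ 4 / 16 := by
    intro w; rw [norm_div, norm_pow]; simp; ring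
  have h := norm_le_of_forall_mem_frontier_norm_le (U := ball (0 : ℂ) 1) isBounded_ball
    (f := fun w => (DD w • EuclideanSpace.single (0 : Fin 2) (1 : ℂ) +
      ((1 - w) ^ 2 / 4) • EuclideanSpace.single (1 : Fin 2) (1 : ℂ) : EuclideanSpace ℂ (Fin 2)))
    (Differentiable.diffContOnCl (by unfold DD; fun_prop)) (C := 1) (z := z) (by
      intro w hw
      rw [frontier_ball _ one_ne_zero, mem_sphere_zero_iff_norm] at hw
      refine le_of_sq_le_sq ?_ zero_le_one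
      have h4 := pow4_le hw.le
      have h0 : 0 ≤ ‖1 - w‖ ^ 4 := by positivity
      rw [nsq, hn, circ hw, norm_mul, norm_pow, hw, norm_real, Real.norm_of_nonneg (by linarith)]
      nlinarith) (by rw [closure_ball _ one_ne_zero]; simpa using hz)
  have h2 := pow_le_pow_left₀ (norm_nonneg _) h 2
  rw [nsq, hn] at h2
  have h4 := pow4_le hz
  refine le_of_sq_le_sq ?_ (by linarith)
  nlinarith [sq_nonneg (‖1 - z‖ ^ 4)]

lemma ph_le {z : ℂ} (hz : ‖z‖ ≤ 1) : ‖ph z‖ ≤ 1 - ‖1 - z‖ ^ 4 / 32 := by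
  have h1 := aa_ge hz
  have h2 : ‖NN z / aa z‖ ≤ 1 := by
    rw [norm_div, div_le_one (by linarith)]; exact NN_le hz
  rw [ph, norm_mul]
  nlinarith [DD_le hz, norm_nonneg (DD z), norm_nonneg (NN z / aa z)]

lemma ph_le1 {z : ℂ} (hz : ‖z‖ ≤ 1) : ‖ph z‖ ≤ 1 :=
  (ph_le hz).trans (by have : 0 ≤ ‖1 - z‖ ^ 4 := by positivity
                       linarith)

lemma B_eq {z : ℂ} (hz : ‖z‖ ≤ 1) (w : ℂ) : aa z - NN z * DD z * w = aa z * (1 - ph z * w) := by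
  have := aa_ne (z := z) (by linarith)
  unfold ph; field_simp

lemma B_ge {z w : ℂ} (hz : ‖z‖ ≤ 1) (hw : ‖w‖ ≤ 1) :
    ‖1 - z‖ ^ 4 / 32 ≤ ‖aa z - NN z * DD z * w‖ := by
  rw [B_eq hz, norm_mul]
  have h1 := norm_sub_norm_le (1 : ℂ) (ph z * w)
  rw [norm_one, norm_mul] at h1
  have h2 := ph_le hz
  have h3 : ‖ph z‖ * ‖w‖ ≤ ‖ph z‖ := mul_le_of_le_one_right (norm_nonneg _) hw
  nlinarith [aa_ge hz, norm_nonneg (1 - ph z * w)]

lemma ff_le {z : ℂ} (hz : ‖z‖ ≤ 1) (m : ℕ) : ‖ff m z‖ ≤ 32 := by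
  rw [ff, norm_mul, norm_div, norm_pow, norm_pow]
  have h1 : ‖1 - z‖ ^ 5 ≤ 32 :=
    (pow_le_pow_left₀ (norm_nonneg _) (one_sub_le hz) 5).trans (by norm_num)
  have h2 : ‖ph z‖ ^ m ≤ 1 := pow_le_one₀ (norm_nonneg _) (ph_le1 hz)
  have h3 : ‖1 - z‖ ^ 5 / ‖aa z‖ ≤ 32 := (div_le_self (by positivity) (aa_ge hz)).trans h1
  calc _ ≤ 32 * 1 := mul_le_mul h3 h2 (by positivity) (by norm_num)
    _ = 32 := by norm_num

lemma ff_diff (m : ℕ) : DifferentiableOn ℂ (ff m) (ball 0 2) := by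
  have ha : DifferentiableOn ℂ aa (ball 0 2) := by unfold aa; fun_prop
  have h0 : ∀ z ∈ ball (0 : ℂ) 2, aa z ≠ 0 := fun z hz => aa_ne (by simpa using hz)
  have hN : DifferentiableOn ℂ NN (ball 0 2) := by unfold NN; fun_prop
  have hD : DifferentiableOn ℂ DD (ball 0 2) := by unfold DD; fun_prop
  exact (DifferentiableOn.div (by fun_prop) ha h0).mul (((hN.div ha h0).mul hD).pow m)

noncomputable def hh (k m : ℕ) : ℂ := (k.factorial : ℂ)⁻¹ * iteratedDeriv k (ff m) 0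

lemma hh_sum (m : ℕ) {z : ℂ} (hz : ‖z‖ ≤ 1) : HasSum (fun k => hh k m * z ^ k) (ff m z) := by
  have := hasSum_taylorSeries_on_ball (ff_diff m) (z := z) (by simp; linarith)
  have e : (fun k => hh k m * z ^ k) =
      fun n : ℕ => (n.factorial : ℂ)⁻¹ • (z - 0) ^ n • iteratedDeriv n (ff m) 0 := by
    funext k; simp only [hh, sub_zero, smul_eq_mul]; ring
  rw [e]; exact this

lemma hh_le (k m : ℕ) : ‖hh k m‖ ≤ 32 := by
  have := norm_iteratedDeriv_le_of_forall_mem_sphere_norm_le (f := ff m) (c := 0) (R := 1) (C := 32)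
    k one_pos ((ff_diff m).diffContOnCl_ball (closedBall_subset_ball (by norm_num)))
    (fun z hz => ff_le (by simpa using (mem_sphere_zero_iff_norm.1 hz).le) m)
  have h0 : (0 : ℝ) < k.factorial := by positivity
  rw [hh, norm_mul, norm_inv, norm_natCast, inv_mul_le_iff₀ h0]
  simpa using this

lemma hasSum2 {z w : ℂ} (hz : ‖z‖ < 1) (hw : ‖w‖ < 1) :
    HasSum (fun p : ℕ × ℕ => hh p.1 p.2 * z ^ p.1 * w ^ p.2)
      ((1 - z) ^ 5 / (aa z - NN z * DD z * w)) := by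
  have s1 : Summable (fun p : ℕ × ℕ => hh p.1 p.2 * z ^ p.1 * w ^ p.2) := by
    refine Summable.of_norm_bounded (g := fun p : ℕ × ℕ => 32 * (‖z‖ ^ p.1 * ‖w‖ ^ p.2))
      (((summable_geometric_of_lt_one (norm_nonneg _) hz).mul_of_nonneg
        (summable_geometric_of_lt_one (norm_nonneg _) hw) (fun _ => by positivity)
        (fun _ => by positivity)).mul_left _) fun p => ?_
    rw [norm_mul, norm_mul, norm_pow, norm_pow, mul_assoc]
    exact mul_le_mul_of_nonneg_right (hh_le _ _) (by positivity)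
  have s2 := ((Equiv.prodComm ℕ ℕ).hasSum_iff.2 s1.hasSum).prod_fiberwise
    (g := fun m => ff m z * w ^ m) fun m => (hh_sum m hz.le).mul_right _
  have h3 : ‖ph z * w‖ < 1 := by
    rw [norm_mul]; nlinarith [ph_le1 hz.le, norm_nonneg w, norm_nonneg (ph z)]
  have s3 := (hasSum_geometric_of_norm_lt_one h3).mul_left ((1 - z) ^ 5 / aa z)
  have e : (fun m => ff m z * w ^ m) = fun m => (1 - z) ^ 5 / aa z * (ph z * w) ^ m := by
    funext m; rw [ff, mul_pow, mul_assoc]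
  rw [e] at s2
  rw [B_eq hz.le, ← div_div, div_eq_mul_inv _ (1 - ph z * w), ← s2.unique s3]
  exact s1.hasSum

lemma im_le {θ : ℝ} (h : |θ| ≤ 1 / 2) :
    |3 * Real.sin ((θ + θ ^ 2) / 2) - Real.cos ((θ + θ ^ 2) / 2) - Real.sin ((3 * θ + θ ^ 2) / 2) +
      Real.cos ((3 * θ + θ ^ 2) / 2)| ≤ 3 * θ ^ 4 := by
  set s := (θ + θ ^ 2) / 2 with hs
  set t := (3 * θ + θ ^ 2) / 2 with ht
  have a0 := abs_nonneg θ
  have q : θ ^ 2 ≤ |θ| / 2 := by rw [← sq_abs]; nlinarith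
  have hs1 : |s| ≤ |θ| := by
    rw [abs_le]; constructor <;> nlinarith [le_abs_self θ, neg_abs_le θ, sq_nonneg θ]
  have ht1 : |t| ≤ 2 * |θ| := by
    rw [abs_le]; constructor <;> nlinarith [le_abs_self θ, neg_abs_le θ, sq_nonneg θ]
  have e4 : |θ| ^ 4 = θ ^ 4 := by rw [← abs_pow]; exact abs_of_nonneg (by positivity)
  have s4 : |s| ^ 4 ≤ θ ^ 4 := e4 ▸ pow_le_pow_left₀ (abs_nonneg _) hs1 4
  have t4 : |t| ^ 4 ≤ 16 * θ ^ 4 := by
    have := pow_le_pow_left₀ (abs_nonneg _) ht1 4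
    rw [mul_pow, e4] at this; linarith
  have s5 : |s| ^ 5 ≤ |s| ^ 4 := pow_le_pow_of_le_one (abs_nonneg _) (by linarith) (by norm_num)
  have t5 : |t| ^ 5 ≤ |t| ^ 4 := pow_le_pow_of_le_one (abs_nonneg _) (by linarith) (by norm_num)
  have b1 := abs_le.1 (Real.sin_bound (x := s) (by linarith))
  have b2 := abs_le.1 (Real.cos_bound (x := s) (by linarith))
  have b3 := abs_le.1 (Real.sin_bound (x := t) (by linarith))
  have b4 := abs_le.1 (Real.cos_bound (x := t) (by linarith))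
  have P : 3 * (s - s ^ 3 / 6) - (1 - s ^ 2 / 2) - (t - t ^ 3 / 6) + (1 - t ^ 2 / 2) =
      3 / 8 * θ ^ 4 - θ ^ 2 * θ ^ 4 / 24 := by rw [hs, ht]; ring
  have p4 : 0 ≤ θ ^ 4 := by positivity
  have p6 : θ ^ 2 * θ ^ 4 ≤ θ ^ 4 := mul_le_of_le_one_left p4 (by linarith)
  have p7 : 0 ≤ θ ^ 2 * θ ^ 4 := by positivity
  rw [abs_le]
  constructor <;> linarith [b1.1, b1.2, b2.1, b2.2, b3.1, b3.2, b4.1, b4.2]

lemma nE (x : ℝ) : ‖exp (I * x)‖ = 1 := by rw [mul_comm]; exact norm_exp_ofReal_mul_I x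

lemma phase (θ : ℝ) :
    ‖ph (exp (I * θ)) * exp (I * (-(4 * θ + θ ^ 2) : ℝ)) - 1‖ ≤ 32 * θ ^ 4 := by
  rcases le_or_gt |θ| (1 / 2) with h | h
  · set z := exp (I * θ) with hz
    set u := exp (I * ((θ + θ ^ 2) / 2 : ℝ)) with hu
    have z1 : ‖z‖ = 1 := nE θ
    have u1 : ‖u‖ = 1 := nE _
    have a1 := aa_ge z1.le
    have a0 : aa z ≠ 0 := norm_pos_iff.1 (by linarith)
    have u0 : u ≠ 0 := exp_ne_zero _
    have z0 : z ≠ 0 := exp_ne_zero _
    have zu : z * u = exp (I * ((3 * θ + θ ^ 2) / 2 : ℝ)) := by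
      rw [hz, hu, ← exp_add]; congr 1; push_cast; ring
    have e1 : exp (I * (-(4 * θ + θ ^ 2) : ℝ)) * (z ^ 3 * u ^ 2) = 1 := by
      rw [hz, hu, ← exp_nat_mul, ← exp_nat_mul, ← exp_add, ← exp_add, ← exp_zero]
      congr 1; push_cast; ring
    have cz : conj z = z⁻¹ := (inv_eq_of_mul_eq_one_right (by rw [mul_conj', z1]; simp)).symm
    have cu : conj u = u⁻¹ := (inv_eq_of_mul_eq_one_right (by rw [mul_conj', u1]; simp)).symm
    set H := aa z * u with hH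
    set r : ℝ := 1 - ‖1 - z‖ ^ 4 / 16 with hr
    have e2 : ph z * exp (I * (-(4 * θ + θ ^ 2) : ℝ)) = conj H / H * r := by
      rw [eq_inv_of_mul_eq_one_left e1, ph, circ z1, ← hr, hH, map_mul, cu]
      have : conj (aa z) = NN z * z⁻¹ := by
        simp only [aa, NN, map_sub, map_mul, conj_I, map_one, map_ofNat, cz]
        field_simp
        ring
      rw [this]
      field_simp
    have him : |H.im| ≤ 3 * θ ^ 4 := by
      have : H = (3 - I) * u - (1 - I) * (z * u) := by rw [hH, aa]; ring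
      rw [this, zu, hu, mul_comm I, mul_comm I]
      convert im_le h using 2
      simp only [sub_im, mul_im, sub_re, exp_ofReal_mul_I_re, exp_ofReal_mul_I_im]
      simp
      ring
    have H1 : 1 ≤ ‖H‖ := by rw [hH, norm_mul, u1, mul_one]; exact a1
    have H0 : H ≠ 0 := norm_pos_iff.1 (by linarith)
    have b1 : ‖conj H / H - 1‖ ≤ 6 * θ ^ 4 := by
      have : conj H / H - 1 = -(H - conj H) / H := by field_simp; ring
      rw [this, sub_conj, norm_div, norm_neg, norm_mul, norm_I, mul_one, norm_real, Real.norm_eq_abs,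
        abs_mul, abs_two]
      exact (div_le_self (by positivity) H1).trans (by linarith)
    have b2 : ‖1 - z‖ ^ 4 ≤ θ ^ 4 := by
      have h1 : ‖1 - z‖ ≤ |θ| := by
        rw [norm_sub_rev]; exact Real.norm_exp_I_mul_ofReal_sub_one_le
      have := pow_le_pow_left₀ (norm_nonneg _) h1 4
      rwa [← abs_pow, abs_of_nonneg (by positivity)] at this
    have r1 : 0 ≤ ‖1 - z‖ ^ 4 := by positivity
    have r2 := pow4_le z1.le
    rw [e2, show conj H / H * r - 1 = (conj H / H - 1) * r + ((r - 1 : ℝ) : ℂ) by push_cast; ring]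
    refine (norm_add_le _ _).trans ?_
    rw [norm_mul, norm_real, norm_real, Real.norm_of_nonneg (by linarith),
      Real.norm_of_nonpos (by linarith)]
    have : ‖conj H / H - 1‖ * r ≤ ‖conj H / H - 1‖ :=
      mul_le_of_le_one_right (norm_nonneg _) (by linarith)
    linarith
  · refine (norm_sub_le _ _).trans ?_
    rw [norm_mul, nE, norm_one]
    have h1 := ph_le1 (nE θ).le
    have h2 := pow_le_pow_left₀ (by norm_num) h.le 4
    rw [← abs_pow, abs_of_nonneg (by positivity)] at h2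
    linarith

end Pool.Agent.H28.Daut
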