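import Pool.Agent.H28.Daut1

set_option autoImplicit false

open Complex Metric MeasureTheory
open scoped ComplexConjugate

namespace Pool.Agent.H28.Daut

noncomputable def WW (x : ℝ) : ℝ := Real.exp (-(x - 1) ^ 2)

lemma WW_pos (x : ℝ) : 0 < WW x := Real.exp_pos _

lemma WW_cont : Continuous WW := by unfold WW; fun_prop

lemma int_W (n : ℕ) : Integrable fun x : ℝ => |x| ^ n * WW x := by
  have h := (integrable_rpow_mul_exp_neg_mul_sq (b := 1 / 2) (by norm_num) (s := n)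
    (by linarith [Nat.cast_nonneg (α := ℝ) n])).norm.const_mul (Real.exp 1)
  refine h.mono' ((continuous_abs.pow n).mul WW_cont).aestronglyMeasurable
    (ae_of_all _ fun x => ?_)
  have := WW_pos x
  rw [Real.norm_of_nonneg (by positivity), Real.rpow_natCast, norm_mul, norm_pow, Real.norm_eq_abs,
    Real.norm_of_nonneg (Real.exp_pos _).le, mul_left_comm, ← Real.exp_add]
  refine mul_le_mul_of_nonneg_left (Real.exp_le_exp.2 ?_) (by positivity)
  nlinarith [sq_nonneg (x - 2)]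

lemma int_W5 : Integrable fun x : ℝ => x ^ 5 * WW x :=
  (int_W 5).mono' ((continuous_id.pow 5).mul WW_cont).aestronglyMeasurable
    (ae_of_all _ fun x => by
      rw [norm_mul, norm_pow, Real.norm_eq_abs, Real.norm_of_nonneg (WW_pos x).le])

lemma I5_pos : 0 < ∫ x : ℝ, x ^ 5 * WW x := by
  have h1 : ∫ x : ℝ, (-x) ^ 5 * WW (-x) = ∫ x : ℝ, x ^ 5 * WW x :=
    integral_neg_eq_self (fun x : ℝ => x ^ 5 * WW x) volume
  have h2 : 0 < ∫ x : ℝ, (x ^ 5 * WW x + (-x) ^ 5 * WW (-x)) := by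
    refine integral_pos_of_integrable_nonneg_nonzero (x := 1)
      (((continuous_id.pow 5).mul WW_cont).add
        ((continuous_neg.pow 5).mul (WW_cont.comp continuous_neg)))
      (int_W5.add int_W5.comp_neg) (fun x => ?_) ?_
    · have e : x ^ 5 * WW x + (-x) ^ 5 * WW (-x) = x ^ 4 * (x * (WW x - WW (-x))) := by ring
      simp only [Pi.zero_apply]
      rw [e]
      refine mul_nonneg (by positivity) ?_
      rcases le_total 0 x with h | h
      · exact mul_nonneg h (sub_nonneg.2 (Real.exp_le_exp.2 (by nlinarith)))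
      · exact mul_nonneg_of_nonpos_of_nonpos h (sub_nonpos.2 (Real.exp_le_exp.2 (by nlinarith)))
    · have : WW (-1) < WW 1 := Real.exp_lt_exp.2 (by norm_num)
      intro h
      linarith
  rw [integral_add int_W5 int_W5.comp_neg, h1] at h2
  linarith

lemma gauss {μ : ℝ} (hμ : 0 < μ) (τ : ℝ) :
    ‖∫ x : ℝ, exp (-(1 + I * μ) * x ^ 2 + (2 + I * τ) * x + (-1))‖ ≤ Real.sqrt (Real.pi / μ) := by
  rw [integral_cexp_quadratic (by simp), norm_mul, norm_exp,
    show (1 / 2 : ℂ) = ((1 / 2 : ℝ) : ℂ) by norm_num, norm_cpow_real, Real.sqrt_eq_rpow]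
  have h1 : ‖(Real.pi : ℂ) / - -(1 + I * μ)‖ ≤ Real.pi / μ := by
    rw [neg_neg, norm_div, norm_real, Real.norm_of_nonneg Real.pi_pos.le]
    refine div_le_div_of_nonneg_left Real.pi_pos.le hμ ?_
    simpa using im_le_norm (1 + I * μ)
  have h2 : (-1 - (2 + I * τ) ^ 2 / (4 * -(1 + I * μ))).re ≤ 0 := by
    have e : (-1 - (2 + I * τ) ^ 2 / (4 * -(1 + I * μ))).re = -(τ - 2 * μ) ^ 2 / (4 * (1 + μ ^ 2)) := by
      simp [div_re, normSq_apply, pow_two]
      field_simp
      ring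
    rw [e]
    exact div_nonpos_of_nonpos_of_nonneg (by nlinarith [sq_nonneg (τ - 2 * μ)]) (by positivity)
  calc _ ≤ (Real.pi / μ) ^ (1 / 2 : ℝ) * 1 :=
        mul_le_mul (Real.rpow_le_rpow (norm_nonneg _) h1 (by norm_num)) (Real.exp_le_one_iff.2 h2)
          (Real.exp_pos _).le (by positivity)
    _ = _ := mul_one _

/-- the test function -/
noncomputable def GG (m : ℕ) (d x : ℝ) : ℂ :=
  exp (I * (-(4 * (d * x) + (d * x) ^ 2) : ℝ)) ^ m * (WW x : ℝ)

lemma GG_eq (m k : ℕ) (d x : ℝ) : exp (I * (d * x : ℝ)) ^ k * GG m d x =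
    exp (-(1 + I * (m * d ^ 2 : ℝ)) * x ^ 2 + (2 + I * ((k - 4 * m) * d : ℝ)) * x + (-1)) := by
  rw [GG, WW, ofReal_exp, ← exp_nat_mul, ← exp_nat_mul, ← exp_add, ← exp_add]
  congr 1; push_cast; ring

lemma upper {m : ℕ} (hm : 0 < m) {d : ℝ} (hd : 0 < d) (hs : Summable fun k => ‖hh k m‖) :
    ‖∫ x : ℝ, aa (exp (I * (d * x : ℝ))) * ff m (exp (I * (d * x : ℝ))) * GG m d x‖ ≤
      (∑' k, ‖hh k m‖) * (6 * Real.sqrt (Real.pi / (m * d ^ 2))) := by
  have μ0 : (0 : ℝ) < m * d ^ 2 := by positivity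
  set E : ℝ → ℂ := fun x => exp (I * (d * x : ℝ)) with hE
  have iG : ∀ k : ℕ, Integrable fun x => E x ^ k * GG m d x := fun k => by
    simp only [hE, GG_eq]
    exact integrable_cexp_quadratic' (by simp [-ofReal_mul, -ofReal_pow]) _ _
  have nG : ∀ k : ℕ, ‖∫ x, E x ^ k * GG m d x‖ ≤ Real.sqrt (Real.pi / (m * d ^ 2)) := fun k => by
    simp only [hE, GG_eq]
    exact gauss μ0 _
  set ψ : ℕ → ℝ → ℂ := fun k x => (3 - I) * (E x ^ k * GG m d x) -
    (1 - I) * (E x ^ (k + 1) * GG m d x) with hψ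
  have iψ : ∀ k, Integrable (ψ k) := fun k => ((iG k).const_mul _).sub ((iG (k + 1)).const_mul _)
  have eψ : ∀ k x, ψ k x = E x ^ k * (aa (E x) * GG m d x) := fun k x => by
    simp only [hψ, aa]; ring
  have nψ : ∀ k, ‖∫ x, ψ k x‖ ≤ 6 * Real.sqrt (Real.pi / (m * d ^ 2)) := fun k => by
    simp only [hψ]
    rw [integral_sub ((iG k).const_mul _) ((iG (k + 1)).const_mul _), integral_const_mul,
      integral_const_mul]
    refine (norm_sub_le _ _).trans ?_
    rw [norm_mul, norm_mul]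
    have n3 : ‖(3 : ℂ) - I‖ ≤ 4 := (norm_sub_le _ _).trans (by norm_num)
    have a1 := mul_le_mul n3 (nG k) (norm_nonneg _) (by norm_num)
    have a2 := mul_le_mul n1 (nG (k + 1)) (norm_nonneg _) (by norm_num)
    linarith
  have h := hasSum_integral_of_summable_integral_norm (F := fun k x => hh k m * ψ k x)
    (μ := volume) (fun k => (iψ k).const_mul _) (by
      refine (hs.mul_right (∫ x, ‖aa (E x) * GG m d x‖)).congr fun k => ?_
      rw [← integral_const_mul]
      refine integral_congr_ae (ae_of_all _ fun x => ?_)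
      simp only [eψ, norm_mul, norm_pow, hE, nE, one_pow, one_mul])
  have e : ∀ x, ∑' k, hh k m * ψ k x = aa (E x) * ff m (E x) * GG m d x := fun x => by
    have := ((hh_sum m (z := E x) (nE _).le).mul_right (aa (E x) * GG m d x)).tsum_eq
    simp only [eψ, ← mul_assoc] at this ⊢
    rw [this]; ring
  simp only [e] at h
  refine h.norm_le_of_bounded (hs.hasSum.mul_right _) fun k => ?_
  rw [integral_const_mul, norm_mul]
  exact mul_le_mul_of_nonneg_left (nψ k) (norm_nonneg _)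

lemma pow_sub_one (g : ℂ) (hg : ‖g‖ ≤ 1) (m : ℕ) : ‖g ^ m - 1‖ ≤ m * ‖g - 1‖ := by
  induction m with
  | zero => simp
  | succ m ih =>
    rw [show g ^ (m + 1) - 1 = g * (g ^ m - 1) + (g - 1) by ring]
    refine (norm_add_le _ _).trans ?_
    rw [norm_mul]
    push_cast
    nlinarith [norm_nonneg g, norm_nonneg (g ^ m - 1)]

lemma five (θ : ℝ) : ‖(1 - exp (I * θ)) ^ 5 - (-I * θ) ^ 5‖ ≤ 10 * |θ| ^ 6 := by
  set u := 1 - exp (I * θ) with hu
  set v := -I * θ with hv
  have a0 := abs_nonneg θ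
  have u1 : ‖u‖ ≤ |θ| := by rw [hu, norm_sub_rev]; exact Real.norm_exp_I_mul_ofReal_sub_one_le
  have v1 : ‖v‖ = |θ| := by simp [hv]
  have uv : ‖u - v‖ ≤ 2 * |θ| ^ 2 := by
    rcases le_or_gt |θ| 1 with h | h
    · have := norm_exp_sub_one_sub_id_le (x := I * θ) (by simpa using h)
      rw [show u - v = -(exp (I * θ) - 1 - I * θ) by rw [hu, hv]; ring, norm_neg]
      have e : ‖I * θ‖ = |θ| := by simp
      rw [e] at this
      nlinarith
    · have := norm_sub_le u v
      nlinarith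
  have hs : ‖u ^ 4 + u ^ 3 * v + u ^ 2 * v ^ 2 + u * v ^ 3 + v ^ 4‖ ≤ 5 * |θ| ^ 4 := by
    have p : ∀ i j : ℕ, ‖u ^ i * v ^ j‖ ≤ |θ| ^ (i + j) := fun i j => by
      rw [norm_mul, norm_pow, norm_pow, v1, pow_add]
      gcongr
    have p1 := p 4 0
    have p2 := p 3 1
    have p3 := p 2 2
    have p4 := p 1 3
    have p5 := p 0 4
    simp only [pow_zero, pow_one, mul_one, one_mul, Nat.reduceAdd] at p1 p2 p3 p4 p5
    refine norm_add_le_of_le (norm_add_le_of_le (norm_add_le_of_le (norm_add_le_of_le p1 p2) p3) p4)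
      p5 |>.trans (le_of_eq (by ring))
  rw [show u ^ 5 - v ^ 5 = (u - v) * (u ^ 4 + u ^ 3 * v + u ^ 2 * v ^ 2 + u * v ^ 3 + v ^ 4) by ring,
    norm_mul]
  exact (mul_le_mul uv hs (norm_nonneg _) (by positivity)).trans (le_of_eq (by ring))

lemma lower (m : ℕ) {d : ℝ} (hd : 0 < d) :
    d ^ 5 * (∫ x : ℝ, x ^ 5 * WW x) - (10 * d ^ 6 * (∫ x : ℝ, |x| ^ 6 * WW x) +
      32 * m * d ^ 9 * ∫ x : ℝ, |x| ^ 9 * WW x) ≤
    ‖∫ x : ℝ, aa (exp (I * (d * x : ℝ))) * ff m (exp (I * (d * x : ℝ))) * GG m d x‖ := by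
  set F : ℝ → ℂ := fun x => aa (exp (I * (d * x : ℝ))) * ff m (exp (I * (d * x : ℝ))) * GG m d x
    with hF
  set F0 : ℝ → ℂ := fun x => (-I * d) ^ 5 * ((x ^ 5 * WW x : ℝ) : ℂ) with hF0
  have b : ∀ x, ‖F x - F0 x‖ ≤ 10 * d ^ 6 * (|x| ^ 6 * WW x) + 32 * m * d ^ 9 * (|x| ^ 9 * WW x) := by
    intro x
    set θ := d * x with hθ
    set z := exp (I * θ) with hz
    set g := ph z * exp (I * (-(4 * θ + θ ^ 2) : ℝ)) with hg
    have z1 : ‖z‖ = 1 := nE θ
    have a0 : aa z ≠ 0 := aa_ne (by rw [z1]; norm_num)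
    have g1 : ‖g‖ ≤ 1 := by rw [hg, norm_mul, nE, mul_one]; exact ph_le1 z1.le
    have e : F x - F0 x = (((1 - z) ^ 5 - (-I * θ) ^ 5) * g ^ m + (-I * θ) ^ 5 * (g ^ m - 1)) *
        (WW x : ℝ) := by
      simp only [hF, hF0, ff, GG, ← hθ, ← hz, hg, mul_pow]
      rw [hθ]
      push_cast
      field_simp
      ring
    have W0 := WW_pos x
    have t1 : |θ| = d * |x| := by rw [hθ, abs_mul, abs_of_pos hd]
    have e4 : θ ^ 4 = |θ| ^ 4 := by rw [← abs_pow]; exact (abs_of_nonneg (by positivity)).symm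
    have c1 : ‖((1 - z) ^ 5 - (-I * θ) ^ 5) * g ^ m‖ ≤ 10 * |θ| ^ 6 := by
      rw [norm_mul, norm_pow g]
      exact (mul_le_of_le_one_right (norm_nonneg _) (pow_le_one₀ (norm_nonneg _) g1)).trans (five θ)
    have c2 : ‖(-I * θ) ^ 5 * (g ^ m - 1)‖ ≤ |θ| ^ 5 * (m * (32 * |θ| ^ 4)) := by
      rw [norm_mul, norm_pow, show ‖-I * θ‖ = |θ| by simp, ← e4]
      exact mul_le_mul_of_nonneg_left ((pow_sub_one g g1 m).trans
        (mul_le_mul_of_nonneg_left (phase θ) (by positivity))) (by positivity)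
    rw [e, norm_mul, norm_real, Real.norm_of_nonneg W0.le]
    refine (mul_le_mul_of_nonneg_right (norm_add_le_of_le c1 c2) W0.le).trans (le_of_eq ?_)
    rw [t1]; ring
  have ib := ((int_W 6).const_mul (10 * d ^ 6)).add ((int_W 9).const_mul (32 * m * d ^ 9))
  have i0 : Integrable F0 := int_W5.ofReal.const_mul _
  have cF : Continuous F := by
    have cE : Continuous fun x : ℝ => exp (I * (d * x : ℝ)) := by fun_prop
    have c1 : Continuous fun x : ℝ => ff m (exp (I * (d * x : ℝ))) :=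
      (ff_diff m).continuousOn.comp_continuous cE fun x => by
        rw [mem_ball_zero_iff, nE]; norm_num
    have c2 : Continuous aa := by unfold aa; fun_prop
    have c3 : Continuous (GG m d) := by
      have := WW_cont
      unfold GG; fun_prop
    exact ((c2.comp cE).mul c1).mul c3
  have i1 : Integrable fun x => F x - F0 x :=
    ib.mono' (cF.aestronglyMeasurable.sub i0.1) (ae_of_all _ b)
  have h1 := norm_integral_le_of_norm_le ib (ae_of_all _ b)
  simp only [Pi.add_apply] at h1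
  rw [integral_add ((int_W 6).const_mul _) ((int_W 9).const_mul _), integral_const_mul,
    integral_const_mul] at h1
  have h2 : ‖∫ x, F0 x‖ = d ^ 5 * ∫ x : ℝ, x ^ 5 * WW x := by
    simp only [hF0]
    rw [integral_const_mul, integral_complex_ofReal, norm_mul, norm_pow, norm_real,
      Real.norm_of_nonneg I5_pos.le]
    simp [abs_of_pos hd]
  have h3 : ∫ x, F0 x = (∫ x, F x) - ∫ x, (F x - F0 x) := by
    have iF : Integrable F := (i1.add i0).congr (ae_of_all _ fun x => by simp)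
    rw [integral_sub iF i0]; ring
  have h4 := norm_sub_le (∫ x, F x) (∫ x, (F x - F0 x))
  rw [← h3, h2] at h4
  linarith

theorem not_summable : ¬ Summable fun p : ℕ × ℕ => ‖hh p.1 p.2‖ := by
  intro hs
  have s1 := hs.prod_symm
  have s2 := s1.prod
  set A := ∫ x : ℝ, x ^ 5 * WW x with hA
  set B := ∫ x : ℝ, |x| ^ 6 * WW x with hB
  set C := ∫ x : ℝ, |x| ^ 9 * WW x with hC
  have A0 : 0 < A := I5_pos
  have B0 : 0 ≤ B := integral_nonneg fun x => by have := WW_pos x; positivity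
  have C0 : 0 ≤ C := integral_nonneg fun x => by have := WW_pos x; positivity
  set η := min 1 (A / (2 * (10 * B + 32 * C + 1))) with hη
  have η0 : 0 < η := lt_min one_pos (by positivity)
  have η1 : η ≤ 1 := min_le_left _ _
  have η2 : η * (2 * (10 * B + 32 * C + 1)) ≤ A := by
    rw [← le_div_iff₀ (by positivity)]; exact min_le_right _ _
  have π0 : 0 < Real.sqrt Real.pi := Real.sqrt_pos.2 Real.pi_pos
  set κ := η ^ 6 * A / (12 * Real.sqrt Real.pi) with hκ
  have κ0 : 0 < κ := by positivity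
  refine Real.not_summable_natCast_inv ((summable_mul_left_iff κ0.ne').1
    (Summable.of_nonneg_of_le (fun m => by positivity) (fun m => ?_) s2))
  have S0 : 0 ≤ ∑' k, ‖hh k m‖ := tsum_nonneg fun _ => norm_nonneg _
  rcases Nat.eq_zero_or_pos m with rfl | hm
  · simpa using S0
  set t := Real.sqrt (Real.sqrt m) with ht
  have m1 : (1 : ℝ) ≤ m := by exact_mod_cast hm
  have t1 : 1 ≤ t := Real.one_le_sqrt.2 (Real.one_le_sqrt.2 m1)
  have t0 : 0 < t := by linarith
  have t4 : (m : ℝ) = t ^ 4 := by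
    rw [show t ^ 4 = (t ^ 2) ^ 2 by ring, ht, Real.sq_sqrt (Real.sqrt_nonneg _),
      Real.sq_sqrt (by linarith)]
  have d0 : 0 < η / t := by positivity
  have h := (lower m d0).trans (upper hm d0 (s1.prod_factor m))
  rw [← hA, ← hB, ← hC] at h
  change κ * (m : ℝ)⁻¹ ≤ ∑' k, ‖hh k m‖
  set S := ∑' k, ‖hh k m‖
  have e1 : Real.sqrt (Real.pi / (m * (η / t) ^ 2)) = Real.sqrt Real.pi / (η * t) := by
    rw [show (m : ℝ) * (η / t) ^ 2 = (η * t) ^ 2 by rw [t4]; field_simp,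
      Real.sqrt_div Real.pi_pos.le, Real.sqrt_sq (by positivity)]
  rw [e1] at h
  have d1 : η / t ≤ η := div_le_self η0.le t1
  have η4 : η ^ 4 ≤ η := pow_le_of_le_one η0.le η1 (by norm_num)
  have e2 : (η / t) ^ 5 * A - (10 * (η / t) ^ 6 * B + 32 * m * (η / t) ^ 9 * C) =
      (η / t) ^ 5 * (A - (10 * (η / t) * B + 32 * η ^ 4 * C)) := by
    rw [t4]; field_simp
  have h2 : A / 2 ≤ A - (10 * (η / t) * B + 32 * η ^ 4 * C) := by
    nlinarith [mul_le_mul_of_nonneg_right d1 B0, mul_le_mul_of_nonneg_right η4 C0]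
  rw [e2] at h
  have h3 : (η / t) ^ 5 * (A / 2) ≤ S * (6 * (Real.sqrt Real.pi / (η * t))) :=
    (mul_le_mul_of_nonneg_left h2 (pow_pos d0 5).le).trans h
  have e3 : κ * (m : ℝ)⁻¹ = (η / t) ^ 5 * (A / 2) / (6 * (Real.sqrt Real.pi / (η * t))) := by
    rw [hκ, t4]; field_simp; ring
  rw [e3, div_le_iff₀ (mul_pos (by norm_num) (div_pos π0 (mul_pos η0 t0)))]
  exact h3

end Pool.Agent.H28.Daut
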