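import Mathlib

set_option autoImplicit false

open Matrix

namespace Pool.Agent.H28.DimCount

section Smooth
variable {E : Type} [NormedAddCommGroup E] [NormedSpace ℝ E]

/-- Entrywise continuously differentiable matrix valued maps. -/
def Sm {ι κ : Type} (f : E → Matrix ι κ ℂ) : Prop := ∀ i j, ContDiff ℝ 1 (fun x => f x i j)

theorem Sm.const {ι κ : Type} (A : Matrix ι κ ℂ) : Sm (fun _ : E => A) :=
  fun _ _ => contDiff_const

theorem Sm.add {ι κ : Type} {f g : E → Matrix ι κ ℂ} (hf : Sm f) (hg : Sm g) :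
    Sm (fun x => f x + g x) := fun i j => (hf i j).add (hg i j)

theorem Sm.sub {ι κ : Type} {f g : E → Matrix ι κ ℂ} (hf : Sm f) (hg : Sm g) :
    Sm (fun x => f x - g x) := fun i j => (hf i j).sub (hg i j)

theorem Sm.mul {ι κ μ : Type} [Fintype κ] {f : E → Matrix ι κ ℂ} {g : E → Matrix κ μ ℂ}
    (hf : Sm f) (hg : Sm g) : Sm (fun x => f x * g x) := by
  intro i j
  simp only [Matrix.mul_apply]
  exact ContDiff.sum (fun k _ => (hf i k).mul (hg k j))

theorem Sm.smul {ι κ : Type} {c : E → ℂ} {g : E → Matrix ι κ ℂ}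
    (hc : ContDiff ℝ 1 c) (hg : Sm g) : Sm (fun x => c x • g x) := by
  intro i j
  simp only [Matrix.smul_apply, smul_eq_mul]
  exact hc.mul (hg i j)

theorem contDiff_star {c : E → ℂ} (hc : ContDiff ℝ 1 c) : ContDiff ℝ 1 (fun x => star (c x)) :=
  Complex.conjCLE.contDiff.comp hc

theorem Sm.ct {ι κ : Type} {g : E → Matrix ι κ ℂ} (hg : Sm g) : Sm (fun x => (g x)ᴴ) := by
  intro i j
  simp only [Matrix.conjTranspose_apply]
  exact contDiff_star (hg j i)

theorem Sm.sum {ι κ μ : Type} (s : Finset μ) {g : μ → E → Matrix ι κ ℂ} (hg : ∀ k, Sm (g k)) :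
    Sm (fun x => ∑ k ∈ s, g k x) := by
  intro i j
  simp only [Matrix.sum_apply]
  exact ContDiff.sum (fun k _ => hg k i j)

theorem Sm.det {ι : Type} [Fintype ι] [DecidableEq ι] {g : E → Matrix ι ι ℂ} (hg : Sm g) :
    ContDiff ℝ 1 (fun x => (g x).det) := by
  simp only [Matrix.det_apply']
  exact ContDiff.sum (fun σ _ => contDiff_const.mul (contDiff_prod (fun i _ => hg _ _)))

theorem Sm.adj {ι : Type} [Fintype ι] [DecidableEq ι] {g : E → Matrix ι ι ℂ} (hg : Sm g) :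
    Sm (fun x => (g x).adjugate) := by
  intro i j
  simp only [Matrix.adjugate_apply]
  apply Sm.det
  intro a b
  simp only [Matrix.updateRow_apply]
  split_ifs
  · exact contDiff_const
  · exact hg a b

theorem Sm.trace {ι : Type} [Fintype ι] {g : E → Matrix ι ι ℂ} (hg : Sm g) :
    ContDiff ℝ 1 (fun x => (g x).trace) := by
  simp only [Matrix.trace, Matrix.diag_apply]
  exact ContDiff.sum (fun k _ => hg k k)

theorem Sm.comp {F : Type} [NormedAddCommGroup F] [NormedSpace ℝ F] {ι κ : Type}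
    {g : E → Matrix ι κ ℂ} (hg : Sm g) {h : F → E} (hh : ContDiff ℝ 1 h) :
    Sm (fun x => g (h x)) := fun i j => (hg i j).comp hh

end Smooth

/-- The product of `R - c` over a list of scalars `c`. -/
noncomputable def pp {ι : Type} [Fintype ι] [DecidableEq ι] (L : List ℂ) (R : Matrix ι ι ℂ) :
    Matrix ι ι ℂ := (L.map (fun c => R - c • (1 : Matrix ι ι ℂ))).prod

/-- A trace invariant of a pair of matrices. -/
noncomputable def tinv {ι : Type} [Fintype ι] [DecidableEq ι] (L1 L2 : List ℂ)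
    (A B : Matrix ι ι ℂ) : ℂ :=
  (pp L1 (A + B) * (A - B) * pp L2 (A + B) * (A - B)).trace

theorem Sm.pp {E : Type} [NormedAddCommGroup E] [NormedSpace ℝ E] {ι : Type} [Fintype ι]
    [DecidableEq ι] (L : List ℂ) {g : E → Matrix ι ι ℂ} (hg : Sm g) :
    Sm (fun x => pp L (g x)) := by
  induction L with
  | nil => simpa [DimCount.pp] using Sm.const (E := E) (1 : Matrix ι ι ℂ)
  | cons c L ih =>
    have : (fun x => DimCount.pp (c :: L) (g x))
        = fun x => (g x - c • (1 : Matrix ι ι ℂ)) * DimCount.pp L (g x) := by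
      funext x; simp [DimCount.pp]
    rw [this]
    exact (hg.sub (Sm.const _)).mul ih

theorem contDiff_tinv {E : Type} [NormedAddCommGroup E] [NormedSpace ℝ E] {ι : Type} [Fintype ι]
    [DecidableEq ι] (L1 L2 : List ℂ) {f g : E → Matrix ι ι ℂ} (hf : Sm f) (hg : Sm g) :
    ContDiff ℝ 1 (fun x => tinv L1 L2 (f x) (g x)) :=
  (((((hf.add hg).pp L1).mul (hf.sub hg)).mul ((hf.add hg).pp L2)).mul (hf.sub hg)).trace

theorem pp_conj {ι κ : Type} [Fintype ι] [DecidableEq ι] [Fintype κ] [DecidableEq κ]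
    (L : List ℂ) (S' : Matrix ι κ ℂ) (S : Matrix κ ι ℂ) (h1 : S' * S = 1) (h2 : S * S' = 1)
    (R : Matrix κ κ ℂ) : pp L (S' * R * S) = S' * pp L R * S := by
  induction L with
  | nil => simp [pp, h1]
  | cons c L ih =>
    have e1 : pp (c :: L) (S' * R * S) = (S' * R * S - c • (1 : Matrix ι ι ℂ)) * pp L (S' * R * S) := by
      simp [pp]
    have e2 : pp (c :: L) R = (R - c • (1 : Matrix κ κ ℂ)) * pp L R := by simp [pp]
    have e3 : S' * R * S - c • (1 : Matrix ι ι ℂ) = S' * (R - c • (1 : Matrix κ κ ℂ)) * S := by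
      rw [Matrix.mul_sub, Matrix.sub_mul, Matrix.mul_smul, Matrix.smul_mul, Matrix.mul_one, h1]
    rw [e1, e2, ih, e3]
    calc S' * (R - c • (1 : Matrix κ κ ℂ)) * S * (S' * pp L R * S)
        = S' * (R - c • (1 : Matrix κ κ ℂ)) * (S * S') * pp L R * S := by
          simp only [Matrix.mul_assoc]
      _ = _ := by rw [h2]; simp only [Matrix.mul_assoc, Matrix.one_mul]

theorem tinv_conj {ι κ : Type} [Fintype ι] [DecidableEq ι] [Fintype κ] [DecidableEq κ]
    (L1 L2 : List ℂ) (S' : Matrix ι κ ℂ) (S : Matrix κ ι ℂ) (h1 : S' * S = 1) (h2 : S * S' = 1)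
    (A B : Matrix κ κ ℂ) : tinv L1 L2 (S' * A * S) (S' * B * S) = tinv L1 L2 A B := by
  unfold tinv
  have ea : S' * A * S + S' * B * S = S' * (A + B) * S := by
    rw [Matrix.mul_add, Matrix.add_mul]
  have eb : S' * A * S - S' * B * S = S' * (A - B) * S := by
    rw [Matrix.mul_sub, Matrix.sub_mul]
  rw [ea, eb, pp_conj L1 S' S h1 h2, pp_conj L2 S' S h1 h2]
  have : S' * pp L1 (A + B) * S * (S' * (A - B) * S) * (S' * pp L2 (A + B) * S) * (S' * (A - B) * S)
      = S' * (pp L1 (A + B) * (S * S') * (A - B) * (S * S') * pp L2 (A + B) * (S * S') * (A - B)) * S := by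
    simp only [Matrix.mul_assoc]
  rw [this, Matrix.trace_mul_comm, ← Matrix.mul_assoc, h2]
  simp

theorem pp_diagonal {ι : Type} [Fintype ι] [DecidableEq ι] (L : List ℂ) (d : ι → ℂ) :
    pp L (diagonal d) = diagonal (fun a => (L.map (fun c => d a - c)).prod) := by
  induction L with
  | nil => simp [pp]
  | cons c L ih =>
    have e1 : pp (c :: L) (diagonal d) = (diagonal d - c • (1 : Matrix ι ι ℂ)) * pp L (diagonal d) := by
      simp [pp]
    have e2 : diagonal d - c • (1 : Matrix ι ι ℂ) = diagonal (fun a => d a - c) := by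
      ext a b
      by_cases h : a = b
      · subst h; simp
      · simp [h]
    rw [e1, ih, e2, diagonal_mul_diagonal]
    simp

theorem dim_obstruction {α : Type} [Countable α] {κ : Type} [Fintype κ] [DecidableEq κ]
    (ι : α → Type) [∀ a, Fintype (ι a)] [∀ a, DecidableEq (ι a)]
    (hcard : ∀ a, Fintype.card (ι a) = Fintype.card κ)
    (τ : α → Type) [∀ a, Fintype (τ a)]
    (G Φ : ∀ a, (τ a → ℂ) → Matrix (ι a) (ι a) ℂ) (hG : ∀ a, Sm (G a)) (hΦ : ∀ a, Sm (Φ a))
    {β : Type} [Fintype β] (L1 L2 : β → List ℂ)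
    (hdim : ∀ a, 2 * Fintype.card (τ a) + 2 < Fintype.card β)
    (w : β → ℝ) (hw : ∀ b, w b ≠ 0)
    (U : Set (β → ℝ)) (y0 : β → ℝ) (hU : U ∈ nhds y0)
    (N : (β → ℝ) → Matrix κ κ ℂ)
    (hN : ∀ y ∈ U, ∀ b, (tinv (L1 b) (L2 b) (N y) (N y)ᴴ).re = w b * y b)
    (h : ∀ y ∈ U, ∃ (a : α) (x : τ a → ℂ) (S : Matrix κ (ι a) ℂ),
      (G a x).det ≠ 0 ∧ Sᴴ * S = G a x ∧ Sᴴ * N y * S = Φ a x) : False := by
  classical
  let F : ∀ a, ((τ a → ℂ) × ℂ) → (β → ℝ) := fun a z b =>
    (w b)⁻¹ * (tinv (L1 b) (L2 b) (z.2 • (G a z.1).adjugate * Φ a z.1)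
      (z.2 • (G a z.1).adjugate * (Φ a z.1)ᴴ)).re
  have hF : ∀ a, ContDiff ℝ 1 (F a) := by
    intro a
    refine contDiff_pi.2 (fun b => contDiff_const.mul ?_)
    have h1 : Sm (fun z : (τ a → ℂ) × ℂ => z.2 • (G a z.1).adjugate) :=
      Sm.smul contDiff_snd ((hG a).adj.comp contDiff_fst)
    have h2 : Sm (fun z : (τ a → ℂ) × ℂ => Φ a z.1) := (hΦ a).comp contDiff_fst
    exact Complex.reCLM.contDiff.comp (contDiff_tinv (L1 b) (L2 b) (h1.mul h2) (h1.mul h2.ct))
  have hsub : U ⊆ ⋃ a, Set.range (F a) := by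
    intro y hy
    obtain ⟨a, x, S, hdet, hS, hΦ'⟩ := h y hy
    refine Set.mem_iUnion.2 ⟨a, ⟨(x, (G a x).det⁻¹), ?_⟩⟩
    funext b
    have hinv : (G a x).det⁻¹ • (G a x).adjugate * G a x = 1 := by
      rw [Matrix.smul_mul, Matrix.adjugate_mul, smul_smul, inv_mul_cancel₀ hdet, one_smul]
    set Gi := (G a x).det⁻¹ • (G a x).adjugate with hGi
    have h1 : (Gi * Sᴴ) * S = 1 := by rw [Matrix.mul_assoc, hS, hinv]
    have h2 : S * (Gi * Sᴴ) = 1 := (Matrix.mul_eq_one_comm_of_card_eq _ _ _ (hcard a)).1 h1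
    have e1 : Gi * Φ a x = (Gi * Sᴴ) * N y * S := by
      rw [← hΦ']; simp only [Matrix.mul_assoc]
    have e2 : Gi * (Φ a x)ᴴ = (Gi * Sᴴ) * (N y)ᴴ * S := by
      rw [← hΦ']; simp only [Matrix.mul_assoc, Matrix.conjTranspose_mul, Matrix.conjTranspose_conjTranspose]
    show (w b)⁻¹ * (tinv (L1 b) (L2 b) (Gi * Φ a x) (Gi * (Φ a x)ᴴ)).re = y b
    rw [e1, e2, tinv_conj _ _ _ _ h1 h2, hN y hy b, ← mul_assoc, inv_mul_cancel₀ (hw b), one_mul]
  have hd1 : dimH U = (Fintype.card β : ENNReal) := by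
    rw [Real.dimH_of_mem_nhds hU]; simp
  have hd2 : dimH (⋃ a, Set.range (F a)) ≤ ((Fintype.card β - 1 : ℕ) : ENNReal) := by
    rw [dimH_iUnion]
    refine iSup_le (fun a => (hF a).dimH_range_le.trans ?_)
    have : Module.finrank ℝ ((τ a → ℂ) × ℂ) = 2 * Fintype.card (τ a) + 2 := by
      rw [Module.finrank_prod, Module.finrank_pi_fintype]
      simp [Complex.finrank_real_complex, mul_comm]
    rw [this]
    have := hdim a
    exact_mod_cast (by omega : 2 * Fintype.card (τ a) + 2 ≤ Fintype.card β - 1)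
  have h3 := (dimH_mono hsub).trans hd2
  rw [hd1] at h3
  obtain ⟨a, -⟩ := h y0 (mem_of_mem_nhds hU)
  have := hdim a
  have h4 : Fintype.card β ≤ Fintype.card β - 1 := by exact_mod_cast h3
  omega

/-! The test family. -/

/-- real symmetric part of the family -/
noncomputable def HH (m : ℕ) [NeZero m] (y : Fin m × Fin m → ℝ) (a b : Fin (m + m)) : ℝ :=
  √(y (Fin.ofNat m (min (a : ℕ) b), Fin.ofNat m (max (a : ℕ) b)))

theorem HH_symm (m : ℕ) [NeZero m] (y : Fin m × Fin m → ℝ) (a b : Fin (m + m)) :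
    HH m y a b = HH m y b a := by
  simp only [HH, min_comm (a : ℕ), max_comm (a : ℕ)]

theorem HH_apply (m : ℕ) [NeZero m] (y : Fin m × Fin m → ℝ) (i j : Fin m) :
    HH m y (Fin.castAdd m i) (Fin.natAdd m j) = √(y (i, j)) := by
  have hi := i.2
  have h1 : min ((Fin.castAdd m i : Fin (m + m)) : ℕ) (Fin.natAdd m j : Fin (m + m)) = i := by
    simp; omega
  have h2 : max ((Fin.castAdd m i : Fin (m + m)) : ℕ) (Fin.natAdd m j : Fin (m + m)) = m + j := by
    simp; omega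
  unfold HH
  rw [h1, h2]
  congr 3
  · ext; simp [Fin.ofNat, Nat.mod_eq_of_lt hi]
  · ext; simp [Fin.ofNat, Nat.mod_eq_of_lt j.2]

/-- The family `D + i H`. -/
noncomputable def AA (m : ℕ) [NeZero m] (y : Fin m × Fin m → ℝ) :
    Matrix (Fin (m + m)) (Fin (m + m)) ℂ :=
  diagonal (fun a : Fin (m + m) => ((a : ℕ) : ℂ)) + Matrix.of (fun a b => Complex.I * (HH m y a b : ℂ))

theorem AA_transpose (m : ℕ) [NeZero m] (y : Fin m × Fin m → ℝ) : (AA m y)ᵀ = AA m y := by
  ext a b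
  simp only [AA, transpose_apply, Matrix.add_apply, of_apply, HH_symm m y b a]
  by_cases h : a = b
  · subst h; rfl
  · simp [h, Ne.symm h]

theorem AA_add (m : ℕ) [NeZero m] (y : Fin m × Fin m → ℝ) :
    AA m y + (AA m y)ᴴ = diagonal (fun a : Fin (m + m) => 2 * ((a : ℕ) : ℂ)) := by
  ext a b
  simp only [AA, conjTranspose_apply, Matrix.add_apply, of_apply, HH_symm m y b a]
  by_cases h : a = b
  · subst h; simp; ring
  · simp [h, Ne.symm h]

theorem AA_sub (m : ℕ) [NeZero m] (y : Fin m × Fin m → ℝ) :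
    AA m y - (AA m y)ᴴ = Matrix.of (fun a b => 2 * Complex.I * (HH m y a b : ℂ)) := by
  ext a b
  simp only [AA, conjTranspose_apply, Matrix.add_apply, Matrix.sub_apply, of_apply, HH_symm m y b a]
  by_cases h : a = b
  · subst h; simp; ring
  · simp [h, Ne.symm h]; ring

/-- the list of nodes other than `i` -/
noncomputable def LL {n : ℕ} (i : Fin n) : List ℂ :=
  (Finset.univ.erase i).toList.map (fun l : Fin n => 2 * ((l : ℕ) : ℂ))

/-- normalising constants -/
noncomputable def cc {n : ℕ} (i : Fin n) : ℝ :=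
  ∏ l ∈ Finset.univ.erase i, (2 * ((i : ℕ) : ℝ) - 2 * ((l : ℕ) : ℝ))

theorem cc_ne {n : ℕ} (i : Fin n) : cc i ≠ 0 := by
  unfold cc
  refine Finset.prod_ne_zero_iff.2 (fun l hl h => ?_)
  have h1 : ((i : ℕ) : ℝ) = ((l : ℕ) : ℝ) := by linarith
  have h2 : (i : ℕ) = l := by exact_mod_cast h1
  exact (Finset.mem_erase.1 hl).1 (Fin.ext h2.symm)

theorem LL_prod {n : ℕ} (i a : Fin n) :
    ((LL i).map (fun c => 2 * ((a : ℕ) : ℂ) - c)).prod = if a = i then (cc i : ℂ) else 0 := by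
  have : ((LL i).map (fun c => 2 * ((a : ℕ) : ℂ) - c)).prod
      = ∏ l ∈ Finset.univ.erase i, (2 * ((a : ℕ) : ℂ) - 2 * ((l : ℕ) : ℂ)) := by
    unfold LL
    rw [List.map_map, Finset.prod_map_toList]
    rfl
  rw [this]
  split_ifs with h
  · subst h; simp [cc]
  · exact Finset.prod_eq_zero (i := a) (by simp [h]) (by ring)

theorem tinv_AA (m : ℕ) [NeZero m] (y : Fin m × Fin m → ℝ) (hy : ∀ b, 0 ≤ y b) (i j : Fin m) :
    tinv (LL (Fin.castAdd m i)) (LL (Fin.natAdd m j)) (AA m y) (AA m y)ᴴ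
      = ((-4 * cc (Fin.castAdd m i) * cc (Fin.natAdd m j) * y (i, j) : ℝ) : ℂ) := by
  unfold tinv
  rw [AA_add, AA_sub, pp_diagonal, pp_diagonal]
  simp only [LL_prod]
  simp only [Matrix.trace, Matrix.diag_apply]
  rw [Finset.sum_eq_single (Fin.castAdd m i)]
  · rw [Matrix.mul_apply, Finset.sum_eq_single (Fin.natAdd m j)]
    · rw [mul_diagonal, diagonal_mul]
      simp only [of_apply, if_true, HH_symm m y (Fin.natAdd m j), HH_apply]
      have : ((√(y (i, j)) : ℝ) : ℂ) * ((√(y (i, j)) : ℝ) : ℂ) = (y (i, j) : ℂ) := by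
        rw [← Complex.ofReal_mul, Real.mul_self_sqrt (hy _)]
      push_cast
      linear_combination (4 * (cc (Fin.castAdd m i) : ℂ) * cc (Fin.natAdd m j) * Complex.I ^ 2) * this
        + (4 * (cc (Fin.castAdd m i) : ℂ) * cc (Fin.natAdd m j) * y (i, j)) * Complex.I_sq
    · intro b _ hb
      rw [mul_diagonal, if_neg hb]; simp
    · simp
  · intro a _ ha
    rw [Matrix.mul_assoc, Matrix.mul_assoc, diagonal_mul, if_neg ha]; simp
  · simp

end Pool.Agent.H28.DimCount
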