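import Pool.Agent.H28.L2Ops

open Filter Topology

namespace Pool.Agent.H28.Dixm

open L2Ops

abbrev H : Type := lp (fun _ : ℕ => ℂ) 2

noncomputable def e (n : ℕ) : H := lp.single 2 n 1

theorem inner_e (n : ℕ) (x : H) : inner ℂ (e n) x = x n := by
  simp [e, lp.inner_single_left]

theorem e_apply (n m : ℕ) : e n m = if m = n then 1 else 0 := by
  simp [e, lp.single_apply, Pi.single_apply]

theorem e_on : Orthonormal ℂ e := by
  rw [orthonormal_iff_ite]
  intro i j
  rw [inner_e, e_apply]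

noncomputable def dg (w : ℕ → ℝ) (hw : ∀ n, |w n| ≤ 1) : H →L[ℂ] H :=
  diag (fun n => (w n : ℂ)) 1 (fun n => by simpa using hw n)

theorem dg_apply (w : ℕ → ℝ) (hw : ∀ n, |w n| ≤ 1) (x : H) (n : ℕ) :
    dg w hw x n = w n * x n := rfl

theorem dg_symm (w : ℕ → ℝ) (hw : ∀ n, |w n| ≤ 1) (x y : H) :
    inner ℂ (dg w hw x) y = inner ℂ x (dg w hw y) := by
  rw [lp.inner_eq_tsum, lp.inner_eq_tsum]
  refine tsum_congr fun n => ?_
  simp [dg_apply]; ring

theorem dg_star (w : ℕ → ℝ) (hw : ∀ n, |w n| ≤ 1) : star (dg w hw) = dg w hw :=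
  (ContinuousLinearMap.isSelfAdjoint_iff_isSymmetric.2 (dg_symm w hw)).star_eq

theorem dg_comm (w : ℕ → ℝ) (hw : ∀ n, |w n| ≤ 1) (v : ℕ → ℝ) (hv : ∀ n, |v n| ≤ 1) :
    dg w hw * dg v hv = dg v hv * dg w hw := by
  ext x n
  simp only [ContinuousLinearMap.mul_apply, dg_apply]; ring

theorem hasSum_diag {T : H →L[ℂ] H} {w : ℕ → ℝ} (hT : ∀ x n, T x n = w n * x n) {ι : ℕ → ℕ}
    (hι : Function.Injective ι) (h0 : ∀ n ∉ Set.range ι, w n = 0) (x : H) :
    HasSum (fun k => (w (ι k) : ℂ) • inner ℂ (e (ι k)) x • e (ι k)) (T x) := by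
  have h1 := lp.hasSum_single (p := 2) (by norm_num) (T x)
  have h2 : ∀ n, lp.single 2 n (T x n) = (w n : ℂ) • inner ℂ (e n) x • e n := by
    intro n
    rw [inner_e, smul_smul, e, ← lp.single_smul, hT]; simp
  simp only [h2] at h1
  exact (hι.hasSum_iff (f := fun n => (w n : ℂ) • inner ℂ (e n) x • e n)
    (fun n hn => by simp [h0 n hn])).2 h1

noncomputable def E (j k : ℕ) : H →L[ℂ] H :=
  (ContinuousLinearMap.toSpanSingleton ℂ (e j)).comp (innerSL ℂ (e k))

theorem E_apply (j k : ℕ) (x : H) : E j k x = x k • e j := by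
  simp [E, inner_e]

theorem E_compact (j k : ℕ) : IsCompactOperator (E j k) :=
  (isCompactOperator_of_locallyCompactSpace_dom (innerSL ℂ (e k))).clm_comp
    (ContinuousLinearMap.toSpanSingleton ℂ (e j))

theorem dg_compact (w : ℕ → ℝ) (hw : ∀ n, |w n| ≤ 1) (h0 : Tendsto w atTop (𝓝 0))
    (h1 : Antitone w) (h2 : ∀ n, 0 ≤ w n) : IsCompactOperator (dg w hw) := by
  refine isCompactOperator_of_tendsto (l := atTop)
    (F := fun N => ∑ n ∈ Finset.range N, (w n : ℂ) • E n n) ?_ (Eventually.of_forall fun N => ?_)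
  · rw [tendsto_iff_norm_sub_tendsto_zero]
    refine squeeze_zero (fun _ => norm_nonneg _) (fun N => ?_) h0
    refine ContinuousLinearMap.opNorm_le_bound _ (h2 N) fun x => norm_le_of (h2 N) fun n => ?_
    have : ((∑ n ∈ Finset.range N, (w n : ℂ) • E n n) x) n
        = if n < N then (w n : ℂ) * x n else 0 := by
      rw [← inner_e, ContinuousLinearMap.sum_apply, inner_sum]
      simp only [ContinuousLinearMap.smul_apply, E_apply, inner_smul_right, inner_e, e_apply]
      simp
    rw [ContinuousLinearMap.sub_apply, lp.coeFn_sub, Pi.sub_apply, this, dg_apply]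
    split_ifs with h
    · simp; exact mul_nonneg (h2 N) (norm_nonneg _)
    · rw [zero_sub, norm_neg, norm_mul, Complex.norm_real, Real.norm_of_nonneg (h2 n)]
      exact mul_le_mul_of_nonneg_right (h1 (not_lt.1 h)) (norm_nonneg _)
  · induction N with
    | zero => simpa using isCompactOperator_zero
    | succ N ih =>
      rw [Finset.sum_range_succ]
      exact ih.add ((E_compact N N).smul _)

noncomputable def t (n : ℕ) : ℝ := 1 / (n + 1)
noncomputable def r (n : ℕ) : ℝ := 1 / √(1 + (n + 1) ^ 2)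

theorem t_pos (n : ℕ) : 0 < t n := by unfold t; positivity
theorem r_pos (n : ℕ) : 0 < r n := by unfold r; positivity
theorem r_le (n : ℕ) : r n ≤ 1 / (n + 1) := by
  unfold r
  refine one_div_le_one_div_of_le (by positivity) (Real.le_sqrt_of_sq_le (by linarith))
theorem r_ge (n : ℕ) : 1 / (n + 2) ≤ r n := by
  unfold r
  refine one_div_le_one_div_of_le (by positivity) (Real.sqrt_le_iff.2 ⟨by positivity, ?_⟩)
  have : (0 : ℝ) ≤ n := n.cast_nonneg
  nlinarith
theorem t_abs (n : ℕ) : |t n| ≤ 1 := by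
  rw [abs_of_pos (t_pos n), t, div_le_one (by positivity)]
  linarith [(n.cast_nonneg : (0 : ℝ) ≤ n)]
theorem r_abs (n : ℕ) : |r n| ≤ 1 := by
  rw [abs_of_pos (r_pos n)]; exact (r_le n).trans ((le_abs_self _).trans (t_abs n))
theorem r_anti : Antitone r := by
  intro m n h
  have : (m : ℝ) ≤ n := by exact_mod_cast h
  unfold r
  refine one_div_le_one_div_of_le (by positivity) (Real.sqrt_le_sqrt ?_)
  have : (0 : ℝ) ≤ m := m.cast_nonneg
  nlinarith
theorem r_tendsto : Tendsto r atTop (𝓝 0) :=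
  squeeze_zero (fun n => (r_pos n).le) r_le tendsto_one_div_add_atTop_nhds_zero_nat

noncomputable def T : H →L[ℂ] H := dg t t_abs
noncomputable def R : H →L[ℂ] H := dg r r_abs

theorem T_inj : Function.Injective (T : H →ₗ[ℂ] H) := by
  intro x y h
  ext n
  have : T x n = T y n := by rw [show T x = T y from h]
  rw [T, dg_apply, dg_apply] at this
  exact mul_left_cancel₀ (by exact_mod_cast (t_pos n).ne') this

noncomputable def D : H →ₗ.[ℂ] H :=
  ⟨LinearMap.range (T : H →ₗ[ℂ] H), (LinearEquiv.ofInjective _ T_inj).symm.toLinearMap⟩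

theorem D_T (z : H) (h : T z ∈ D.domain) : D ⟨T z, h⟩ = z :=
  (LinearEquiv.ofInjective _ T_inj).symm_apply_apply z

theorem mem_D (z : H) : T z ∈ D.domain := ⟨z, rfl⟩

theorem T_D (x : D.domain) : T (D x) = x := by
  obtain ⟨_, z, rfl⟩ := x
  exact congrArg T (D_T z _)

theorem D_dense : Dense (D.domain : Set H) := by
  refine Submodule.dense_iff_topologicalClosure_eq_top.2 ?_
  rw [Submodule.topologicalClosure_eq_top_iff, Submodule.eq_bot_iff]
  intro x hx
  apply T_inj
  refine ext_inner_left ℂ fun z => ?_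
  have := hx (T z) (mem_D z)
  rw [T, dg_symm] at this
  rw [map_zero, inner_zero_right]
  exact this

theorem D_sa : IsSelfAdjoint D := by
  have h1 : D ≤ D.adjoint := by
    refine LinearPMap.IsFormalAdjoint.le_adjoint D_dense fun x y => ?_
    conv_lhs => rw [← T_D y]
    conv_rhs => rw [← T_D x]
    exact (dg_symm _ _ _ _).symm
  refine (LinearPMap.eq_of_le_of_domain_eq h1 (le_antisymm h1.1 fun y hy => ?_)).symm
  refine ⟨D.adjoint ⟨y, hy⟩, ext_inner_right ℂ fun z => ?_⟩
  have := LinearPMap.adjoint_isFormalAdjoint D_dense ⟨y, hy⟩ ⟨T z, mem_D z⟩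
  rw [D_T] at this
  rw [← this]
  exact dg_symm _ _ _ _

theorem R_sq (x : H) : ∃ (h₁ : R (R x) ∈ D.domain) (h₂ : D ⟨_, h₁⟩ ∈ D.domain),
    R (R x) + D ⟨_, h₂⟩ = x := by
  have hw : ∀ n, |1 - r n ^ 2| ≤ 1 := fun n => by
    have := abs_le.1 (r_abs n)
    rw [abs_le]; constructor <;> nlinarith [r_pos n]
  have e1 : R (R x) = T (T (dg _ hw x)) := by
    ext n
    simp only [R, T, dg_apply, ← mul_assoc]
    congr 1
    have : r n * r n = t n * t n * (1 - r n ^ 2) := by
      have h : r n ^ 2 = 1 / (1 + (n + 1) ^ 2) := by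
        unfold r; rw [div_pow, Real.sq_sqrt (by positivity)]; simp
      rw [← sq, h]; unfold t; field_simp; ring
    exact_mod_cast this
  have h₁ : R (R x) ∈ D.domain := e1 ▸ mem_D _
  have e2 : D ⟨_, h₁⟩ = T (dg _ hw x) := by
    rw [← D_T _ (mem_D (T (dg _ hw x)))]; congr 2
  have h₂ : D ⟨_, h₁⟩ ∈ D.domain := e2 ▸ mem_D _
  have e3 : D ⟨_, h₂⟩ = dg _ hw x := by
    rw [← D_T _ (mem_D (dg _ hw x))]; congr 2
  refine ⟨h₁, h₂, ?_⟩
  rw [e3]
  ext n
  simp only [lp.coeFn_add, Pi.add_apply, R, dg_apply]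
  push_cast; ring

theorem R_pos : R.IsPositive := by
  refine ⟨dg_symm _ _, fun x => ?_⟩
  rw [ContinuousLinearMap.reApplyInnerSelf, lp.inner_eq_tsum]
  have : ∀ n, inner ℂ (R x n) (x n) = ((r n * ‖x n‖ ^ 2 : ℝ) : ℂ) := by
    intro n
    rw [R, dg_apply, ← smul_eq_mul, inner_smul_left, inner_self_eq_norm_sq_to_K]; simp
  simp only [this]
  rw [← Complex.ofReal_tsum]
  exact tsum_nonneg fun n => mul_nonneg (r_pos n).le (sq_nonneg _)

noncomputable def P (i : ℕ) : H →L[ℂ] H :=
  dg (fun n => if n.unpair.1 = i then 1 else 0) (fun n => by split_ifs <;> simp)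

theorem P_apply (i : ℕ) (x : H) (n : ℕ) : P i x n = if n.unpair.1 = i then x n else 0 := by
  rw [P, dg_apply]; split_ifs <;> simp

theorem P_proj (i : ℕ) : IsStarProjection (P i) := by
  refine ⟨?_, dg_star _ _⟩
  ext x n
  simp only [ContinuousLinearMap.mul_apply, P_apply]
  split_ifs <;> rfl

theorem P_orth : Pairwise fun i j => P i * P j = 0 := by
  intro i j h
  ext x n
  simp only [ContinuousLinearMap.mul_apply, P_apply]
  split_ifs with h1 h2
  · exact absurd (h1.symm.trans h2) h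
  · simp
  · simp

theorem P_sum (x : H) : HasSum (fun i => P i x) x := by
  have h1 := lp.hasSum_single (p := 2) (by norm_num) x
  rw [← Nat.pairEquiv.hasSum_iff] at h1
  refine h1.prod_fiberwise fun i => ?_
  have := hasSum_diag (T := P i) (w := fun n => if n.unpair.1 = i then 1 else 0)
    (fun _ _ => rfl) (ι := Nat.pair i) (fun a b h => (Nat.pair_eq_pair.1 h).2)
    (fun n hn => if_neg fun h => hn ⟨n.unpair.2, by rw [← h, Nat.pair_unpair]⟩) x
  convert this using 2 with k
  rw [inner_e]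
  simp [e, ← lp.single_smul]

theorem comm_adj {S : H →L[ℂ] H} (h : ∀ i, P i * S = S * P i) :
    ∀ a ∈ StarAlgebra.adjoin ℂ (Set.range P), a * S = S * a := by
  intro a ha
  have h1 : a ∈ (StarAlgebra.adjoin ℂ (Set.range P)).toSubalgebra := ha
  rw [StarAlgebra.adjoin_toSubalgebra] at h1
  have h2 : Algebra.adjoin ℂ (Set.range P ∪ star (Set.range P)) ≤ Subalgebra.centralizer ℂ {S} := by
    refine Algebra.adjoin_le ?_
    rintro b (⟨i, rfl⟩ | ⟨i, hi⟩) _ rfl
    · exact (h i).symm
    · have : b = P i := by rw [← (P_proj i).isSelfAdjoint.star_eq, hi, star_star]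
      rw [this]; exact (h i).symm
  exact (h2 h1 S rfl).symm

theorem P_E {j k : ℕ} (h : j.unpair.1 = k.unpair.1) (i : ℕ) : P i * E j k = E j k * P i := by
  ext x n
  simp only [ContinuousLinearMap.mul_apply, E_apply, P_apply, lp.coeFn_smul, Pi.smul_apply,
    e_apply, smul_eq_mul]
  by_cases h1 : n = j
  · subst h1; rw [h]; simp
  · simp [h1]

theorem no_fin (S : H →L[ℂ] H)
    (hS : S ∈ Set.centralizer (Set.centralizer (StarAlgebra.adjoin ℂ (Set.range P) : Set (H →L[ℂ] H))))
    (hf : FiniteDimensional ℂ (LinearMap.range (S : H →ₗ[ℂ] H))) : S = 0 := by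
  have key : ∀ j k : ℕ, j.unpair.1 = k.unpair.1 → S (e j) = S (e k) k • e j := by
    intro j k h
    have := hS (E j k) (comm_adj (P_E h))
    have h2 := congrArg (fun A : H →L[ℂ] H => A (e k)) this
    simp only [ContinuousLinearMap.mul_apply, E_apply, e_apply, if_true, one_smul] at h2
    exact h2.symm
  have h0 : ∀ k, S (e k) = 0 := by
    intro k
    by_contra hk
    have hs : S (e k) k ≠ 0 := fun h => hk (by rw [key k k rfl, h, zero_smul])
    have hm : ∀ m, e (Nat.pair k.unpair.1 m) ∈ LinearMap.range (S : H →ₗ[ℂ] H) := fun m =>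
      ⟨(S (e k) k)⁻¹ • e (Nat.pair k.unpair.1 m), by
        rw [map_smul]
        change _ • S _ = _
        rw [key (Nat.pair k.unpair.1 m) k (by simp), smul_smul, inv_mul_cancel₀ hs, one_smul]⟩
    have hli : LinearIndependent ℂ fun m => (⟨_, hm m⟩ : LinearMap.range (S : H →ₗ[ℂ] H)) := by
      refine LinearIndependent.of_comp (LinearMap.range (S : H →ₗ[ℂ] H)).subtype ?_
      exact e_on.linearIndependent.comp (Nat.pair k.unpair.1)
        (fun a b h => (Nat.pair_eq_pair.1 h).2)
    exact Module.Finite.not_linearIndependent_of_infinite _ hli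
  ext1 x
  have h1 := (hasSum_diag (T := 1) (w := fun _ => 1) (fun _ _ => by simp) Function.injective_id
    (fun n hn => absurd ⟨n, rfl⟩ hn) x).mapL S
  simp only [map_smul, id, h0, smul_zero] at h1
  exact h1.unique hasSum_zero

theorem comm_D {a : H →L[ℂ] H} (ha : a ∈ StarAlgebra.adjoin ℂ (Set.range P)) (x : D.domain) :
    ∃ h : a x ∈ D.domain, D ⟨a x, h⟩ = a (D x) := by
  have h1 := comm_adj (S := T) (fun i => dg_comm _ _ _ _) a ha
  have h2 : a x = T (a (D x)) := by
    conv_lhs => rw [← T_D x]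
    exact congrArg (fun A : H →L[ℂ] H => A (D x)) h1
  have h3 : a x ∈ D.domain := h2 ▸ mem_D _
  refine ⟨h3, Eq.trans ?_ (D_T _ (mem_D (a (D x))))⟩
  congr 2

theorem log_tendsto : Tendsto (fun N : ℕ => Real.log (N + 2)) atTop atTop :=
  Real.tendsto_log_atTop.comp (tendsto_atTop_add_const_right _ 2 tendsto_natCast_atTop_atTop)

theorem avg_r : Tendsto (fun N : ℕ => (∑ k ∈ Finset.range (N + 1), r k) / Real.log (N + 2))
    atTop (𝓝 1) := by
  have h0 : Tendsto (fun N : ℕ => (1 : ℝ) / Real.log (N + 2)) atTop (𝓝 0) :=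
    tendsto_const_nhds.div_atTop log_tendsto
  have hl : ∀ N : ℕ, 0 < Real.log (N + 2) := fun N =>
    Real.log_pos (by linarith [(N.cast_nonneg : (0 : ℝ) ≤ N)])
  have hh : ∀ N : ℕ, (harmonic N : ℝ) = ∑ k ∈ Finset.range N, (1 : ℝ) / (k + 1) := by
    intro N; simp [harmonic]
  refine tendsto_of_tendsto_of_tendsto_of_le_of_le (g := fun N : ℕ => 1 - 1 / Real.log (N + 2))
    (h := fun N : ℕ => 1 + 1 / Real.log (N + 2)) (by simpa using h0.const_sub 1)
    (by simpa using h0.const_add 1) (fun N => ?_) (fun N => ?_)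
  · have h1 := log_add_one_le_harmonic (N + 2)
    rw [hh, Finset.sum_range_succ'] at h1
    have h2 : ∑ k ∈ Finset.range (N + 1), (1 : ℝ) / ((k + 1 : ℕ) + 1)
        ≤ ∑ k ∈ Finset.range (N + 1), r k := Finset.sum_le_sum fun k _ => by
      refine le_trans (le_of_eq ?_) (r_ge k); push_cast; ring
    have h3 : Real.log (N + 2) ≤ Real.log ((N + 2 + 1 : ℕ) : ℝ) :=
      Real.log_le_log (by positivity) (by push_cast; linarith)
    beta_reduce
    rw [le_div_iff₀ (hl N), sub_mul, one_div_mul_cancel (hl N).ne']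
    simp only [Nat.cast_zero, zero_add, div_one] at h1
    linarith
  · have h1 := harmonic_le_one_add_log (N + 1)
    rw [hh] at h1
    have h2 : ∑ k ∈ Finset.range (N + 1), r k ≤ ∑ k ∈ Finset.range (N + 1), (1 : ℝ) / (k + 1) :=
      Finset.sum_le_sum fun k _ => r_le k
    have h3 : Real.log ((N + 1 : ℕ) : ℝ) ≤ Real.log (N + 2) :=
      Real.log_le_log (by positivity) (by push_cast; linarith)
    beta_reduce
    rw [div_le_iff₀ (hl N), add_mul, one_div_mul_cancel (hl N).ne']
    linarith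

theorem summ_pair (i : ℕ) : Summable fun k => r (Nat.pair i k) := by
  have h : Summable fun k : ℕ => (1 : ℝ) / (k : ℝ) ^ 2 := Real.summable_one_div_nat_pow.2 one_lt_two
  rw [← summable_nat_add_iff 1] at h ⊢
  refine Summable.of_nonneg_of_le (fun k => (r_pos _).le) (fun k => (r_le _).trans ?_) h
  refine one_div_le_one_div_of_le (by positivity) ?_
  have h1 := Nat.max_sq_add_min_le_pair i (k + 1)
  have h2 : (k + 1) ^ 2 ≤ max i (k + 1) ^ 2 := Nat.pow_le_pow_left (le_max_right _ _) 2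
  have h3 : (k + 1) ^ 2 ≤ Nat.pair i (k + 1) + 1 := by omega
  exact_mod_cast h3

theorem avg_pair (i : ℕ) : Tendsto
    (fun N : ℕ => (∑ k ∈ Finset.range (N + 1), r (Nat.pair i k)) / Real.log (N + 2))
    atTop (𝓝 0) :=
  ((summ_pair i).hasSum.tendsto_sum_nat.comp (tendsto_add_atTop_nat 1)).div_atTop log_tendsto

theorem summ_rpow {p : ℝ} (hp : 1 < p) : Summable fun k => r k ^ p := by
  refine Summable.of_nonneg_of_le (fun k => (Real.rpow_pos_of_pos (r_pos k) p).le) (fun k => ?_)
    ((Real.summable_one_div_nat_add_rpow 1 p).2 hp)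
  rw [abs_of_pos (by positivity)]
  refine (Real.rpow_le_rpow (r_pos k).le (r_le k) (by linarith)).trans (le_of_eq ?_)
  rw [Real.div_rpow zero_le_one (by positivity), Real.one_rpow]

theorem not_summ : ¬ Summable fun k => r k ^ (1 : ℝ) := by
  intro h
  have : Summable fun k : ℕ => 1 / |(k : ℝ) + 2| ^ (1 : ℝ) := by
    refine Summable.of_nonneg_of_le (fun k => by positivity) (fun k => ?_) h
    rw [abs_of_pos (by positivity), Real.rpow_one, Real.rpow_one]
    exact r_ge k
  exact lt_irrefl _ ((Real.summable_one_div_nat_add_rpow 2 1).1 this)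

end Pool.Agent.H28.Dixm
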