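import Mathlib

set_option autoImplicit false

open Filter Topology

namespace Pool.Agent.H28.Ekeland

theorem ekeland {X : Type*} [MetricSpace X] [CompleteSpace X] (f : X → ℝ) (hf : Continuous f)
    (M : ℝ) (hM : ∀ x, f x ≤ M) (ε : ℝ) (hε : 0 < ε) (x0 : X) :
    ∃ x1, f x0 + ε * dist x0 x1 ≤ f x1 ∧ ∀ y, f y ≤ f x1 + ε * dist x1 y := by
  have tr : ∀ {a b c : X}, f a + ε * dist a b ≤ f b → f b + ε * dist b c ≤ f c →
      f a + ε * dist a c ≤ f c := by
    intro a b c h1 h2
    have := mul_le_mul_of_nonneg_left (dist_triangle a b c) hε.le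
    linarith
  have st : ∀ (n : ℕ) (x : X), ∃ y, f x + ε * dist x y ≤ f y ∧
      ∀ z, f x + ε * dist x z ≤ f z → f z ≤ f y + 1 / ((n : ℝ) + 1) := by
    intro n x
    have hne : (f '' {z | f x + ε * dist x z ≤ f z}).Nonempty := ⟨_, x, by simp, rfl⟩
    have hb : BddAbove (f '' {z | f x + ε * dist x z ≤ f z}) :=
      ⟨M, by rintro _ ⟨z, _, rfl⟩; exact hM z⟩
    obtain ⟨_, ⟨y, hy, rfl⟩, h⟩ := exists_lt_of_lt_csSup hne
      (sub_lt_self _ (Nat.one_div_pos_of_nat (α := ℝ) (n := n)))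
    exact ⟨y, hy, fun z hz => by linarith [le_csSup hb ⟨z, hz, rfl⟩]⟩
  choose g hg1 hg2 using st
  let x : ℕ → X := fun n => Nat.rec x0 g n
  have hx : ∀ n, x (n + 1) = g n (x n) := fun _ => rfl
  have ch : ∀ n m, n ≤ m → f (x n) + ε * dist (x n) (x m) ≤ f (x m) := by
    intro n m h
    induction m, h using Nat.le_induction with
    | base => simp
    | succ m _ ih => exact tr ih (hg1 m (x m))
  have cau : CauchySeq x := by
    rw [Metric.cauchySeq_iff']
    intro δ hδ
    obtain ⟨n, hn⟩ := exists_nat_one_div_lt (mul_pos hε hδ)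
    refine ⟨n + 1, fun m hm => ?_⟩
    have h1 := hg2 n (x n) (x m) (ch n m (by omega))
    have h2 := ch (n + 1) m hm
    rw [← hx] at h1
    rw [dist_comm]
    exact lt_of_mul_lt_mul_left (by linarith) hε.le
  obtain ⟨x1, h1⟩ := cauchySeq_tendsto_of_complete cau
  have lim : ∀ n, f (x n) + ε * dist (x n) x1 ≤ f x1 := fun n =>
    le_of_tendsto_of_tendsto (tendsto_const_nhds.add ((tendsto_const_nhds.dist h1).const_mul ε))
      ((hf.tendsto x1).comp h1) (eventually_atTop.2 ⟨n, fun m hm => ch n m hm⟩)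
  refine ⟨x1, lim 0, fun y => ?_⟩
  by_contra hc
  push Not at hc
  have h2 : ∀ n : ℕ, f y ≤ f x1 + 1 / ((n : ℝ) + 1) := by
    intro n
    have a := hg2 n (x n) y (tr (lim n) hc.le)
    have b := lim (n + 1)
    rw [hx] at b
    have := mul_nonneg hε.le (dist_nonneg (x := g n (x n)) (y := x1))
    linarith
  have h3 : f y ≤ f x1 + 0 :=
    ge_of_tendsto' (tendsto_const_nhds.add tendsto_one_div_add_atTop_nhds_zero_nat) h2
  have := mul_nonneg hε.le (dist_nonneg (x := x1) (y := y))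
  linarith

end Pool.Agent.H28.Ekeland
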