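import Mathlib

set_option autoImplicit false

open Filter Topology Complex Set

namespace Pool.Agent.H28.ExpPoly

variable {ι : Type*} [Fintype ι]

theorem left_bound (t : ι → ℝ) (a : ι → ℂ) (i0 : ι) (h0 : t i0 = 0) (ha : a i0 ≠ 0)
    (hpos : ∀ i, i ≠ i0 → 0 < t i) :
    ∃ R : ℝ, ∀ z : ℂ, z.re ≤ -R → ‖a i0‖ / 2 ≤ ‖∑ i, a i * exp (z * t i)‖ := by
  classical
  have h1 : Tendsto (fun x : ℝ => ∑ i ∈ Finset.univ.erase i0, ‖a i‖ * Real.exp (x * t i)) atBot
      (𝓝 (∑ i ∈ Finset.univ.erase i0, ‖a i‖ * 0)) := by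
    refine tendsto_finset_sum _ (fun i hi => Tendsto.const_mul _ ?_)
    exact Real.tendsto_exp_atBot.comp (tendsto_id.atBot_mul_const (hpos i (Finset.mem_erase.1 hi).1))
  simp only [mul_zero, Finset.sum_const_zero] at h1
  have h2 : 0 < ‖a i0‖ / 2 := by have := norm_pos_iff.2 ha; linarith
  obtain ⟨x0, hx0⟩ := eventually_atBot.1 (h1.eventually (gt_mem_nhds h2))
  refine ⟨-x0, fun z hz => ?_⟩
  have h3 := hx0 z.re (by linarith)
  rw [← Finset.add_sum_erase _ _ (Finset.mem_univ i0), h0]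
  simp only [ofReal_zero, mul_zero, exp_zero, mul_one]
  have h4 : ‖∑ i ∈ Finset.univ.erase i0, a i * exp (z * t i)‖
      ≤ ∑ i ∈ Finset.univ.erase i0, ‖a i‖ * Real.exp (z.re * t i) := by
    refine (norm_sum_le _ _).trans (le_of_eq (Finset.sum_congr rfl (fun i _ => ?_)))
    rw [norm_mul, norm_exp]; simp
  have h5 := norm_sub_le (a i0 + ∑ i ∈ Finset.univ.erase i0, a i * exp (z * t i))
    (∑ i ∈ Finset.univ.erase i0, a i * exp (z * t i))
  rw [add_sub_cancel_right] at h5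
  linarith

theorem recurrence (t : ι → ℝ) (ε : ℝ) (hε : 0 < ε) (Y : ℝ) :
    ∃ y : ℝ, Y ≤ y ∧ ∀ i, ‖exp (y * I * t i) - 1‖ ≤ ε := by
  let Θ : ℕ → ι → ℂ := fun k i => exp (k * I * t i)
  have hn : ∀ (y : ℝ) i, ‖exp (y * I * t i)‖ = 1 := fun y i => by rw [norm_exp]; simp
  obtain ⟨L, -, φ, hφ, hL⟩ := (isCompact_closedBall (0 : ι → ℂ) 1).tendsto_subseq (x := Θ) (fun k => by
    rw [mem_closedBall_zero_iff, pi_norm_le_iff_of_nonneg zero_le_one]
    intro i
    exact (hn k i).le)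
  obtain ⟨N, hN⟩ := Metric.tendsto_atTop.1 hL (ε / 2) (by positivity)
  obtain ⟨m, hm⟩ := exists_nat_ge Y
  have h1 : φ N + m ≤ φ (N + m) := hφ.add_le_nat m N |>.trans' (by omega) |>.trans (by rw [add_comm])
  refine ⟨(φ (N + m) : ℝ) - φ N, ?_, fun i => ?_⟩
  · have : ((φ N : ℝ) + m) ≤ φ (N + m) := by exact_mod_cast h1
    linarith
  · have h2 := (dist_le_pi_dist _ _ i).trans_lt (hN N le_rfl)
    have h3 := (dist_le_pi_dist _ _ i).trans_lt (hN (N + m) (by omega))
    have h4 := dist_triangle_right (Θ (φ (N + m)) i) (Θ (φ N) i) (L i)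
    have e : Θ (φ (N + m)) i - Θ (φ N) i
        = exp ((φ N : ℝ) * I * t i) * (exp ((((φ (N + m) : ℝ) - φ N : ℝ) : ℂ) * I * t i) - 1) := by
      rw [mul_sub, mul_one, ← exp_add]
      simp only [Θ]
      push_cast
      congr 2; ring
    rw [dist_eq_norm, e, norm_mul, hn, one_mul] at h4
    simp only [Function.comp] at h2 h3
    linarith

theorem const_of_div (t : ι → ℝ) (a : ι → ℂ) (i0 i1 : ι) (h0 : t i0 = 0) (ha0 : a i0 ≠ 0)
    (ha1 : a i1 ≠ 0) (hpos : ∀ i, i ≠ i0 → 0 < t i) (hmax : ∀ i, i ≠ i1 → t i < t i1)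
    (g : ℂ → ℂ) (hg : Differentiable ℂ g) (C : ℝ)
    (hb : ∀ z, ‖g z * ∑ i, a i * exp (z * t i)‖ ≤ C * max 1 (Real.exp (z.re * t i1))) :
    ∃ c, ∀ z, g z = c := by
  set p : ℂ → ℂ := fun z => ∑ i, a i * exp (z * t i) with hp
  have hpd : Differentiable ℂ p := by simp only [hp]; fun_prop
  have ht0 : ∀ i, 0 ≤ t i := fun i => by
    by_cases h : i = i0
    · rw [h, h0]
    · exact (hpos i h).le
  have hC : 0 ≤ C := by
    have := (norm_nonneg _).trans (hb 0)
    simpa using this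
  obtain ⟨R1, hR1⟩ := left_bound t a i0 h0 ha0 hpos
  obtain ⟨R2, hR2⟩ := left_bound (fun i => t i1 - t i) a i1 (sub_self _) ha1
    (fun i hi => sub_pos.2 (hmax i hi))
  set R := max (max R1 R2) 1 with hR
  have hR0 : 0 < R := lt_of_lt_of_le one_pos (le_max_right _ _)
  have n0 := norm_pos_iff.2 ha0
  have n1 := norm_pos_iff.2 ha1
  have hleft : ∀ z : ℂ, z.re ≤ -R → ‖g z‖ ≤ C / (‖a i0‖ / 2) := by
    intro z hz
    have h1 := hR1 z (hz.trans (neg_le_neg ((le_max_left _ _).trans (le_max_left _ _))))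
    have h2 := hb z
    rw [max_eq_left (Real.exp_le_one_iff.2 (mul_nonpos_of_nonpos_of_nonneg (by linarith) (ht0 _))),
      norm_mul, mul_one] at h2
    rw [le_div_iff₀ (by positivity)]
    exact (mul_le_mul_of_nonneg_left h1 (norm_nonneg _)).trans h2
  have hright : ∀ z : ℂ, R ≤ z.re → ‖g z‖ ≤ C / (‖a i1‖ / 2) := by
    intro z hz
    have h1 := hR2 (-z) (by
      rw [neg_re]; exact neg_le_neg (((le_max_right _ _).trans (le_max_left _ _)).trans hz))
    have h2 := hb z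
    have e : ∑ i, a i * exp (z * t i) = exp (z * t i1) * ∑ i, a i * exp (-z * ((t i1 - t i : ℝ) : ℂ)) := by
      rw [Finset.mul_sum]
      refine Finset.sum_congr rfl (fun i _ => ?_)
      rw [mul_left_comm, ← exp_add]
      push_cast
      congr 2; ring
    rw [max_eq_right (Real.one_le_exp (mul_nonneg (by linarith) (ht0 _))), e, norm_mul, norm_mul,
      norm_exp] at h2
    simp only [mul_re, ofReal_re, ofReal_im, mul_zero, sub_zero] at h2
    rw [le_div_iff₀ (by positivity)]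
    have h3 := Real.exp_pos (z.re * t i1)
    have h4 := mul_le_mul_of_nonneg_left h1 (norm_nonneg (g z))
    nlinarith
  -- a zero free horizontal segment
  have hK : IsCompact (Icc (-R) R ×ℂ Icc (0 : ℝ) 1) := isCompact_Icc.reProdIm isCompact_Icc
  have hfin : ((Icc (-R) R ×ℂ Icc (0 : ℝ) 1) \ {z | p z ≠ 0}).Finite := by
    apply hK.finite_sdiff_of_mem_codiscreteWithin
    have han : AnalyticOnNhd ℂ p univ := fun z _ => hpd.analyticAt z
    rcases han.eqOn_zero_or_eventually_ne_zero_of_preconnected isPreconnected_univ with h | h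
    · exfalso
      have h1 := hR1 (-R1) (by simp)
      have h2 : p (-R1) = 0 := h (mem_univ _)
      simp only [hp] at h2
      rw [h2, norm_zero] at h1
      linarith
    · exact Filter.codiscreteWithin_mono (subset_univ _) h
  obtain ⟨y0, hy0, hy1⟩ := ((Icc_infinite (zero_lt_one' ℝ)).diff (hfin.image im)).nonempty
  have hseg : ∀ x ∈ Icc (-R) R, p (x + y0 * I) ≠ 0 := by
    intro x hx h
    refine hy1 ⟨x + y0 * I, ⟨⟨by simpa using hx, by simpa using hy0⟩, fun h' => h' h⟩, by simp⟩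
  obtain ⟨x0, hx0, hmin⟩ := (isCompact_Icc (a := -R) (b := R)).exists_isMinOn
    (nonempty_Icc.2 (by linarith)) (f := fun x : ℝ => ‖p (x + y0 * I)‖)
    (by have := hpd.continuous; fun_prop)
  set δ := ‖p (x0 + y0 * I)‖ with hδ
  have hδ0 : 0 < δ := norm_pos_iff.2 (hseg x0 hx0)
  set S := ∑ i, ‖a i‖ * Real.exp (R * t i) with hS
  have hS0 : 0 ≤ S := Finset.sum_nonneg (fun i _ => by positivity)
  have hshift : ∀ y : ℝ, (∀ i, ‖exp (y * I * t i) - 1‖ ≤ δ / (2 * (S + 1))) → ∀ z : ℂ,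
      z.re ∈ Icc (-R) R → z.im = y0 + y → ‖g z‖ ≤ C * Real.exp (R * t i1) / (δ / 2) := by
    intro y hy z hz hz2
    have e0 : z = (z.re + y0 * I) + y * I := by
      apply Complex.ext <;> simp [hz2]
    have h1 : ‖p z - p (z.re + y0 * I)‖ ≤ S * (δ / (2 * (S + 1))) := by
      simp only [hp, ← Finset.sum_sub_distrib, hS, Finset.sum_mul]
      refine (norm_sum_le _ _).trans (Finset.sum_le_sum (fun i _ => ?_))
      have e1 : a i * exp (z * t i) - a i * exp ((z.re + y0 * I) * t i)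
          = a i * exp ((z.re + y0 * I) * t i) * (exp (y * I * t i) - 1) := by
        rw [mul_sub, mul_one, mul_assoc, ← exp_add]
        congr 3
        conv_lhs => rw [e0]
        ring
      rw [e1, norm_mul, norm_mul, norm_exp]
      have e2 : ((z.re + y0 * I) * t i : ℂ).re = z.re * t i := by simp
      rw [e2]
      have := hy i
      have := mul_le_mul_of_nonneg_right hz.2 (ht0 i)
      gcongr
    have h2 : S * (δ / (2 * (S + 1))) ≤ δ / 2 := by
      rw [← mul_div_assoc, div_le_div_iff₀ (by positivity) two_pos]; nlinarith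
    have h3 : δ ≤ ‖p (z.re + y0 * I)‖ := hmin hz
    have h4 := norm_sub_norm_le (p (z.re + y0 * I)) (p z)
    rw [norm_sub_rev] at h4
    have h5 := hb z
    rw [norm_mul] at h5
    have h6 : max 1 (Real.exp (z.re * t i1)) ≤ Real.exp (R * t i1) :=
      max_le (Real.one_le_exp (mul_nonneg hR0.le (ht0 _)))
        (Real.exp_le_exp.2 (mul_le_mul_of_nonneg_right hz.2 (ht0 _)))
    rw [le_div_iff₀ (by positivity)]
    calc ‖g z‖ * (δ / 2) ≤ ‖g z‖ * ‖p z‖ := mul_le_mul_of_nonneg_left (by linarith) (norm_nonneg _)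
      _ ≤ _ := h5.trans (mul_le_mul_of_nonneg_left h6 hC)
  set B := max (max (C / (‖a i0‖ / 2)) (C / (‖a i1‖ / 2))) (C * Real.exp (R * t i1) / (δ / 2)) with hB
  have hall : ∀ z, ‖g z‖ ≤ B := by
    intro z
    by_cases h1 : z.re ≤ -R
    · exact (hleft z h1).trans ((le_max_left _ _).trans (le_max_left _ _))
    by_cases h2 : R ≤ z.re
    · exact (hright z h2).trans ((le_max_right _ _).trans (le_max_left _ _))
    obtain ⟨y, hyY, hy⟩ := recurrence t (δ / (2 * (S + 1))) (by positivity) (|z.im - y0| + 1)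
    have hy' : ∀ i, ‖exp (((-y : ℝ) : ℂ) * I * t i) - 1‖ ≤ δ / (2 * (S + 1)) := by
      intro i
      have e : exp (((-y : ℝ) : ℂ) * I * t i) - 1 = (starRingEnd ℂ) (exp (y * I * t i) - 1) := by
        rw [map_sub, ← exp_conj]; simp
      rw [e, norm_conj]; exact hy i
    have hab := abs_nonneg (z.im - y0)
    have hlt : y0 + -y < y0 + y := by linarith
    refine norm_le_of_forall_mem_frontier_norm_le (U := Ioo (-R) R ×ℂ Ioo (y0 + -y) (y0 + y))
      ((Metric.isBounded_Ioo _ _).reProdIm (Metric.isBounded_Ioo _ _)) hg.diffContOnCl (fun w hw => ?_)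
      (subset_closure ⟨⟨not_le.1 h1, not_le.1 h2⟩, ?_, ?_⟩)
    · rw [frontier_reProdIm, closure_Ioo (by linarith), frontier_Ioo hlt, frontier_Ioo (by linarith)] at hw
      rcases hw with ⟨w1, w2 | w2⟩ | ⟨w1 | w1, -⟩
      · exact (hshift (-y) hy' w w1 w2).trans (le_max_right _ _)
      · exact (hshift y hy w w1 w2).trans (le_max_right _ _)
      · exact (hleft w (le_of_eq w1)).trans ((le_max_left _ _).trans (le_max_left _ _))
      · exact (hright w (ge_of_eq w1)).trans ((le_max_right _ _).trans (le_max_left _ _))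
    · linarith [neg_abs_le (z.im - y0)]
    · linarith [le_abs_self (z.im - y0)]
  apply hg.exists_const_forall_eq_of_bounded
  rw [isBounded_iff_forall_norm_le]
  exact ⟨B, by rintro _ ⟨z, rfl⟩; exact hall z⟩

/-- Division of entire functions with local divisibility. -/
theorem exists_div (b p : ℂ → ℂ)
    (h : ∀ z0, ∃ (N : ℕ) (h q : ℂ → ℂ), AnalyticAt ℂ h z0 ∧ AnalyticAt ℂ q z0 ∧ q z0 ≠ 0 ∧
      (∀ᶠ z in 𝓝 z0, b z = (z - z0) ^ N * h z) ∧ ∀ᶠ z in 𝓝 z0, p z = (z - z0) ^ N * q z) :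
    ∃ g : ℂ → ℂ, Differentiable ℂ g ∧ ∀ z, g z * p z = b z := by
  let g : ℂ → ℂ := fun z => limUnder (𝓝[≠] z) (fun w => b w / p w)
  have key : ∀ z0, ∃ (h q : ℂ → ℂ) (N : ℕ), AnalyticAt ℂ h z0 ∧ AnalyticAt ℂ q z0 ∧ q z0 ≠ 0 ∧
      b z0 = (z0 - z0) ^ N * h z0 ∧ p z0 = (z0 - z0) ^ N * q z0 ∧ g =ᶠ[𝓝 z0] fun z => h z / q z := by
    intro z0
    obtain ⟨N, h, q, hh, hq, hq0, e1, e2⟩ := h z0
    refine ⟨h, q, N, hh, hq, hq0, e1.self_of_nhds, e2.self_of_nhds, ?_⟩
    have hc : ∀ᶠ w in 𝓝 z0, ContinuousAt (fun z => h z / q z) w :=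
      (hh.div hq hq0).eventually_analyticAt.mono (fun w hw => hw.continuousAt)
    filter_upwards [hc, e1.eventually_nhds, e2.eventually_nhds] with w c1 c2 c3
    apply Tendsto.limUnder_eq
    refine (c1.tendsto.mono_left nhdsWithin_le_nhds).congr' ?_
    have c4 : ∀ᶠ v in 𝓝[≠] w, v ≠ z0 := by
      by_cases hw : w = z0
      · rw [hw]; exact self_mem_nhdsWithin
      · exact nhdsWithin_le_nhds (isOpen_ne.mem_nhds hw)
    filter_upwards [nhdsWithin_le_nhds c2, nhdsWithin_le_nhds c3, c4] with v v1 v2 v3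
    rw [v1, v2, mul_div_mul_left _ _ (pow_ne_zero _ (sub_ne_zero.2 v3))]
  refine ⟨g, fun z => ?_, fun z => ?_⟩
  · obtain ⟨h, q, N, hh, hq, hq0, -, -, e⟩ := key z
    exact (hh.div hq hq0).differentiableAt.congr_of_eventuallyEq e
  · obtain ⟨h, q, N, -, -, hq0, e1, e2, e⟩ := key z
    rw [e.self_of_nhds, e1, e2]
    field_simp

theorem differentiable_laplace (u : ℝ → ℂ) (hu : Continuous u) (c : ℝ) :
    Differentiable ℂ (fun z : ℂ => ∫ r in (0 : ℝ)..c, exp (-z * r) * u r) := by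
  intro z0
  refine (intervalIntegral.hasDerivAt_integral_of_dominated_loc_of_deriv_le
    (F := fun (z : ℂ) (r : ℝ) => exp (-z * r) * u r) (F' := fun (z : ℂ) (r : ℝ) => exp (-z * r) * (-r) * u r)
    (bound := fun r => Real.exp ((‖z0‖ + 1) * |r|) * |r| * ‖u r‖) (Metric.ball_mem_nhds z0 one_pos)
    (Eventually.of_forall (fun z => (by fun_prop : Continuous _).aestronglyMeasurable))
    ((by fun_prop : Continuous _).intervalIntegrable _ _)
    (by fun_prop : Continuous _).aestronglyMeasurable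
    (Eventually.of_forall (fun r _ z hz => ?_))
    ((by fun_prop : Continuous _).intervalIntegrable _ _)
    (Eventually.of_forall (fun r _ z _ => ?_))).2.differentiableAt
  · rw [norm_mul, norm_mul, norm_neg, norm_real, Real.norm_eq_abs]
    have h1 : ‖exp (-z * r)‖ ≤ Real.exp ((‖z0‖ + 1) * |r|) := by
      refine (norm_exp_le_exp_norm _).trans (Real.exp_le_exp.2 ?_)
      rw [norm_mul, norm_neg, norm_real, Real.norm_eq_abs]
      have := norm_lt_of_mem_ball hz
      gcongr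
    gcongr
  · have := (((hasDerivAt_id z).neg.mul_const (r : ℂ)).cexp).mul_const (u r)
    simpa using this

end Pool.Agent.H28.ExpPoly
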