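import Mathlib

set_option autoImplicit false

namespace Pool.Agent.H28.FHC

open Filter Topology ZeroAtInfty

abbrev X : Type := C₀(ℕ, ℝ)

def mk0 (f : ℕ → ℝ) (h : Tendsto f atTop (𝓝 0)) : X :=
  ⟨⟨f, continuous_of_discreteTopology⟩, by
    rw [cocompact_eq_cofinite, Nat.cofinite_eq_atTop]; exact h⟩

@[simp] lemma mk0_apply (f : ℕ → ℝ) (h : Tendsto f atTop (𝓝 0)) (k : ℕ) : mk0 f h k = f k := rfl

lemma tend (x : X) : Tendsto x atTop (𝓝 0) := by
  have := x.zero_at_infty'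
  rw [cocompact_eq_cofinite, Nat.cofinite_eq_atTop] at this
  exact this

lemma abs_le_norm (x : X) (k : ℕ) : |x k| ≤ ‖x‖ := by
  rw [← ZeroAtInftyContinuousMap.norm_toBCF_eq_norm]
  exact x.toBCF.norm_coe_le_norm k

lemma norm_le (x : X) {C : ℝ} (h : ∀ k, |x k| ≤ C) : ‖x‖ ≤ C := by
  rw [← ZeroAtInftyContinuousMap.norm_toBCF_eq_norm]
  exact (BoundedContinuousFunction.norm_le ((abs_nonneg _).trans (h 0))).2 h

lemma wt_le (k : ℕ) : |((k : ℝ) + 2) / ((k : ℝ) + 1)| ≤ 2 := by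
  rw [abs_of_pos (by positivity), div_le_iff₀ (by positivity)]
  linarith [Nat.cast_nonneg (α := ℝ) k]

noncomputable def TL : X →ₗ[ℝ] X where
  toFun x := mk0 (fun k => ((k : ℝ) + 2) / ((k : ℝ) + 1) * x (k + 1)) (by
    refine squeeze_zero_norm (a := fun k => 2 * |x (k + 1)|) (fun k => ?_) ?_
    · rw [Real.norm_eq_abs, abs_mul]
      exact mul_le_mul_of_nonneg_right (wt_le k) (abs_nonneg _)
    · have := ((tend x).comp (tendsto_add_atTop_nat 1)).abs.const_mul 2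
      simpa using this)
  map_add' x y := by
    ext k
    simp [mul_add]
  map_smul' c x := by
    ext k
    simp [mul_left_comm]

noncomputable def T : X →L[ℝ] X :=
  TL.mkContinuous 2 (fun x => norm_le _ (fun k => by
    change |((k : ℝ) + 2) / ((k : ℝ) + 1) * x (k + 1)| ≤ _
    rw [abs_mul]
    exact mul_le_mul (wt_le k) (abs_le_norm x _) (abs_nonneg _) (by norm_num)))

lemma T_apply (x : X) (k : ℕ) : T x k = ((k : ℝ) + 2) / ((k : ℝ) + 1) * x (k + 1) := rfl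

lemma T_pow (n : ℕ) (x : X) (k : ℕ) :
    (T ^ n) x k = ((n : ℝ) + k + 1) / ((k : ℝ) + 1) * x (n + k) := by
  induction n generalizing k with
  | zero =>
    have : ((k : ℝ) + 1) ≠ 0 := by positivity
    simp [this]
  | succ n ih =>
    rw [pow_succ', ContinuousLinearMap.mul_apply, T_apply, ih]
    rw [show n + (k + 1) = n + 1 + k by ring]
    push_cast
    have h1 : ((k : ℝ) + 1) ≠ 0 := by positivity
    have h2 : ((k : ℝ) + 1 + 1) ≠ 0 := by positivity
    field_simp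
    ring

noncomputable def en : ℕ → List ℚ × ℕ := Classical.choose (exists_surjective_nat (List ℚ × ℕ))

lemma en_surj : Function.Surjective en := Classical.choose_spec (exists_surjective_nat (List ℚ × ℕ))

noncomputable def val (y : List ℚ) (r : ℕ) : ℝ := ((r : ℝ) + 1) * ((y.getD r 0 : ℚ) : ℝ)

def lev (n : ℕ) : ℕ := Nat.log 2 n - 1 - Nat.log 2 (n - 2 ^ Nat.log 2 n)

noncomputable def a (n : ℕ) : ℝ :=
  if |val (en (lev n)).1 (n % (en (lev n)).2)| ≤ (Nat.log 2 n : ℝ) then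
    val (en (lev n)).1 (n % (en (lev n)).2) else 0

lemma abs_a (n : ℕ) : |a n| ≤ (Nat.log 2 n : ℝ) := by
  unfold a
  split_ifs with h
  · exact h
  · simp

noncomputable def u (n : ℕ) : ℝ := a n / ((n : ℝ) + 1)

lemma u_tend : Tendsto u atTop (𝓝 0) := by
  have h1 : Tendsto (fun j : ℕ => (j : ℝ) / 2 ^ j) atTop (𝓝 0) := by
    have := tendsto_self_mul_const_pow_of_lt_one (r := (1 / 2 : ℝ)) (by norm_num) (by norm_num)
    refine this.congr (fun j => ?_)
    rw [one_div, inv_pow, div_eq_mul_inv]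
  have h2 : Tendsto (Nat.log 2) atTop atTop := by
    refine tendsto_atTop.2 (fun b => ?_)
    filter_upwards [eventually_ge_atTop (2 ^ b)] with n hn
    exact Nat.le_log_of_pow_le (by norm_num) hn
  refine squeeze_zero_norm (fun n => ?_) (h1.comp h2)
  unfold u
  rw [Real.norm_eq_abs, abs_div, abs_of_pos (by positivity : (0 : ℝ) < (n : ℝ) + 1)]
  have h3 : 2 ^ Nat.log 2 n ≤ n + 1 := by
    rcases Nat.eq_zero_or_pos n with h | h
    · simp [h]
    · exact (Nat.pow_log_le_self 2 h.ne').trans (Nat.le_succ n)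
  have h4 : (2 : ℝ) ^ Nat.log 2 n ≤ (n : ℝ) + 1 := by exact_mod_cast h3
  exact div_le_div₀ (by positivity) (abs_a n) (by positivity) h4

lemma log_block {p l m : ℕ} (h1 : 2 ^ (p + l + 2) + 2 ^ (p + 1) ≤ m)
    (h2 : m < 2 ^ (p + l + 2) + 2 ^ (p + 2)) : Nat.log 2 m = p + l + 2 ∧ lev m = l := by
  have h3 : 2 ^ (p + 2) ≤ 2 ^ (p + l + 2) := Nat.pow_le_pow_right (by norm_num) (by omega)
  have h0 : 2 ^ (p + l + 2) ≤ m := le_trans (Nat.le_add_right _ _) h1
  have h4 : Nat.log 2 m = p + l + 2 := by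
    apply Nat.log_eq_of_pow_le_of_lt_pow
    · exact h0
    · rw [pow_succ 2 (p + l + 2)]; omega
  refine ⟨h4, ?_⟩
  unfold lev
  rw [h4]
  have h5 : Nat.log 2 (m - 2 ^ (p + l + 2)) = p + 1 := by
    apply Nat.log_eq_of_pow_le_of_lt_pow
    · omega
    · rw [show p + 1 + 1 = p + 2 by ring]; omega
  rw [h5]; omega

lemma visit (w : X) (e : ℕ) (hw : ∀ n, Nat.log 2 n % 2 = e → w n = u n)
    (y : List ℚ) (ε : ℝ) (hε : 0 < ε) :
    ∃ l N P : ℕ, 0 < N ∧ ∀ p, P ≤ p → (p + l) % 2 = e → ∀ n, N ∣ n →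
      2 ^ (p + l + 2) + 2 ^ (p + 1) ≤ n → n < 2 ^ (p + l + 2) + 2 ^ (p + 1) + 2 ^ p →
      ∀ k, |(T ^ n) w k - ((y.getD k 0 : ℚ) : ℝ)| ≤ ε := by
  have hz : ∀ k, y.length ≤ k → ((y.getD k 0 : ℚ) : ℝ) = 0 := fun k hk => by
    rw [List.getD_eq_default _ _ hk]; simp
  obtain ⟨M, hM⟩ : ∃ M : ℕ, ∀ r, |val y r| ≤ M := by
    obtain ⟨M, hM⟩ := exists_nat_ge (∑ r ∈ Finset.range y.length, |val y r|)
    refine ⟨M, fun r => le_trans ?_ hM⟩
    rcases lt_or_ge r y.length with h | h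
    · exact Finset.single_le_sum (f := fun r => |val y r|) (fun i _ => abs_nonneg _)
        (Finset.mem_range.2 h)
    · unfold val
      rw [hz r h, mul_zero, abs_zero]
      exact Finset.sum_nonneg (fun i _ => abs_nonneg _)
  obtain ⟨N0, hN0⟩ := exists_nat_ge ((M : ℝ) / ε)
  set N := N0 + y.length + 1 with hN
  obtain ⟨l, hl⟩ := en_surj (y, N)
  have hc : (0 : ℝ) < 2 ^ (l + 3) + 1 := by positivity
  obtain ⟨P0, hP0⟩ := eventually_atTop.1
    ((tend w).abs.eventually (gt_mem_nhds (show |(0 : ℝ)| < ε / (2 ^ (l + 3) + 1) by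
      rw [abs_zero]; positivity)))
  refine ⟨l, N, P0 + M + y.length, by omega, fun p hp he n hn h1 h2 k => ?_⟩
  have hk : (0 : ℝ) < (k : ℝ) + 1 := by positivity
  rw [T_pow]
  rcases lt_or_ge (n + k) (2 ^ (p + l + 2) + 2 ^ (p + 2)) with h | h
  · obtain ⟨h3, h4⟩ := log_block (h1.trans (Nat.le_add_right n k)) h
    have h5 : w (n + k) = val y (k % N) / ((n : ℝ) + k + 1) := by
      rw [hw _ (by rw [h3, ← he]; omega)]
      unfold u a
      rw [h4, hl, h3]
      have h6 : (n + k) % N = k % N := by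
        obtain ⟨c, rfl⟩ := hn
        exact Nat.mul_add_mod _ _ _
      simp only [h6]
      rw [if_pos]
      · push_cast; rfl
      · refine (hM _).trans ?_
        exact_mod_cast (by omega : M ≤ p + l + 2)
    have h7 : ((n : ℝ) + k + 1) / ((k : ℝ) + 1) * w (n + k) = val y (k % N) / ((k : ℝ) + 1) := by
      rw [h5]
      have : (0 : ℝ) < (n : ℝ) + k + 1 := by positivity
      field_simp
    rw [h7]
    rcases lt_or_ge k N with h8 | h8
    · rw [Nat.mod_eq_of_lt h8]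
      unfold val
      rw [mul_div_cancel_left₀ _ hk.ne', sub_self, abs_zero]
      exact hε.le
    · rw [hz k (by omega), sub_zero, abs_div, abs_of_pos hk, div_le_iff₀ hk]
      refine (hM _).trans ?_
      rw [div_le_iff₀ hε] at hN0
      have : (N0 : ℝ) ≤ k := by exact_mod_cast (by omega : N0 ≤ k)
      nlinarith
  · have h3 : 2 ^ (p + 2) = 2 ^ (p + 1) + 2 ^ p + 2 ^ p := by ring
    have h4 : 2 ^ p ≤ k := by omega
    have h5 : p < 2 ^ p := Nat.lt_two_pow_self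
    rw [hz k (by omega), sub_zero, abs_mul]
    have h6 : n ≤ 2 ^ (l + 3) * k := by
      have h7 : 2 ^ (p + 2) ≤ 2 ^ (p + l + 2) := Nat.pow_le_pow_right (by norm_num) (by omega)
      have h8 : 2 ^ (l + 3) * 2 ^ p = 2 ^ (p + l + 2) + 2 ^ (p + l + 2) := by ring
      have h9 : 2 ^ (l + 3) * 2 ^ p ≤ 2 ^ (l + 3) * k := Nat.mul_le_mul_left _ h4
      omega
    have h7 : |((n : ℝ) + k + 1) / ((k : ℝ) + 1)| ≤ 2 ^ (l + 3) + 1 := by
      rw [abs_of_pos (by positivity), div_le_iff₀ hk]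
      have : (n : ℝ) ≤ 2 ^ (l + 3) * k := by exact_mod_cast h6
      have h10 : (0 : ℝ) < 2 ^ (l + 3) := by positivity
      nlinarith
    have h8 := hP0 (n + k) (by omega)
    calc _ ≤ (2 ^ (l + 3) + 1) * (ε / (2 ^ (l + 3) + 1)) :=
          mul_le_mul h7 h8.le (abs_nonneg _) hc.le
      _ = ε := by field_simp

lemma count (Q : ℕ → Prop) (e l N P : ℕ) (he : e < 2) (hN : 0 < N)
    (hQ : ∀ p, P ≤ p → (p + l) % 2 = e → ∀ n, N ∣ n →
      2 ^ (p + l + 2) + 2 ^ (p + 1) ≤ n → n < 2 ^ (p + l + 2) + 2 ^ (p + 1) + 2 ^ p → Q n) :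
    ∃ δ : ℝ, 0 < δ ∧ ∀ᶠ m : ℕ in atTop,
      δ * (m : ℝ) ≤ (({n : ℕ | n < m ∧ Q n}.ncard : ℕ) : ℝ) := by
  refine ⟨1 / (4 * N * 2 ^ (l + 5)), by positivity, ?_⟩
  filter_upwards [eventually_ge_atTop (2 ^ (P + 4 * N + l + 4))] with m hm
  have hm0 : m ≠ 0 := by
    have : 0 < 2 ^ (P + 4 * N + l + 4) := by positivity
    omega
  have h1 : P + 4 * N + l + 4 ≤ Nat.log 2 m := Nat.le_log_of_pow_le (by norm_num) hm
  obtain ⟨p, hp1, hp2, hp3, hp4⟩ : ∃ p, P + 4 * N ≤ p ∧ (p + l) % 2 = e ∧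
      p + l + 3 ≤ Nat.log 2 m ∧ Nat.log 2 m ≤ p + l + 4 := by
    by_cases h : (Nat.log 2 m - 3) % 2 = e
    · exact ⟨Nat.log 2 m - l - 3, by omega, by
        rw [show Nat.log 2 m - l - 3 + l = Nat.log 2 m - 3 by omega]; exact h, by omega, by omega⟩
    · exact ⟨Nat.log 2 m - l - 4, by omega, by
        rw [show Nat.log 2 m - l - 4 + l = Nat.log 2 m - 4 by omega]; omega, by omega, by omega⟩
  have h2 : 2 ^ (p + l + 3) ≤ m :=
    (Nat.pow_le_pow_right (by norm_num) hp3).trans (Nat.pow_log_le_self 2 hm0)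
  have h3 : m < 2 ^ (p + l + 5) :=
    (Nat.lt_pow_succ_log_self (by norm_num) m).trans_le
      (Nat.pow_le_pow_right (by norm_num) (by omega))
  set s := 2 ^ (p + l + 2) + 2 ^ (p + 1) with hs
  set q := 2 ^ p / (2 * N) with hq
  have hq1 : 2 * N * q ≤ 2 ^ p := Nat.mul_div_le _ _
  have hq2 : 2 ^ p < 2 * N * (q + 1) := Nat.lt_mul_div_succ _ (by omega)
  have h5 : p < 2 ^ p := Nat.lt_two_pow_self
  have hsub : ((Finset.range q).image (fun t => N * (s / N + 1 + t)) : Set ℕ) ⊆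
      {n : ℕ | n < m ∧ Q n} := by
    intro n hn
    simp only [Finset.coe_image, Finset.coe_range, Set.mem_image, Set.mem_Iio] at hn
    obtain ⟨t, ht, rfl⟩ := hn
    have h6 : s < N * (s / N + 1) := Nat.lt_mul_div_succ _ hN
    have h7 : N * (s / N) ≤ s := Nat.mul_div_le _ _
    have h8 : N * (t + 1) ≤ N * q := Nat.mul_le_mul_left _ ht
    have h9 : N * (s / N + 1 + t) < s + 2 ^ p := by nlinarith
    have h10 : 2 ^ (p + 2) ≤ 2 ^ (p + l + 2) := Nat.pow_le_pow_right (by norm_num) (by omega)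
    have h11 : 2 ^ (p + 2) = 2 ^ (p + 1) + 2 ^ p + 2 ^ p := by ring
    have h12 : 2 ^ (p + l + 3) = 2 ^ (p + l + 2) + 2 ^ (p + l + 2) := by ring
    refine ⟨by omega, hQ p (by omega) hp2 _ (Dvd.intro _ rfl) (by nlinarith) h9⟩
  have hfin : {n : ℕ | n < m ∧ Q n}.Finite :=
    (Set.finite_Iio m).subset (fun n hn => hn.1)
  have h13 := Set.ncard_le_ncard hsub hfin
  rw [Set.ncard_coe_finset, Finset.card_image_of_injective _ (fun a b hab => by
    have := Nat.eq_of_mul_eq_mul_left hN hab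
    omega), Finset.card_range] at h13
  have h14 : m ≤ q * (4 * N * 2 ^ (l + 5)) := by
    have h15 : 2 ^ p ≤ 4 * N * q := by nlinarith
    have h16 : 2 ^ (p + l + 5) = 2 ^ p * 2 ^ (l + 5) := by ring
    have h17 : 2 ^ p * 2 ^ (l + 5) ≤ 4 * N * q * 2 ^ (l + 5) := Nat.mul_le_mul_right _ h15
    nlinarith
  have h18 : (m : ℝ) ≤ q * (4 * N * 2 ^ (l + 5)) := by exact_mod_cast h14
  have h19 : (q : ℝ) ≤ (({n : ℕ | n < m ∧ Q n}.ncard : ℕ) : ℝ) := by exact_mod_cast h13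
  refine le_trans ?_ h19
  rw [one_div, inv_mul_le_iff₀ (by positivity)]
  linarith

theorem fhc (w : X) (e : ℕ) (he : e < 2) (hw : ∀ n, Nat.log 2 n % 2 = e → w n = u n)
    (U : Set X) (hU : IsOpen U) (hne : U.Nonempty) :
    ∃ δ : ℝ, 0 < δ ∧ ∀ᶠ m : ℕ in atTop,
      δ * (m : ℝ) ≤ (({n : ℕ | n < m ∧ (T ^ n) w ∈ U}.ncard : ℕ) : ℝ) := by
  obtain ⟨x, hx⟩ := hne
  obtain ⟨r, hr, hball⟩ := Metric.isOpen_iff.1 hU x hx
  obtain ⟨L, hL⟩ := eventually_atTop.1
    ((tend x).abs.eventually (gt_mem_nhds (show |(0 : ℝ)| < r / 4 by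
      rw [abs_zero]; positivity)))
  choose q hq using fun k : ℕ => exists_rat_near (x k) (show 0 < r / 4 by positivity)
  set y : List ℚ := List.ofFn (fun i : Fin L => q i) with hy
  have hy2 : ∀ k, |((y.getD k 0 : ℚ) : ℝ) - x k| ≤ r / 4 := by
    intro k
    rcases lt_or_ge k L with h | h
    · have : y.getD k 0 = q k := by
        rw [List.getD_eq_getElem _ _ (by simpa [hy] using h)]
        simp [hy]
      rw [this, abs_sub_comm]
      exact (hq k).le
    · rw [List.getD_eq_default _ _ (by simpa [hy] using h)]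
      simpa using (hL k h).le
  obtain ⟨l, N, P, hN, h⟩ := visit w e hw y (r / 4) (by positivity)
  refine count (fun n => (T ^ n) w ∈ U) e l N P he hN (fun p hp hpe n hn h1 h2 => ?_)
  apply hball
  rw [Metric.mem_ball, dist_eq_norm]
  refine lt_of_le_of_lt (norm_le _ (C := r / 2) (fun k => ?_)) (by linarith)
  have h3 := h p hp hpe n hn h1 h2 k
  have h4 := hy2 k
  rw [ZeroAtInftyContinuousMap.sub_apply]
  calc _ = |((T ^ n) w k - ((y.getD k 0 : ℚ) : ℝ)) + (((y.getD k 0 : ℚ) : ℝ) - x k)| := by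
        congr 1; ring
    _ ≤ _ := abs_add_le _ _
    _ ≤ r / 2 := by linarith

lemma mix_tend (x : X) (e : ℕ) :
    Tendsto (fun n => if Nat.log 2 n % 2 = e then u n else x n - u n) atTop (𝓝 0) := by
  refine squeeze_zero_norm (a := fun n => |x n| + |u n|) (fun n => ?_) ?_
  · rw [Real.norm_eq_abs]
    split_ifs
    · linarith [abs_nonneg (x n)]
    · exact abs_sub _ _
  · simpa using (tend x).abs.add u_tend.abs

noncomputable def mix (x : X) (e : ℕ) : X := mk0 _ (mix_tend x e)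

lemma mix_eq (x : X) (e n : ℕ) (h : Nat.log 2 n % 2 = e) : mix x e n = u n := if_pos h

lemma mix_ne (x : X) (e n : ℕ) (h : Nat.log 2 n % 2 ≠ e) : mix x e n = x n - u n := if_neg h

end Pool.Agent.H28.FHC
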