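import Mathlib

set_option autoImplicit false

open MeasureTheory Set
open scoped ENNReal

namespace Pool.Agent.H28.FourFn

theorem ennreal_lem (p q c d : ℝ≥0∞) (hp : p ≤ c) (hq : q ≤ c) (h : p * q ≤ c * d) :
    p + q ≤ c + d := by
  rcases eq_or_ne c ⊤ with rfl | hc
  · simp
  rcases eq_or_ne d ⊤ with rfl | hd
  · simp
  rcases eq_or_ne c 0 with rfl | hc0
  · simp only [nonpos_iff_eq_zero] at hp hq; simp [hp, hq]
  lift c to NNReal using hc
  lift d to NNReal using hd
  lift p to NNReal using (ne_top_of_le_ne_top ENNReal.coe_ne_top hp)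
  lift q to NNReal using (ne_top_of_le_ne_top ENNReal.coe_ne_top hq)
  have hp' : (p : ℝ) ≤ c := by exact_mod_cast hp
  have hq' : (q : ℝ) ≤ c := by exact_mod_cast hq
  have h' : (p : ℝ) * q ≤ c * d := by exact_mod_cast h
  have hc' : (0 : ℝ) < c := by
    have : c ≠ 0 := by simpa using hc0
    positivity
  have : (p : ℝ) + q ≤ c + d := by
    apply le_of_mul_le_mul_left _ hc'
    nlinarith [mul_nonneg (sub_nonneg.2 hp') (sub_nonneg.2 hq')]
  exact_mod_cast this

theorem four_one (a1 a2 a3 a4 : ℝ → ℝ≥0∞) (m1 : Measurable a1) (m2 : Measurable a2)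
    (m3 : Measurable a3) (m4 : Measurable a4) (h : ∀ s t, a1 s * a2 t ≤ a3 (s ⊔ t) * a4 (s ⊓ t)) :
    (∫⁻ s, a1 s) * (∫⁻ s, a2 s) ≤ (∫⁻ s, a3 s) * (∫⁻ s, a4 s) := by
  have key : ∀ s t, s ≤ t → a1 s * a2 t + a1 t * a2 s ≤ a3 s * a4 t + a3 t * a4 s := by
    intro s t hst
    rw [add_comm (a3 s * a4 t)]
    apply ennreal_lem
    · simpa [hst] using h s t
    · simpa [hst] using h t s
    · have h1 := h s s
      have h2 := h t t
      simp only [sup_idem, inf_idem] at h1 h2
      calc a1 s * a2 t * (a1 t * a2 s) = (a1 s * a2 s) * (a1 t * a2 t) := by ring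
        _ ≤ (a3 s * a4 s) * (a3 t * a4 t) := mul_le_mul' h1 h2
        _ = _ := by ring
  have key2 : ∀ s t, a1 s * a2 t + a1 t * a2 s ≤ a3 s * a4 t + a3 t * a4 s := by
    intro s t
    rcases le_total s t with hst | hst
    · exact key s t hst
    · rw [add_comm, add_comm (a3 s * a4 t)]; exact key t s hst
  have e : ∀ (b1 b2 : ℝ → ℝ≥0∞), Measurable b1 → Measurable b2 →
      ∫⁻ s, ∫⁻ t, (b1 s * b2 t + b1 t * b2 s) = 2 * ((∫⁻ s, b1 s) * (∫⁻ s, b2 s)) := by
    intro b1 b2 n1 n2
    have : ∀ s, ∫⁻ t, (b1 s * b2 t + b1 t * b2 s) = b1 s * (∫⁻ t, b2 t) + (∫⁻ t, b1 t) * b2 s := by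
      intro s
      rw [lintegral_add_left (n2.const_mul _), lintegral_const_mul _ n2, lintegral_mul_const _ n1]
    simp only [this]
    rw [lintegral_add_left (n1.mul_const _), lintegral_mul_const _ n1, lintegral_const_mul _ n2, two_mul]
  have h1 : 2 * ((∫⁻ s, a1 s) * (∫⁻ s, a2 s)) ≤ 2 * ((∫⁻ s, a3 s) * (∫⁻ s, a4 s)) := by
    rw [← e a1 a2 m1 m2, ← e a3 a4 m3 m4]
    exact lintegral_mono (fun s => lintegral_mono (fun t => key2 s t))
  exact (ENNReal.mul_le_mul_iff_right (by norm_num) (by norm_num)).1 h1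

/-- The four functions theorem of Ahlswede, Daykin, Karlin and Rinott for Lebesgue measure. -/
theorem four_functions {ι : Type} [Fintype ι] [DecidableEq ι] (f1 f2 f3 f4 : (ι → ℝ) → ℝ≥0∞)
    (m1 : Measurable f1) (m2 : Measurable f2) (m3 : Measurable f3) (m4 : Measurable f4)
    (h : ∀ x y, f1 x * f2 y ≤ f3 (x ⊔ y) * f4 (x ⊓ y)) :
    (∫⁻ x, f1 x) * (∫⁻ x, f2 x) ≤ (∫⁻ x, f3 x) * (∫⁻ x, f4 x) := by
  have key : ∀ s : Finset ι, ∀ x y,
      lmarginal (fun _ => volume) s f1 x * lmarginal (fun _ => volume) s f2 y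
        ≤ lmarginal (fun _ => volume) s f3 (x ⊔ y) * lmarginal (fun _ => volume) s f4 (x ⊓ y) := by
    intro s
    induction s using Finset.induction_on with
    | empty => simpa using h
    | insert i s hi ih =>
      intro x y
      rw [lmarginal_insert _ m1 hi, lmarginal_insert _ m2 hi, lmarginal_insert _ m3 hi,
        lmarginal_insert _ m4 hi]
      apply four_one
      · exact (m1.lmarginal _).comp (measurable_update _)
      · exact (m2.lmarginal _).comp (measurable_update _)
      · exact (m3.lmarginal _).comp (measurable_update _)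
      · exact (m4.lmarginal _).comp (measurable_update _)
      · intro a b
        have := ih (Function.update x i a) (Function.update y i b)
        have e1 : Function.update x i a ⊔ Function.update y i b = Function.update (x ⊔ y) i (a ⊔ b) := by
          funext j; by_cases hj : j = i
          · subst hj; simp
          · simp [hj]
        have e2 : Function.update x i a ⊓ Function.update y i b = Function.update (x ⊓ y) i (a ⊓ b) := by
          funext j; by_cases hj : j = i
          · subst hj; simp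
          · simp [hj]
        rwa [e1, e2] at this
  have := key Finset.univ 0 0
  simp only [lmarginal_univ] at this
  exact this

end Pool.Agent.H28.FourFn
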