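import Mathlib

set_option autoImplicit false

open Real

namespace Pool.Agent.H28.Geno

lemma sin_up {x : ℝ} (h0 : 0 ≤ x) (h1 : x ≤ 1) : sin x ≤ x - x ^ 3 / 6 + x ^ 5 / 100 := by
  have := (abs_le.1 (sin_bound (x := x) (by rwa [abs_of_nonneg h0]))).2
  rw [abs_of_nonneg h0] at this; linarith

lemma sin_lo {x : ℝ} (h0 : 0 ≤ x) (h1 : x ≤ 1) : x - x ^ 3 / 6 - x ^ 5 / 100 ≤ sin x := by
  have := (abs_le.1 (sin_bound (x := x) (by rwa [abs_of_nonneg h0]))).1
  rw [abs_of_nonneg h0] at this; linarith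

lemma cos_up {x : ℝ} (h0 : 0 ≤ x) (h1 : x ≤ 1) : cos x ≤ 1 - x ^ 2 / 2 + x ^ 4 * (5 / 96) := by
  have := (abs_le.1 (cos_bound (x := x) (by rwa [abs_of_nonneg h0]))).2
  rw [abs_of_nonneg h0] at this; linarith

lemma cos_lo {y : ℝ} (h0 : 0 ≤ y) (h1 : y ≤ 1) :
    1 - y ^ 2 / 2 + y ^ 4 / 24 - y ^ 6 / 600 ≤ cos y := by
  have e : cos y = 1 - 2 * sin (y / 2) ^ 2 := by
    have := cos_two_mul (y / 2)
    rw [show 2 * (y / 2) = y by ring] at this
    nlinarith [sin_sq_add_cos_sq (y / 2)]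
  have s0 : 0 ≤ sin (y / 2) := sin_nonneg_of_nonneg_of_le_pi (by linarith) (by linarith [pi_gt_three])
  have s1 := pow_le_pow_left₀ s0 (sin_up (x := y / 2) (by linarith) (by linarith)) 2
  have p6 : 0 ≤ y ^ 6 := by positivity
  have p8 : 0 ≤ y ^ 8 := by positivity
  have p10 : y ^ 10 ≤ y ^ 6 := pow_le_pow_of_le_one h0 h1 (by norm_num)
  have e2 : (y / 2 - (y / 2) ^ 3 / 6 + (y / 2) ^ 5 / 100) ^ 2 = y ^ 2 / 4 - y ^ 4 / 48 +
      (1 / 2304 + 1 / 3200) * y ^ 6 - y ^ 8 / 76800 + y ^ 10 / 10240000 := by ring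
  rw [e2] at s1
  linarith

lemma regA1 {y t b : ℝ} (h0 : 0 ≤ y) (h1 : y ≤ 1) (ht : 0.6366 * y ≤ t) (hb : 0.611 ≤ b) :
    sin y ≤ t * (1 + b * cos y) := by
  have c0 : 0 ≤ cos y := (cos_pos_of_le_one (by rwa [abs_of_nonneg h0])).le
  have c1 := cos_lo h0 h1
  have s1 := sin_up h0 h1
  set u := y ^ 2 with hu
  have u0 : 0 ≤ u := by positivity
  have u1 : u ≤ 1 := pow_le_one₀ h0 h1
  have k : 1 - u / 6 + u ^ 2 / 100 ≤ 0.6366 * (1 + 0.611 * (1 - u / 2 + u ^ 2 / 24 - u ^ 3 / 600)) := by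
    have : u ^ 3 ≤ u ^ 2 := pow_le_pow_of_le_one u0 u1 (by norm_num)
    nlinarith [mul_nonneg (sub_nonneg.2 u1) (sub_nonneg.2 u1)]
  have e1 : y ^ 4 = u ^ 2 := by rw [hu]; ring
  have e2 : y ^ 6 = u ^ 3 := by rw [hu]; ring
  rw [e1, e2] at c1
  have k2 : 1 - u / 6 + u ^ 2 / 100 ≤ 0.6366 * (1 + b * cos y) := by nlinarith
  calc sin y ≤ y * (1 - u / 6 + u ^ 2 / 100) := by rw [hu]; linarith
    _ ≤ y * (0.6366 * (1 + b * cos y)) := mul_le_mul_of_nonneg_left k2 h0
    _ = (0.6366 * y) * (1 + b * cos y) := by ring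
    _ ≤ _ := mul_le_mul_of_nonneg_right ht (by positivity)

lemma regA2 {r t b : ℝ} (h0 : 0 ≤ r) (h1 : r ≤ 0.571) (ht : 1 - b * r - r ^ 2 / 50 ≤ t)
    (hb : 0.611 ≤ b) (hb' : b ≤ 0.6367) : cos r ≤ t * (1 + b * sin r) := by
  have c1 := cos_up h0 (by linarith)
  have s1 := sin_lo h0 (by linarith)
  have s0 : 0 ≤ sin r := sin_nonneg_of_nonneg_of_le_pi h0 (by linarith [pi_gt_three])
  have br : b * r ≤ 0.3636 := by nlinarith
  have r2 : r ^ 2 ≤ 0.3261 := by nlinarith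
  have t0 : 0 ≤ 1 - b * r - r ^ 2 / 50 := by linarith
  have b2 : b ^ 2 ≤ 0.4054 := by nlinarith
  have b3 : 0.3733 ≤ b ^ 2 := by nlinarith
  have e : (1 - b * r - r ^ 2 / 50) * (1 + b * (r - r ^ 3 / 6 - r ^ 5 / 100)) -
      (1 - r ^ 2 / 2 + r ^ 4 * (5 / 96)) = r ^ 2 * (12 / 25 - b ^ 2 - (b * r) * (14 / 75) +
      r ^ 2 * (b ^ 2 / 6 - 5 / 96) - (b * r) * r ^ 2 / 150 + (b * r) ^ 2 * r ^ 2 / 100 +
      (b * r) * r ^ 4 / 5000) := by ring
  have br0 : 0 ≤ b * r := by positivity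
  have p1 : 0 ≤ r ^ 2 * (b ^ 2 / 6 - 5 / 96) := mul_nonneg (by positivity) (by linarith)
  have p2 : (b * r) * r ^ 2 ≤ 0.3636 * 0.3261 := mul_le_mul br r2 (by positivity) (by norm_num)
  have p3 : 0 ≤ (b * r) ^ 2 * r ^ 2 := by positivity
  have p4 : 0 ≤ (b * r) * r ^ 4 := by positivity
  have k : 0 ≤ r ^ 2 * (12 / 25 - b ^ 2 - (b * r) * (14 / 75) +
      r ^ 2 * (b ^ 2 / 6 - 5 / 96) - (b * r) * r ^ 2 / 150 + (b * r) ^ 2 * r ^ 2 / 100 +
      (b * r) * r ^ 4 / 5000) := mul_nonneg (by positivity) (by linarith)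
  calc cos r ≤ (1 - b * r - r ^ 2 / 50) * (1 + b * (r - r ^ 3 / 6 - r ^ 5 / 100)) := by linarith
    _ ≤ (1 - b * r - r ^ 2 / 50) * (1 + b * sin r) := by gcongr
    _ ≤ _ := mul_le_mul_of_nonneg_right ht (by positivity)

lemma regB {r t b : ℝ} (h0 : 0 ≤ r) (h1 : r ≤ 1) (ht : 1 + b * r - r ^ 2 / 50 - b * r ^ 3 / 100 ≤ t)
    (hb : 0.611 ≤ b) (hb' : b ≤ 0.6367) : cos r ≤ t * (1 - b * sin r) := by
  have c1 := cos_up h0 h1
  have s1 := sin_le h0
  have br : b * r ≤ 0.6367 := by nlinarith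
  have r2 : r ^ 2 ≤ 1 := pow_le_one₀ h0 h1
  have r3 : r ^ 3 ≤ r := pow_le_of_le_one h0 h1 (by norm_num)
  have b2 : b ^ 2 ≤ 0.4054 := by nlinarith
  have br0 : 0 ≤ b * r := by positivity
  have t0 : 0 ≤ 1 + b * r - r ^ 2 / 50 - b * r ^ 3 / 100 := by nlinarith
  have e : (1 + b * r - r ^ 2 / 50 - b * r ^ 3 / 100) * (1 - b * r) -
      (1 - r ^ 2 / 2 + r ^ 4 * (5 / 96)) = r ^ 2 * (12 / 25 - b ^ 2 + (b * r) / 100 +
      (b * r) ^ 2 / 100 - r ^ 2 * (5 / 96)) := by ring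
  have k : 0 ≤ r ^ 2 * (12 / 25 - b ^ 2 + (b * r) / 100 + (b * r) ^ 2 / 100 - r ^ 2 * (5 / 96)) :=
    mul_nonneg (by positivity) (by nlinarith [sq_nonneg (b * r)])
  have k2 : b * sin r ≤ b * r := mul_le_mul_of_nonneg_left s1 (by linarith)
  calc cos r ≤ (1 + b * r - r ^ 2 / 50 - b * r ^ 3 / 100) * (1 - b * r) := by linarith
    _ ≤ (1 + b * r - r ^ 2 / 50 - b * r ^ 3 / 100) * (1 - b * sin r) := by gcongr
    _ ≤ _ := mul_le_mul_of_nonneg_right ht (by linarith)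

lemma regC {A t B y : ℝ} (hA : 0 < A) (ht : 1.5 ≤ t) (hB0 : 0 ≤ B) (hB : B ≤ 0.6367 * A) :
    0 ≤ A * (t - sin y) + t * B * cos y := by
  have h1 : (A * sin y - t * B * cos y) ^ 2 ≤ A ^ 2 + (t * B) ^ 2 := by
    nlinarith [sq_nonneg (A * cos y + t * B * sin y), sin_sq_add_cos_sq y]
  have h2 : B ^ 2 ≤ 0.4054 * A ^ 2 := by nlinarith
  have t2 : 2.25 ≤ t ^ 2 := by nlinarith
  have h3 : A ^ 2 + (t * B) ^ 2 ≤ (A * t) ^ 2 := by
    have a2 : 0 < A ^ 2 := by positivity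
    nlinarith [mul_le_mul_of_nonneg_left h2 (sq_nonneg t), mul_le_mul_of_nonneg_left t2 a2.le]
  have := le_of_sq_le_sq (h1.trans h3) (by positivity)
  linarith

lemma main {N θ : ℝ} (hN : 5 ≤ N) (h0 : 0 < θ) (h1 : θ ≤ π / 2) :
    0 ≤ (N - 1 + (sin θ / sin (π / (2 * N))) ^ 2) * (sin θ / sin (π / (2 * N)) - sin (N * θ)) +
      sin θ / sin (π / (2 * N)) * (cos θ / sin (π / (2 * N))) * cos (N * θ) := by
  have N0 : 0 < N := by linarith
  have p1 := pi_gt_d4
  have p2 := pi_lt_d4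
  set a := π / (2 * N) with ha
  have a0 : 0 < a := by positivity
  have Na : N * a = π / 2 := by rw [ha]; field_simp
  have a1 : a ≤ 0.31416 := by nlinarith
  have s0 : 0 < sin a := sin_pos_of_pos_of_lt_pi a0 (by linarith)
  set b := cos a / (N * sin a) with hb
  have hbs : b * N * sin a = cos a := by rw [hb]; field_simp
  have b1 : 0.611 ≤ b := by
    rw [hb, le_div_iff₀ (by positivity)]
    have s1 := mul_le_mul_of_nonneg_left (sin_up a0.le (by linarith)) N0.le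
    have e : N * (a - a ^ 3 / 6 + a ^ 5 / 100) = π / 2 * (1 - a ^ 2 / 6 + a ^ 4 / 100) := by
      rw [← Na]; ring
    have a2 : a ^ 2 ≤ 0.0987 := by nlinarith
    have a4 : a ^ 4 ≤ 0.01 := by nlinarith [sq_nonneg a]
    have k : π / 2 * (1 - a ^ 2 / 6 + a ^ 4 / 100) ≤ 1.5708 * (1 - a ^ 2 / 6 + a ^ 4 / 100) :=
      mul_le_mul_of_nonneg_right (by linarith) (by nlinarith [sq_nonneg (a ^ 2)])
    nlinarith [one_sub_sq_div_two_le_cos (x := a)]
  have c0 : 0 < cos a := cos_pos_of_le_one (by rw [abs_of_pos a0]; linarith)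
  have b2 : b ≤ 0.6367 := by
    rw [hb, div_le_iff₀ (by positivity)]
    have := le_tan a0.le (by linarith)
    rw [tan_eq_sin_div_cos, le_div_iff₀ c0] at this
    have h2 := mul_le_mul_of_nonneg_left this N0.le
    rw [← mul_assoc, Na] at h2
    nlinarith
  set t := sin θ / sin a with ht
  set B := cos θ / sin a with hB
  have t0 : 0 < t := div_pos (sin_pos_of_pos_of_lt_pi h0 (by linarith)) s0
  have B0 : 0 ≤ B := div_nonneg (cos_nonneg_of_mem_Icc ⟨by linarith, h1⟩) s0.le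
  have tadd : ∀ e, sin (a + e) / sin a = cos e + b * N * sin e := by
    intro e; rw [sin_add, ← hbs]; field_simp
  rcases le_total θ a with h | h
  · have t1 : t ≤ 1 := by
      rw [ht, div_le_one s0]; exact sin_le_sin_of_le_of_le_pi_div_two (by linarith) (by linarith) h
    have B1 : b * N ≤ B := by
      rw [hB, le_div_iff₀ s0, hbs]; exact cos_le_cos_of_nonneg_of_le_pi h0.le (by linarith) h
    have y0 : 0 ≤ N * θ := by positivity
    have y1 : N * θ ≤ π / 2 := Na ▸ mul_le_mul_of_nonneg_left h N0.le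
    have cy : 0 ≤ cos (N * θ) := cos_nonneg_of_mem_Icc ⟨by linarith, y1⟩
    have key : sin (N * θ) ≤ t * (1 + b * cos (N * θ)) := by
      rcases le_total (N * θ) 1 with h2 | h2
      · refine regA1 y0 h2 ?_ b1
        have := strictConcaveOn_sin_Icc.concaveOn.2
          (show (0 : ℝ) ∈ Set.Icc 0 π from ⟨le_rfl, by linarith⟩)
          (show a ∈ Set.Icc 0 π from ⟨a0.le, by linarith⟩)
          (sub_nonneg.2 ((div_le_one a0).2 h)) (show 0 ≤ θ / a by positivity) (by ring)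
        simp only [sin_zero, smul_eq_mul, mul_zero, zero_add, div_mul_cancel₀ _ a0.ne'] at this
        rw [ht, le_div_iff₀ s0]
        refine le_trans (mul_le_mul_of_nonneg_right ?_ s0.le) this
        rw [le_div_iff₀ a0, mul_assoc, mul_right_comm, Na]
        nlinarith
      · set r := π / 2 - N * θ with hr
        have er : N * θ = π / 2 - r := by rw [hr]; ring
        have es : sin (N * θ) = cos r := by rw [er, sin_pi_div_two_sub]
        have ec : cos (N * θ) = sin r := by rw [er, cos_pi_div_two_sub]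
        rw [es, ec]
        have r0 : 0 ≤ r := by linarith
        refine regA2 r0 (by linarith) ?_ b1 b2
        have e : θ = a + -(r / N) := by rw [hr, ← Na]; field_simp; ring
        rw [ht, e, tadd, cos_neg, sin_neg]
        have q1 := one_sub_sq_div_two_le_cos (x := r / N)
        have q2 : N * sin (r / N) ≤ r := by
          have := mul_le_mul_of_nonneg_left (sin_le (x := r / N) (by positivity)) N0.le
          rwa [mul_div_cancel₀ _ N0.ne'] at this
        have q3 : (r / N) ^ 2 ≤ (r / 5) ^ 2 := by gcongr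
        nlinarith
    rcases le_total (sin (N * θ)) t with h3 | h3
    · have : 0 ≤ N - 1 + t ^ 2 := by nlinarith
      have := sub_nonneg.2 h3
      positivity
    · have q1 : N * (t - sin (N * θ)) ≤ (N - 1 + t ^ 2) * (t - sin (N * θ)) :=
        mul_le_mul_of_nonpos_right (by nlinarith) (by linarith)
      have q2 : t * (b * N) * cos (N * θ) ≤ t * B * cos (N * θ) := by gcongr
      nlinarith [mul_le_mul_of_nonneg_left key N0.le]
  · have t1 : 1 ≤ t := by
      rw [ht, one_le_div s0]; exact sin_le_sin_of_le_of_le_pi_div_two (by linarith) h1 h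
    have B1 : B ≤ b * N := by
      rw [hB, div_le_iff₀ s0, hbs]; exact cos_le_cos_of_nonneg_of_le_pi a0.le (by linarith) h
    have A1 : N ≤ N - 1 + t ^ 2 := by nlinarith
    have tlo : ∀ r, 0 ≤ r → r ≤ 1 →
        1 + b * r - r ^ 2 / 50 - b * r ^ 3 / 100 ≤ sin (a + r / N) / sin a := by
      intro r r0 r1
      rw [tadd]
      have x0 : 0 ≤ r / N := by positivity
      have x1 : r / N ≤ r / 5 := by gcongr
      have q1 := one_sub_sq_div_two_le_cos (x := r / N)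
      have q3 : (r / N) ^ 2 ≤ (r / 5) ^ 2 := by gcongr
      have q2 : r - r ^ 3 / 100 ≤ N * sin (r / N) := by
        have := mul_le_mul_of_nonneg_left (sin_lo x0 (by linarith)) N0.le
        have e : N * (r / N - (r / N) ^ 3 / 6 - (r / N) ^ 5 / 100) =
            r - r * ((r / N) ^ 2 / 6 + ((r / N) ^ 2) ^ 2 / 100) := by field_simp; ring
        have q4 : ((r / N) ^ 2) ^ 2 ≤ (r / N) ^ 2 :=
          pow_le_of_le_one (by positivity) (pow_le_one₀ x0 (by linarith)) (by norm_num)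
        have q5 : r * ((r / N) ^ 2 / 6 + ((r / N) ^ 2) ^ 2 / 100) ≤ r * (r ^ 2 / 100) :=
          mul_le_mul_of_nonneg_left (by nlinarith [sq_nonneg r]) r0
        nlinarith
      nlinarith
    set r := N * θ - π / 2 with hr
    have r0 : 0 ≤ r := by have := mul_le_mul_of_nonneg_left h N0.le; linarith
    have e : θ = a + r / N := by rw [hr, ← Na]; field_simp; ring
    rcases le_total r 1 with h2 | h2
    · have key := regB r0 h2 ((tlo r r0 h2).trans_eq (by rw [← e])) b1 b2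
      have er : N * θ = r + π / 2 := by rw [hr]; ring
      have es : sin (N * θ) = cos r := by rw [er, sin_add_pi_div_two]
      have ec : cos (N * θ) = -sin r := by rw [er, cos_add_pi_div_two]
      rw [es, ec]
      have sr : 0 ≤ sin r := sin_nonneg_of_nonneg_of_le_pi r0 (by linarith)
      have q1 : N * (t - cos r) ≤ (N - 1 + t ^ 2) * (t - cos r) :=
        mul_le_mul_of_nonneg_right A1 (by linarith [cos_le_one r])
      have q2 : t * B * sin r ≤ t * (b * N) * sin r := by gcongr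
      nlinarith [mul_le_mul_of_nonneg_left key N0.le]
    · refine regC (by linarith) ?_ B0 (by nlinarith)
      have q1 := tlo 1 zero_le_one le_rfl
      have q2 : sin (a + 1 / N) / sin a ≤ t := by
        rw [ht]
        have : 1 / N ≤ r / N := by gcongr
        have x0 : 0 < 1 / N := by positivity
        gcongr
        exact sin_le_sin_of_le_of_le_pi_div_two (by linarith) h1 (by linarith)
      nlinarith

lemma dirichlet (k : ℕ) (θ : ℝ) :
    sin θ * (1 + 2 * ∑ i ∈ Finset.range k, cos ((i + 1 : ℕ) * (2 * θ))) = sin ((2 * k + 1) * θ) := by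
  induction k with
  | zero => simp
  | succ k ih =>
    rw [Finset.sum_range_succ, mul_add 2, ← add_assoc, mul_add, ih]
    push_cast
    rw [show (2 * (k : ℝ) + 1) * θ = (k + 1) * (2 * θ) - θ by ring,
      show (2 * ((k : ℝ) + 1) + 1) * θ = (k + 1) * (2 * θ) + θ by ring, sin_sub, sin_add]
    ring

/-- the symbol of the quadratic form -/
noncomputable def FF (k : ℕ) (g q ω : ℝ) : ℝ :=
  (g - 1 / 2 + q * g) - ∑ i ∈ Finset.range k, cos ((i + 1 : ℕ) * ω) + q * cos ((k + 1 : ℕ) * ω) -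
    q * g * cos ((1 : ℕ) * ω)

lemma FF_nonneg {k : ℕ} (hk : 2 ≤ k) {s : ℝ} (hs : s = sin (π / (2 * (2 * k + 1)))) {ω : ℝ}
    (h0 : ω ≠ 0) (h1 : |ω| ≤ π) : 0 ≤ FF k (1 / (2 * s)) (1 / (4 * k * s ^ 2)) ω := by
  have k2 : (2 : ℝ) ≤ k := by exact_mod_cast hk
  have e0 : FF k (1 / (2 * s)) (1 / (4 * k * s ^ 2)) ω =
      FF k (1 / (2 * s)) (1 / (4 * k * s ^ 2)) (2 * (|ω| / 2)) := by
    have : ∀ n : ℕ, cos (n * (2 * (|ω| / 2))) = cos (n * ω) := fun n => by
      rw [← cos_abs (n * ω), abs_mul, Nat.abs_cast]; congr 1; ring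
    simp only [FF, this]
  set θ := |ω| / 2 with hθ
  have θ0 : 0 < θ := by have := abs_pos.2 h0; positivity
  have θ1 : θ ≤ π / 2 := by linarith
  have m := main (N := 2 * k + 1) (by linarith) θ0 θ1
  rw [← hs] at m
  have s0 : 0 < s := by
    rw [hs]
    refine sin_pos_of_pos_of_lt_pi (by have := pi_pos; positivity) ?_
    rw [div_lt_iff₀ (by positivity)]; nlinarith [pi_pos]
  have x0 : 0 < sin θ := sin_pos_of_pos_of_lt_pi θ0 (by linarith [pi_pos])
  have d := dirichlet k θ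
  have e1 : cos ((k + 1 : ℕ) * (2 * θ)) =
      cos ((2 * k + 1) * θ) * cos θ - sin ((2 * k + 1) * θ) * sin θ := by
    rw [← cos_add]; congr 1; push_cast; ring
  have e2 : cos ((1 : ℕ) * (2 * θ)) = 1 - 2 * sin θ ^ 2 := by
    rw [Nat.cast_one, one_mul, cos_two_mul]; nlinarith [sin_sq_add_cos_sq θ]
  have e3 : ∑ i ∈ Finset.range k, cos ((i + 1 : ℕ) * (2 * θ)) =
      (sin ((2 * k + 1) * θ) / sin θ - 1) / 2 := by
    rw [← d, mul_div_cancel_left₀ _ x0.ne']; ring
  rw [e0]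
  refine le_of_mul_le_mul_left (a := 4 * k * sin θ) ?_ (by positivity)
  rw [mul_zero]
  refine m.trans_eq ?_
  rw [FF, e1, e2, e3]
  field_simp
  ring

end Pool.Agent.H28.Geno
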