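import Pool.Agent.H28.Geno1

set_option autoImplicit false

open Real Finset

namespace Pool.Agent.H28.Geno

noncomputable def sh (v : ℕ → ℝ) (i n : ℕ) : ℝ := if i ≤ n then v (n - i) else 0

noncomputable def RR (v : ℕ → ℝ) (M i : ℕ) : ℝ := ∑ n ∈ range M, v n * sh v i n

noncomputable def PP (v : ℕ → ℝ) (M : ℕ) (ω : ℝ) : ℝ :=
  ∑ n ∈ range M, ∑ m ∈ range M, v n * v m * cos (((n : ℝ) - m) * ω)

lemma PP_nonneg (v : ℕ → ℝ) (M : ℕ) (ω : ℝ) : 0 ≤ PP v M ω := by
  have : PP v M ω = (∑ n ∈ range M, v n * cos (n * ω)) * (∑ n ∈ range M, v n * cos (n * ω)) +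
      (∑ n ∈ range M, v n * sin (n * ω)) * (∑ n ∈ range M, v n * sin (n * ω)) := by
    rw [sum_mul_sum, sum_mul_sum, ← sum_add_distrib]
    refine sum_congr rfl fun n _ => ?_
    rw [← sum_add_distrib]
    refine sum_congr rfl fun m _ => ?_
    rw [sub_mul, cos_sub]; ring
  rw [this]
  exact add_nonneg (mul_self_nonneg _) (mul_self_nonneg _)

lemma PP_cont (v : ℕ → ℝ) (M : ℕ) : Continuous (PP v M) := by unfold PP; fun_prop

lemma int_cos (j : ℤ) : ∫ ω in (-π)..π, cos (j * ω) = if j = 0 then 2 * π else 0 := by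
  split_ifs with h
  · simp [h]; ring
  · have h' : (j : ℝ) ≠ 0 := by exact_mod_cast h
    rw [intervalIntegral.integral_comp_mul_left cos h', integral_cos]
    simp

lemma autoc (v : ℕ → ℝ) (M i : ℕ) :
    ∫ ω in (-π)..π, PP v M ω * cos (i * ω) = 2 * π * RR v M i := by
  have h1 : ∀ n m : ℕ, ∫ ω in (-π)..π, v n * v m * cos (((n : ℝ) - m) * ω) * cos (i * ω) =
      π * (if n = m + i then v n * v m else 0) + π * (if m = n + i then v m * v n else 0) := by
    intro n m
    have e : ∀ ω, v n * v m * cos (((n : ℝ) - m) * ω) * cos (i * ω) =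
        v n * v m / 2 * cos ((n - m - i : ℤ) * ω) + v n * v m / 2 * cos ((n - m + i : ℤ) * ω) := by
      intro ω
      push_cast
      rw [sub_mul _ (i : ℝ), add_mul, cos_sub, cos_add]; ring
    simp only [e]
    rw [intervalIntegral.integral_add (Continuous.intervalIntegrable (by fun_prop) _ _)
      (Continuous.intervalIntegrable (by fun_prop) _ _), intervalIntegral.integral_const_mul,
      intervalIntegral.integral_const_mul, int_cos, int_cos]
    have a1 : ((n : ℤ) - m - i = 0) ↔ n = m + i := by omega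
    have a2 : ((n : ℤ) - m + i = 0) ↔ m = n + i := by omega
    simp only [a1, a2]
    split_ifs <;> ring
  have h2 : ∑ n ∈ range M, ∑ m ∈ range M, (if n = m + i then v n * v m else 0) = RR v M i := by
    refine sum_congr rfl fun n hn => ?_
    unfold sh
    split_ifs with h
    · rw [sum_eq_single (n - i) (fun m _ hm => if_neg (by omega))
        (fun hm => absurd (mem_range.2 (by have := mem_range.1 hn; omega)) hm), if_pos (by omega)]
    · rw [mul_zero]
      exact sum_eq_zero fun m _ => if_neg (by omega)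
  simp only [PP, sum_mul]
  rw [intervalIntegral.integral_finset_sum fun n _ => Continuous.intervalIntegrable (by fun_prop) _ _]
  rw [sum_congr rfl fun n _ => intervalIntegral.integral_finset_sum fun m _ =>
    Continuous.intervalIntegrable (by fun_prop) _ _]
  simp only [h1, sum_add_distrib, ← mul_sum]
  rw [h2, sum_comm, h2]; ring

lemma toep {k : ℕ} {g q : ℝ} (hF : ∀ ω, ω ≠ 0 → |ω| ≤ π → 0 ≤ FF k g q ω) (v : ℕ → ℝ) (M : ℕ) :
    0 ≤ (g - 1 / 2 + q * g) * RR v M 0 - ∑ i ∈ range k, RR v M (i + 1) + q * RR v M (k + 1) -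
      q * g * RR v M 1 := by
  have c := PP_cont v M
  have h0 : 0 ≤ ∫ ω in (-π)..π, PP v M ω * FF k g q ω := by
    refine intervalIntegral.integral_nonneg_of_ae_restrict (by linarith [pi_pos]) ?_
    filter_upwards [MeasureTheory.ae_restrict_mem measurableSet_Icc,
      MeasureTheory.ae_restrict_of_ae (MeasureTheory.Measure.ae_ne MeasureTheory.volume 0)]
      with ω h1 h2
    exact mul_nonneg (PP_nonneg v M ω) (hF ω h2 (abs_le.2 h1))
  have e : ∀ ω, PP v M ω * FF k g q ω = (g - 1 / 2 + q * g) * (PP v M ω * cos ((0 : ℕ) * ω)) -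
      ∑ i ∈ range k, PP v M ω * cos ((i + 1 : ℕ) * ω) + q * (PP v M ω * cos ((k + 1 : ℕ) * ω)) -
      q * g * (PP v M ω * cos ((1 : ℕ) * ω)) := by
    intro ω
    rw [FF, ← mul_sum, Nat.cast_zero, zero_mul, cos_zero]; ring
  simp only [e] at h0
  rw [intervalIntegral.integral_sub (Continuous.intervalIntegrable (by fun_prop) _ _)
      (Continuous.intervalIntegrable (by fun_prop) _ _),
    intervalIntegral.integral_add (Continuous.intervalIntegrable (by fun_prop) _ _)
      (Continuous.intervalIntegrable (by fun_prop) _ _),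
    intervalIntegral.integral_sub (Continuous.intervalIntegrable (by fun_prop) _ _)
      (Continuous.intervalIntegrable (by fun_prop) _ _),
    intervalIntegral.integral_finset_sum fun n _ => Continuous.intervalIntegrable (by fun_prop) _ _,
    intervalIntegral.integral_const_mul, intervalIntegral.integral_const_mul,
    intervalIntegral.integral_const_mul] at h0
  simp only [autoc, ← mul_sum] at h0
  refine le_of_mul_le_mul_left (a := 2 * π) ?_ (by have := pi_pos; positivity)
  linarith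

noncomputable def sg (v : ℕ → ℝ) (j : ℕ) : ℝ := ∑ i ∈ range j, v i

lemma sg_split (v : ℕ → ℝ) (n k : ℕ) : sg v n = sg v (n - k) + ∑ i ∈ range k, sh v (i + 1) n := by
  induction k with
  | zero => simp
  | succ k ih =>
    rw [ih, sum_range_succ, sh]
    split_ifs with h
    · rw [show n - k = n - (k + 1) + 1 by omega, sg, sum_range_succ, ← sg]; ring
    · rw [show n - k = n - (k + 1) by omega]; ring

lemma sg_sq (v : ℕ → ℝ) (M : ℕ) : sg v M ^ 2 = RR v M 0 + 2 * ∑ n ∈ range M, v n * sg v n := by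
  induction M with
  | zero => simp [sg, RR]
  | succ M ih =>
    rw [sg, RR, sum_range_succ, sum_range_succ, sum_range_succ, ← sg, ← RR]
    simp only [sh, zero_le, if_true, Nat.sub_zero]
    linear_combination ih

noncomputable def term (k : ℕ) (β g q z0 : ℝ) (v : ℕ → ℝ) (n : ℕ) : ℝ :=
  v n * (z0 - β * sg v (n - k) - β * g * v n) +
    q * (v n * (-β * sh v (k + 1) n - β * g * (v n - sh v 1 n)))

lemma energy {k : ℕ} {β g q : ℝ} (hβ : 0 < β) (hF : ∀ ω, ω ≠ 0 → |ω| ≤ π → 0 ≤ FF k g q ω)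
    (z0 : ℝ) (v : ℕ → ℝ) (M : ℕ) : ∑ n ∈ range M, term k β g q z0 v n ≤ z0 ^ 2 / (2 * β) := by
  have t := toep hF v M
  have s2 := sg_sq v M
  have e1 : ∑ n ∈ range M, v n * sg v n = ∑ n ∈ range M, v n * sg v (n - k) +
      ∑ i ∈ range k, RR v M (i + 1) := by
    simp only [RR]
    rw [sum_comm, ← sum_add_distrib]
    exact sum_congr rfl fun n _ => by rw [sg_split v n k, mul_add, mul_sum]
  have e2 : ∑ n ∈ range M, term k β g q z0 v n = z0 * sg v M -
      β * ∑ n ∈ range M, v n * sg v (n - k) - β * (g + q * g) * RR v M 0 -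
      β * q * RR v M (k + 1) + β * q * g * RR v M 1 := by
    simp only [RR, sg, mul_sum, ← sum_sub_distrib, ← sum_add_distrib]
    refine sum_congr rfl fun n _ => ?_
    simp only [term, sg, ← mul_sum, show sh v 0 n = v n by simp [sh]]
    ring
  rw [e2, le_div_iff₀ (by positivity)]
  have := mul_nonneg (sq_nonneg β) t
  have e3 : ∑ n ∈ range M, v n * sg v (n - k) =
      (sg v M ^ 2 - RR v M 0) / 2 - ∑ i ∈ range k, RR v M (i + 1) := by linarith
  rw [e3]
  nlinarith [sq_nonneg (z0 - β * sg v M)]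

noncomputable def ZZ (v : ℝ) : ℝ := log (1 + v) - log (1 - v)

noncomputable def hh (γ v : ℝ) : ℝ := -log (1 + v) - log (1 - v) - γ * v ^ 2 / 2

lemma pinsker {a b : ℝ} (ha : |a| < 1) (hb : |b| < 1) :
    -(1 + a) * log (1 + a) - (1 - a) * log (1 - a) - (a - a) ^ 2 ≤
      -(1 + a) * log (1 + b) - (1 - a) * log (1 - b) - (a - b) ^ 2 := by
  set G : ℝ → ℝ := fun x => -(1 + a) * log (1 + x) - (1 - a) * log (1 - x) - (a - x) ^ 2 with hG
  have hd : ∀ x, |x| < 1 → HasDerivAt G (2 * (x - a) * (x ^ 2 / (1 - x ^ 2))) x := by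
    intro x hx
    obtain ⟨x1, x2⟩ := abs_lt.1 hx
    have n1 : 1 + x ≠ 0 := by linarith
    have n2 : 1 - x ≠ 0 := by linarith
    have n3 : 1 - x ^ 2 ≠ 0 := by nlinarith
    have d1 := (((hasDerivAt_id x).const_add 1).log n1).const_mul (-(1 + a))
    have d2 := (((hasDerivAt_id x).const_sub 1).log n2).const_mul (1 - a)
    have d3 := ((hasDerivAt_id x).const_sub a).pow 2
    have e : 2 * (x - a) * (x ^ 2 / (1 - x ^ 2)) = -(1 + a) * (1 / (1 + x)) -
        (1 - a) * (-1 / (1 - x)) - (2 : ℕ) * (a - x) ^ (2 - 1) * (-1) := by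
      rw [show 1 - x ^ 2 = (1 + x) * (1 - x) by ring]
      field_simp
      ring
    rw [e]
    exact (d1.sub d2).sub d3
  have w : ∀ x : ℝ, |x| < 1 → 0 ≤ x ^ 2 / (1 - x ^ 2) := fun x hx =>
    div_nonneg (sq_nonneg _) (by have := abs_lt.1 hx; nlinarith)
  have mem : ∀ x y c : ℝ, |x| < 1 → |y| < 1 → c ∈ Set.Icc x y → |c| < 1 := fun x y c hx hy hc =>
    abs_lt.2 ⟨by linarith [(abs_lt.1 hx).1, hc.1], by linarith [(abs_lt.1 hy).2, hc.2]⟩
  change G a ≤ G b
  rcases lt_trichotomy a b with h | h | h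
  · obtain ⟨c, hc, e⟩ := exists_hasDerivAt_eq_slope G _ h
      (fun x hx => (hd x (mem a b x ha hb hx)).continuousAt.continuousWithinAt)
      (fun x hx => hd x (mem a b x ha hb (Set.Ioo_subset_Icc_self hx)))
    have := mul_nonneg (show 0 ≤ 2 * (c - a) by linarith [hc.1])
      (w c (mem a b c ha hb (Set.Ioo_subset_Icc_self hc)))
    rw [e, le_div_iff₀ (by linarith)] at this
    linarith
  · rw [h]
  · obtain ⟨c, hc, e⟩ := exists_hasDerivAt_eq_slope G _ h
      (fun x hx => (hd x (mem b a x hb ha hx)).continuousAt.continuousWithinAt)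
      (fun x hx => hd x (mem b a x hb ha (Set.Ioo_subset_Icc_self hx)))
    have := mul_nonpos_of_nonpos_of_nonneg (show 2 * (c - a) ≤ 0 by linarith [hc.2])
      (w c (mem b a c hb ha (Set.Ioo_subset_Icc_self hc)))
    rw [e, div_le_iff₀ (by linarith)] at this
    linarith

lemma slope {a b γ : ℝ} (ha : |a| < 1) (hb : |b| < 1) (hγ : γ ≤ 2) :
    hh γ a - hh γ b ≤ a * ((ZZ a - γ * a) - (ZZ b - γ * b)) := by
  have := pinsker ha hb
  unfold hh ZZ
  nlinarith [mul_nonneg (sub_nonneg.2 hγ) (sq_nonneg (a - b))]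

lemma hh_ge {a γ : ℝ} (ha : |a| < 1) (hγ : γ ≤ 2) : a ^ 4 / 2 ≤ hh γ a := by
  obtain ⟨x1, x2⟩ := abs_lt.1 ha
  have h1 : |a ^ 2| < 1 := by rw [abs_of_nonneg (sq_nonneg a)]; nlinarith
  have := sum_le_hasSum (range 2) (fun i _ => by positivity) (hasSum_pow_div_log_of_abs_lt_one h1)
  rw [show 1 - a ^ 2 = (1 + a) * (1 - a) by ring, log_mul (by linarith) (by linarith)] at this
  simp only [sum_range_succ, range_zero, sum_empty] at this
  norm_num at this
  unfold hh
  nlinarith [mul_nonneg (sub_nonneg.2 hγ) (sq_nonneg a)]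

/-- the bound in terms of the initial data -/
noncomputable def CC (k : ℕ) (β g q x d : ℝ) : ℝ :=
  q * hh (β * g) x + ZZ x ^ 2 / (2 * β) + (k + 1) * (d * |ZZ x| + (2 + 4 * q) * d ^ 2)

lemma bound {k : ℕ} {β g q d : ℝ} (hβ : 0 < β) (hg : 0 ≤ g) (hγ : β * g ≤ 2) (hq : 0 ≤ q)
    (hF : ∀ ω, ω ≠ 0 → |ω| ≤ π → 0 ≤ FF k g q ω) {v : ℕ → ℝ} (hv : ∀ n, |v n| < 1)
    (hr : ∀ n, ZZ (v (n + k + 1)) = ZZ (v (n + k)) - β * v n) (hd : ∀ i ≤ k, |v i| ≤ d) (L : ℕ) :
    ∑ j ∈ range L, v (k + 1 + j) ^ 4 / 2 ≤ CC k β g q (v k) d := by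
  have hz : ∀ j, ZZ (v (j + k)) = ZZ (v k) - β * sg v j := by
    intro j
    induction j with
    | zero => simp [sg]
    | succ j ih => rw [show j + 1 + k = j + k + 1 by ring, hr, ih, sg, sg, sum_range_succ]; ring
  have d0 : 0 ≤ d := (abs_nonneg _).trans (hd 0 (Nat.zero_le _))
  have γ0 : 0 ≤ β * g := by positivity
  have E := energy hβ hF (ZZ (v k)) v (k + 1 + L)
  rw [sum_range_add] at E
  have h1 : ∀ n ∈ range (k + 1), -(d * |ZZ (v k)| + (2 + 4 * q) * d ^ 2) ≤
      term k β g q (ZZ (v k)) v n := by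
    intro n hn
    have nk : n ≤ k := by have := mem_range.1 hn; omega
    have a1 := hd n nk
    have a2 : |sh v 1 n| ≤ d := by
      unfold sh; split_ifs
      · exact hd _ (by omega)
      · simpa using d0
    have e1 : sh v (k + 1) n = 0 := if_neg (by omega)
    have e2 : sg v (n - k) = 0 := by rw [show n - k = 0 by omega]; simp [sg]
    have b1 : |v n * ZZ (v k)| ≤ d * |ZZ (v k)| := by rw [abs_mul]; gcongr
    have b2 : v n ^ 2 ≤ d ^ 2 := by rw [← sq_abs]; gcongr
    have b3 : |v n * sh v 1 n| ≤ d ^ 2 := by rw [abs_mul, sq]; gcongr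
    have b4 : β * g * v n ^ 2 ≤ 2 * d ^ 2 := mul_le_mul hγ b2 (sq_nonneg _) (by norm_num)
    have b5 : β * g * (v n ^ 2 - v n * sh v 1 n) ≤ 2 * (2 * d ^ 2) := by
      have : v n ^ 2 - v n * sh v 1 n ≤ 2 * d ^ 2 := by linarith [neg_abs_le (v n * sh v 1 n)]
      nlinarith [sq_nonneg d]
    have b6 := mul_le_mul_of_nonneg_left b5 hq
    rw [term, e1, e2]
    nlinarith [neg_abs_le (v n * ZZ (v k))]
  have h2 := sum_le_sum h1
  rw [sum_const, card_range, nsmul_eq_mul] at h2
  push_cast at h2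
  have h3 : ∑ j ∈ range L, v (k + 1 + j) ^ 4 / 2 + q * (hh (β * g) (v (k + L)) - hh (β * g) (v k)) ≤
      ∑ j ∈ range L, term k β g q (ZZ (v k)) v (k + 1 + j) := by
    clear E
    induction L with
    | zero => simp
    | succ L ih =>
      rw [sum_range_succ, sum_range_succ]
      have s1 := slope (hv (k + 1 + L)) (hv (k + L)) hγ
      have s2 := slope (hv (k + 1 + L)) (show |(0 : ℝ)| < 1 by simp) hγ
      have s3 := hh_ge (hv (k + 1 + L)) hγ
      have z0 : ZZ 0 = 0 := by simp [ZZ]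
      have z1 : hh (β * g) 0 = 0 := by simp [hh]
      have e1 : sh v (k + 1) (k + 1 + L) = v L := by rw [sh, if_pos (by omega)]; congr 1; omega
      have e2 : sh v 1 (k + 1 + L) = v (k + L) := by rw [sh, if_pos (by omega)]; congr 1; omega
      have e3 := hz (L + 1)
      have e4 := hr L
      rw [show L + 1 + k = k + 1 + L by ring] at e3
      rw [show L + k + 1 = k + 1 + L by ring, show L + k = k + L by ring] at e4
      have e5 : term k β g q (ZZ (v k)) v (k + 1 + L) =
          v (k + 1 + L) * (ZZ (v (k + 1 + L)) - β * g * v (k + 1 + L)) + q * (v (k + 1 + L) *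
            ((ZZ (v (k + 1 + L)) - β * g * v (k + 1 + L)) - (ZZ (v (k + L)) - β * g * v (k + L)))) := by
        rw [term, e1, e2, show k + 1 + L - k = L + 1 by omega, ← e3, e4]; ring
      rw [z0, z1] at s2
      rw [e5, show k + (L + 1) = k + 1 + L by ring]
      nlinarith [mul_le_mul_of_nonneg_left s1 hq]
  have h4 := (show (0 : ℝ) ≤ v (k + L) ^ 4 / 2 by positivity).trans (hh_ge (hv (k + L)) hγ)
  unfold CC
  nlinarith [mul_nonneg hq h4]

lemma CC_cont (k : ℕ) (β g q : ℝ) :
    Filter.Tendsto (fun p : ℝ × ℝ => CC k β g q p.1 p.2) (nhds (0, 0)) (nhds 0) := by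
  have l1 : ContinuousAt (fun p : ℝ × ℝ => log (1 + p.1)) (0, 0) :=
    ContinuousAt.log (by fun_prop) (by simp)
  have l2 : ContinuousAt (fun p : ℝ × ℝ => log (1 - p.1)) (0, 0) :=
    ContinuousAt.log (by fun_prop) (by simp)
  have : ContinuousAt (fun p : ℝ × ℝ => CC k β g q p.1 p.2) (0, 0) := by
    unfold CC hh ZZ
    fun_prop
  simpa [CC, hh, ZZ] using this.tendsto

end Pool.Agent.H28.Geno
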