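import Pool.Agent.H28.Geno2

set_option autoImplicit false

open Finset Polynomial Filter Topology

namespace Pool.Agent.H28.Geno

lemma root {k : ℕ} (hk : 1 ≤ k) {K : ℝ} (hK : 2 * Real.sin (Real.pi / (2 * (2 * k + 1))) < K) :
    ∃ l : ℂ, 1 < ‖l‖ ∧ l ^ (k + 1) - l ^ k + K = 0 := by
  have k1 : (1 : ℝ) ≤ k := by exact_mod_cast hk
  have p0 := Real.pi_pos
  set a := Real.pi / (2 * (2 * k + 1)) with ha
  have a0 : 0 < a := by positivity
  have Na : (2 * k + 1) * a = Real.pi / 2 := by rw [ha]; field_simp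
  set b := Real.pi / (k + 1) with hb
  have b0 : 0 < b := by positivity
  have Nb : (k + 1) * b = Real.pi := by rw [hb]; field_simp
  have ab : 2 * a ≤ b := by nlinarith
  set G : ℝ → ℝ := fun ω => Real.sin (k * ω) ^ k * Real.sin ω - K * Real.sin ((k + 1) * ω) ^ (k + 1)
    with hG
  have G0 : G (2 * a) < 0 := by
    have c0 : 0 < Real.cos a := Real.cos_pos_of_mem_Ioo ⟨by linarith, by nlinarith⟩
    have e1 : Real.sin (k * (2 * a)) = Real.cos a := by
      rw [← Real.sin_pi_div_two_sub, ← Na]; congr 1; ring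
    have e2 : Real.sin ((k + 1) * (2 * a)) = Real.cos a := by
      rw [← Real.sin_add_pi_div_two, ← Na]; congr 1; ring
    simp only [hG, e1, e2, Real.sin_two_mul]
    have : Real.cos a ^ k * (2 * Real.sin a * Real.cos a) - K * Real.cos a ^ (k + 1) =
        Real.cos a ^ (k + 1) * (2 * Real.sin a - K) := by ring
    rw [this]
    exact mul_neg_of_pos_of_neg (by positivity) (by linarith)
  have G1 : 0 < G b := by
    have s1 : 0 < Real.sin (k * b) := Real.sin_pos_of_pos_of_lt_pi (by positivity) (by nlinarith)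
    have s2 : 0 < Real.sin b := Real.sin_pos_of_pos_of_lt_pi b0 (by nlinarith)
    simp only [hG, Nb, Real.sin_pi, zero_pow (Nat.succ_ne_zero k), mul_zero, sub_zero]
    positivity
  obtain ⟨ω, ⟨w1, w2⟩, hω⟩ := intermediate_value_Ioo ab (f := G) (by fun_prop) ⟨G0, G1⟩
  have w0 : 0 < ω := by linarith
  have s0 : 0 < Real.sin ((k + 1) * ω) :=
    Real.sin_pos_of_pos_of_lt_pi (by positivity) (by nlinarith)
  have s1 : Real.sin ((k + 1) * ω) < Real.sin (k * ω) := by
    have := Real.sin_sub_sin ((k + 1) * ω) (k * ω)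
    have h1 : 0 < Real.sin (((k + 1) * ω - k * ω) / 2) :=
      Real.sin_pos_of_pos_of_lt_pi (by nlinarith) (by nlinarith)
    have h2 : Real.cos (((k + 1) * ω + k * ω) / 2) < 0 :=
      Real.cos_neg_of_pi_div_two_lt_of_lt (by nlinarith) (by nlinarith)
    nlinarith [mul_pos h1 (neg_pos.2 h2)]
  set r := Real.sin (k * ω) / Real.sin ((k + 1) * ω) with hr
  have r1 : 1 < r := (one_lt_div s0).2 s1
  refine ⟨r * Complex.exp (ω * Complex.I), ?_, ?_⟩
  · rw [norm_mul, Complex.norm_exp_ofReal_mul_I, mul_one, Complex.norm_real,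
      Real.norm_of_nonneg (by linarith)]
    exact r1
  · have e1 : (r : ℂ) * Complex.exp (ω * Complex.I) - 1 =
        -((Real.sin ω / Real.sin ((k + 1) * ω) : ℝ) : ℂ) * Complex.exp ((-(k * ω) : ℝ) * Complex.I) := by
      apply Complex.ext
      · simp only [Complex.sub_re, Complex.neg_re, neg_mul, Complex.re_ofReal_mul,
          Complex.exp_ofReal_mul_I_re, Complex.one_re, Real.cos_neg, hr]
        have h5 : Real.sin ((k + 1) * ω) =
            Real.sin (k * ω) * Real.cos ω + Real.cos (k * ω) * Real.sin ω := by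
          rw [← Real.sin_add]; congr 1; ring
        have h6 := mul_inv_cancel₀ s0.ne'
        rw [div_eq_mul_inv, div_eq_mul_inv]
        linear_combination h6 - (Real.sin ((k + 1) * ω))⁻¹ * h5
      · simp only [Complex.sub_im, Complex.neg_im, neg_mul, Complex.im_ofReal_mul,
          Complex.exp_ofReal_mul_I_im, Complex.one_im, Real.sin_neg, hr]
        ring
    have e2 : Complex.exp (ω * Complex.I) ^ k * Complex.exp ((-(k * ω) : ℝ) * Complex.I) = 1 := by
      rw [← Complex.exp_nat_mul, ← Complex.exp_add, ← Complex.exp_zero]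
      congr 1; push_cast; ring
    have e3 : r ^ k * (Real.sin ω / Real.sin ((k + 1) * ω)) = K := by
      simp only [hG] at hω
      rw [hr, div_pow, div_mul_div_comm, div_eq_iff (by positivity)]
      linear_combination hω
    rw [pow_succ, ← mul_sub_one, e1, ← e3, mul_pow]
    push_cast at e2 ⊢
    linear_combination (-((r : ℂ) ^ k * (Complex.sin ω / Complex.sin ((k + 1) * ω)))) * e2

lemma back {μ : ℂ} {R A B : ℝ} (hR : 1 ≤ R) (hμ : R < ‖μ‖) (hA : 0 ≤ A) {y : ℕ → ℂ}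
    (hB : ∀ n, ‖y n‖ ≤ B) (h : ∀ n, ‖y (n + 1) - μ * y n‖ ≤ A * R ^ n) (n : ℕ) :
    ‖y n‖ ≤ A / (‖μ‖ - R) * R ^ n := by
  set E := A / (‖μ‖ - R) with hE
  have E0 : 0 ≤ E := div_nonneg hA (by linarith)
  have e : E * R + A = E * ‖μ‖ := by
    have : ‖μ‖ - R ≠ 0 := by linarith
    rw [hE]; field_simp; ring
  have m0 : 0 < ‖μ‖ := by linarith
  have key : ∀ j n, ‖y n‖ ≤ E * R ^ n + B * (‖μ‖⁻¹) ^ j := by
    intro j
    induction j with
    | zero => intro n; have : 0 ≤ E * R ^ n := by positivity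
              simpa using (hB n).trans (by linarith)
    | succ j ih =>
      intro n
      have h1 := norm_sub_le (y (n + 1)) (y (n + 1) - μ * y n)
      rw [sub_sub_cancel, norm_mul] at h1
      refine le_of_mul_le_mul_left ?_ m0
      have e2 : ‖μ‖ * (E * R ^ n + B * ‖μ‖⁻¹ ^ (j + 1)) =
          E * R ^ (n + 1) + B * ‖μ‖⁻¹ ^ j + A * R ^ n := by
        rw [pow_succ ‖μ‖⁻¹, mul_add, ← mul_assoc, mul_comm ‖μ‖ E, ← e]; field_simp; ring
      rw [e2]
      linarith [ih (n + 1), h n]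
  have t : Tendsto (fun j : ℕ => E * R ^ n + B * (‖μ‖⁻¹) ^ j) atTop (𝓝 (E * R ^ n + B * 0)) :=
    ((tendsto_pow_atTop_nhds_zero_of_lt_one (by positivity)
      (inv_lt_one_of_one_lt₀ (by linarith))).const_mul B).const_add _
  simpa using ge_of_tendsto' t fun j => key j n

lemma one_step {μ : ℂ} {R : ℝ} (hR : 1 ≤ R) (hμ : ‖μ‖ ≠ R) : ∃ c : ℝ, 0 ≤ c ∧ ∀ (A D B : ℝ) (y : ℕ → ℂ),
    0 ≤ A → 0 ≤ D → (∀ n, ‖y n‖ ≤ B) → (∀ n, ‖y (n + 1) - μ * y n‖ ≤ A * R ^ n) → ‖y 0‖ ≤ D →
    ∀ n, ‖y n‖ ≤ (c * A + D) * R ^ n := by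
  rcases hμ.lt_or_gt with h | h
  · have h0 : 0 < R - ‖μ‖ := by linarith
    refine ⟨(R - ‖μ‖)⁻¹, by positivity, fun A D B y hA hD _ h1 h2 n => ?_⟩
    set E := (R - ‖μ‖)⁻¹ * A + D with hE
    have e : A ≤ E * (R - ‖μ‖) := by
      rw [hE, add_mul, mul_comm _ A, mul_assoc, inv_mul_cancel₀ h0.ne']
      nlinarith
    induction n with
    | zero =>
      have : 0 ≤ (R - ‖μ‖)⁻¹ * A := by positivity
      rw [pow_zero, mul_one]; linarith
    | succ n ih =>
      have h3 := norm_add_le (y (n + 1) - μ * y n) (μ * y n)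
      rw [sub_add_cancel, norm_mul] at h3
      have p : 0 ≤ R ^ n := by positivity
      rw [pow_succ]
      nlinarith [h1 n, mul_le_mul_of_nonneg_left ih (norm_nonneg μ), mul_le_mul_of_nonneg_right e p]
  · have h0 : 0 < ‖μ‖ - R := by linarith
    refine ⟨(‖μ‖ - R)⁻¹, by positivity, fun A D B y hA hD hB h1 _ n => (back hR h hA hB h1 n).trans ?_⟩
    rw [div_eq_inv_mul]
    gcongr
    linarith

noncomputable def SS : Module.End ℂ (ℕ → ℂ) := LinearMap.funLeft ℂ ℂ Nat.succ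

lemma SS_pow (m : ℕ) (y : ℕ → ℂ) (n : ℕ) : (SS ^ m) y n = y (n + m) := by
  induction m generalizing n with
  | zero => simp
  | succ m ih =>
    rw [pow_succ', Module.End.mul_apply]
    change (SS ^ m) y (n + 1) = _
    rw [ih]; congr 1; ring

lemma SS_lin (μ : ℂ) (y : ℕ → ℂ) (n : ℕ) : aeval SS (X - C μ) y n = y (n + 1) - μ * y n := by
  simp [SS, Module.algebraMap_end_apply]

lemma inv_est {R : ℝ} (hR : 1 ≤ R) (d : ℕ) : ∀ P : ℂ[X], P.Monic → P.natDegree = d →
    (∀ μ, P.IsRoot μ → ‖μ‖ ≠ R) → ∃ c : ℝ, 0 ≤ c ∧ ∀ (A D B : ℝ) (y : ℕ → ℂ), 0 ≤ A → 0 ≤ D →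
    (∀ n, ‖y n‖ ≤ B) → (∀ n, ‖aeval SS P y n‖ ≤ A * R ^ n) → (∀ i < d, ‖y i‖ ≤ D) →
    ∀ n, ‖y n‖ ≤ c * (A + D) * R ^ n := by
  induction d with
  | zero =>
    intro P hP hd _
    rw [hP.natDegree_eq_zero] at hd
    subst hd
    refine ⟨1, zero_le_one, fun A D B y hA hD _ h1 _ n => ?_⟩
    have := h1 n
    simp only [map_one, Module.End.one_apply] at this
    have p : 0 ≤ R ^ n := by positivity
    nlinarith
  | succ d ih =>
    intro P hP hd hr
    obtain ⟨μ, hμ⟩ := Complex.exists_root (f := P) (natDegree_pos_iff_degree_pos.1 (by omega))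
    have e := mul_divByMonic_eq_iff_isRoot.2 hμ
    set Q := P /ₘ (X - C μ) with hQ
    have hQm : Q.Monic := (monic_X_sub_C μ).of_mul_monic_left (e.symm ▸ hP)
    have hQd : Q.natDegree = d := by
      rw [hQ, natDegree_divByMonic _ (monic_X_sub_C μ), hd, natDegree_X_sub_C]; rfl
    obtain ⟨c, c0, hc⟩ := ih Q hQm hQd fun ν hν => hr ν (by rw [← e]; exact hν.dvd (dvd_mul_left _ _))
    obtain ⟨c', c0', hc'⟩ := one_step hR (hr μ hμ)
    have m0 := norm_nonneg μ
    refine ⟨c' * c * (1 + ‖μ‖) + 1, by positivity, fun A D B y hA hD hB h1 h2 n => ?_⟩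
    have tri : ∀ (n : ℕ) (T : ℝ), ‖y (n + 1)‖ ≤ T → ‖y n‖ ≤ T →
        ‖y (n + 1) - μ * y n‖ ≤ (1 + ‖μ‖) * T := fun n T t1 t2 => by
      refine (norm_sub_le _ _).trans ?_
      rw [norm_mul]; nlinarith
    have h3 := hc A ((1 + ‖μ‖) * D) ((1 + ‖μ‖) * B) (fun n => y (n + 1) - μ * y n) hA (by positivity)
      (fun n => tri n B (hB _) (hB _)) (fun n => by
        have : (fun n => y (n + 1) - μ * y n) = aeval SS (X - C μ) y := funext fun n => (SS_lin μ y n).symm
        rw [this, ← Module.End.mul_apply, ← map_mul, mul_comm Q, e]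
        exact h1 n) (fun i hi => tri i D (h2 _ (by omega)) (h2 _ (by omega)))
    refine (hc' _ D B y (by positivity) hD hB h3 (h2 0 (by omega)) n).trans ?_
    refine mul_le_mul_of_nonneg_right ?_ (by positivity)
    have : 0 ≤ c' * c * ‖μ‖ * A := by positivity
    nlinarith

lemma unstable {k : ℕ} (hk : 1 ≤ k) {β : ℝ} {l : ℂ} (hl : 1 < ‖l‖)
    (hl0 : l ^ (k + 1) - l ^ k + (β / 2 : ℝ) = 0) : ∃ ε > 0, ∀ v : ℕ → ℝ, (∀ n, |v n| < ε) →
    (∀ n, ZZ (v (n + k + 1)) = ZZ (v (n + k)) - β * v n) → (∀ i < k, v i = 0) → v k = 0 := by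
  set P : ℂ[X] := X ^ (k + 1) + (-X ^ k + C ((β / 2 : ℝ) : ℂ)) with hP
  have dlt : (-X ^ k + C ((β / 2 : ℝ) : ℂ) : ℂ[X]).degree < (k + 1 : ℕ) := by
    refine (degree_add_le _ _).trans_lt (max_lt ?_ (degree_C_le.trans_lt ?_))
    · rw [degree_neg, degree_X_pow]; exact_mod_cast Nat.lt_succ_self k
    · exact_mod_cast Nat.succ_pos k
  have Pm : P.Monic := monic_X_pow_add dlt
  have Pd : P.natDegree = k + 1 := by
    rw [hP, natDegree_add_eq_left_of_degree_lt (by rwa [degree_X_pow]), natDegree_X_pow]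
  have Pl : P.IsRoot l := by
    simp only [hP, IsRoot.def, eval_add, eval_neg, eval_pow, eval_X, eval_C]
    linear_combination hl0
  have Pa : ∀ (y : ℕ → ℂ) n, aeval SS P y n = y (n + k + 1) - y (n + k) + (β / 2 : ℝ) * y n := by
    intro y n
    simp only [hP, map_add, map_neg, map_pow, aeval_X, aeval_C, LinearMap.add_apply,
      LinearMap.neg_apply, Pi.add_apply, Pi.neg_apply, SS_pow, Module.algebraMap_end_apply,
      Pi.smul_apply, smul_eq_mul, add_assoc]
    ring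
  obtain ⟨R, ⟨R1, R2⟩, hR⟩ := (Set.Ioo_infinite hl).exists_notMem_finset
    (P.roots.toFinset.image fun μ => ‖μ‖)
  obtain ⟨c, c0, hc⟩ := inv_est R1.le (k + 1) P Pm Pd fun μ hμ h =>
    hR (mem_image.2 ⟨μ, by simpa [Pm.ne_zero] using hμ, h⟩)
  have e := mul_divByMonic_eq_iff_isRoot.2 Pl
  set Q := P /ₘ (X - C l) with hQ
  have hQm : Q.Monic := (monic_X_sub_C l).of_mul_monic_left (e.symm ▸ Pm)
  have hQd : Q.natDegree = k := by
    rw [hQ, natDegree_divByMonic _ (monic_X_sub_C l), Pd, natDegree_X_sub_C]; rfl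
  have Qa : ∀ (y : ℕ → ℂ) n, aeval SS Q y n = ∑ i ∈ range (k + 1), Q.coeff i * y (n + i) := by
    intro y n
    rw [aeval_eq_sum_range, hQd, LinearMap.sum_apply, Finset.sum_apply]
    simp only [LinearMap.smul_apply, Pi.smul_apply, smul_eq_mul, SS_pow]
  have R0 : 0 < R := by linarith
  have g0 : 0 < ‖l‖ - R := by linarith
  set η := min (1 / (2 * c + 1)) ((‖l‖ - R) / (4 * c + 1)) with hη
  have η0 : 0 < η := lt_min (by positivity) (by positivity)
  have η1 : η * (2 * c + 1) ≤ 1 := by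
    rw [← le_div_iff₀ (by positivity)]; exact min_le_left _ _
  have η2 : η * (4 * c + 1) ≤ ‖l‖ - R := by
    rw [← le_div_iff₀ (by positivity)]; exact min_le_right _ _
  have dZ : HasDerivAt ZZ 2 0 := by
    have d1 := ((hasDerivAt_id (0 : ℝ)).const_add 1).log (by simp)
    have d2 := ((hasDerivAt_id (0 : ℝ)).const_sub 1).log (by simp)
    have : (2 : ℝ) = 1 / (1 + id 0) - -1 / (1 - id 0) := by norm_num
    rw [this]
    exact d1.sub d2
  obtain ⟨ε, ε0, hε⟩ := Metric.eventually_nhds_iff.1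
    ((hasDerivAt_iff_isLittleO_nhds_zero.1 dZ).bound (show 0 < η / R ^ (k + 1) by positivity))
  refine ⟨ε, ε0, fun v hv hr h0 => ?_⟩
  have he : ∀ n, |ZZ (v n) - 2 * v n| ≤ η / R ^ (k + 1) * |v n| := fun n => by
    have := hε (y := v n) (by simpa using hv n)
    simpa [ZZ, mul_comm] using this
  have bdd : BddAbove (Set.range fun n => |v n| / R ^ n) :=
    ⟨ε, by rintro _ ⟨n, rfl⟩; exact (div_le_self (abs_nonneg _) (one_le_pow₀ R1.le)).trans (hv n).le⟩
  set W := ⨆ n, |v n| / R ^ n with hW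
  have hW1 : ∀ n, |v n| ≤ W * R ^ n := fun n => by
    rw [← div_le_iff₀ (by positivity)]; exact le_ciSup bdd n
  have W0 : 0 ≤ W := by simpa using (abs_nonneg _).trans (hW1 0)
  have he2 : ∀ n j, j ≤ k + 1 → |ZZ (v (n + j)) - 2 * v (n + j)| ≤ η * W * R ^ n := fun n j hj => by
    refine (he _).trans ((mul_le_mul_of_nonneg_left (hW1 _) (by positivity)).trans ?_)
    have h5 : R ^ j ≤ R ^ (k + 1) := pow_le_pow_right₀ R1.le hj
    rw [pow_add R n j, div_mul_eq_mul_div, div_le_iff₀ (by positivity)]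
    have h6 := mul_le_mul_of_nonneg_left h5 (show 0 ≤ η * W * R ^ n by positivity)
    linarith
  have hres : ∀ n, ‖aeval SS P (fun n => (v n : ℂ)) n‖ ≤ η * W * R ^ n := fun n => by
    rw [Pa, ← Complex.ofReal_mul, ← Complex.ofReal_sub, ← Complex.ofReal_add, Complex.norm_real,
      Real.norm_eq_abs]
    have a1 := abs_le.1 (he2 n (k + 1) le_rfl)
    have a2 := abs_le.1 (he2 n k (Nat.le_succ k))
    rw [← add_assoc] at a1
    have := hr n
    rw [abs_le]
    constructor <;> linarith [a1.1, a1.2, a2.1, a2.2]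
  have hB : ∀ n, ‖(v n : ℂ)‖ ≤ ε := fun n => by simpa using (hv n).le
  have h1 := hc (η * W) |v k| ε (fun n => (v n : ℂ)) (by positivity) (abs_nonneg _) hB hres
    (fun i hi => by
      rcases (Nat.lt_succ_iff.1 hi).lt_or_eq with h | h
      · simp [h0 i h]
      · simp [h])
  have h2 : W ≤ c * (η * W + |v k|) := ciSup_le fun n => by
    rw [div_le_iff₀ (by positivity)]; simpa using h1 n
  have h3 := back (μ := l) (y := aeval SS Q fun n => (v n : ℂ)) (A := η * W)
    (B := ∑ i ∈ range (k + 1), ‖Q.coeff i‖ * ε) R1.le R2 (by positivity)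
    (fun n => by
      rw [Qa]
      refine (norm_sum_le _ _).trans (sum_le_sum fun i _ => ?_)
      rw [norm_mul]
      exact mul_le_mul_of_nonneg_left (hB _) (norm_nonneg _))
    (fun n => by
      rw [← SS_lin, ← Module.End.mul_apply, ← map_mul, e]
      exact hres n) 0
  rw [Qa, sum_range_succ, sum_eq_zero (fun i hi => by simp [h0 i (mem_range.1 hi)]), ← hQd,
    hQm.coeff_natDegree, hQd, pow_zero, mul_one, le_div_iff₀ g0] at h3
  simp only [zero_add, one_mul, Complex.norm_real, Real.norm_eq_abs] at h3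
  have a0 := abs_nonneg (v k)
  have h4 : W ≤ 2 * c * |v k| := by nlinarith [mul_le_mul_of_nonneg_right η1 W0, mul_nonneg η0.le W0]
  have h5 : |v k| * (η * (2 * c + 1)) ≤ 0 := by
    nlinarith [mul_le_mul_of_nonneg_left η2 a0, mul_le_mul_of_nonneg_left h4 η0.le]
  exact abs_eq_zero.1 (le_antisymm (nonpos_of_mul_nonpos_left h5 (by positivity)) a0)

noncomputable def sol (k : ℕ) (f : ℝ → ℝ → ℝ) (x : ℕ → ℝ) (n : ℕ) : ℝ :=
  if n ≤ k then x n else f (sol k f x (n - 1)) (sol k f x (n - k - 1))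
termination_by n
decreasing_by all_goals omega

lemma sol_init (k : ℕ) (f : ℝ → ℝ → ℝ) (x : ℕ → ℝ) {n : ℕ} (h : n ≤ k) : sol k f x n = x n := by
  rw [sol, if_pos h]

lemma sol_rec (k : ℕ) (f : ℝ → ℝ → ℝ) (x : ℕ → ℝ) (n : ℕ) :
    sol k f x (n + k + 1) = f (sol k f x (n + k)) (sol k f x n) := by
  rw [sol, if_neg (by omega), show n + k + 1 - k - 1 = n by omega]
  rfl

lemma conv {k : ℕ} {β : ℝ} {y : ℕ → ℝ} (h0 : ∀ i, i ≤ k → 0 < y i ∧ y i < 1)
    (hr : ∀ n : ℕ, y (n + k + 1) = y (n + k) * Real.exp (β * (1 - 2 * y n)) /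
      (1 - y (n + k) + y (n + k) * Real.exp (β * (1 - 2 * y n)))) :
    (∀ n, |2 * y n - 1| < 1) ∧
      ∀ n, ZZ (2 * y (n + k + 1) - 1) = ZZ (2 * y (n + k) - 1) - β * (2 * y n - 1) := by
  have h1 : ∀ j, 0 < y (j + k) ∧ y (j + k) < 1 := by
    intro j
    induction j with
    | zero => simpa using h0 k le_rfl
    | succ j ih =>
      have E := Real.exp_pos (β * (1 - 2 * y j))
      have p := mul_pos ih.1 E
      rw [show j + 1 + k = j + k + 1 by ring, hr]
      exact ⟨div_pos p (by linarith [ih.2]), (div_lt_one (by linarith [ih.2])).2 (by linarith [ih.2])⟩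
  refine ⟨fun n => ?_, fun n => ?_⟩
  · have : 0 < y n ∧ y n < 1 := by
      rcases le_total n k with h | h
      · exact h0 n h
      · simpa [Nat.sub_add_cancel h] using h1 (n - k)
    rw [abs_lt]; constructor <;> linarith [this.1, this.2]
  · obtain ⟨a1, a2⟩ := h1 n
    have E := Real.exp_pos (β * (1 - 2 * y n))
    have p := mul_pos a1 E
    have D : 0 < 1 - y (n + k) + y (n + k) * Real.exp (β * (1 - 2 * y n)) := by linarith
    have a3 : 0 < 1 - y (n + k) := by linarith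
    have e1 : 1 + (2 * y (n + k + 1) - 1) = (1 + (2 * y (n + k) - 1)) *
        Real.exp (β * (1 - 2 * y n)) / (1 - y (n + k) + y (n + k) * Real.exp (β * (1 - 2 * y n))) := by
      rw [hr]; ring
    have e2 : 1 - (2 * y (n + k + 1) - 1) = (1 - (2 * y (n + k) - 1)) /
        (1 - y (n + k) + y (n + k) * Real.exp (β * (1 - 2 * y n))) := by
      rw [hr]; field_simp; ring
    rw [ZZ, ZZ, e1, e2, Real.log_div (mul_pos (by linarith) E).ne' D.ne',
      Real.log_div (by linarith) D.ne', Real.log_mul (by linarith) E.ne', Real.log_exp]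
    ring

end Pool.Agent.H28.Geno
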