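import Mathlib

open Filter Topology Metric Complex Set MeasureTheory
open scoped InnerProductSpace ComplexConjugate

namespace Pool.Agent.H28.Growth

variable {E : Type*} [NormedAddCommGroup E] [InnerProductSpace ℂ E]

lemma harnack {h : E → E} (hd : DifferentiableOn ℂ h (ball 0 1)) (h0 : h 0 = 0)
    (hD : fderiv ℂ h 0 = ContinuousLinearMap.id ℂ E)
    (hpos : ∀ z ∈ ball (0 : E) 1, z ≠ 0 → 0 < (⟪z, h z⟫_ℂ).re) {y : E} (hy : ‖y‖ < 1)
    (hy0 : y ≠ 0) : ‖y‖ ^ 2 * (1 - ‖y‖) ≤ (⟪y, h y⟫_ℂ).re * (1 + ‖y‖) := by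
  set ρ := ‖y‖ with hρ
  have hρ0 : 0 < ρ := norm_pos_iff.2 hy0
  set u : E := ((ρ⁻¹ : ℝ) : ℂ) • y with hu
  have hu1 : ‖u‖ = 1 := by
    rw [hu, norm_smul, norm_real, norm_inv, norm_norm, inv_mul_cancel₀ hρ0.ne']
  have hyu : (ρ : ℂ) • u = y := by
    rw [hu, smul_smul, ← ofReal_mul, mul_inv_cancel₀ hρ0.ne']; simp
  set ψ : ℂ → ℂ := fun ζ => ⟪u, h (ζ • u)⟫_ℂ with hψ
  have hm : ∀ ζ ∈ ball (0 : ℂ) 1, ζ • u ∈ ball (0 : E) 1 := fun ζ hζ => by
    rw [mem_ball_zero_iff, norm_smul, hu1, mul_one]; exact mem_ball_zero_iff.1 hζ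
  have hψd : DifferentiableOn ℂ ψ (ball 0 1) :=
    (innerSL ℂ u).differentiable.comp_differentiableOn
      (hd.comp (by fun_prop : Differentiable ℂ fun ζ : ℂ => ζ • u).differentiableOn hm)
  have hψ0 : ψ 0 = 0 := by simp [hψ, h0]
  have hψ1 : deriv ψ 0 = 1 := by
    have a1 : HasDerivAt (fun ζ : ℂ => ζ • u) u 0 := by
      simpa using (hasDerivAt_id (0 : ℂ)).smul_const u
    have a2 : HasFDerivAt h (ContinuousLinearMap.id ℂ E) ((0 : ℂ) • u) := by
      rw [zero_smul, ← hD]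
      exact (hd.differentiableAt (ball_mem_nhds _ one_pos)).hasFDerivAt
    have := ((innerSL ℂ u).hasFDerivAt.comp_hasDerivAt 0 (a2.comp_hasDerivAt 0 a1)).deriv
    refine this.trans ?_
    simp [inner_self_eq_norm_sq_to_K, hu1]
  set p := dslope ψ 0 with hp
  have hpd : DifferentiableOn ℂ p (ball 0 1) :=
    (differentiableOn_dslope (ball_mem_nhds _ one_pos)).2 hψd
  have hp0 : p 0 = 1 := by rw [hp, dslope_same, hψ1]
  have hpv : ∀ ζ : ℂ, ζ ≠ 0 → ⟪ζ • u, h (ζ • u)⟫_ℂ = ((‖ζ‖ ^ 2 : ℝ) : ℂ) * p ζ := by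
    intro ζ hζ
    rw [hp, dslope_of_ne _ hζ, slope_def_field, hψ0, inner_smul_left, sub_zero, sub_zero]
    push_cast
    rw [← conj_mul']
    field_simp
    rfl
  have hre : ∀ ζ ∈ ball (0 : ℂ) 1, 0 < (p ζ).re := by
    intro ζ hζ
    by_cases h : ζ = 0
    · rw [h, hp0]; simp
    · have := hpos _ (hm ζ hζ) (smul_ne_zero h (by rintro h'; simp [h'] at hu1))
      rw [hpv ζ h, re_ofReal_mul] at this
      exact pos_of_mul_pos_right this (by positivity) 
  have hne : ∀ ζ ∈ ball (0 : ℂ) 1, p ζ + 1 ≠ 0 := by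
    intro ζ hζ h
    have := congrArg re h
    simp at this
    linarith [hre ζ hζ]
  have hs := norm_le_norm_of_mapsTo_ball (f := fun ζ => (p ζ - 1) / (p ζ + 1)) (R := 1)
    (z := (ρ : ℂ)) ((hpd.sub_const 1).div (hpd.add_const 1) hne) (by
      intro ζ hζ
      rw [mem_closedBall_zero_iff, norm_div, div_le_one (norm_pos_iff.2 (hne ζ hζ))]
      rw [← sq_le_sq₀ (norm_nonneg _) (norm_nonneg _), Complex.sq_norm, Complex.sq_norm,
        normSq_apply, normSq_apply]
      simp only [sub_re, one_re, sub_im, one_im, add_re, add_im]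
      nlinarith [hre ζ hζ]) (by simp [hp0]) (by simpa [abs_of_pos hρ0] using hy)
  have hρb : (ρ : ℂ) ∈ ball (0 : ℂ) 1 := by
    rw [mem_ball_zero_iff, norm_real, Real.norm_of_nonneg hρ0.le]; exact hy
  rw [norm_div, div_le_iff₀ (norm_pos_iff.2 (hne _ hρb)), norm_real, Real.norm_of_nonneg hρ0.le,
    ← sq_le_sq₀ (norm_nonneg _) (by positivity), mul_pow, Complex.sq_norm, Complex.sq_norm,
    normSq_apply, normSq_apply] at hs
  simp only [sub_re, one_re, sub_im, one_im, add_re, add_im, sub_zero, add_zero] at hs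
  have h1 := hpv ρ (by exact_mod_cast hρ0.ne')
  rw [hyu, norm_real, Real.norm_of_nonneg hρ0.le] at h1
  rw [h1, re_ofReal_mul]
  have ha := hre _ hρb
  set a := (p ρ).re
  set b := (p ρ).im
  have h2 : (a - 1) ^ 2 ≤ (ρ * (a + 1)) ^ 2 := by
    have : ρ ^ 2 * (b * b) ≤ b * b := by
      have : ρ ^ 2 ≤ 1 := by nlinarith
      nlinarith [mul_self_nonneg b]
    nlinarith
  have h3 := (abs_le_of_sq_le_sq' h2 (by positivity)).1
  have h4 : 1 - ρ ≤ a * (1 + ρ) := by linarith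
  nlinarith [mul_le_mul_of_nonneg_left h4 (sq_nonneg ρ)]

lemma ac_of_le {f g : ℝ → ℝ} {a b C : ℝ} (hC : 0 < C) (hg : AbsolutelyContinuousOnInterval g a b)
    (h : ∀ x ∈ uIcc a b, ∀ y ∈ uIcc a b, dist (f x) (f y) ≤ C * dist (g x) (g y)) :
    AbsolutelyContinuousOnInterval f a b := by
  rw [absolutelyContinuousOnInterval_iff] at hg ⊢
  intro ε hε
  obtain ⟨δ, hδ, hδ'⟩ := hg (ε / C) (by positivity)
  refine ⟨δ, hδ, fun I hI hI' => ?_⟩
  have := hδ' I hI hI'
  rw [lt_div_iff₀' hC, Finset.mul_sum] at this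
  exact lt_of_le_of_lt (Finset.sum_le_sum fun i hi => h _ (hI.1 i hi).1 _ (hI.1 i hi).2) this

lemma growth [CompleteSpace E] {H v : ℝ → E} {z : E}
    (hv : ∀ t, 0 ≤ t → ‖v t‖ < 1 ∧ IntervalIntegrable H volume 0 t ∧
      v t = z - ∫ s in (0 : ℝ)..t, H s)
    (hH : ∀ t, 0 ≤ t → v t ≠ 0 →
      ‖v t‖ ^ 2 * (1 - ‖v t‖) ≤ (⟪v t, H t⟫_ℂ).re * (1 + ‖v t‖)) {T : ℝ} (hT : 0 ≤ T) :
    Real.exp T * ‖v T‖ ≤ ‖z‖ / (1 - ‖z‖) ^ 2 := by
  set V : ℝ → E := fun t => z - ∫ s in (0 : ℝ)..t, H s with hV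
  have hVv : ∀ t, 0 ≤ t → V t = v t := fun t ht => (hv t ht).2.2.symm
  have hI := (hv T hT).2.1
  have hu : uIcc 0 T = Icc 0 T := uIcc_of_le hT
  set A : ℝ → ℝ := fun t => ∫ s in (0 : ℝ)..t, ‖H s‖ with hA
  have hAc : AbsolutelyContinuousOnInterval A 0 T :=
    hI.norm.absolutelyContinuousOnInterval_intervalIntegral left_mem_uIcc
  have hVA : ∀ x ∈ uIcc 0 T, ∀ y ∈ uIcc 0 T, ‖V x - V y‖ ≤ dist (A x) (A y) := by
    intro x hx y hy
    rw [hu] at hx hy
    have a1 := (hv x hx.1).2.1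
    have a2 := (hv y hy.1).2.1
    have e1 : V x - V y = ∫ s in x..y, H s := by
      simp only [hV]
      rw [← intervalIntegral.integral_interval_sub_left a2 a1]; abel
    have e2 : A y - A x = ∫ s in x..y, ‖H s‖ :=
      intervalIntegral.integral_interval_sub_left a2.norm a1.norm
    rw [e1, dist_comm, Real.dist_eq, e2]
    exact intervalIntegral.norm_integral_le_abs_integral_norm
  have hVc : ContinuousOn V (uIcc 0 T) :=
    continuousOn_const.sub (intervalIntegral.continuousOn_primitive_interval' hI left_mem_uIcc)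
  obtain ⟨t₀, ht₀, hmax⟩ := isCompact_uIcc.exists_isMaxOn nonempty_uIcc hVc.norm
  set m := ‖V t₀‖ with hm
  have hm1 : m < 1 := by
    rw [hu] at ht₀
    rw [hm, hVv _ ht₀.1]; exact (hv _ ht₀.1).1
  have hm' : 0 < 1 - m := by linarith
  set κ : ℝ → ℝ := fun t => ‖V t‖ / (1 - ‖V t‖) ^ 2 with hκ
  have hκc : AbsolutelyContinuousOnInterval κ 0 T := by
    refine ac_of_le (C := 1 / (1 - m) ^ 4) (by positivity) hAc fun x hx y hy => ?_
    have b1 : ‖V x‖ ≤ m := hmax hx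
    have b2 : ‖V y‖ ≤ m := hmax hy
    have b3 := (abs_norm_sub_norm_le _ _).trans (hVA x hx y hy)
    have c1 := norm_nonneg (V x)
    have c2 := norm_nonneg (V y)
    simp only [hκ]
    generalize ‖V x‖ = p at *
    generalize ‖V y‖ = q at *
    have d1 : 0 < 1 - p := by linarith
    have d2 : 0 < 1 - q := by linarith
    have e : p / (1 - p) ^ 2 - q / (1 - q) ^ 2 =
        (p - q) * ((1 - p * q) / ((1 - p) ^ 2 * (1 - q) ^ 2)) := by
      field_simp; ring
    have d3 : 0 ≤ 1 - p * q := by nlinarith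
    rw [Real.dist_eq, e, abs_mul, mul_comm, abs_of_nonneg (by positivity)]
    refine mul_le_mul ?_ b3 (abs_nonneg _) (by positivity)
    rw [show (1 - m) ^ 4 = (1 - m) ^ 2 * (1 - m) ^ 2 by ring]
    gcongr
    nlinarith
  have hφ : AbsolutelyContinuousOnInterval (fun t => Real.exp t * κ t) 0 T :=
    (Real.contDiff_exp.contDiffOn.absolutelyContinuousOnInterval).fun_mul hκc
  have hder : ∀ᵐ t, t ∈ Icc 0 T → deriv (fun t => Real.exp t * κ t) t ≤ 0 := by
    filter_upwards [hI.ae_hasDerivAt_integral, (Set.countable_singleton T).ae_notMem volume,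
      (Set.countable_singleton (0 : ℝ)).ae_notMem volume] with t ht _ _ htm
    have hd : HasDerivAt V (-H t) t := by
      simpa using (ht (hu ▸ htm) 0 left_mem_uIcc).const_sub z
    by_cases h0 : V t = 0
    · refine (IsLocalMin.deriv_eq_zero ?_).le
      refine Eventually.of_forall fun s => ?_
      simp only [hκ, h0, norm_zero, zero_div, mul_zero]
      positivity
    have hρ0 : 0 < ‖V t‖ := norm_pos_iff.2 h0
    have hρ1 : ‖V t‖ < 1 := by rw [hVv t htm.1]; exact (hv t htm.1).1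
    have hρ1' : 0 < 1 - ‖V t‖ := by linarith
    have k1 := hH t htm.1 (by rwa [← hVv t htm.1])
    rw [← hVv t htm.1] at k1
    have d1 := reCLM.hasFDerivAt.comp_hasDerivAt t (hd.inner ℂ hd)
    have e1 : (⇑reCLM ∘ fun t => ⟪V t, V t⟫_ℂ) = fun t => ‖V t‖ ^ 2 := by
      funext s; simp [inner_self_eq_norm_sq_to_K, ← ofReal_pow]
    rw [e1] at d1
    have d2 := d1.sqrt (by positivity)
    simp only [Real.sqrt_sq (norm_nonneg _)] at d2
    set R := (⟪V t, H t⟫_ℂ).re with hR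
    have d3 : HasDerivAt (fun t => ‖V t‖) (-R / ‖V t‖) t := by
      refine d2.congr_deriv ?_
      have : (⟪H t, V t⟫_ℂ).re = R := by rw [hR, ← inner_conj_symm, conj_re]
      simp only [inner_neg_left, inner_neg_right, reCLM_apply, add_re, neg_re, this, ← hR]
      field_simp
      ring
    have d4 := (Real.hasDerivAt_exp t).mul (d3.div ((d3.const_sub 1).pow 2) (pow_ne_zero 2 hρ1'.ne'))
    have d5 : HasDerivAt (fun t => Real.exp t * κ t) (Real.exp t / (‖V t‖ * (1 - ‖V t‖) ^ 3) *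
        (‖V t‖ ^ 2 * (1 - ‖V t‖) - R * (1 + ‖V t‖))) t := by
      refine HasDerivAt.congr_deriv d4 ?_
      simp only [Pi.div_apply, Pi.pow_apply]
      field_simp
      ring
    rw [d5.deriv]
    exact mul_nonpos_of_nonneg_of_nonpos (by positivity) (by linarith)
  have hint := hφ.integral_deriv_eq_sub
  have hneg : ∫ t in (0 : ℝ)..T, deriv (fun t => Real.exp t * κ t) t ≤ 0 := by
    rw [intervalIntegral.integral_of_le hT]
    refine setIntegral_nonpos_of_ae_restrict ?_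
    refine (ae_restrict_iff' measurableSet_Ioc).2 ?_
    filter_upwards [hder] with t ht htm using ht (Ioc_subset_Icc_self htm)
  rw [hint] at hneg
  have e0 : κ 0 = ‖z‖ / (1 - ‖z‖) ^ 2 := by simp [hκ, hV]
  have e1 : ‖v T‖ ≤ κ T := by
    simp only [hκ, hVv T hT]
    have b1 := (hv T hT).1
    have b2 := norm_nonneg (v T)
    have b3 : 0 < 1 - ‖v T‖ := by linarith
    rw [le_div_iff₀ (by positivity)]
    have : (1 - ‖v T‖) ^ 2 ≤ 1 := by nlinarith
    nlinarith
  rw [Real.exp_zero, one_mul, e0] at hneg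
  have := mul_le_mul_of_nonneg_left e1 (Real.exp_pos T).le
  linarith

/-- The Cayley transform. -/
noncomputable def cay (a : ℂ) : ℂ := (1 + a) / (1 - a)

lemma cay_re {a : ℂ} (ha : ‖a‖ < 1) : 0 < (cay a).re := by
  have h1 : 1 - a ≠ 0 := by
    intro h
    have : a = 1 := by linear_combination -h
    simp [this] at ha
  have h2 : 0 < normSq (1 - a) := normSq_pos.2 h1
  have h3 : normSq a < 1 := by rw [normSq_eq_norm_sq]; nlinarith [norm_nonneg a]
  rw [cay, div_re, ← add_div]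
  refine div_pos ?_ h2
  rw [normSq_apply] at h3
  simp only [add_re, one_re, sub_re, add_im, one_im, sub_im]
  nlinarith

/-- The radicand of the Koebe flow. -/
noncomputable def rad (a τ : ℂ) : ℂ := 1 - cexp (-τ) + cexp (-τ) * cay a ^ 2

/-- The square root of the radicand. -/
noncomputable def rt (a τ : ℂ) : ℂ := rad a τ ^ (2⁻¹ : ℂ)

/-- The Koebe flow. -/
noncomputable def W (a τ : ℂ) : ℂ := (rt a τ - 1) / (rt a τ + 1)

lemma rad_slit {a : ℂ} (ha : ‖a‖ < 1) {t : ℝ} (ht : 0 ≤ t) : rad a t ∈ slitPlane := by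
  have h1 := cay_re ha
  have h2 : Real.exp (-t) ≤ 1 := Real.exp_le_one_iff.2 (by linarith)
  have h3 := Real.exp_pos (-t)
  have e : rad a t = ((1 - Real.exp (-t) : ℝ) : ℂ) + (Real.exp (-t) : ℂ) * cay a ^ 2 := by
    simp [rad]
  rw [e, mem_slitPlane_iff]
  simp only [add_re, ofReal_re, re_ofReal_mul, add_im, ofReal_im, im_ofReal_mul, sq, mul_re, mul_im,
    zero_add, zero_mul, sub_zero, add_zero]
  by_cases hb : (cay a).im = 0
  · left; rw [hb]; nlinarith [mul_pos h3 (mul_pos h1 h1)]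
  · right
    refine mul_ne_zero h3.ne' ?_
    rw [mul_comm (cay a).im, ← two_mul]
    exact mul_ne_zero two_ne_zero (mul_ne_zero h1.ne' hb)

lemma rt_sq (a τ : ℂ) : rt a τ ^ 2 = rad a τ := by
  have := cpow_nat_inv_pow (rad a τ) two_ne_zero
  rwa [Nat.cast_ofNat] at this

lemma rt_re {a : ℂ} (ha : ‖a‖ < 1) {t : ℝ} (ht : 0 ≤ t) : 0 < (rt a t).re := by
  rw [rt, cpow_inv_two_re, Real.sqrt_pos]
  have h := rad_slit ha ht
  have h1 := abs_re_le_norm (rad a t)
  rcases mem_slitPlane_iff.1 h with h2 | h2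
  · linarith [norm_nonneg (rad a t)]
  · have := abs_re_lt_norm.2 h2
    linarith [neg_abs_le (rad a t).re]

lemma rt_ne {a : ℂ} (ha : ‖a‖ < 1) {t : ℝ} (ht : 0 ≤ t) : rt a t ≠ 0 ∧ rt a t + 1 ≠ 0 := by
  have := rt_re ha ht
  constructor
  · intro h; simp [h] at this
  · intro h
    have h2 := congrArg re h
    simp at h2
    linarith

lemma one_sub_ne {a : ℂ} (ha : ‖a‖ < 1) : 1 - a ≠ 0 ∧ 1 + a ≠ 0 := by
  constructor
  · intro h
    have : a = 1 := by linear_combination -h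
    simp [this] at ha
  · intro h
    have : a = -1 := by linear_combination h
    simp [this] at ha

lemma W_zero {a : ℂ} (ha : ‖a‖ < 1) : W a (0 : ℝ) = a := by
  have h1 : rt a (0 : ℝ) = cay a := by
    have h2 := rt_sq a (0 : ℝ)
    have h3 : rad a (0 : ℝ) = cay a ^ 2 := by simp [rad]
    rw [h3] at h2
    rcases sq_eq_sq_iff_eq_or_eq_neg.1 h2 with h | h
    · exact h
    · have := rt_re ha le_rfl
      rw [h, neg_re] at this
      linarith [cay_re ha]
  have := (one_sub_ne ha).1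
  rw [W, h1, cay]
  field_simp
  ring

lemma W_rt {a : ℂ} (ha : ‖a‖ < 1) {t : ℝ} (ht : 0 ≤ t) :
    (1 - W a t) / (1 + W a t) = (rt a t)⁻¹ := by
  obtain ⟨h1, h2⟩ := rt_ne ha ht
  have e1 : 1 - W a t = 2 / (rt a t + 1) := by rw [W]; field_simp; ring
  have e2 : 1 + W a t = 2 * rt a t / (rt a t + 1) := by rw [W]; field_simp; ring
  rw [e1, e2]
  field_simp

lemma W_deriv {a : ℂ} (ha : ‖a‖ < 1) {t : ℝ} (ht : 0 ≤ t) :
    HasDerivAt (fun s : ℝ => W a s) (-(W a t * ((1 - W a t) / (1 + W a t)))) t := by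
  obtain ⟨h1, h2⟩ := rt_ne ha ht
  have d0 : HasDerivAt (fun τ : ℂ => cexp (-τ)) (cexp (-t) * -1) (t : ℂ) :=
    (hasDerivAt_neg (t : ℂ)).cexp
  have d1 : HasDerivAt (rad a) (1 - rad a t) (t : ℂ) := by
    refine HasDerivAt.congr_deriv ((d0.const_sub 1).add (d0.mul_const (cay a ^ 2))) ?_
    rw [rad]; ring
  have d2 := d1.cpow_const (c := 2⁻¹) (rad_slit ha ht)
  have d3 : HasDerivAt (rt a) ((1 - rt a t ^ 2) / (2 * rt a t)) (t : ℂ) := by
    refine HasDerivAt.congr_deriv d2 ?_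
    rw [cpow_sub _ _ (slitPlane_ne_zero (rad_slit ha ht)), cpow_one, ← rt, ← rt_sq]
    field_simp
  have d4 := ((d3.sub_const 1).div (d3.add_const 1) h2).comp_ofReal
  refine HasDerivAt.congr_deriv d4 ?_
  rw [W_rt ha ht, W]
  field_simp
  ring

lemma W_le {a : ℂ} (ha : ‖a‖ < 1) {t : ℝ} (ht : 0 ≤ t) : ‖W a t‖ ≤ ‖a‖ := by
  have hd : ∀ s : ℝ, 0 ≤ s → HasDerivAt (fun s : ℝ => ‖W a s‖ ^ 2)
      (-(2 * ‖W a s‖ ^ 2 * ((rt a s)⁻¹).re)) s := by
    intro s hs
    refine (W_deriv ha hs).norm_sq.congr_deriv ?_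
    rw [W_rt ha hs, Complex.sq_norm, normSq_apply]
    simp only [inner_neg_right, Complex.inner, mul_re, mul_im, conj_re, conj_im]
    ring
  have hanti : AntitoneOn (fun s : ℝ => ‖W a s‖ ^ 2) (Ici 0) := by
    refine antitoneOn_of_deriv_nonpos (convex_Ici 0)
      (fun s hs => (hd s hs).continuousAt.continuousWithinAt)
      (fun s hs => (hd s (interior_subset hs)).differentiableAt.differentiableWithinAt)
      (fun s hs => ?_)
    have hs' : 0 ≤ s := interior_subset hs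
    rw [(hd s hs').deriv, neg_nonpos, inv_re]
    have := rt_re ha hs'
    have := normSq_nonneg (rt a s)
    positivity
  have := hanti (le_refl (0 : ℝ)) ht ht
  simp only [W_zero ha] at this
  exact (sq_le_sq₀ (norm_nonneg _) (norm_nonneg _)).1 this

lemma W_koebe {a : ℂ} (ha : ‖a‖ < 1) {t : ℝ} (ht : 0 ≤ t) :
    (Real.exp t : ℂ) * W a t = a / (1 - a) ^ 2 * (1 - W a t) ^ 2 := by
  obtain ⟨h1, h2⟩ := rt_ne ha ht
  have h3 := (one_sub_ne ha).1
  have h4 := rt_sq a t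
  have h5 : cexp t ≠ 0 := exp_ne_zero _
  rw [rad, cay, exp_neg] at h4
  rw [W, ofReal_exp]
  field_simp at h4 ⊢
  linear_combination h4

lemma W_lim {a : ℂ} (ha : ‖a‖ < 1) :
    Tendsto (fun t : ℝ => (Real.exp t : ℂ) * W a t) atTop (𝓝 (a / (1 - a) ^ 2)) := by
  have h1 : Tendsto (fun t : ℝ => cexp (-(t : ℂ))) atTop (𝓝 0) := by
    have := (continuous_ofReal.tendsto 0).comp Real.tendsto_exp_neg_atTop_nhds_zero
    simpa [Function.comp_def] using this
  have h2 : Tendsto (fun t : ℝ => rad a t) atTop (𝓝 1) := by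
    simpa [rad] using (h1.const_sub 1).add (h1.mul_const (cay a ^ 2))
  have h3 : Tendsto (fun t : ℝ => rt a t) atTop (𝓝 1) := by
    simpa [rt] using h2.cpow (tendsto_const_nhds (x := (2⁻¹ : ℂ))) one_mem_slitPlane
  have h4 : Tendsto (fun t : ℝ => W a t) atTop (𝓝 0) := by
    have := (h3.sub_const 1).div (h3.add_const 1) (by norm_num)
    rw [sub_self, zero_div] at this
    exact this
  have h5 := ((h4.const_sub 1).pow 2).const_mul (a / (1 - a) ^ 2)
  simp only [sub_zero, one_pow, mul_one] at h5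
  refine h5.congr' ?_
  filter_upwards [eventually_ge_atTop 0] with t ht using (W_koebe ha ht).symm

end Pool.Agent.H28.Growth
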