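import Mathlib

set_option autoImplicit false

open Polynomial

namespace Pool.Agent.H28.Haar

noncomputable def T (j : ℕ) : ℝ := 1 / 5 * (1 / 8) ^ j

noncomputable def c (n : ℕ) : ℝ :=
  if n = 0 then 0 else if n = 1 then 2 / 5 else if n % 2 = 0 then 1 - T (n / 2 - 1) else T (n / 2) / 4

lemma Tp (j : ℕ) : 0 < T j := by unfold T; positivity

lemma Ts (j : ℕ) : T (j + 1) = T j / 8 := by unfold T; ring

lemma Tm {i j : ℕ} (h : j ≤ i) : T i ≤ T j :=
  mul_le_mul_of_nonneg_left (pow_le_pow_of_le_one (by norm_num) (by norm_num) h) (by norm_num)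

lemma T1 (j : ℕ) : T j ≤ 1 / 5 := by simpa [T] using Tm (Nat.zero_le j)

lemma c0 : c 0 = 0 := rfl

lemma c1 : c 1 = 2 / 5 := by simp [c]

lemma ce (j : ℕ) : c (2 * j + 2) = 1 - T j := by
  rw [c, if_neg (by omega), if_neg (by omega), if_pos (by omega)]
  congr 2
  omega

lemma co {j : ℕ} (h : 1 ≤ j) : c (2 * j + 1) = T j / 4 := by
  rw [c, if_neg (by omega), if_neg (by omega), if_neg (by omega)]
  congr 2
  omega

lemma cb (n : ℕ) : 0 ≤ c n ∧ (n ≠ 0 → 0 < c n) ∧ 0 < 1 - c n := by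
  have := Tp (n / 2 - 1)
  have := T1 (n / 2 - 1)
  have := Tp (n / 2)
  have := T1 (n / 2)
  unfold c
  split_ifs with h
  · simp [h]
  all_goals exact ⟨by linarith, fun _ => by linarith, by linarith⟩

noncomputable def P : ℕ → ℝ[X]
  | 0 => 1
  | 1 => X
  | n + 2 => (1 - c (n + 1))⁻¹ • (X * P (n + 1) - c (n + 1) • P n)

lemma rc (n : ℕ) : X * P n = (1 - c n) • P (n + 1) + c n • P (n - 1) := by
  rcases n with _ | n
  · simp [P, c0]
  · rw [P, smul_inv_smul₀ (cb _).2.2.ne']
    simp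

lemma deg (n : ℕ) : (P n).degree = n := by
  induction n using Nat.twoStepInduction with
  | zero => simp [P]
  | one => simp [P]
  | more n h1 h2 =>
    have h3 : (X * P (n + 1)).degree = ((n + 2 : ℕ) : WithBot ℕ) := by
      rw [degree_mul, degree_X, h2]
      push_cast
      ring
    rw [P, smul_eq_C_mul, degree_C_mul (inv_ne_zero (cb _).2.2.ne'),
      degree_sub_eq_left_of_degree_lt, h3]
    refine (degree_smul_le _ _).trans_lt ?_
    rw [h1, h3]
    exact_mod_cast (by omega)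

noncomputable def B : Module.Basis ℕ ℝ ℝ[X] :=
  Sequence.basis ⟨P, deg⟩ fun i => (leadingCoeff_ne_zero.2 (Sequence.ne_zero ⟨P, deg⟩ i)).isUnit

lemma BP (n : ℕ) : B n = P n := Sequence.basis_eq_self _ _ n

noncomputable def G (m n k : ℕ) : ℝ := B.coord 0 (P m * P n * P k)

lemma s1 (m n k : ℕ) : G m n k = G n m k := by rw [G, G, mul_comm (P m)]

lemma s2 (m n k : ℕ) : G m n k = G m k n := by rw [G, G, mul_right_comm]

lemma Gr (m n k : ℕ) : (1 - c m) * G (m + 1) n k + c m * G (m - 1) n k =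
    (1 - c k) * G m n (k + 1) + c k * G m n (k - 1) := by
  have e : (X * P m) * P n * P k = P m * P n * (X * P k) := by ring
  have := congrArg (B.coord 0) e
  rw [rc, rc] at this
  simpa only [G, add_mul, mul_add, smul_mul_assoc, mul_smul_comm, map_add, map_smul,
    smul_eq_mul] using this

lemma Wr (m k : ℕ) : (1 - c m) * G 0 (m + 1) k + c m * G 0 (m - 1) k =
    (1 - c k) * G 0 m (k + 1) + c k * G 0 m (k - 1) := by
  simpa only [s1 _ 0] using Gr m 0 k

lemma orth (m : ℕ) : ∀ k, m < k → G 0 m k = 0 := by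
  induction m using Nat.strong_induction_on with
  | _ m ih =>
    intro k hk
    rcases m with _ | m
    · simp [G, P, ← BP k, Finsupp.single_apply, hk.ne']
    · have := Wr m k
      rw [ih (m - 1) (by omega) k (by omega), ih m (by omega) _ (by omega),
        ih m (by omega) _ (by omega)] at this
      simpa [(cb m).2.2.ne'] using this

lemma orth' {m k : ℕ} (h : m ≠ k) : G 0 m k = 0 := by
  rcases h.lt_or_gt with h | h
  exacts [orth m k h, (s2 _ _ _).trans (orth k m h)]

lemma wp (n : ℕ) : 0 < G 0 n n := by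
  induction n with
  | zero => simp [G, show P 0 * P 0 * P 0 = B 0 by simp [BP, P]]
  | succ n ih =>
    have := Wr n (n + 1)
    rw [orth (n - 1) _ (by omega), orth n _ (by omega), Nat.add_sub_cancel] at this
    exact (mul_pos_iff_of_pos_left (cb n).2.2).1
      (by linarith [mul_pos ((cb (n + 1)).2.1 n.succ_ne_zero) ih])

def N (m : ℕ) : Prop := ∀ n k, m ≤ n → m ≤ k → 0 ≤ G m n k

def H (m : ℕ) (r : ℝ) (j : ℕ) : Prop := ∀ n i, m ≤ n → j ≤ i →
  c m * G (m - 1) n (2 * i + 2) ≤ r * (c (2 * i + 2) * G m n (2 * i + 1)) ∧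
  c m * G (m - 1) n (2 * i + 1) ≤ r * ((1 - c (2 * i + 1)) * G m n (2 * i + 2))

lemma key {m j n i : ℕ} {r : ℝ} (h1 : N m) (h2 : H m r j) (hn : m ≤ n) (hi : j ≤ i) :
    (m ≤ 2 * i + 1 → (1 - r) * (c (2 * i + 2) * G m n (2 * i + 1)) ≤
      (1 - c m) * G (m + 1) n (2 * i + 2)) ∧
    (m ≤ 2 * i → (1 - r) * ((1 - c (2 * i + 1)) * G m n (2 * i + 2)) ≤
      (1 - c m) * G (m + 1) n (2 * i + 1)) := by
  obtain ⟨a, b⟩ := h2 n i hn hi
  refine ⟨fun h => ?_, fun h => ?_⟩
  · have := Gr m n (2 * i + 2)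
    have p := mul_nonneg (cb (2 * i + 2)).2.2.le (h1 n (2 * i + 2 + 1) hn (by omega))
    rw [show 2 * i + 2 - 1 = 2 * i + 1 from rfl] at this
    linarith
  · have := Gr m n (2 * i + 1)
    have p := mul_nonneg (cb (2 * i + 1)).1 (h1 n (2 * i + 1 - 1) hn (by omega))
    linarith

lemma nstep {m j : ℕ} {r : ℝ} (h1 : N m) (h2 : H m r j) (hr : r ≤ 1) (hj : 2 * j ≤ m) :
    N (m + 1) := by
  intro n k hn hk
  refine nonneg_of_mul_nonneg_right ?_ (cb m).2.2
  have hr' := sub_nonneg.2 hr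
  obtain ⟨i, rfl | rfl⟩ : ∃ i, k = 2 * i + 1 ∨ k = 2 * i + 2 := ⟨(k - 1) / 2, by omega⟩
  · exact (mul_nonneg hr' (mul_nonneg (cb _).2.2.le (h1 n _ (by omega) (by omega)))).trans
      ((key h1 h2 (by omega) (by omega)).2 (by omega))
  · exact (mul_nonneg hr' (mul_nonneg (cb _).1 (h1 n _ (by omega) (by omega)))).trans
      ((key h1 h2 (by omega) (by omega)).1 (by omega))

lemma hstep {m j l : ℕ} {r s : ℝ} (h1 : N m) (h2 : H m r j) (hs : 0 ≤ s) (hj : j ≤ l)
    (hl : m ≤ 2 * l) (h : ∀ i, l ≤ i →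
      c (m + 1) * (1 - c m) ≤ s * (1 - r) * ((1 - c (2 * i + 1)) * c (2 * i + 2))) :
    H (m + 1) s l := by
  intro n i hn hi
  obtain ⟨a, b⟩ := key h1 h2 (Nat.le_of_succ_le hn) (hj.trans hi)
  rw [Nat.add_sub_cancel]
  constructor <;> refine le_of_mul_le_mul_left ?_ (cb m).2.2
  · have p := mul_le_mul_of_nonneg_right (h i hi) (h1 n (2 * i + 2) (by omega) (by omega))
    have q := mul_le_mul_of_nonneg_left (b (by omega)) (mul_nonneg hs (cb (2 * i + 2)).1)
    linarith
  · have p := mul_le_mul_of_nonneg_right (h i hi) (h1 n (2 * i + 1) (by omega) (by omega))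
    have q := mul_le_mul_of_nonneg_left (a (by omega)) (mul_nonneg hs (cb (2 * i + 1)).2.2.le)
    linarith

lemma lam {i j : ℕ} (h : j + 1 ≤ i) : 1 - 5 * T j / 32 ≤ (1 - c (2 * i + 1)) * c (2 * i + 2) := by
  have := Tm h
  rw [Ts] at this
  rw [co (by omega), ce]
  nlinarith [Tp i]

lemma n0 : N 0 := fun n k _ _ => by
  rcases eq_or_ne n k with rfl | h
  exacts [(wp n).le, (orth' h).ge]

lemma h0 : H 0 0 0 := fun n i _ _ => by simp [c0]

lemma n1 : N 1 := nstep n0 h0 zero_le_one le_rfl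

lemma T0 : T 0 = 1 / 5 := by simp [T]

lemma c2 : c 2 = 4 / 5 := by rw [ce 0, T0]; norm_num

lemma n2 : N 2 := by
  refine nstep n1 (hstep (l := 0) n0 h0 zero_le_one le_rfl le_rfl fun i _ => ?_) le_rfl (by omega)
  rcases i with _ | i
  · norm_num [c0, c1, c2]
  · have := lam (Nat.le_add_left (0 + 1) i)
    rw [T0] at this
    norm_num [c0, c1] at this ⊢
    linarith

lemma ind (j : ℕ) : N (2 * (j + 1) + 1) ∧ H (2 * (j + 1) + 1) (T (j + 1) / 2) (j + 1) := by
  induction j with
  | zero =>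
    have a : H 1 (5 / 12) 1 := hstep n0 h0 (by norm_num) (by omega) (by omega) fun i hi => by
      have := lam (j := 0) hi
      rw [T0] at this
      norm_num [c0, c1] at this ⊢
      linarith
    have b : H 2 (6 / 7) 1 := hstep n1 a (by norm_num) (by omega) (by omega) fun i hi => by
      have := lam (j := 0) hi
      rw [T0] at this
      norm_num [c2, c1] at this ⊢
      linarith
    refine ⟨nstep n2 b (by norm_num) le_rfl,
      hstep n2 b (half_pos (Tp _)).le (by omega) (by omega) fun i hi => ?_⟩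
    have := lam (j := 0) hi
    rw [co le_rfl, c2, Ts, T0] at *
    linarith
  | succ j ih =>
    have p := Tp (j + 1)
    have q := T1 (j + 1)
    have a := nstep ih.1 ih.2 (by linarith) (by omega)
    have b : H (2 * (j + 1) + 2) (1 - 11 * T (j + 1) / 20) (j + 1 + 1) :=
      hstep ih.1 ih.2 (by linarith) (by omega) (by omega) fun i hi => by
        refine le_trans ?_ (mul_le_mul_of_nonneg_left (lam hi) (mul_nonneg (by linarith)
          (by linarith)))
        rw [ce, co (by omega)]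
        nlinarith [mul_pos p p, mul_pos p (mul_pos p p)]
    refine ⟨nstep a b (by linarith) (by omega),
      hstep a b (half_pos (Tp _)).le le_rfl (by omega) fun i hi => ?_⟩
    refine le_trans ?_ (mul_le_mul_of_nonneg_left (lam hi) (mul_nonneg (half_pos (Tp _)).le
      (by linarith)))
    rw [co (by omega), show 2 * (j + 1 + 1) = 2 * (j + 1) + 2 from rfl, ce, Ts (j + 1)]
    nlinarith [mul_pos p p, mul_pos p (mul_pos p p)]

lemma nall (m : ℕ) : N m := by
  obtain rfl | rfl | rfl | ⟨j, rfl | rfl⟩ : m = 0 ∨ m = 1 ∨ m = 2 ∨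
    ∃ j, m = 2 * (j + 1) + 1 ∨ m = 2 * (j + 1) + 1 + 1 := by
    by_cases h : m ≤ 2
    · omega
    · exact .inr (.inr (.inr ⟨(m - 3) / 2, by omega⟩))
  exacts [n0, n1, n2, (ind j).1, nstep (ind j).1 (ind j).2 (by linarith [T1 (j + 1)]) (by omega)]

lemma Gp (m n k : ℕ) : 0 ≤ G m n k := by
  by_cases h : m ≤ n ∧ m ≤ k
  · exact nall m n k h.1 h.2
  · by_cases h' : n ≤ k
    · rw [s1]
      exact nall n m k (by omega) h'
    · rw [s2, s1]
      exact nall k m n (by omega) (by omega)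

lemma lin (m n : ℕ) :
    ∃ g : ℕ →₀ ℝ, (∀ k, 0 ≤ g k) ∧ P m * P n = g.sum fun k r => r • P k := by
  have e : P m * P n = (B.repr (P m * P n)).sum fun k r => r • P k := by
    simpa only [Finsupp.linearCombination_apply, BP] using (B.linearCombination_repr _).symm
  refine ⟨_, fun k => nonneg_of_mul_nonneg_left ?_ (wp k), e⟩
  have := Gp m n k
  rw [G, e, Finsupp.sum_mul, map_finsuppSum, Finsupp.sum_eq_single k] at this
  · simpa [G, P] using this
  · intro b _ hb
    have := orth' hb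
    simp only [G, P, one_mul] at this
    rw [smul_mul_assoc, map_smul, this, smul_zero]
  · simp

lemma ev (n : ℕ) : |(P n).eval 0| ≤ 1 := by
  have k : ∀ j, |(P (2 * j)).eval 0| ≤ 1 ∧ (P (2 * j + 1)).eval 0 = 0 := by
    intro j
    induction j with
    | zero => simp [P]
    | succ j ih =>
      refine ⟨?_, by simp [show 2 * (j + 1) + 1 = 2 * j + 1 + 2 from rfl, P, ih.2]⟩
      have h : c (2 * j + 1) ≤ 1 - c (2 * j + 1) := by
        rcases j with _ | j
        · norm_num [c1]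
        · rw [co (by omega)]
          linarith [T1 (j + 1)]
      have p := cb (2 * j + 1)
      simp only [show 2 * (j + 1) = 2 * j + 2 from rfl, P, eval_smul, eval_sub, eval_mul, eval_X,
        zero_mul, zero_sub, smul_eq_mul, abs_mul, abs_neg, abs_inv, abs_of_nonneg p.1,
        abs_of_pos p.2.2]
      rw [inv_mul_le_iff₀ p.2.2]
      nlinarith [ih.1, p.1]
  obtain ⟨j, rfl | rfl⟩ := n.even_or_odd'
  exacts [(k j).1, by simp [(k j).2]]

end Pool.Agent.H28.Haar
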