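import Mathlib
import Pool.Agent.H28.L2Ops

/-! The Hardy space through coefficients, the Schwarz-Pick lemma and escape of orbits. -/

namespace Pool.Agent.H28.Hardy

open Filter Topology Metric Set Pool.Agent.H28.L2Ops
open scoped InnerProductSpace ComplexConjugate

/-- The value at `z` of the power series with coefficient sequence `a`. -/
noncomputable def ev (a : L2 ℂ) (z : ℂ) : ℂ := ∑' n, a n * z ^ n

open Classical in
/-- reproducing kernel -/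
noncomputable def K (z : ℂ) : L2 ℂ :=
  if h : ‖z‖ < 1 then ⟨fun n => conj z ^ n, (mem_iff _).2 (by
    refine (summable_geometric_of_lt_one (sq_nonneg ‖z‖)
      (pow_lt_one₀ (norm_nonneg z) h two_ne_zero)).congr fun n => ?_
    simp [← pow_mul, mul_comm])⟩ else 0

theorem K_apply {z : ℂ} (h : ‖z‖ < 1) (n : ℕ) : K z n = conj z ^ n := by
  simp [K, h]

theorem ev_eq {z : ℂ} (h : ‖z‖ < 1) (a : L2 ℂ) : ev a z = ⟪K z, a⟫_ℂ := by
  rw [lp.inner_eq_tsum, ev]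
  exact tsum_congr fun n => by simp [K_apply h]

theorem K_sq {z : ℂ} (h : ‖z‖ < 1) : ‖K z‖ ^ 2 * (1 - ‖z‖ ^ 2) = 1 := by
  have h1 : ‖z‖ ^ 2 < 1 := pow_lt_one₀ (norm_nonneg z) h two_ne_zero
  rw [normsq, tsum_congr (g := fun n => (‖z‖ ^ 2) ^ n) fun n => by
    simp [K_apply h, ← pow_mul, mul_comm], tsum_geometric_of_lt_one (sq_nonneg _) h1]
  exact inv_mul_cancel₀ (by linarith)

theorem K_pos {z : ℂ} (h : ‖z‖ < 1) : 0 < ‖K z‖ :=
  norm_pos_iff.2 fun h0 => by have := K_sq h; simp [h0] at this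

theorem ev_le {z : ℂ} (h : ‖z‖ < 1) (a : L2 ℂ) : ‖ev a z‖ ≤ ‖K z‖ * ‖a‖ := by
  rw [ev_eq h]; exact norm_inner_le_norm _ _

theorem ev_inj (a : L2 ℂ) (h : ∀ z : ℂ, ‖z‖ < 1 → ev a z = 0) : a = 0 := by
  let p := FormalMultilinearSeries.ofScalars ℂ (a : ℕ → ℂ)
  have hr : ((1 : NNReal) : ENNReal) ≤ p.radius := p.le_radius_of_bound ‖a‖ fun n => by
    simpa [p] using lp.norm_apply_le_norm (by norm_num) a n
  have := (p.hasFPowerSeriesOnBall (lt_of_lt_of_le (by simp) hr)).hasFPowerSeriesAt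
    |>.eq_zero_of_eventually (by
      filter_upwards [ball_mem_nhds 0 one_pos] with z hz
      exact (FormalMultilinearSeries.ofScalars_sum_eq _ z).trans (h z (by simpa using hz)))
  exact lp.ext ((FormalMultilinearSeries.ofScalars_series_eq_zero ℂ).1 this)

/-- approach to the unit circle from inside -/
noncomputable def L : Filter ℂ := comap (fun z => ‖z‖) (𝓝[<] 1)

theorem L_iff {p : ℂ → Prop} :
    (∀ᶠ z in L, p z) ↔ ∃ r < 1, ∀ z, r < ‖z‖ → ‖z‖ < 1 → p z := by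
  rw [L, eventually_comap, Filter.Eventually, mem_nhdsLT_iff_exists_Ioo_subset]
  exact exists_congr fun r => and_congr Iff.rfl
    ⟨fun h z h1 h2 => h ⟨h1, h2⟩ z rfl, fun h t ht z hz => h z (hz ▸ ht.1) (hz ▸ ht.2)⟩

theorem L_lt : ∀ᶠ z in L, ‖z‖ < 1 := L_iff.2 ⟨0, one_pos, fun _ _ h => h⟩

theorem K_big (B : ℝ) : ∀ᶠ z in L, B ≤ ‖K z‖ := by
  refine L_iff.2 ⟨1 - 1 / (2 * B ^ 2 + 1), by simp; positivity, fun z h1 h2 => ?_⟩
  have h3 := K_sq h2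
  have h4 : (1 - ‖z‖) * (2 * B ^ 2 + 1) < 1 := by
    rw [← lt_div_iff₀ (by positivity)]; linarith
  refine le_of_sq_le_sq ?_ (norm_nonneg _)
  have h5 : 0 < 1 - ‖z‖ ^ 2 := by nlinarith [norm_nonneg z]
  refine le_of_mul_le_mul_right ?_ h5
  nlinarith [mul_nonneg (sq_nonneg B) (sq_nonneg (1 - ‖z‖))]

theorem small (h : L2 ℂ) (ε : ℝ) (hε : 0 < ε) : ∀ᶠ z in L, ‖ev h z‖ ≤ ε * ‖K z‖ := by
  obtain ⟨s, hs⟩ := ((lp.hasSum_single (by norm_num) h).eventually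
    (ball_mem_nhds h (half_pos hε))).exists
  filter_upwards [L_lt, K_big ((∑ i ∈ s, ‖h i‖) / (ε / 2))] with z hz hB
  rw [div_le_iff₀ (half_pos hε)] at hB
  rw [dist_comm, dist_eq_norm] at hs
  have h1 := norm_inner_le_norm (𝕜 := ℂ) (K z) (h - ∑ i ∈ s, lp.single 2 i (h i))
  have h2 : ‖⟪K z, ∑ i ∈ s, lp.single 2 i (h i)⟫_ℂ‖ ≤ ∑ i ∈ s, ‖h i‖ := by
    rw [inner_sum]
    refine norm_sum_le_of_le _ fun i _ => ?_
    rw [lp.inner_single_right]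
    refine (norm_inner_le_norm _ _).trans (mul_le_of_le_one_left (norm_nonneg _) ?_)
    rw [K_apply hz, norm_pow, Complex.norm_conj]
    exact pow_le_one₀ (norm_nonneg _) hz.le
  rw [inner_sub_right] at h1
  rw [ev_eq hz]
  nlinarith [norm_sub_norm_le ⟪K z, h⟫_ℂ ⟪K z, ∑ i ∈ s, lp.single 2 i (h i)⟫_ℂ,
    mul_le_mul_of_nonneg_left hs.le (norm_nonneg (K z))]

theorem unif (A : L2 ℂ →L[ℂ] L2 ℂ) (hA : IsCompactOperator A) (ε : ℝ) (hε : 0 < ε) :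
    ∀ᶠ z in L, ∀ g, ‖g‖ ≤ 1 → ‖ev (A g) z‖ ≤ ε * ‖K z‖ := by
  obtain ⟨t, -, ht, hc⟩ := finite_cover_balls_of_compact
    (IsCompactOperator.isCompact_closure_image_closedBall (f := A.toLinearMap) hA 1) (half_pos hε)
  filter_upwards [L_lt, (eventually_all_finite ht).2 fun h _ => small h _ (half_pos hε)]
    with z hz H g hg
  obtain ⟨h, hh, hd⟩ := mem_iUnion₂.1 (hc (subset_closure ⟨g, by simpa using hg, rfl⟩))
  have hd : ‖A g - h‖ < ε / 2 := by rwa [← dist_eq_norm]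
  have h1 := norm_inner_le_norm (𝕜 := ℂ) (K z) (A g - h)
  have h2 := H h hh
  rw [inner_sub_right] at h1
  rw [ev_eq hz] at h2 ⊢
  nlinarith [norm_sub_norm_le ⟪K z, A g⟫_ℂ ⟪K z, h⟫_ℂ,
    mul_le_mul_of_nonneg_left hd.le (norm_nonneg (K z))]

theorem ev_unit {z : ℂ} (h : ‖z‖ < 1) :
    ‖((‖K z‖⁻¹ : ℝ) : ℂ) • K z‖ ≤ 1 ∧ ev (((‖K z‖⁻¹ : ℝ) : ℂ) • K z) z = ‖K z‖ := by
  have := (K_pos h).ne'
  refine ⟨by simp [norm_smul, this], ?_⟩
  have h2 : ((‖K z‖ : ℝ) : ℂ) ≠ 0 := by exact_mod_cast this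
  rw [ev_eq h, inner_smul_right, inner_self_eq_norm_sq_to_K]
  simp only [Complex.ofReal_inv, Complex.coe_algebraMap]
  field_simp

/-- Moebius maps -/
noncomputable def mo (a z : ℂ) : ℂ := (z - a) / (1 - conj a * z)

theorem den_ge (a z : ℂ) (hz : ‖z‖ < 1) : 1 - ‖a‖ ≤ ‖1 - conj a * z‖ := by
  have := norm_sub_norm_le (1 : ℂ) (conj a * z)
  rw [norm_mul, Complex.norm_conj, norm_one] at this
  nlinarith [norm_nonneg a]

theorem den_ne {a z : ℂ} (ha : ‖a‖ < 1) (hz : ‖z‖ < 1) : 1 - conj a * z ≠ 0 :=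
  norm_pos_iff.1 (by linarith [den_ge a z hz])

theorem mo_id {a z : ℂ} (ha : ‖a‖ < 1) (hz : ‖z‖ < 1) :
    (1 - ‖mo a z‖ ^ 2) * ‖1 - conj a * z‖ ^ 2 = (1 - ‖a‖ ^ 2) * (1 - ‖z‖ ^ 2) := by
  have := norm_ne_zero_iff.2 (den_ne ha hz)
  rw [mo, norm_div, div_pow, sub_mul, div_mul_cancel₀ _ (pow_ne_zero 2 this)]
  simp only [Complex.sq_norm, Complex.normSq_apply]
  simp
  ring

theorem mo_lt {a z : ℂ} (ha : ‖a‖ < 1) (hz : ‖z‖ < 1) : ‖mo a z‖ < 1 := by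
  have h1 : 0 < (1 - ‖a‖ ^ 2) * (1 - ‖z‖ ^ 2) :=
    mul_pos (by nlinarith [norm_nonneg a]) (by nlinarith [norm_nonneg z])
  rw [← mo_id ha hz] at h1
  have := (pos_iff_pos_of_mul_pos h1).2 (pow_pos (norm_pos_iff.2 (den_ne ha hz)) 2)
  nlinarith [norm_nonneg (mo a z)]

theorem mo_inv {a z : ℂ} (ha : ‖a‖ < 1) (hz : ‖z‖ < 1) : mo (-a) (mo a z) = z := by
  have h1 := den_ne ha hz
  have h2 := den_ne (a := -a) (by simpa using ha) (mo_lt ha hz)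
  have h3 : mo a z * (1 - conj a * z) = z - a := div_mul_cancel₀ _ h1
  rw [mo, div_eq_iff h2, map_neg]
  linear_combination h3

theorem mo_diff {a : ℂ} (ha : ‖a‖ < 1) : DifferentiableOn ℂ (mo a) (ball 0 1) :=
  DifferentiableOn.div (by fun_prop) (by fun_prop) fun z hz => den_ne ha (by simpa using hz)

theorem pick {φ : ℂ → ℂ} (hd : DifferentiableOn ℂ φ (ball 0 1)) (hm : MapsTo φ (ball 0 1) (ball 0 1))
    {a z : ℂ} (ha : ‖a‖ < 1) (hz : ‖z‖ < 1) : ‖mo (φ a) (φ z)‖ ≤ ‖mo a z‖ ∧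
      (z ≠ a → ‖mo (φ a) (φ z)‖ = ‖mo a z‖ → ∀ w, ‖w‖ < 1 → ‖mo (φ a) (φ w)‖ = ‖mo a w‖) := by
  have hb : ‖φ a‖ < 1 := by simpa using hm (mem_ball_zero_iff.2 ha)
  have m1 : ∀ b : ℂ, ‖b‖ < 1 → MapsTo (mo b) (ball 0 1) (ball 0 1) := fun b hb w hw =>
    mem_ball_zero_iff.2 (mo_lt hb (by simpa using hw))
  have hna : ‖-a‖ < 1 := by simpa using ha
  let g := mo (φ a) ∘ φ ∘ mo (-a)
  have gd : DifferentiableOn ℂ g (ball 0 1) :=
    (mo_diff hb).comp (hd.comp (mo_diff hna) (m1 _ hna)) (hm.comp (m1 _ hna))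
  have g0 : g 0 = 0 := by simp [g, mo]
  have gm : MapsTo g (ball 0 1) (closedBall 0 1) :=
    ((m1 _ hb).comp (hm.comp (m1 _ hna))).mono_right ball_subset_closedBall
  have ge : ∀ w, ‖w‖ < 1 → g (mo a w) = mo (φ a) (φ w) := fun w hw => by simp [g, mo_inv ha hw]
  refine ⟨ge z hz ▸ Complex.norm_le_norm_of_mapsTo_ball gd gm g0 (mo_lt ha hz), fun hne he w hw => ?_⟩
  have h0 : mo a z ≠ 0 := div_ne_zero (sub_ne_zero.2 hne) (den_ne ha hz)
  have h1 : ‖dslope g 0 (mo a z)‖ = 1 / 1 := by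
    rw [dslope_of_ne _ h0, slope_def_field, g0, ge z hz, sub_zero, sub_zero, norm_div, he,
      div_self (norm_ne_zero_iff.2 h0), div_one]
  have := Complex.affine_of_mapsTo_ball_of_norm_dslope_eq_div gd (by rwa [g0])
    (mem_ball_zero_iff.2 (mo_lt ha hz)) h1 (mem_ball_zero_iff.2 (mo_lt ha hw))
  rw [← ge w hw, this]
  simp [g0, h1]

theorem escape {φ : ℂ → ℂ} (hd : DifferentiableOn ℂ φ (ball 0 1))
    (hm : MapsTo φ (ball 0 1) (ball 0 1)) (hf : ∀ p, ‖p‖ < 1 → φ p ≠ p) :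
    (∃ a, ‖a‖ < 1 ∧ ∀ w, ‖w‖ < 1 → ‖mo (φ a) (φ w)‖ = ‖mo a w‖) ∨
      ∀ z, ‖z‖ < 1 → Tendsto (fun n => φ^[n] z) atTop L := by
  rw [or_iff_not_imp_right]
  intro h
  push Not at h
  obtain ⟨z, hz, h⟩ := h
  have hm' : ∀ w, ‖w‖ < 1 → ‖φ w‖ < 1 := fun w hw => by simpa using hm (mem_ball_zero_iff.2 hw)
  have hn : ∀ n, ‖φ^[n] z‖ < 1 := fun n => by
    simpa using hm.iterate n (mem_ball_zero_iff.2 hz)
  obtain ⟨s, hs, h⟩ := not_tendsto_iff_exists_frequently_notMem.1 h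
  obtain ⟨r, hr, hs⟩ := (L_iff (p := fun z => z ∈ s)).1 hs
  obtain ⟨w, hw, k, hk, hl⟩ := (isCompact_closedBall (0 : ℂ) r).tendsto_subseq'
    (x := fun n => φ^[n] z) (h.mono fun n h => mem_closedBall_zero_iff.2
      (le_of_not_gt fun h' => h (hs _ h' (hn n))))
  have hw : ‖w‖ < 1 := (mem_closedBall_zero_iff.1 hw).trans_lt hr
  have hc : ∀ v, ‖v‖ < 1 → ContinuousAt φ v := fun v hv =>
    hd.continuousOn.continuousAt (isOpen_ball.mem_nhds (mem_ball_zero_iff.2 hv))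
  let D : ℂ → ℝ := fun v => ‖mo v (φ v)‖
  have hD : ∀ v, ‖v‖ < 1 → ContinuousAt D v := fun v hv =>
    (((hc v hv).sub continuousAt_id).div (continuousAt_const.sub
      (Complex.continuous_conj.continuousAt.mul (hc v hv))) (den_ne hv (hm' v hv))).norm
  have ha : Antitone fun n => D (φ^[n] z) := antitone_nat_of_succ_le fun n => by
    rw [Function.iterate_succ_apply']
    exact (pick hd hm (hn n) (hm' _ (hn n))).1
  have hlim := tendsto_atTop_ciInf ha ⟨0, forall_mem_range.2 fun n => norm_nonneg _⟩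
  have e1 := tendsto_nhds_unique ((hD w hw).tendsto.comp hl) (hlim.comp hk.tendsto_atTop)
  have e2 := tendsto_nhds_unique (((hD _ (hm' w hw)).comp (hc w hw)).tendsto.comp hl)
    (((hlim.comp (tendsto_add_atTop_nat 1)).comp hk.tendsto_atTop).congr fun n => by
      simp [Function.iterate_succ_apply', -Function.iterate_succ])
  exact ⟨w, hw, (pick hd hm hw (hm' w hw)).2 (hf w hw) (e2.trans e1.symm)⟩

end Pool.Agent.H28.Hardy
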