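import Mathlib
import Pool.Agent.H28.Growth

open Filter Topology Metric Complex Set MeasureTheory
open scoped InnerProductSpace ComplexConjugate

namespace Pool.Agent.H28.KoebeChain

open Pool.Agent.H28.Growth

abbrev E : Type := EuclideanSpace ℂ (Fin 2)

/-- The point `(a, b)`. -/
noncomputable def pt (a b : ℂ) : E :=
  a • EuclideanSpace.single 0 (1 : ℂ) + b • EuclideanSpace.single 1 (1 : ℂ)

@[simp] lemma pt0 (a b : ℂ) : pt a b 0 = a := by simp [pt]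
@[simp] lemma pt1 (a b : ℂ) : pt a b 1 = b := by simp [pt]

lemma ext2 {x y : E} (h0 : x 0 = y 0) (h1 : x 1 = y 1) : x = y := by
  ext i; fin_cases i
  · exact h0
  · exact h1

lemma nsq (z : E) : ‖z‖ ^ 2 = ‖z 0‖ ^ 2 + ‖z 1‖ ^ 2 := by
  rw [EuclideanSpace.norm_sq_eq, Fin.sum_univ_two]

lemma c_le (z : E) (i : Fin 2) : ‖z i‖ ≤ ‖z‖ := PiLp.norm_apply_le z i

lemma c_lt {z : E} (hz : z ∈ ball (0 : E) 1) (i : Fin 2) : ‖z i‖ < 1 :=
  (c_le z i).trans_lt (mem_ball_zero_iff.1 hz)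

lemma pt_mem {z : E} (hz : z ∈ ball (0 : E) 1) {a b : ℂ} (ha : ‖a‖ ≤ ‖z 0‖) (hb : ‖b‖ ≤ ‖z 1‖) :
    pt a b ∈ ball (0 : E) 1 := by
  rw [mem_ball_zero_iff] at hz ⊢
  refine lt_of_le_of_lt ?_ hz
  rw [← sq_le_sq₀ (norm_nonneg _) (norm_nonneg _), nsq, nsq, pt0, pt1]
  gcongr

lemma fd_pt {f g : ℂ → ℂ} {f' g' : ℂ} {z : E} (hf : HasDerivAt f f' (z 0))
    (hg : HasDerivAt g g' (z 1)) :
    HasFDerivAt (fun y : E => pt (f (y 0)) (g (y 1)))
      ((f' • EuclideanSpace.proj (𝕜 := ℂ) (0 : Fin 2)).smulRight (EuclideanSpace.single 0 1) +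
        (g' • EuclideanSpace.proj (𝕜 := ℂ) (1 : Fin 2)).smulRight (EuclideanSpace.single 1 1))
      z := by
  have a0 := hf.comp_hasFDerivAt z (EuclideanSpace.proj (𝕜 := ℂ) (0 : Fin 2)).hasFDerivAt
  have a1 := hg.comp_hasFDerivAt z (EuclideanSpace.proj (𝕜 := ℂ) (1 : Fin 2)).hasFDerivAt
  exact (a0.smul_const _).add (a1.smul_const _)

lemma fd_zero {f g : ℂ → ℂ} {c : ℂ} (hf : HasDerivAt f c 0) (hg : HasDerivAt g c 0) :
    fderiv ℂ (fun y : E => pt (f (y 0)) (g (y 1))) 0 = c • ContinuousLinearMap.id ℂ E := by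
  rw [(fd_pt (z := 0) hf hg).fderiv]
  refine ContinuousLinearMap.ext fun v => ext2 ?_ ?_ <;> simp

lemma diff_pt {f g : ℂ → ℂ} (hf : ∀ a, ‖a‖ < 1 → DifferentiableAt ℂ f a)
    (hg : ∀ a, ‖a‖ < 1 → DifferentiableAt ℂ g a) :
    DifferentiableOn ℂ (fun y : E => pt (f (y 0)) (g (y 1))) (ball 0 1) := fun _ hz =>
  (fd_pt (hf _ (c_lt hz 0)).hasDerivAt
    (hg _ (c_lt hz 1)).hasDerivAt).differentiableAt.differentiableWithinAt

/-- The Koebe vector field. -/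
noncomputable def hK (z : E) : E := pt (z 0 * ((1 - z 0) / (1 + z 0))) (z 1)

/-- Its flow. -/
noncomputable def vK (z : E) (t : ℝ) : E := pt (W (z 0) t) ((Real.exp (-t) : ℂ) * z 1)

/-- The map `(k(z₁), z₂)`. -/
noncomputable def fK (z : E) : E := pt (z 0 / (1 - z 0) ^ 2) (z 1)

lemma hK_diff : DifferentiableOn ℂ hK (ball 0 1) :=
  diff_pt (f := fun a => a * ((1 - a) / (1 + a))) (g := fun a => a)
    (fun a ha => by
      have := (one_sub_ne ha).2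
      fun_prop (disch := assumption)) (fun a _ => differentiableAt_id)

lemma hK_fd : fderiv ℂ hK 0 = ContinuousLinearMap.id ℂ E := by
  have d : HasDerivAt (fun a : ℂ => a * ((1 - a) / (1 + a))) 1 0 := by
    have h1 : DifferentiableAt ℂ (fun a : ℂ => (1 - a) / (1 + a)) 0 := by
      fun_prop (disch := simp)
    simpa using (hasDerivAt_id (0 : ℂ)).fun_mul h1.hasDerivAt
  exact (fd_zero d (hasDerivAt_id 0)).trans (one_smul _ _)

lemma hK_pos {z : E} (hz : z ∈ ball (0 : E) 1) (hz0 : z ≠ 0) : 0 < (⟪z, hK z⟫_ℂ).re := by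
  have h1 : 0 < ((1 - z 0) / (1 + z 0)).re := by
    have := cay_re (a := -z 0) (by simpa using c_lt hz 0)
    simpa [cay, sub_eq_add_neg] using this
  have e : ⟪z, hK z⟫_ℂ = ((‖z 0‖ ^ 2 : ℝ) : ℂ) * ((1 - z 0) / (1 + z 0)) + ((‖z 1‖ ^ 2 : ℝ) : ℂ) := by
    simp only [PiLp.inner_apply, Fin.sum_univ_two, hK, pt0, pt1, RCLike.inner_apply]
    push_cast
    rw [← mul_conj', ← mul_conj']
    ring
  rw [e, add_re, re_ofReal_mul, ofReal_re]
  have h2 : 0 < ‖z‖ ^ 2 := by positivity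
  rw [nsq] at h2
  rcases (sq_nonneg ‖z 0‖).eq_or_lt with h | h
  · rw [← h] at h2 ⊢; simpa using h2
  · positivity

lemma exp_le {t : ℝ} (ht : 0 ≤ t) (b : ℂ) : ‖(Real.exp (-t) : ℂ) * b‖ ≤ ‖b‖ := by
  rw [norm_mul, norm_real, Real.norm_of_nonneg (Real.exp_pos _).le]
  exact mul_le_of_le_one_left (norm_nonneg _) (Real.exp_le_one_iff.2 (by linarith))

lemma vK_mem {z : E} (hz : z ∈ ball (0 : E) 1) {t : ℝ} (ht : 0 ≤ t) : vK z t ∈ ball (0 : E) 1 :=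
  pt_mem hz (W_le (c_lt hz 0) ht) (exp_le ht _)

lemma exp_d (b : ℂ) (t : ℝ) : HasDerivAt (fun s : ℝ => (Real.exp (-s) : ℂ) * b)
    (-((Real.exp (-t) : ℂ) * b)) t := by
  have := (((hasDerivAt_neg t).exp).ofReal_comp).mul_const b
  refine this.congr_deriv ?_
  push_cast; ring

lemma vK_deriv {z : E} (hz : z ∈ ball (0 : E) 1) {t : ℝ} (ht : 0 ≤ t) :
    HasDerivAt (vK z) (-hK (vK z t)) t := by
  have := ((W_deriv (c_lt hz 0) ht).smul_const (EuclideanSpace.single 0 (1 : ℂ) : E)).add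
    ((exp_d (z 1) t).smul_const (EuclideanSpace.single 1 (1 : ℂ) : E))
  refine HasDerivAt.congr_deriv this (ext2 ?_ ?_) <;> simp [hK, vK]

lemma ode {h : E → E} {v : ℝ → E} {z : E} (hh : ContinuousOn h (ball 0 1)) (h0 : v 0 = z)
    (hm : ∀ t, 0 ≤ t → v t ∈ ball (0 : E) 1) (hd : ∀ t, 0 ≤ t → HasDerivAt v (-h (v t)) t)
    {t : ℝ} (ht : 0 ≤ t) : IntervalIntegrable (fun s => h (v s)) volume 0 t ∧
      v t = z - ∫ s in (0 : ℝ)..t, h (v s) := by
  have hu : uIcc 0 t = Icc 0 t := uIcc_of_le ht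
  have hI : IntervalIntegrable (fun s => h (v s)) volume 0 t := by
    refine ContinuousOn.intervalIntegrable ?_
    rw [hu]
    exact hh.comp (fun s hs => (hd s hs.1).continuousAt.continuousWithinAt) fun s hs => hm s hs.1
  refine ⟨hI, ?_⟩
  have := intervalIntegral.integral_eq_sub_of_hasDerivAt (f := v) (f' := fun s => -h (v s))
    (fun s hs => hd s (hu ▸ hs).1) hI.neg
  rw [intervalIntegral.integral_neg, h0] at this
  rw [sub_eq_add_neg, this]; abel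

lemma vK_zero {z : E} (hz : z ∈ ball (0 : E) 1) : vK z 0 = z :=
  ext2 (by simpa [vK] using W_zero (c_lt hz 0)) (by simp [vK])

lemma exp_cancel (t : ℝ) (b : ℂ) : (Real.exp t : ℂ) * ((Real.exp (-t) : ℂ) * b) = b := by
  rw [← mul_assoc, ← ofReal_mul, ← Real.exp_add]; simp

lemma vK_lim {z : E} (hz : z ∈ ball (0 : E) 1) :
    Tendsto (fun t : ℝ => ((Real.exp t : ℝ) : ℂ) • vK z t) atTop (𝓝 (fK z)) := by
  have := ((W_lim (c_lt hz 0)).smul_const (EuclideanSpace.single 0 (1 : ℂ) : E)).add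
    (tendsto_const_nhds (x := z 1 • (EuclideanSpace.single 1 (1 : ℂ) : E)))
  refine this.congr fun t => ext2 ?_ ?_
  · simp [vK]
  · simpa [vK] using (exp_cancel t (z 1)).symm

/-- The chains. -/
noncomputable def ch (γ : ℝ) (z : E) (t : ℝ) : E :=
  pt ((Real.exp t : ℂ) * (z 0 / (1 - z 0) ^ 2))
    ((Real.exp t : ℂ) * (z 1 / (1 - ((γ * (1 - Real.exp (-t)) : ℝ) : ℂ) * z 1)))

lemma den_ge {γ t : ℝ} (h0 : 0 ≤ γ) (h1 : γ ≤ 1 / 2) (ht : 0 ≤ t) {b : ℂ} (hb : ‖b‖ < 1) :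
    1 / 2 ≤ ‖1 - ((γ * (1 - Real.exp (-t)) : ℝ) : ℂ) * b‖ := by
  have a1 : Real.exp (-t) ≤ 1 := Real.exp_le_one_iff.2 (by linarith)
  have a2 := Real.exp_pos (-t)
  have a3 : 0 ≤ γ * (1 - Real.exp (-t)) := mul_nonneg h0 (by linarith)
  have a4 : γ * (1 - Real.exp (-t)) ≤ 1 / 2 := by nlinarith
  have := norm_sub_norm_le (1 : ℂ) (((γ * (1 - Real.exp (-t)) : ℝ) : ℂ) * b)
  rw [norm_one, norm_mul, norm_real, Real.norm_of_nonneg a3] at this
  nlinarith [norm_nonneg b]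

lemma den_ne {γ t : ℝ} (h0 : 0 ≤ γ) (h1 : γ ≤ 1 / 2) (ht : 0 ≤ t) {b : ℂ} (hb : ‖b‖ < 1) :
    1 - ((γ * (1 - Real.exp (-t)) : ℝ) : ℂ) * b ≠ 0 := by
  intro h
  have := den_ge h0 h1 ht hb
  rw [h, norm_zero] at this
  norm_num at this

lemma exp_ne (t : ℝ) : (Real.exp t : ℂ) ≠ 0 := by exact_mod_cast (Real.exp_pos t).ne'

lemma ch_basic {γ t : ℝ} (h0 : 0 ≤ γ) (h1 : γ ≤ 1 / 2) (ht : 0 ≤ t) :
    DifferentiableOn ℂ (fun z => ch γ z t) (ball 0 1) ∧ InjOn (fun z => ch γ z t) (ball 0 1) ∧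
      ch γ 0 t = 0 ∧
      fderiv ℂ (fun z => ch γ z t) 0 = ((Real.exp t : ℝ) : ℂ) • ContinuousLinearMap.id ℂ E := by
  set c : ℂ := ((γ * (1 - Real.exp (-t)) : ℝ) : ℂ) with hc
  refine ⟨diff_pt (f := fun a => (Real.exp t : ℂ) * (a / (1 - a) ^ 2))
    (g := fun b => (Real.exp t : ℂ) * (b / (1 - c * b))) (fun a ha => ?_) (fun b hb => ?_),
    ?_, ext2 (by simp [ch]) (by simp [ch]), ?_⟩
  · have := pow_ne_zero 2 (one_sub_ne ha).1
    fun_prop (disch := assumption)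
  · have := den_ne h0 h1 ht hb
    fun_prop (disch := assumption)
  · intro x hx y hy hxy
    have e0 := congrArg (fun w : E => w 0) hxy
    have e1 := congrArg (fun w : E => w 1) hxy
    simp only [ch, pt0, pt1, ← hc] at e0 e1
    have e0' := mul_left_cancel₀ (exp_ne t) e0
    have e1' := mul_left_cancel₀ (exp_ne t) e1
    rw [div_eq_div_iff (pow_ne_zero 2 (one_sub_ne (c_lt hx 0)).1)
      (pow_ne_zero 2 (one_sub_ne (c_lt hy 0)).1)] at e0'
    rw [div_eq_div_iff (den_ne h0 h1 ht (c_lt hx 1)) (den_ne h0 h1 ht (c_lt hy 1))] at e1'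
    refine ext2 ?_ (by linear_combination e1')
    have h2 : ‖x 0 * y 0‖ < 1 := by
      rw [norm_mul]
      nlinarith [c_lt hx 0, c_lt hy 0, norm_nonneg (x 0), norm_nonneg (y 0)]
    have h3 : (x 0 - y 0) * (1 - x 0 * y 0) = 0 := by linear_combination e0'
    exact sub_eq_zero.1 ((mul_eq_zero.1 h3).resolve_right (one_sub_ne h2).1)
  · have d : ∀ g : ℂ → ℂ, DifferentiableAt ℂ g 0 → g 0 = 1 →
        HasDerivAt (fun a : ℂ => (Real.exp t : ℂ) * (a / g a)) (Real.exp t : ℂ) 0 := by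
      intro g hg hg0
      have := ((hasDerivAt_id (0 : ℂ)).fun_div hg.hasDerivAt (by simp [hg0])).const_mul
        (Real.exp t : ℂ)
      simpa [hg0] using this
    exact fd_zero (d (fun a => (1 - a) ^ 2) (by fun_prop) (by simp))
      (d (fun b => 1 - c * b) (by fun_prop) (by simp))

lemma ch_mono {γ s t : ℝ} (h0 : 0 ≤ γ) (h1 : γ ≤ 1 / 2) (hs : 0 ≤ s) (hst : s ≤ t) :
    (fun z => ch γ z s) '' ball 0 1 ⊆ (fun z => ch γ z t) '' ball 0 1 := by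
  rintro _ ⟨z, hz, rfl⟩
  have hd : 0 ≤ t - s := by linarith
  set x := Real.exp (-s) with hx
  set y := Real.exp (-t) with hy
  have hx1 : x ≤ 1 := Real.exp_le_one_iff.2 (by linarith)
  have hyx : y ≤ x := Real.exp_le_exp.2 (by linarith)
  have hy0 : 0 < y := Real.exp_pos _
  have hb := c_lt hz 1
  set D : ℂ := (x : ℂ) + ((γ * ((x - y) * (x + y - 1)) : ℝ) : ℂ) * z 1 with hD
  have hDn : y ≤ ‖D‖ := by
    have a1 := norm_sub_norm_le (x : ℂ) (-(((γ * ((x - y) * (x + y - 1)) : ℝ) : ℂ) * z 1))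
    rw [sub_neg_eq_add, ← hD, norm_neg, norm_mul, norm_real, norm_real,
      Real.norm_of_nonneg (by linarith), Real.norm_eq_abs, abs_mul, abs_mul, abs_of_nonneg h0,
      abs_of_nonneg (by linarith : 0 ≤ x - y)] at a1
    have a2 : |x + y - 1| ≤ 1 := abs_le.2 ⟨by linarith, by linarith⟩
    have a3 : γ * ((x - y) * |x + y - 1|) * ‖z 1‖ ≤ 1 * ((x - y) * 1) * 1 := by
      have : 0 ≤ x - y := by linarith
      gcongr
      linarith
    linarith
  have hD0 : D ≠ 0 := norm_pos_iff.1 (by linarith)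
  have hWl := W_le (c_lt hz 0) hd
  refine ⟨pt (W (z 0) (t - s : ℝ)) ((y : ℂ) * z 1 / D), pt_mem hz hWl ?_, ext2 ?_ ?_⟩
  · rw [norm_div, norm_mul, norm_real, Real.norm_of_nonneg hy0.le, div_le_iff₀ (by linarith)]
    nlinarith [norm_nonneg (z 1)]
  · have h2 := W_koebe (c_lt hz 0) hd
    have h3 := (one_sub_ne (hWl.trans_lt (c_lt hz 0))).1
    have e : (Real.exp t : ℂ) = (Real.exp s : ℂ) * (Real.exp (t - s) : ℂ) := by
      rw [← ofReal_mul, ← Real.exp_add]; congr 2; ring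
    simp only [ch, pt0]
    rw [e, mul_assoc, ← mul_div_assoc, h2, mul_div_assoc, div_self (pow_ne_zero 2 h3), mul_one]
  · have h2 := den_ne h0 h1 hs hb
    have ex : (Real.exp s : ℂ) = (x : ℂ)⁻¹ := by rw [hx, Real.exp_neg]; simp
    have ey : (Real.exp t : ℂ) = (y : ℂ)⁻¹ := by rw [hy, Real.exp_neg]; simp
    have hx0 : (x : ℂ) ≠ 0 := exp_ne _
    have hy0' : (y : ℂ) ≠ 0 := exp_ne _
    simp only [ch, pt1, ← hx, ← hy] at h2 ⊢
    have e : 1 - ((γ * (1 - y) : ℝ) : ℂ) * ((y : ℂ) * z 1 / D) =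
        (x : ℂ) * (1 - ((γ * (1 - x) : ℝ) : ℂ) * z 1) / D := by
      rw [eq_div_iff hD0, sub_mul, mul_assoc, div_mul_cancel₀ _ hD0, hD]
      push_cast; ring
    rw [e, ex, ey]
    field_simp

lemma ch_bdd {γ : ℝ} (h0 : 0 ≤ γ) (h1 : γ ≤ 1 / 2) {r : ℝ} (hr : r < 1) {t : ℝ} (ht : 0 ≤ t)
    {z : E} (hz : ‖z‖ ≤ r) : ‖ch γ z t‖ ≤ (1 / (1 - r) ^ 2 + 2) * Real.exp t := by
  have hz' : z ∈ ball (0 : E) 1 := mem_ball_zero_iff.2 (hz.trans_lt hr)
  have hr' : 0 < 1 - r := by linarith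
  refine (norm_add_le _ _).trans ?_
  rw [norm_smul, norm_smul, EuclideanSpace.norm_single, EuclideanSpace.norm_single, norm_one,
    mul_one, mul_one, norm_mul, norm_mul, norm_real, Real.norm_of_nonneg (Real.exp_pos _).le,
    ← mul_add, mul_comm]
  gcongr
  · rw [norm_div, norm_pow]
    have := norm_sub_norm_le (1 : ℂ) (z 0)
    rw [norm_one] at this
    have h3 := c_le z 0
    gcongr
    · linarith
    · linarith
  · have := den_ge h0 h1 ht (c_lt hz' 1)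
    rw [norm_div, div_le_iff₀ (by linarith)]
    linarith [c_lt hz' 1]

lemma ch_zero (γ : ℝ) (z : E) : ch γ z 0 = fK z := ext2 (by simp [ch, fK]) (by simp [ch, fK])

lemma ch_ne : ch 0 (pt 0 (1 / 2)) 1 ≠ ch (1 / 2) (pt 0 (1 / 2)) 1 := by
  intro h
  have e1 := congrArg (fun w : E => w 1) h
  simp only [ch, pt1] at e1
  have e2 := mul_left_cancel₀ (exp_ne 1) e1
  have hb : ‖(1 / 2 : ℂ)‖ < 1 := by norm_num
  rw [div_eq_div_iff (den_ne le_rfl (by norm_num) zero_le_one hb)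
    (den_ne (by norm_num) le_rfl zero_le_one hb)] at e2
  have e3 : ((1 - Real.exp (-1) : ℝ) : ℂ) = 0 := by
    push_cast at e2 ⊢
    linear_combination (-8 : ℂ) * e2
  have e4 : 1 - Real.exp (-1) = 0 := by exact_mod_cast e3
  have : Real.exp (-1) < 1 := Real.exp_lt_one_iff.2 (by norm_num)
  linarith

lemma half_mem (a b : ℂ) (h : ‖a‖ ^ 2 + ‖b‖ ^ 2 = 1 / 4) : ‖pt a b‖ = 1 / 2 := by
  rw [← sq_eq_sq₀ (norm_nonneg _) (by norm_num), nsq, pt0, pt1, h]; norm_num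

end Pool.Agent.H28.KoebeChain
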