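import Mathlib

/-! Ky Fan norms and a counterexample for partial traces of Kronecker sums. -/

namespace Pool.Agent.H28.KyFan

open Matrix Module
open scoped Kronecker InnerProductSpace

/-- The `i`-th singular value (counted from `0`, non-increasing order). -/
noncomputable def sv {n : ℕ} (M : Matrix (Fin n) (Fin n) ℂ) (i : ℕ) : ℝ :=
  (Matrix.toEuclideanLin M).singularValues i

/-- The Ky Fan `k`-norm. -/
noncomputable def kyFan {n : ℕ} (k : ℕ) (M : Matrix (Fin n) (Fin n) ℂ) : ℝ :=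
  ∑ i ∈ Finset.range k, sv M i

/-- Partial trace over the first tensor factor. -/
def tr1 {n : ℕ} (X : Matrix (Fin n × Fin n) (Fin n × Fin n) ℂ) : Matrix (Fin n) (Fin n) ℂ :=
  fun j l => ∑ i, X (i, j) (i, l)

/-- `A ⊗ I + I ⊗ A`. -/
def kS {n : ℕ} (A : Matrix (Fin n) (Fin n) ℂ) : Matrix (Fin n × Fin n) (Fin n × Fin n) ℂ :=
  A ⊗ₖ (1 : Matrix (Fin n) (Fin n) ℂ) + (1 : Matrix (Fin n) (Fin n) ℂ) ⊗ₖ A

/-- `B ⊗ I - I ⊗ B`. -/
def kD {n : ℕ} (B : Matrix (Fin n) (Fin n) ℂ) : Matrix (Fin n × Fin n) (Fin n × Fin n) ℂ :=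
  B ⊗ₖ (1 : Matrix (Fin n) (Fin n) ℂ) - (1 : Matrix (Fin n) (Fin n) ℂ) ⊗ₖ B

/-- `L(A,B)`. -/
def mL {n : ℕ} (A B : Matrix (Fin n) (Fin n) ℂ) : Matrix (Fin n) (Fin n) ℂ := tr1 (kS A * kD B)

/-- `R(B)`. -/
def mR {n : ℕ} (B : Matrix (Fin n) (Fin n) ℂ) : Matrix (Fin n) (Fin n) ℂ := tr1 (kD B)

variable {n : ℕ}

theorem tr1_kron (X Y : Matrix (Fin n) (Fin n) ℂ) : tr1 (X ⊗ₖ Y) = trace X • Y := by
  ext j l
  simp [tr1, trace, Finset.sum_mul]

theorem tr1_add (X Y : Matrix (Fin n × Fin n) (Fin n × Fin n) ℂ) :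
    tr1 (X + Y) = tr1 X + tr1 Y := by
  ext j l
  simp [tr1, Finset.sum_add_distrib]

theorem tr1_sub (X Y : Matrix (Fin n × Fin n) (Fin n × Fin n) ℂ) :
    tr1 (X - Y) = tr1 X - tr1 Y := by
  ext j l
  simp [tr1, Finset.sum_sub_distrib]

theorem mR_eq (B : Matrix (Fin n) (Fin n) ℂ) : mR B = trace B • 1 - (n : ℂ) • B := by
  simp [mR, kD, tr1_sub, tr1_kron]

theorem mL_eq (A B : Matrix (Fin n) (Fin n) ℂ) :
    mL A B = trace (A * B) • 1 - trace A • B + trace B • A - (n : ℂ) • (A * B) := by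
  simp only [mL, kS, kD, add_mul, mul_sub, ← mul_kronecker_mul, tr1_add, tr1_sub, tr1_kron,
    Matrix.mul_one, Matrix.one_mul, trace_one, Fintype.card_fin]
  abel

theorem hn : finrank ℂ (EuclideanSpace ℂ (Fin n)) = n := by simp

/-- eigenbasis of `MᴴM`. -/
noncomputable def eb (M : Matrix (Fin n) (Fin n) ℂ) :
    OrthonormalBasis (Fin n) ℂ (EuclideanSpace ℂ (Fin n)) :=
  (Matrix.toEuclideanLin M).isSymmetric_adjoint_comp_self.eigenvectorBasis hn

theorem eb_apply (M : Matrix (Fin n) (Fin n) ℂ) (i : Fin n) :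
    Matrix.toEuclideanLin (Mᴴ * M) (eb M i) = ((sv M i ^ 2 : ℝ) : ℂ) • eb M i := by
  rw [sv, LinearMap.sq_singularValues_fin _ hn, toLpLin_mul_same,
    Matrix.toEuclideanLin_conjTranspose_eq_adjoint]
  exact LinearMap.IsSymmetric.apply_eigenvectorBasis _ hn i

theorem sv_nonneg (M : Matrix (Fin n) (Fin n) ℂ) (i : ℕ) : 0 ≤ sv M i :=
  LinearMap.singularValues_nonneg _ _

theorem inner_mul (U M : Matrix (Fin n) (Fin n) ℂ) (x : EuclideanSpace ℂ (Fin n)) :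
    ⟪x, Matrix.toEuclideanLin (Uᴴ * M) x⟫_ℂ =
      ⟪Matrix.toEuclideanLin U x, Matrix.toEuclideanLin M x⟫_ℂ := by
  rw [toLpLin_mul_same, Matrix.toEuclideanLin_conjTranspose_eq_adjoint, LinearMap.comp_apply,
    LinearMap.adjoint_inner_right]

theorem sv_eq (M : Matrix (Fin n) (Fin n) ℂ) (i : Fin n) :
    sv M i = ‖Matrix.toEuclideanLin M (eb M i)‖ := by
  have h := inner_mul M M (eb M i)
  rw [eb_apply, inner_smul_right, inner_self_eq_norm_sq_to_K, inner_self_eq_norm_sq_to_K,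
    (eb M).orthonormal.1 i] at h
  have h' : sv M i ^ 2 = ‖Matrix.toEuclideanLin M (eb M i)‖ ^ 2 := by
    have : ((sv M i ^ 2 : ℝ) : ℂ) = ((‖Matrix.toEuclideanLin M (eb M i)‖ ^ 2 : ℝ) : ℂ) := by
      simpa using h
    exact_mod_cast this
  exact (pow_left_inj₀ (sv_nonneg _ _) (norm_nonneg _) two_ne_zero).1 h'

theorem trace_eq (N M : Matrix (Fin n) (Fin n) ℂ) :
    trace N = ∑ i, ⟪eb M i, Matrix.toEuclideanLin N (eb M i)⟫_ℂ := by
  rw [← LinearMap.trace_eq_sum_inner, toEuclideanLin_eq_toLin, Matrix.trace_toLin_eq]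

theorem norm_unit (U : Matrix (Fin n) (Fin n) ℂ) (hU : Uᴴ * U = 1)
    (x : EuclideanSpace ℂ (Fin n)) : ‖Matrix.toEuclideanLin U x‖ = ‖x‖ := by
  have h := inner_mul U U x
  rw [hU, toLpLin_one, LinearMap.id_apply, inner_self_eq_norm_sq_to_K,
    inner_self_eq_norm_sq_to_K] at h
  have h' : ‖x‖ ^ 2 = ‖Matrix.toEuclideanLin U x‖ ^ 2 := by exact_mod_cast h
  exact ((pow_left_inj₀ (norm_nonneg _) (norm_nonneg _) two_ne_zero).1 h').symm

theorem lower (U M : Matrix (Fin n) (Fin n) ℂ) (hU : Uᴴ * U = 1) :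
    (trace (Uᴴ * M)).re ≤ kyFan n M := by
  rw [trace_eq _ M, kyFan, ← Fin.sum_univ_eq_sum_range (fun i => sv M i) n, Complex.re_sum]
  refine Finset.sum_le_sum fun i _ => ?_
  rw [inner_mul, sv_eq]
  refine (Complex.re_le_norm _).trans ((norm_inner_le_norm _ _).trans ?_)
  rw [norm_unit U hU, (eb M).orthonormal.1 i, one_mul]

theorem sv_unit (U : Matrix (Fin n) (Fin n) ℂ) (hU : Uᴴ * U = 1) (i : ℕ) (hi : i < n) :
    sv U i = 1 := by
  have := sv_eq U ⟨i, hi⟩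
  rw [norm_unit U hU, (eb U).orthonormal.1] at this
  exact this

theorem upper (M : Matrix (Fin n) (Fin n) ℂ) (c : ℝ) (hc : 0 < c)
    (h : (Mᴴ * M) * (Mᴴ * M) = ((c ^ 2 : ℝ) : ℂ) • (Mᴴ * M)) :
    c * kyFan n M = (trace (Mᴴ * M)).re := by
  rw [trace_eq _ M, kyFan, ← Fin.sum_univ_eq_sum_range (fun i => sv M i) n, Complex.re_sum,
    Finset.mul_sum]
  refine Finset.sum_congr rfl fun i _ => ?_
  have h1 : Matrix.toEuclideanLin ((Mᴴ * M) * (Mᴴ * M)) (eb M i) =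
      ((c ^ 2 : ℝ) : ℂ) • Matrix.toEuclideanLin (Mᴴ * M) (eb M i) := by
    rw [h]; simp
  rw [toLpLin_mul_same, LinearMap.comp_apply, eb_apply, map_smul, eb_apply, smul_smul,
    smul_smul] at h1
  have h0 : eb M i ≠ 0 := (eb M).orthonormal.ne_zero i
  have h2 := smul_left_injective ℂ h0 h1
  have h3 : sv M i ^ 2 * sv M i ^ 2 = c ^ 2 * sv M i ^ 2 := by exact_mod_cast h2
  rw [eb_apply, inner_smul_right, inner_self_eq_norm_sq_to_K, (eb M).orthonormal.1 i]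
  have h4 : c * sv M i = sv M i ^ 2 := by
    have := sv_nonneg M i
    refine (pow_left_inj₀ (by positivity) (by positivity) two_ne_zero).1 ?_
    nlinarith
  rw [h4]
  simp [← Complex.ofReal_pow]

/-- A 15 by 15 matrix equal to a given 3 by 3 block plus identity multiple. -/
def blk (a b c d e f : ℚ) : Matrix (Fin 15) (Fin 15) ℚ :=
  fun i j => if i = j then (if i = 0 then a else if i = 1 then d else if i = 2 then e else f)
    else if i = 0 ∧ j = 1 then b else if i = 1 ∧ j = 0 then c else 0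

/-- complexification -/
noncomputable def cx (M : Matrix (Fin 15) (Fin 15) ℚ) : Matrix (Fin 15) (Fin 15) ℂ :=
  M.map (Rat.castHom ℂ)

theorem cx_mul (M N : Matrix (Fin 15) (Fin 15) ℚ) : cx M * cx N = cx (M * N) :=
  (Matrix.map_mul).symm

theorem cx_H (M : Matrix (Fin 15) (Fin 15) ℚ) : (cx M)ᴴ = cx Mᵀ := by
  ext i j; simp [cx]

theorem cx_trace (M : Matrix (Fin 15) (Fin 15) ℚ) : trace (cx M) = ((trace M : ℚ) : ℂ) := by
  simp [cx, trace]

theorem cx_one : cx 1 = 1 := by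
  simp [cx]

theorem cx_smul (q : ℚ) (M : Matrix (Fin 15) (Fin 15) ℚ) : (q : ℂ) • cx M = cx (q • M) := by
  ext i j; simp [cx]

theorem cx_add (M N : Matrix (Fin 15) (Fin 15) ℚ) : cx M + cx N = cx (M + N) := by
  ext i j; simp [cx]

theorem cx_sub (M N : Matrix (Fin 15) (Fin 15) ℚ) : cx M - cx N = cx (M - N) := by
  ext i j; simp [cx]

/-- the reflection -/
def A0 := blk (-7 / 25) (-24 / 25) (-24 / 25) (7 / 25) 1 1
/-- the traceless rank two matrix -/
def B0 := blk (-1) 0 0 0 1 0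
/-- the unitary -/
def U0 := blk (3 / 5) (4 / 5) (-4 / 5) (3 / 5) (-1) 1
/-- value of `L` -/
def L0 := blk (252 / 25) 0 (-72 / 5) (32 / 25) (-668 / 25) (32 / 25)
/-- value of `R` -/
def R0 := blk 15 0 0 0 (-15) 0

theorem hA : (cx A0).IsHermitian := by
  rw [IsHermitian, cx_H]; congr 1; decide +kernel

theorem hB : (cx B0).IsHermitian := by
  rw [IsHermitian, cx_H]; congr 1; decide +kernel

theorem hAA : (cx A0)ᴴ * cx A0 = 1 := by
  rw [cx_H, cx_mul, ← cx_one]; congr 1; decide +kernel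

theorem hUU : (cx U0)ᴴ * cx U0 = 1 := by
  rw [cx_H, cx_mul, ← cx_one]; congr 1; decide +kernel

theorem hL : mL (cx A0) (cx B0) = cx L0 := by
  have h15 : ((15 : ℕ) : ℂ) = ((15 : ℚ) : ℂ) := by norm_num
  rw [mL_eq, cx_mul, cx_trace, cx_trace, cx_trace, ← cx_one, h15, cx_smul, cx_smul, cx_smul,
    cx_smul, cx_sub, cx_add, cx_sub]
  congr 1; decide +kernel

theorem hR : mR (cx B0) = cx R0 := by
  have h15 : ((15 : ℕ) : ℂ) = ((15 : ℚ) : ℂ) := by norm_num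
  rw [mR_eq, cx_trace, ← cx_one, h15, cx_smul, cx_smul, cx_sub]
  congr 1; decide +kernel

theorem kyR : kyFan 15 (mR (cx B0)) = 30 := by
  have h := upper (cx R0) 15 (by norm_num) (by
    have h15 : (((15 : ℝ) ^ 2 : ℝ) : ℂ) = ((225 : ℚ) : ℂ) := by norm_num
    rw [cx_H, cx_mul, cx_mul, h15, cx_smul]; congr 1; decide +kernel)
  rw [cx_H, cx_mul, cx_trace, show trace (R0ᵀ * R0) = 450 by decide +kernel] at h
  rw [hR]
  norm_num at h
  linarith

theorem kyL : 60 < kyFan 15 (mL (cx A0) (cx B0)) := by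
  have h := lower (cx U0) (cx L0) hUU
  rw [cx_H, cx_mul, cx_trace, show trace (U0ᵀ * L0) = 7552 / 125 by decide +kernel] at h
  rw [hL]
  norm_num at h
  linarith

end Pool.Agent.H28.KyFan
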