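import Mathlib

set_option autoImplicit false

open Filter Topology

namespace Pool.Agent.H28.L1Lift

variable {𝕜 : Type} [RCLike 𝕜] {ι : Type} [DecidableEq ι]

abbrev L1 (𝕜 : Type) [RCLike 𝕜] (ι : Type) : Type := lp (fun _ : ι => 𝕜) 1

/-- unit vectors -/
noncomputable def e (𝕜 : Type) [RCLike 𝕜] {ι : Type} [DecidableEq ι] (a : ι) : L1 𝕜 ι :=
  lp.single 1 a (1 : 𝕜)

theorem norm_e (a : ι) : ‖e 𝕜 a‖ = 1 := by
  unfold e
  rw [lp.norm_single (by norm_num)]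
  simp

omit [DecidableEq ι] in
theorem hasSum_norm (x : L1 𝕜 ι) : HasSum (fun a => ‖x a‖) ‖x‖ := by
  have := lp.hasSum_norm (p := 1) (by norm_num) x
  simpa using this

theorem hasSum_e (x : L1 𝕜 ι) : HasSum (fun a => x a • e 𝕜 a) x := by
  have := lp.hasSum_single (p := 1) (by norm_num) x
  convert this using 2 with a
  unfold e
  rw [← lp.single_smul]
  simp

theorem dense_span : Dense (Submodule.span 𝕜 (Set.range (e 𝕜 : ι → L1 𝕜 ι)) : Set (L1 𝕜 ι)) := by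
  intro x
  refine mem_closure_of_tendsto (hasSum_e x) (Eventually.of_forall (fun s => ?_))
  exact Submodule.sum_mem _ (fun a _ => Submodule.smul_mem _ _ (Submodule.subset_span ⟨a, rfl⟩))

theorem separable [Countable ι] : TopologicalSpace.SeparableSpace (L1 𝕜 ι) := by
  rw [← TopologicalSpace.isSeparable_univ_iff, ← (dense_span (𝕜 := 𝕜) (ι := ι)).closure_eq]
  exact ((Set.countable_range _).isSeparable.span).closure

theorem ext_e {Y : Type} [NormedAddCommGroup Y] [NormedSpace 𝕜 Y] {f g : L1 𝕜 ι →L[𝕜] Y}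
    (h : ∀ a, f (e 𝕜 a) = g (e 𝕜 a)) : f = g := by
  apply ContinuousLinearMap.ext_on dense_span
  rintro _ ⟨a, rfl⟩
  exact h a

theorem exists_lift {Y : Type} [NormedAddCommGroup Y] [NormedSpace 𝕜 Y] [CompleteSpace Y]
    (v : ι → Y) (C : ℝ) (hv : ∀ a, ‖v a‖ ≤ C) :
    ∃ T : L1 𝕜 ι →L[𝕜] Y, (∀ a, T (e 𝕜 a) = v a) ∧ ∀ x, ‖T x‖ ≤ C * ‖x‖ := by
  have hb : ∀ (x : L1 𝕜 ι) a, ‖x a • v a‖ ≤ C * ‖x a‖ := fun x a => by
    rw [norm_smul, mul_comm]; exact mul_le_mul_of_nonneg_right (hv a) (norm_nonneg _)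
  have hs : ∀ x : L1 𝕜 ι, Summable (fun a => x a • v a) := fun x =>
    Summable.of_norm_bounded ((hasSum_norm x).summable.mul_left C) (hb x)
  let L : L1 𝕜 ι →ₗ[𝕜] Y :=
    { toFun := fun x => ∑' a, x a • v a
      map_add' := fun x y => by
        rw [← (hs x).tsum_add (hs y)]
        simp [add_smul]
      map_smul' := fun c x => by
        rw [RingHom.id_apply, ← (hs x).tsum_const_smul]
        simp [mul_smul] }
  have hL : ∀ x, ‖L x‖ ≤ C * ‖x‖ := fun x =>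
    (hs x).hasSum.norm_le_of_bounded ((hasSum_norm x).mul_left C) (hb x)
  refine ⟨L.mkContinuous C hL, fun a => ?_, hL⟩
  show ∑' b, (e 𝕜 a) b • v b = v a
  rw [tsum_eq_single a]
  · simp [e]
  · intro b hb
    simp [e, lp.single_apply, Pi.single_eq_of_ne hb]

theorem norm_le_of_e {Y : Type} [NormedAddCommGroup Y] [NormedSpace 𝕜 Y] (f : L1 𝕜 ι →L[𝕜] Y)
    (C : ℝ) (h : ∀ a, ‖f (e 𝕜 a)‖ ≤ C) (x : L1 𝕜 ι) : ‖f x‖ ≤ C * ‖x‖ := by
  refine (f.hasSum (hasSum_e x)).norm_le_of_bounded ((hasSum_norm x).mul_left C) (fun a => ?_)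
  rw [map_smul, norm_smul, mul_comm]
  exact mul_le_mul_of_nonneg_right (h a) (norm_nonneg _)

end Pool.Agent.H28.L1Lift
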