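import Mathlib

set_option autoImplicit false

open scoped Topology
open Filter

namespace Pool.Agent.H28.LimSol

lemma shift_top (s : ℤ) : Tendsto (fun n : ℕ => ((n : ℤ) + s).toNat) atTop atTop := by
  refine tendsto_atTop.2 fun b => ?_
  filter_upwards [eventually_ge_atTop (b + s.natAbs)] with n hn
  omega

/-- Full limiting sequences of a bounded sequence through a prescribed cluster point. -/
lemma limsol (x : ℕ → ℝ) (a b c : ℝ) (ha : ∀ n, a ≤ x n) (hb : ∀ n, x n ≤ b)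
    (hc : MapClusterPt c atTop x) :
    ∃ (U : Ultrafilter ℕ) (z : ℤ → ℝ), (U : Filter ℕ) ≤ atTop ∧ z 0 = c ∧
      (∀ s : ℤ, Tendsto (fun n : ℕ => x ((n : ℤ) + s).toNat) U (𝓝 (z s))) ∧
      ∀ s, MapClusterPt (z s) atTop x := by
  obtain ⟨U, hU, hx⟩ := mapClusterPt_iff_ultrafilter.1 hc
  have hex : ∀ s : ℤ, ∃ y, Tendsto (fun n : ℕ => x ((n : ℤ) + s).toNat) U (𝓝 y) := by
    intro s
    obtain ⟨y, -, hy⟩ := (isCompact_Icc (a := a) (b := b)).ultrafilter_le_nhds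
      (U.map fun n : ℕ => x ((n : ℤ) + s).toNat) (by
        rw [Ultrafilter.coe_map, le_principal_iff, mem_map]
        exact univ_mem' fun n => ⟨ha _, hb _⟩)
    exact ⟨y, hy⟩
  choose z hz using hex
  refine ⟨U, z, hU, ?_, hz, fun s => ?_⟩
  · have := hz 0
    simp only [add_zero, Int.toNat_natCast] at this
    exact tendsto_nhds_unique this hx
  · refine mapClusterPt_iff_ultrafilter.2 ⟨U.map fun n : ℕ => ((n : ℤ) + s).toNat, ?_, ?_⟩
    · rw [Ultrafilter.coe_map]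
      exact (shift_top s).mono_left hU
    · rw [Ultrafilter.coe_map]
      exact hz s

lemma bddU (x : ℕ → ℝ) (b : ℝ) (hb : ∀ n, x n ≤ b) : IsBoundedUnder (· ≤ ·) atTop x :=
  isBoundedUnder_of ⟨b, hb⟩

lemma bddL (x : ℕ → ℝ) (a : ℝ) (ha : ∀ n, a ≤ x n) : IsBoundedUnder (· ≥ ·) atTop x :=
  isBoundedUnder_of ⟨a, ha⟩

/-- Limiting sequence through the upper limit. -/
lemma limsol_sup (x : ℕ → ℝ) (a b : ℝ) (ha : ∀ n, a ≤ x n) (hb : ∀ n, x n ≤ b) :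
    ∃ (U : Ultrafilter ℕ) (z : ℤ → ℝ), (U : Filter ℕ) ≤ atTop ∧ z 0 = limsup x atTop ∧
      (∀ s : ℤ, Tendsto (fun n : ℕ => x ((n : ℤ) + s).toNat) U (𝓝 (z s))) ∧
      ∀ s, liminf x atTop ≤ z s ∧ z s ≤ limsup x atTop := by
  obtain ⟨U, z, h1, h2, h3, h4⟩ := limsol x a b _ ha hb
    (MapClusterPt.limsup (bddL x a ha).isCoboundedUnder_le (bddU x b hb))
  exact ⟨U, z, h1, h2, h3, fun s =>
    ⟨(h4 s).liminf_le (bddL x a ha), (h4 s).le_limsup (bddU x b hb)⟩⟩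

/-- Limiting sequence through the lower limit. -/
lemma limsol_inf (x : ℕ → ℝ) (a b : ℝ) (ha : ∀ n, a ≤ x n) (hb : ∀ n, x n ≤ b) :
    ∃ (U : Ultrafilter ℕ) (z : ℤ → ℝ), (U : Filter ℕ) ≤ atTop ∧ z 0 = liminf x atTop ∧
      (∀ s : ℤ, Tendsto (fun n : ℕ => x ((n : ℤ) + s).toNat) U (𝓝 (z s))) ∧
      ∀ s, liminf x atTop ≤ z s ∧ z s ≤ limsup x atTop := by
  obtain ⟨U, z, h1, h2, h3, h4⟩ := limsol x a b _ ha hb
    (MapClusterPt.liminf (bddU x b hb).isCoboundedUnder_ge (bddL x a ha))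
  exact ⟨U, z, h1, h2, h3, fun s =>
    ⟨(h4 s).liminf_le (bddL x a ha), (h4 s).le_limsup (bddU x b hb)⟩⟩

end Pool.Agent.H28.LimSol
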