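import Mathlib

open Filter Topology Metric Set

namespace Pool.Agent.H28.Osgood

universe u

lemma dim_one {f : ℂ → ℂ} {a : ℂ} (hf : AnalyticAt ℂ f a) {U : Set ℂ} (hU : U ∈ 𝓝 a)
    (hi : InjOn f U) : deriv f a ≠ 0 := by
  intro hd
  have hf' : AnalyticAt ℂ (fun z => f z - f a) a := hf.sub analyticAt_const
  have hne : ¬ ∀ᶠ z in 𝓝 a, f z - f a = 0 := by
    intro h
    have h2 : ∀ᶠ z in 𝓝[≠] a, f z - f a = 0 ∧ z ∈ U :=
      (h.and hU).filter_mono nhdsWithin_le_nhds
    obtain ⟨z, ⟨h3, h4⟩, h5⟩ := (h2.and self_mem_nhdsWithin).exists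
    exact h5 (hi h4 (mem_of_mem_nhds hU) (sub_eq_zero.1 h3))
  obtain ⟨k, g, hg, hg0, hfg⟩ := hf'.exists_eventuallyEq_pow_smul_nonzero_iff.2 hne
  have hk0 : k ≠ 0 := by
    rintro rfl
    have := hfg.self_of_nhds
    simp at this
    exact hg0 this.symm
  have hk1 : k ≠ 1 := by
    rintro rfl
    have h1 : HasDerivAt (fun z => f z - f a) 0 a := by
      have := hf.differentiableAt.hasDerivAt.sub_const (f a)
      rwa [hd] at this
    have h2 : HasDerivAt (fun z => (z - a) * g z) (1 * g a + (a - a) * deriv g a) a :=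
      ((hasDerivAt_id a).sub_const a).mul hg.differentiableAt.hasDerivAt
    have h3 : (fun z => f z - f a) =ᶠ[𝓝 a] fun z => (z - a) * g z := by
      filter_upwards [hfg] with z hz
      simpa using hz
    have := h1.unique (h2.congr_of_eventuallyEq h3)
    simp at this
    exact hg0 this.symm
  obtain ⟨c, hc⟩ := IsAlgClosed.exists_pow_nat_eq (g a) (Nat.pos_of_ne_zero hk0)
  have hc0 : c ≠ 0 := by
    rintro rfl
    rw [zero_pow hk0] at hc
    exact hg0 hc.symm
  have hkc : (k : ℂ) ≠ 0 := by exact_mod_cast hk0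
  set r : ℂ → ℂ := fun z => c * Complex.exp (Complex.log (g z / g a) / k) with hr
  have hra : AnalyticAt ℂ r a := by
    have h1 : AnalyticAt ℂ (fun z => g z / g a) a := hg.div analyticAt_const hg0
    have h2 : AnalyticAt ℂ (fun z => Complex.log (g z / g a)) a :=
      h1.clog (by simp [div_self hg0])
    exact analyticAt_const.mul (h2.div analyticAt_const hkc).cexp
  have hr0 : r a = c := by simp [hr, div_self hg0]
  have hrk : ∀ᶠ z in 𝓝 a, r z ^ k = g z := by
    filter_upwards [hg.continuousAt.eventually_ne hg0] with z hz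
    simp only [hr]
    rw [mul_pow, ← Complex.exp_nat_mul, mul_div_cancel₀ _ hkc, Complex.exp_log (div_ne_zero hz hg0),
      hc, mul_div_cancel₀ _ hg0]
  have hh : HasStrictDerivAt (fun z => (z - a) * r z) c a := by
    have h0 : HasStrictDerivAt (fun z => z - a) 1 a := (hasStrictDerivAt_id a).sub_const a
    have := HasStrictDerivAt.mul h0 hra.hasStrictDerivAt
    simp only [hr0, sub_self, zero_mul, add_zero, one_mul] at this
    exact this
  have hmap := hh.map_nhds_eq hc0
  simp only [sub_self, zero_mul] at hmap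
  have hV : (fun z => (z - a) * r z) '' {z | z ∈ U ∧ f z - f a = ((z - a) * r z) ^ k} ∈
      𝓝 (0 : ℂ) := by
    rw [← hmap]
    refine image_mem_map ?_
    filter_upwards [hU, hfg, hrk] with z h1 h2 h3
    exact ⟨h1, by rw [mul_pow, h3]; simpa using h2⟩
  set ω := Complex.exp (2 * Real.pi * Complex.I / k) with hω
  have hprim := Complex.isPrimitiveRoot_exp k hk0
  have hω1 : ω ≠ 1 := hprim.ne_one (by omega)
  have hωk : ω ^ k = 1 := hprim.pow_eq_one
  have hV2 : ∀ᶠ w in 𝓝 (0 : ℂ), ω * w ∈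
      (fun z => (z - a) * r z) '' {z | z ∈ U ∧ f z - f a = ((z - a) * r z) ^ k} := by
    have : Tendsto (fun w : ℂ => ω * w) (𝓝 0) (𝓝 0) := by
      simpa using (continuous_const_mul ω).tendsto 0
    exact this hV
  obtain ⟨w, ⟨⟨z₁, ⟨h1, h2⟩, h3⟩, ⟨z₂, ⟨h4, h5⟩, h6⟩⟩, hw⟩ :=
    ((((Filter.Eventually.and hV hV2)).filter_mono nhdsWithin_le_nhds).and
      (self_mem_nhdsWithin (s := {0}ᶜ))).exists
  simp only at h3 h6
  have : z₁ = z₂ := by
    refine hi h1 h4 ?_
    rw [h3] at h2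
    rw [h6, mul_pow, hωk, one_mul] at h5
    linear_combination h2 - h5
  subst this
  rw [h3] at h6
  have : (1 - ω) * w = 0 := by linear_combination h6
  rcases mul_eq_zero.1 this with h | h
  · exact hω1 (by linear_combination -h)
  · exact hw h

lemma loc_inv {E F : Type*} [NormedAddCommGroup E] [NormedSpace ℂ E] [CompleteSpace E]
    [NormedAddCommGroup F] [NormedSpace ℂ F] [CompleteSpace F] {f : E → F} {a : E}
    (hf : AnalyticAt ℂ f a) (i : E ≃L[ℂ] F) (hi : fderiv ℂ f a = i) :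
    ∃ g : F → E, AnalyticAt ℂ g (f a) ∧ g (f a) = a ∧ (∀ᶠ z in 𝓝 a, g (f z) = z) ∧
      (∀ᶠ w in 𝓝 (f a), f (g w) = w) ∧ HasFDerivAt g (i.symm : F →L[ℂ] E) (f a) := by
  have hs : HasStrictFDerivAt f (i : E →L[ℂ] F) a := hi ▸ hf.hasStrictFDerivAt
  refine ⟨hs.localInverse f i a, ?_, hs.localInverse_apply_image, hs.eventually_left_inverse,
    hs.eventually_right_inverse, hs.to_localInverse.hasFDerivAt⟩
  exact (hs.toOpenPartialHomeomorph f).analyticAt_symm' hs.mem_toOpenPartialHomeomorph_source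
    hf hi

lemma straighten {E : Type*} [NormedAddCommGroup E] [NormedSpace ℂ E] [CompleteSpace E]
    {G : E → ℂ} {a v : E} (hG : AnalyticAt ℂ G a) (hG0 : G a = 0) (hv : fderiv ℂ G a v = 1) :
    ∃ Ψ : E → E, AnalyticAt ℂ Ψ a ∧ Ψ a = a ∧ HasFDerivAt Ψ (ContinuousLinearMap.id ℂ E) a ∧
      (∀ᶠ z in 𝓝 a, Ψ (z + (G z - fderiv ℂ G a (z - a)) • v) = z) ∧
      (∀ᶠ w in 𝓝 a, Ψ w + (G (Ψ w) - fderiv ℂ G a (Ψ w - a)) • v = w) := by
  set μ := fderiv ℂ G a with hμ
  set Φ : E → E := fun z => z + (G z - μ (z - a)) • v with hΦ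
  have hΦa : Φ a = a := by simp [hΦ, hG0]
  have hμa : AnalyticAt ℂ (fun z => μ (z - a)) a :=
    (μ.analyticAt _).comp (analyticAt_id.sub analyticAt_const)
  have han : AnalyticAt ℂ Φ a := analyticAt_id.add ((hG.sub hμa).smul analyticAt_const)
  have hd : fderiv ℂ Φ a = ContinuousLinearEquiv.refl ℂ E := by
    have h1 : HasFDerivAt (fun z => μ (z - a)) μ a := by
      have := μ.hasFDerivAt.comp a ((hasFDerivAt_id a).sub_const a)
      rw [ContinuousLinearMap.comp_id] at this
      exact this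
    have h2 := (hasFDerivAt_id a).add
      ((hG.differentiableAt.hasFDerivAt.sub h1).smul_const v)
    refine (HasFDerivAt.fderiv h2).trans ?_
    ext x
    simp [hμ]
  obtain ⟨Ψ, h1, h2, h3, h4, h5⟩ := loc_inv han _ hd
  rw [hΦa] at h1 h2 h4 h5
  exact ⟨Ψ, h1, h2, h5, h3, h4⟩

/-- The statement in dimension `n`. -/
def P (n : ℕ) : Prop :=
  ∀ (E F : Type u) [NormedAddCommGroup E] [NormedSpace ℂ E] [FiniteDimensional ℂ E]
    [NormedAddCommGroup F] [NormedSpace ℂ F] [FiniteDimensional ℂ F],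
    Module.finrank ℂ E = n → Module.finrank ℂ F = n → ∀ (f : E → F) (a : E), AnalyticAt ℂ f a →
    (∃ U ∈ 𝓝 a, InjOn f U) → Function.Injective (fderiv ℂ f a)

lemma step_ne {n : ℕ} (IH : P.{u} n) {E F : Type u} [NormedAddCommGroup E] [NormedSpace ℂ E]
    [FiniteDimensional ℂ E] [NormedAddCommGroup F] [NormedSpace ℂ F] [FiniteDimensional ℂ F]
    (hE : Module.finrank ℂ E = n + 1) (hF : Module.finrank ℂ F = n + 1) {f : E → F} {a : E}
    (hf : AnalyticAt ℂ f a) {U : Set E} (hU : U ∈ 𝓝 a) (hi : InjOn f U)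
    (hne : fderiv ℂ f a ≠ 0) : Function.Injective (fderiv ℂ f a) := by
  haveI : CompleteSpace E := FiniteDimensional.complete ℂ E
  haveI : CompleteSpace F := FiniteDimensional.complete ℂ F
  set D := fderiv ℂ f a with hD
  obtain ⟨v, hv⟩ : ∃ v, D v ≠ 0 := by
    by_contra h
    push Not at h
    exact hne (ContinuousLinearMap.ext h)
  obtain ⟨l, hl⟩ := SeparatingDual.exists_eq_one (R := ℂ) hv
  have hG : AnalyticAt ℂ (fun z => l (f z - f a)) a :=
    (l.analyticAt _).comp (hf.sub analyticAt_const)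
  have hGd : fderiv ℂ (fun z => l (f z - f a)) a = l.comp D :=
    (l.hasFDerivAt.comp a (hf.differentiableAt.hasFDerivAt.sub_const (f a))).fderiv
  obtain ⟨Ψ, h1, h2, h3, h4, h5⟩ := straighten (v := v) hG (by simp) (by rw [hGd]; exact hl)
  rw [hGd] at h4 h5
  set μ := l.comp D with hμ
  have hμv : μ v = 1 := hl
  have hker : ∀ {X : Type u} [NormedAddCommGroup X] [NormedSpace ℂ X] [FiniteDimensional ℂ X]
      (m : X →L[ℂ] ℂ) (x : X), m x = 1 → Module.finrank ℂ X = n + 1 →
      Module.finrank ℂ (LinearMap.ker (m : X →ₗ[ℂ] ℂ)) = n := by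
    intro X _ _ _ m x hx hX
    have hr : LinearMap.range (m : X →ₗ[ℂ] ℂ) = ⊤ := by
      rw [LinearMap.range_eq_top]
      intro c
      exact ⟨c • x, by simp [hx]⟩
    have := LinearMap.finrank_range_add_finrank_ker (m : X →ₗ[ℂ] ℂ)
    rw [hr, finrank_top, Module.finrank_self, hX] at this
    omega
  set π : F →L[ℂ] LinearMap.ker (l : F →ₗ[ℂ] ℂ) :=
    (ContinuousLinearMap.id ℂ F - l.smulRight (D v)).codRestrict _ (by
      intro y
      simp [hl]) with hπ
  set ι : LinearMap.ker (μ : E →ₗ[ℂ] ℂ) →L[ℂ] E := (LinearMap.ker (μ : E →ₗ[ℂ] ℂ)).subtypeL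
    with hι
  set g : LinearMap.ker (μ : E →ₗ[ℂ] ℂ) → LinearMap.ker (l : F →ₗ[ℂ] ℂ) :=
    fun x => π (f (Ψ (a + ι x)) - f a) with hg
  have hax : AnalyticAt ℂ (fun x => a + ι x) 0 := analyticAt_const.add (ι.analyticAt _)
  have e0 : a + ι 0 = a := by simp
  have hΨx : AnalyticAt ℂ (fun x => Ψ (a + ι x)) 0 := h1.comp_of_eq hax e0
  have e1 : Ψ (a + ι 0) = a := by rw [e0, h2]
  have hga : AnalyticAt ℂ g 0 :=
    (π.analyticAt _).comp ((hf.comp_of_eq hΨx e1).sub analyticAt_const)
  have hgd : fderiv ℂ g 0 = π.comp (D.comp ι) := by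
    have d1 : HasFDerivAt (fun x => a + ι x) ι 0 := ι.hasFDerivAt.const_add a
    have d0 : HasFDerivAt Ψ (ContinuousLinearMap.id ℂ E) (a + ι 0) := by rw [e0]; exact h3
    have d2 := d0.comp 0 d1
    have d0' : HasFDerivAt f D (Ψ (a + ι 0)) := by
      rw [e1]; exact hf.differentiableAt.hasFDerivAt
    have d3 := d0'.comp 0 d2
    have d4 := π.hasFDerivAt.comp 0 (d3.sub_const (f a))
    exact d4.fderiv
  have ht : Tendsto (fun x => a + ι x) (𝓝 0) (𝓝 a) := by
    have := hax.continuousAt.tendsto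
    rwa [e0] at this
  have ht2 : Tendsto (fun x => Ψ (a + ι x)) (𝓝 0) (𝓝 a) := by
    have := hΨx.continuousAt.tendsto
    rwa [e1] at this
  have hinj := IH _ _ (hker μ v hμv hE) (hker l (D v) hl hF) g 0 hga
    ⟨_, (ht.eventually h5).and (ht2 hU), by
      rintro x ⟨x1, x2⟩ y ⟨y1, y2⟩ hxy
      have key : ∀ x : LinearMap.ker (μ : E →ₗ[ℂ] ℂ), Ψ (a + ι x) + (l (f (Ψ (a + ι x)) - f a)
          - μ (Ψ (a + ι x) - a)) • v = a + ι x → l (f (Ψ (a + ι x)) - f a) = 0 := by
        intro x hx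
        have h6 : μ (ι x) = 0 := x.2
        have h7 : ι x = (Ψ (a + ι x) - a) + (l (f (Ψ (a + ι x)) - f a)
          - μ (Ψ (a + ι x) - a)) • v := by
          rw [sub_add_eq_add_sub, hx]; simp
        rw [h7, map_add, map_smul, hμv] at h6
        simpa using h6
      have hxy' : f (Ψ (a + ι x)) - f a = f (Ψ (a + ι y)) - f a := by
        have := congrArg Subtype.val hxy
        simp only [hg, hπ, ContinuousLinearMap.coe_codRestrict_apply, ContinuousLinearMap.sub_apply,
          ContinuousLinearMap.id_apply, ContinuousLinearMap.smulRight_apply, key x x1, key y y1,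
          zero_smul, sub_zero] at this
        exact this
      have h8 : Ψ (a + ι x) = Ψ (a + ι y) := hi x2 y2 (sub_left_injective hxy')
      rw [h8, y1] at x1
      exact (Subtype.ext (add_left_cancel x1)).symm⟩
  rw [hgd] at hinj
  rw [injective_iff_map_eq_zero]
  intro y hy
  have hy' : y ∈ LinearMap.ker (μ : E →ₗ[ℂ] ℂ) := by simp [hμ, hy]
  have := (injective_iff_map_eq_zero _).1 hinj ⟨y, hy'⟩ (by simp [hι, hy])
  exact congrArg Subtype.val this

/-- Iterated directional derivative. -/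
noncomputable def dv {E F : Type*} [NormedAddCommGroup E] [NormedSpace ℂ E]
    [NormedAddCommGroup F] [NormedSpace ℂ F] (v : E) (f : E → F) : ℕ → E → F
  | 0 => f
  | k + 1 => fun z => fderiv ℂ (dv v f k) z v

section
variable {E F : Type*} [NormedAddCommGroup E] [NormedSpace ℂ E]
    [NormedAddCommGroup F] [NormedSpace ℂ F] [CompleteSpace F]

lemma dv_an (v : E) {f : E → F} {z : E} (hf : AnalyticAt ℂ f z) (k : ℕ) :
    AnalyticAt ℂ (dv v f k) z := by
  induction k with
  | zero => exact hf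
  | succ k ih => exact ((ContinuousLinearMap.apply ℂ F v).analyticAt _).comp ih.fderiv

lemma dv_line (v : E) {f : E → F} {U : Set E} (hU : IsOpen U) (hf : AnalyticOnNhd ℂ f U) (z : E)
    (k : ℕ) : ∀ ζ : ℂ, z + ζ • v ∈ U →
      iteratedDeriv k (fun t : ℂ => f (z + t • v)) ζ = dv v f k (z + ζ • v) := by
  induction k with
  | zero => intro ζ _; rfl
  | succ k ih =>
    intro ζ hζ
    have hc : Continuous fun t : ℂ => z + t • v := by fun_prop
    have h1 : iteratedDeriv k (fun t : ℂ => f (z + t • v)) =ᶠ[𝓝 ζ]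
        fun t : ℂ => dv v f k (z + t • v) := by
      filter_upwards [hc.continuousAt.eventually (hU.mem_nhds hζ)] with t ht using ih t ht
    rw [iteratedDeriv_succ, h1.deriv_eq]
    have h2 : HasDerivAt (fun t : ℂ => z + t • v) v ζ := by
      simpa using ((hasDerivAt_id ζ).smul_const v).const_add z
    exact ((dv_an v (hf _ hζ) k).differentiableAt.hasFDerivAt.comp_hasDerivAt ζ h2).deriv

lemma line_inj {v : E} (hv : v ≠ 0) {f : E → F} {U : Set E} (hU : IsOpen U) (hi : InjOn f U)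
    {z : E} (hz : z ∈ U) : ¬ ∀ᶠ t in 𝓝 (0 : ℂ), f (z + t • v) = f z := by
  intro h
  have hc : Continuous fun t : ℂ => z + t • v := by fun_prop
  have h1 : ∀ᶠ t in 𝓝 (0 : ℂ), z + t • v ∈ U :=
    hc.continuousAt.eventually (hU.mem_nhds (by simpa using hz))
  obtain ⟨t, ⟨h2, h3⟩, h4⟩ := (((h.and h1).filter_mono nhdsWithin_le_nhds).and
    (self_mem_nhdsWithin (s := {0}ᶜ))).exists
  have := hi h3 hz h2
  simp [hv] at this
  exact h4 this

lemma dv_ne {v : E} (hv : v ≠ 0) {f : E → F} {U : Set E} (hU : IsOpen U)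
    (hf : AnalyticOnNhd ℂ f U) (hi : InjOn f U) {z : E} (hz : z ∈ U) :
    ∃ k, dv v f (k + 1) z ≠ 0 := by
  by_contra h
  push Not at h
  have ha : AnalyticAt ℂ (fun t : ℂ => f (z + t • v)) 0 :=
    (hf z hz).comp_of_eq (by fun_prop) (by simp)
  have h1 : analyticOrderAt (fun t : ℂ => f (z + t • v) - f z) 0 = ⊤ := by
    have ha' : AnalyticAt ℂ (fun t : ℂ => f (z + t • v) - f z) 0 := ha.sub analyticAt_const
    rw [← analyticOrderAt_deriv_eq_top_iff_of_eq_zero ha' (by simp),
      ENat.eq_top_iff_forall_ge]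
    intro m
    rw [natCast_le_analyticOrderAt_iff_iteratedDeriv_eq_zero ha'.deriv]
    intro i _
    have : deriv (fun t : ℂ => f (z + t • v) - f z) =
        deriv (fun t : ℂ => f (z + t • v)) := by
      funext t; exact deriv_sub_const _
    rw [this, ← iteratedDeriv_succ', dv_line v hU hf z _ 0 (by simpa using hz)]
    simpa using h i
  rw [analyticOrderAt_eq_top] at h1
  exact line_inj hv hU hi hz (h1.mono fun t ht => sub_eq_zero.1 ht)

end

lemma step_zero {E F : Type u} [NormedAddCommGroup E] [NormedSpace ℂ E]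
    [FiniteDimensional ℂ E] [NormedAddCommGroup F] [NormedSpace ℂ F] [FiniteDimensional ℂ F]
    (hE : 2 ≤ Module.finrank ℂ E) (hEF : Module.finrank ℂ E = Module.finrank ℂ F) {f : E → F}
    {U : Set E} (hU : IsOpen U) (hf : AnalyticOnNhd ℂ f U) (hi : InjOn f U)
    (hd : ∀ z ∈ U, fderiv ℂ f z ≠ 0 → Function.Injective (fderiv ℂ f z)) :
    ∀ a ∈ U, fderiv ℂ f a ≠ 0 := by
  classical
  haveI : CompleteSpace E := FiniteDimensional.complete ℂ E
  haveI : CompleteSpace F := FiniteDimensional.complete ℂ F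
  intro a ha ha0
  haveI : Nontrivial E := Module.nontrivial_of_finrank_pos (R := ℂ) (by omega)
  obtain ⟨v, hv⟩ := exists_ne (0 : E)
  have hex : ∃ k, ∃ z ∈ U, fderiv ℂ f z = 0 ∧ dv v f (k + 1) z ≠ 0 := by
    obtain ⟨k, hk⟩ := dv_ne hv hU hf hi ha
    exact ⟨k, a, ha, ha0, hk⟩
  obtain ⟨b, hb, hb0, hbk⟩ := Nat.find_spec hex
  have hmin := fun m => Nat.find_min hex (m := m)
  generalize Nat.find hex = k at hbk hmin
  have hk0 : k ≠ 0 := by
    rintro rfl
    exact hbk (by simp [dv, hb0])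
  obtain ⟨j, rfl⟩ := Nat.exists_eq_succ_of_ne_zero hk0
  have hvan : ∀ z ∈ U, fderiv ℂ f z = 0 → dv v f (j + 1) z = 0 := by
    intro z hz hz0
    by_contra h
    exact hmin j (Nat.lt_succ_self j) ⟨z, hz, hz0, h⟩
  obtain ⟨l, hl⟩ := SeparatingDual.exists_eq_one (R := ℂ) hbk
  set G : E → ℂ := fun z => l (dv v f (j + 1) z) with hG
  have hGa : AnalyticAt ℂ G b := (l.analyticAt _).comp (dv_an v (hf b hb) _)
  have hGv : fderiv ℂ G b v = 1 := by
    have := (l.hasFDerivAt.comp b (dv_an v (hf b hb) (j + 1)).differentiableAt.hasFDerivAt).fderiv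
    rw [show G = l ∘ dv v f (j + 1) from rfl, this]
    exact hl
  obtain ⟨Ψ, h1, h2, h3, h4, h5⟩ := straighten hGa (by simp [hG, hvan b hb hb0]) hGv
  set μ := fderiv ℂ G b with hμ
  obtain ⟨u, hu0, hu⟩ : ∃ u : E, u ≠ 0 ∧ μ u = 0 := by
    have := LinearMap.ker_ne_bot_of_finrank_lt (f := (μ : E →ₗ[ℂ] ℂ))
      (by rw [Module.finrank_self]; omega)
    obtain ⟨u, h1, h2⟩ := (Submodule.ne_bot_iff _).1 this
    exact ⟨u, h2, h1⟩
  -- invertibility off the zero set
  have hinv : ∀ z ∈ U, fderiv ℂ f z ≠ 0 → ∃ e : E ≃L[ℂ] F, fderiv ℂ f z = e := by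
    intro z hz hz0
    have hb := hd z hz hz0
    exact ⟨(LinearEquiv.ofInjectiveOfFinrankEq (fderiv ℂ f z : E →ₗ[ℂ] F) hb
      hEF).toContinuousLinearEquiv, by ext x; rfl⟩
  set T : E → F →L[ℂ] E := fun z => (fderiv ℂ f z).inverse with hT
  have hTd : ∀ z ∈ U, fderiv ℂ f z ≠ 0 → DifferentiableAt ℂ T z := by
    intro z hz hz0
    obtain ⟨e, he⟩ := hinv z hz hz0
    have := (contDiffAt_map_inverse (n := 1) e).differentiableAt one_ne_zero
    rw [← he] at this
    exact this.comp z (hf z hz).fderiv.differentiableAt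
  have hTv : ∀ z ∈ U, fderiv ℂ f z ≠ 0 → ‖v‖ ≤ ‖T z‖ * ‖fderiv ℂ f z v‖ := by
    intro z hz hz0
    obtain ⟨e, he⟩ := hinv z hz hz0
    have : T z (fderiv ℂ f z v) = v := by simp [hT, he]
    calc ‖v‖ = ‖T z (fderiv ℂ f z v)‖ := by rw [this]
      _ ≤ _ := (T z).le_opNorm _
  -- a good radius
  have hline : Continuous fun t : ℂ => b + t • v := by fun_prop
  have hiso : ∀ᶠ t in 𝓝[≠] (0 : ℂ), fderiv ℂ f (b + t • v) ≠ 0 := by
    have ha : AnalyticAt ℂ (fun t : ℂ => fderiv ℂ f (b + t • v)) 0 :=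
      (hf b hb).fderiv.comp_of_eq (by fun_prop) (by simp)
    rcases ha.eventually_eq_zero_or_eventually_ne_zero with h | h
    · exfalso
      refine line_inj hv hU hi hb ?_
      have hU' : ∀ᶠ t in 𝓝 (0 : ℂ), b + t • v ∈ U :=
        hline.continuousAt.eventually (hU.mem_nhds (by simpa using hb))
      obtain ⟨r, hr, hr'⟩ := Metric.eventually_nhds_iff_ball.1 (h.and hU')
      have hder : ∀ t ∈ ball (0 : ℂ) r, HasDerivAt (fun t : ℂ => f (b + t • v)) 0 t := by
        intro t ht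
        have h2 : HasDerivAt (fun t : ℂ => b + t • v) v t := by
          simpa using ((hasDerivAt_id t).smul_const v).const_add b
        have := (hf _ (hr' t ht).2).differentiableAt.hasFDerivAt.comp_hasDerivAt t h2
        rw [(hr' t ht).1] at this
        exact this
      filter_upwards [ball_mem_nhds (0 : ℂ) hr] with t ht
      have := isOpen_ball.is_const_of_deriv_eq_zero (convex_ball (0 : ℂ) r).isPreconnected
        (fun t ht => (hder t ht).differentiableAt.differentiableWithinAt)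
        (fun t ht => (hder t ht).deriv) ht (mem_ball_self hr)
      simpa using this
    · exact h
  obtain ⟨W, hWs, hWo, hWb⟩ := _root_.eventually_nhds_iff.1 (h4.and (hU.mem_nhds hb))
  have hW' : ∀ᶠ t in 𝓝 (0 : ℂ), b + t • v ∈ W :=
    hline.continuousAt.eventually (hWo.mem_nhds (by simpa using hWb))
  obtain ⟨r₀, hr₀, hr₀'⟩ := Metric.eventually_nhds_iff_ball.1
    (hW'.and (eventually_nhdsWithin_iff.1 hiso))
  set r := r₀ / 2 with hr
  have hr0 : 0 < r := by positivity
  have hsub : closedBall (0 : ℂ) r ⊆ ball 0 r₀ := closedBall_subset_ball (by linarith)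
  have hsph : ∀ t ∈ sphere (0 : ℂ) r, b + t • v ∈ U ∧ fderiv ℂ f (b + t • v) ≠ 0 := by
    intro t ht
    have h1 := hr₀' t (hsub (sphere_subset_closedBall ht))
    refine ⟨(hWs _ h1.1).2, h1.2 ?_⟩
    rintro rfl
    simp at ht
    exact hr0.ne ht
  obtain ⟨C, hC⟩ := (isCompact_sphere (0 : ℂ) r).exists_bound_of_continuousOn
    (f := fun t => T (b + t • v)) fun t ht =>
      (ContinuousAt.comp (f := fun t : ℂ => b + t • v)
        (hTd _ (hsph t ht).1 (hsph t ht).2).continuousAt hline.continuousAt).continuousWithinAt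
  have hc2 : Continuous fun p : ℂ × ℂ => b + p.1 • u + p.2 • v := by fun_prop
  have E1 : ∀ᶠ η in 𝓝 (0 : ℂ), ∀ t ∈ closedBall (0 : ℂ) r, b + η • u + t • v ∈ W := by
    refine (isCompact_closedBall (0 : ℂ) r).eventually_forall_of_forall_eventually fun t ht => ?_
    exact hc2.continuousAt.eventually (hWo.mem_nhds (by simpa using (hr₀' t (hsub ht)).1))
  have E2 : ∀ᶠ η in 𝓝 (0 : ℂ), ∀ t ∈ sphere (0 : ℂ) r, ‖T (b + η • u + t • v)‖ ≤ C + 1 := by
    refine (isCompact_sphere (0 : ℂ) r).eventually_forall_of_forall_eventually fun t ht => ?_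
    have h1 : ContinuousAt (fun p : ℂ × ℂ => ‖T (b + p.1 • u + p.2 • v)‖) (0, t) := by
      refine ContinuousAt.norm (ContinuousAt.comp_of_eq
        (hTd _ (hsph t ht).1 (hsph t ht).2).continuousAt hc2.continuousAt (by simp))
    refine h1.eventually (ge_mem_nhds ?_)
    have := hC t ht
    simp only [zero_smul, add_zero]
    linarith
  have hlu : Tendsto (fun η : ℂ => b + η • u) (𝓝 0) (𝓝 b) := by
    simpa using (by fun_prop : Continuous fun η : ℂ => b + η • u).tendsto 0
  have E3 : ∀ᶠ η in 𝓝 (0 : ℂ), (C + 1) * ‖fderiv ℂ f (b + η • u) v‖ < ‖v‖ := by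
    have h1 : Tendsto (fun η : ℂ => (C + 1) * ‖fderiv ℂ f (b + η • u) v‖) (𝓝 0)
        (𝓝 ((C + 1) * ‖fderiv ℂ f b v‖)) :=
      ((((dv_an v (hf b hb) 1).continuousAt.tendsto).comp hlu).norm).const_mul _
    rw [hb0] at h1
    exact h1.eventually (gt_mem_nhds (by simpa using hv))
  have E4 : ∀ᶠ η in 𝓝 (0 : ℂ), Ψ (b + η • u) ∈ U ∧ fderiv ℂ f (Ψ (b + η • u)) = 0 := by
    filter_upwards [E1, E2, E3] with η e1 e2 e3
    have hex : ∃ t ∈ closedBall (0 : ℂ) r, fderiv ℂ f (b + η • u + t • v) = 0 := by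
      by_contra h
      push Not at h
      have hdiff : DifferentiableOn ℂ (fun t : ℂ => T (b + η • u + t • v)) (closedBall 0 r) :=
        fun t ht => (DifferentiableAt.comp (f := fun t : ℂ => b + η • u + t • v) t
          (hTd _ (hWs _ (e1 t ht)).2 (h t ht)) (by fun_prop)).differentiableWithinAt
      have := Complex.norm_le_of_forall_mem_frontier_norm_le isBounded_ball
        (hdiff.mono closure_ball_subset_closedBall).diffContOnCl
        (fun t ht => e2 t (frontier_ball_subset_sphere ht)) (subset_closure (mem_ball_self hr0))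
      have h0 : (0 : ℂ) ∈ closedBall (0 : ℂ) r := mem_closedBall_self hr0.le
      have h6 := hTv _ (hWs _ (e1 0 h0)).2 (h 0 h0)
      simp only [zero_smul, add_zero] at this h6
      nlinarith [norm_nonneg (fderiv ℂ f (b + η • u) v)]
    obtain ⟨t, ht, ht0⟩ := hex
    obtain ⟨w1, w2⟩ := hWs _ (e1 t ht)
    have e : b + η • u + t • v + (G (b + η • u + t • v) - μ (b + η • u + t • v - b)) • v
        = b + η • u := by
      rw [show b + η • u + t • v - b = η • u + t • v by abel, map_add, map_smul, map_smul, hu, hGv]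
      simp [hG, hvan _ w2 ht0]
    rw [e] at w1
    rw [w1]
    exact ⟨w2, ht0⟩
  obtain ⟨ρ, hρ, hρ'⟩ := Metric.eventually_nhds_iff_ball.1
    ((E4.and (hlu.eventually h1.eventually_analyticAt)).and (hlu.eventually h5))
  have hder : ∀ η ∈ ball (0 : ℂ) ρ, HasDerivAt (fun η : ℂ => f (Ψ (b + η • u))) 0 η := by
    intro η hη
    obtain ⟨⟨⟨a1, a2⟩, a3⟩, -⟩ := hρ' η hη
    have h2 : HasDerivAt (fun t : ℂ => b + t • u) u η := by
      simpa using ((hasDerivAt_id η).smul_const u).const_add b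
    have := (hf _ a1).differentiableAt.hasFDerivAt.comp_hasDerivAt η
      (a3.differentiableAt.hasFDerivAt.comp_hasDerivAt η h2)
    rw [a2] at this
    exact this
  have hη : ((ρ / 2 : ℝ) : ℂ) ∈ ball (0 : ℂ) ρ := by
    rw [mem_ball_zero_iff, Complex.norm_real, Real.norm_of_nonneg (by positivity)]
    linarith
  have := isOpen_ball.is_const_of_deriv_eq_zero (convex_ball (0 : ℂ) ρ).isPreconnected
    (fun t ht => (hder t ht).differentiableAt.differentiableWithinAt)
    (fun t ht => (hder t ht).deriv) hη (mem_ball_self hρ)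
  simp only [zero_smul, add_zero, h2] at this
  have h7 := hi (hρ' _ hη).1.1.1 hb this
  have h8 := (hρ' _ hη).2
  rw [h7] at h8
  simp [hG, hvan b hb hb0, hu0] at h8
  exact hρ.ne' h8

theorem all (n : ℕ) : P.{u} n := by
  induction n with
  | zero =>
    intro E F _ _ _ _ _ _ hE _ f a _ _ x y _
    haveI := Module.finrank_zero_iff.1 hE
    exact Subsingleton.elim x y
  | succ n IH =>
    intro E F _ _ _ _ _ _ hE hF f a hf ⟨U, hU, hi⟩
    haveI : CompleteSpace F := FiniteDimensional.complete ℂ F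
    refine step_ne IH hE hF hf hU hi ?_
    rcases Nat.eq_zero_or_pos n with rfl | hn
    · intro h0
      haveI : Nontrivial E := Module.nontrivial_of_finrank_pos (R := ℂ) (by omega)
      obtain ⟨v, hv⟩ := exists_ne (0 : E)
      set l : F ≃L[ℂ] ℂ := ContinuousLinearEquiv.ofFinrankEq (by rw [hF]; simp) with hl
      have hc : Continuous fun t : ℂ => a + t • v := by fun_prop
      refine dim_one (f := fun t : ℂ => l (f (a + t • v))) (a := 0)
        (((l : F →L[ℂ] ℂ).analyticAt _).comp (hf.comp_of_eq (by fun_prop) (by simp)))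
        (U := (fun t : ℂ => a + t • v) ⁻¹' U)
        (hc.continuousAt.preimage_mem_nhds (by simpa using hU)) ?_ ?_
      · intro s hs t ht hst
        have := hi hs ht (l.injective hst)
        exact smul_left_injective ℂ hv (add_left_cancel this)
      · have h2 : HasDerivAt (fun t : ℂ => a + t • v) v 0 := by
          simpa using ((hasDerivAt_id (0 : ℂ)).smul_const v).const_add a
        have h3 : HasFDerivAt f (0 : E →L[ℂ] F) (a + (0 : ℂ) • v) := by
          rw [zero_smul, add_zero, ← h0]; exact hf.differentiableAt.hasFDerivAt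
        have := ((l : F →L[ℂ] ℂ).hasFDerivAt.comp_hasDerivAt 0 (h3.comp_hasDerivAt 0 h2)).deriv
        refine this.trans (by simp)
    · obtain ⟨W, hWs, hWo, hWa⟩ := _root_.eventually_nhds_iff.1 (hf.eventually_analyticAt.and hU)
      have hiW : InjOn f W := hi.mono fun z hz => (hWs z hz).2
      exact step_zero (by omega) (hE.trans hF.symm) hWo (fun z hz => (hWs z hz).1) hiW
        (fun z hz hz0 => step_ne IH hE hF (hWs z hz).1 (hWo.mem_nhds hz) hiW hz0) a hWa

/-- An injective analytic self-map has an invertible derivative. -/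
theorem osgood {E : Type u} [NormedAddCommGroup E] [NormedSpace ℂ E] [FiniteDimensional ℂ E]
    {f : E → E} {a : E} (hf : AnalyticAt ℂ f a) {U : Set E} (hU : U ∈ 𝓝 a) (hi : InjOn f U) :
    ∃ e : E ≃L[ℂ] E, fderiv ℂ f a = e := by
  haveI : CompleteSpace E := FiniteDimensional.complete ℂ E
  have hb := all _ E E rfl rfl f a hf ⟨U, hU, hi⟩
  exact ⟨(LinearEquiv.ofInjectiveOfFinrankEq (fderiv ℂ f a : E →ₗ[ℂ] E) hb
    rfl).toContinuousLinearEquiv, by ext x; rfl⟩

end Pool.Agent.H28.Osgood
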