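import Mathlib

open Filter Topology Metric Complex
open scoped InnerProductSpace ComplexConjugate

namespace Pool.Agent.H28.Shear

variable {E : Type*} [NormedAddCommGroup E] [InnerProductSpace ℂ E]

/-- The stationary disc. -/
noncomputable def disc (A B : E) (k : ℕ) (t : ℂ) : E :=
  (t / (1 + ⟪A, B⟫_ℂ * t ^ k)) • (A + t ^ k • B)

lemma inner_lt {A B : E} (h : ‖A‖ ^ 2 + ‖B‖ ^ 2 < 1) : ‖⟪A, B⟫_ℂ‖ < 1 / 2 := by
  have h1 := norm_inner_le_norm (𝕜 := ℂ) A B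
  nlinarith [sq_nonneg (‖A‖ - ‖B‖)]

lemma den_ne {A B : E} (h : ‖A‖ ^ 2 + ‖B‖ ^ 2 < 1) {τ : ℂ} (hτ : ‖τ‖ ≤ 1) :
    1 + ⟪A, B⟫_ℂ * τ ≠ 0 := by
  intro h0
  have h1 : ⟪A, B⟫_ℂ * τ = -1 := by linear_combination h0
  have h2 := congrArg norm h1
  rw [norm_mul, norm_neg, norm_one] at h2
  have := inner_lt h
  nlinarith [norm_nonneg ⟪A, B⟫_ℂ, norm_nonneg τ]

lemma num_lt {A B : E} (h : ‖A‖ ^ 2 + ‖B‖ ^ 2 < 1) {τ : ℂ} (hτ : ‖τ‖ ≤ 1) :
    ‖A + τ • B‖ < ‖1 + ⟪A, B⟫_ℂ * τ‖ := by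
  have h1 : ‖A + τ • B‖ ^ 2 = ‖A‖ ^ 2 + 2 * (⟪A, B⟫_ℂ * τ).re + ‖τ‖ ^ 2 * ‖B‖ ^ 2 := by
    rw [@norm_add_sq ℂ, inner_smul_right, norm_smul, mul_pow, mul_comm τ]
    rfl
  have h2 : ‖1 + ⟪A, B⟫_ℂ * τ‖ ^ 2 = 1 + 2 * (⟪A, B⟫_ℂ * τ).re + ‖⟪A, B⟫_ℂ * τ‖ ^ 2 := by
    rw [Complex.sq_norm, Complex.sq_norm, normSq_apply, normSq_apply]
    simp only [add_re, one_re, add_im, one_im]
    ring
  have h3 : ‖τ‖ ^ 2 ≤ 1 := by nlinarith [norm_nonneg τ]
  have h4 : ‖τ‖ ^ 2 * ‖B‖ ^ 2 ≤ ‖B‖ ^ 2 := by nlinarith [sq_nonneg ‖B‖]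
  have h5 : ‖A + τ • B‖ ^ 2 < ‖1 + ⟪A, B⟫_ℂ * τ‖ ^ 2 := by
    nlinarith [sq_nonneg ‖⟪A, B⟫_ℂ * τ‖]
  exact lt_of_pow_lt_pow_left₀ 2 (norm_nonneg _) h5

lemma disc_mem {A B : E} (h : ‖A‖ ^ 2 + ‖B‖ ^ 2 < 1) (k : ℕ) {t : ℂ} (ht : ‖t‖ ≤ 1) :
    disc A B k t ∈ ball (0 : E) 1 := by
  have hτ : ‖t ^ k‖ ≤ 1 := by rw [norm_pow]; exact pow_le_one₀ (norm_nonneg _) ht
  have h1 := num_lt h hτ
  have h2 : 0 < ‖1 + ⟪A, B⟫_ℂ * t ^ k‖ := norm_pos_iff.2 (den_ne h hτ)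
  rw [mem_ball_zero_iff, disc, norm_smul, norm_div, div_mul_eq_mul_div, div_lt_one h2]
  nlinarith [norm_nonneg (A + t ^ k • B), norm_nonneg t]

lemma disc_diff {A B : E} (h : ‖A‖ ^ 2 + ‖B‖ ^ 2 < 1) (k : ℕ) {t : ℂ} (ht : ‖t‖ ≤ 1) :
    DifferentiableAt ℂ (disc A B k) t := by
  have hτ : ‖t ^ k‖ ≤ 1 := by rw [norm_pow]; exact pow_le_one₀ (norm_nonneg _) ht
  have h2 := den_ne h hτ
  unfold disc
  refine DifferentiableAt.smul (DifferentiableAt.div (by fun_prop) (by fun_prop) h2) ?_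
  fun_prop

lemma smul_mem {A B : E} (h : ‖A‖ ^ 2 + ‖B‖ ^ 2 < 1) {t : ℂ} (ht : ‖t‖ ≤ 1) :
    t • A ∈ ball (0 : E) 1 := by
  rw [mem_ball_zero_iff, norm_smul]
  have : ‖A‖ < 1 := by nlinarith [norm_nonneg A, sq_nonneg ‖B‖]
  nlinarith [norm_nonneg A, norm_nonneg t]

/-- A strict derivative gives the limit of difference quotients along two curves. -/
lemma lim_quot {h : E → E} {Λ : E →L[ℂ] E} (hs : HasStrictFDerivAt h Λ 0) {l : Filter ℂ}
    {p q w : ℂ → E} {c : ℂ → ℂ} {v : E} (hp : Tendsto p l (𝓝 0)) (hq : Tendsto q l (𝓝 0))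
    (hw : Tendsto w l (𝓝 v)) (hc : ∀ᶠ t in l, c t ≠ 0) (hpq : ∀ᶠ t in l, p t - q t = c t • w t) :
    Tendsto (fun t => (c t)⁻¹ • (h (p t) - h (q t))) l (𝓝 (Λ v)) := by
  have h1 := (hasStrictFDerivAt_iff_isLittleO.1 hs).comp_tendsto (hp.prodMk_nhds hq)
  have h2 : (fun t => (c t)⁻¹ • (h (p t) - h (q t)) - Λ (w t)) =o[l] w := by
    rw [Asymptotics.isLittleO_iff] at h1 ⊢
    intro ε hε
    filter_upwards [h1 hε, hc, hpq] with t h1t hct hpqt
    simp only [Function.comp] at h1t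
    rw [hpqt, map_smul, norm_smul] at h1t
    have hpos : 0 < ‖c t‖ := norm_pos_iff.2 hct
    have e : (c t)⁻¹ • (h (p t) - h (q t)) - Λ (w t)
        = (c t)⁻¹ • (h (p t) - h (q t) - c t • Λ (w t)) := by
      rw [smul_sub ((c t)⁻¹) (h (p t) - h (q t)), smul_smul, inv_mul_cancel₀ hct, one_smul]
    rw [e, norm_smul, norm_inv, inv_mul_le_iff₀ hpos]
    linarith
  have h3 : Tendsto (fun t => (c t)⁻¹ • (h (p t) - h (q t)) - Λ (w t)) l (𝓝 0) :=
    (h2.trans_isBigO (hw.isBigO_one ℝ)).tendsto_zero_of_tendsto tendsto_const_nhds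
  have h4 := h3.add ((Λ.continuous.tendsto v).comp hw)
  simpa using h4

/-- The key inequality. -/
theorem key [CompleteSpace E] {h : E → E} (ha : AnalyticOnNhd ℂ h (ball 0 1)) (h0 : h 0 = 0)
    (hpos : ∀ z ∈ ball (0 : E) 1, 0 ≤ (⟪z, h z⟫_ℂ).re) {A B : E}
    (hAB : ‖A‖ ^ 2 + ‖B‖ ^ 2 < 1) {k : ℕ} (hk : 1 ≤ k) :
    0 ≤ (⟪A, fderiv ℂ h 0 A⟫_ℂ + ⟪B, fderiv ℂ h 0 B⟫_ℂ +
      iteratedDeriv (k + 1) (fun t : ℂ => ⟪B, h (t • A)⟫_ℂ) 0 / (k + 1).factorial).re := by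
  set Λ := fderiv ℂ h 0 with hΛ
  have hs : HasStrictFDerivAt h Λ 0 := (ha 0 (mem_ball_self one_pos)).hasStrictFDerivAt
  set α := ⟪A, B⟫_ℂ with hα
  set H : ℂ → E := fun t => h (disc A B k t) with hH
  set ψ : ℂ → ℂ := fun t => ⟪B, h (t • A)⟫_ℂ with hψ
  set G : ℂ → ℂ := fun t => (1 + α * t ^ k) * (t ^ k * ⟪A, H t⟫_ℂ + ⟪B, H t⟫_ℂ) with hG
  have hHd : ∀ t : ℂ, ‖t‖ ≤ 1 → DifferentiableAt ℂ H t := fun t ht =>
    (ha _ (disc_mem hAB k ht)).differentiableAt.comp t (disc_diff hAB k ht)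
  have hin : ∀ (v : E) (F : ℂ → E) (t : ℂ), DifferentiableAt ℂ F t →
      DifferentiableAt ℂ (fun s => ⟪v, F s⟫_ℂ) t := fun v F t hF =>
    (innerSL ℂ v).differentiableAt.comp t hF
  have hψd : ∀ t : ℂ, ‖t‖ ≤ 1 → DifferentiableAt ℂ ψ t := fun t ht =>
    hin B _ t ((ha _ (smul_mem hAB ht)).differentiableAt.comp t (by fun_prop))
  have hGd : ∀ t : ℂ, ‖t‖ ≤ 1 → DifferentiableAt ℂ G t := fun t ht => by
    have h1 := hin A H t (hHd t ht)
    have h2 := hin B H t (hHd t ht)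
    simp only [hG]
    fun_prop
  have I1 := DifferentiableOn.circleIntegral_one_div_sub_center_pow_smul (c := 0) (f := ψ)
    one_pos (k + 1) (fun t ht => (hψd t (by simpa using ht)).differentiableWithinAt)
  -- the limit at the origin
  have hball : ∀ᶠ t in 𝓝[≠] (0 : ℂ), ‖t‖ ≤ 1 := by
    refine Filter.Eventually.filter_mono nhdsWithin_le_nhds ?_
    filter_upwards [closedBall_mem_nhds (0 : ℂ) one_pos] with t ht
    simpa using ht
  have hne : ∀ᶠ t in 𝓝[≠] (0 : ℂ), t ≠ 0 := self_mem_nhdsWithin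
  have hτ : Tendsto (fun t : ℂ => t ^ k) (𝓝[≠] 0) (𝓝 0) := by
    have : Tendsto (fun t : ℂ => t ^ k) (𝓝 0) (𝓝 (0 ^ k)) := (continuous_pow k).tendsto 0
    rw [zero_pow (by omega)] at this
    exact this.mono_left nhdsWithin_le_nhds
  have hden : Tendsto (fun t : ℂ => 1 + α * t ^ k) (𝓝[≠] 0) (𝓝 1) := by
    simpa using (hτ.const_mul α).const_add 1
  have hinv : Tendsto (fun t : ℂ => (1 + α * t ^ k)⁻¹) (𝓝[≠] 0) (𝓝 1) := by
    simpa using hden.inv₀ one_ne_zero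
  have hdisc : Tendsto (disc A B k) (𝓝[≠] 0) (𝓝 0) := by
    have := (disc_diff hAB k (t := 0) (by simp)).continuousAt.tendsto
    rw [show disc A B k 0 = 0 by simp [disc]] at this
    exact this.mono_left nhdsWithin_le_nhds
  have htA : Tendsto (fun t : ℂ => t • A) (𝓝[≠] 0) (𝓝 0) := by
    have : Tendsto (fun t : ℂ => t • A) (𝓝 0) (𝓝 ((0 : ℂ) • A)) :=
      (by fun_prop : Continuous fun t : ℂ => t • A).tendsto 0
    rw [zero_smul] at this
    exact this.mono_left nhdsWithin_le_nhds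
  have L1 : Tendsto (fun t : ℂ => t⁻¹ • (h (disc A B k t) - h 0)) (𝓝[≠] 0) (𝓝 (Λ A)) := by
    refine lim_quot hs (q := fun _ => 0)
      (w := fun t => (1 + α * t ^ k)⁻¹ • (A + t ^ k • B)) hdisc tendsto_const_nhds ?_ hne ?_
    · simpa using hinv.smul ((hτ.smul_const B).const_add A)
    · filter_upwards with t
      rw [sub_zero, disc, smul_smul, div_eq_mul_inv]
  have L2 : Tendsto (fun t : ℂ => (t ^ (k + 1))⁻¹ • (h (disc A B k t) - h (t • A))) (𝓝[≠] 0)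
      (𝓝 (Λ (B - α • A))) := by
    refine lim_quot hs (w := fun t => (1 + α * t ^ k)⁻¹ • (B - α • A)) hdisc htA ?_ ?_ ?_
    · simpa using hinv.smul_const (B - α • A)
    · filter_upwards [hne] with t ht using pow_ne_zero _ ht
    · filter_upwards [hball] with t ht
      have hτ' : ‖t ^ k‖ ≤ 1 := by rw [norm_pow]; exact pow_le_one₀ (norm_nonneg _) ht
      have h2 := den_ne hAB hτ'
      rw [← hα] at h2
      simp only [disc, ← hα, smul_add, smul_sub, smul_smul]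
      have e1 : t / (1 + α * t ^ k) - t = -(t ^ (k + 1) * ((1 + α * t ^ k)⁻¹ * α)) := by
        field_simp; ring
      have e2 : t / (1 + α * t ^ k) * t ^ k = t ^ (k + 1) * (1 + α * t ^ k)⁻¹ := by
        field_simp; ring
      rw [e2, add_sub_right_comm, ← sub_smul, e1, neg_smul]
      abel
  have hcont : ∀ v : E, Continuous fun w : E => ⟪v, w⟫_ℂ := fun v => (innerSL ℂ v).continuous
  have L3 : Tendsto (fun t : ℂ => (G t - ψ t) / t ^ (k + 1)) (𝓝[≠] 0)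
      (𝓝 (⟪A, Λ A⟫_ℂ + ⟪B, Λ B⟫_ℂ)) := by
    have a1 := ((hcont A).tendsto _).comp L1
    have a2 := ((hcont B).tendsto _).comp L1
    have a3 := ((hcont B).tendsto _).comp L2
    have a4 := ((hden.mul a1).add (a2.const_mul α)).add a3
    have e : 1 * ⟪A, Λ A⟫_ℂ + α * ⟪B, Λ A⟫_ℂ + ⟪B, Λ (B - α • A)⟫_ℂ
        = ⟪A, Λ A⟫_ℂ + ⟪B, Λ B⟫_ℂ := by
      rw [map_sub, map_smul, inner_sub_right, inner_smul_right]; ring
    rw [e] at a4
    refine a4.congr' ?_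
    filter_upwards [hne] with t ht
    simp only [Function.comp, h0, sub_zero, inner_smul_right, inner_sub_right, hG, hψ, hH]
    field_simp
    ring
  have hQ : ∀ t : ℂ, ‖t‖ ≤ 1 → t ≠ 0 →
      DifferentiableAt ℂ (fun t : ℂ => (G t - ψ t) / t ^ (k + 1)) t := by
    intro t h1 h2
    have a1 := hGd t h1
    have a2 := hψd t h1
    have a3 : t ^ (k + 1) ≠ 0 := pow_ne_zero _ h2
    fun_prop (disch := assumption)
  have I2 := circleIntegral_sub_center_inv_smul_of_differentiable_on_off_countable_of_tendsto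
    (c := 0) (R := 1) one_pos (f := fun t : ℂ => (G t - ψ t) / t ^ (k + 1)) (s := ∅)
    Set.countable_empty
    (fun t ht => (hQ t (by simpa using ht.1) ht.2).continuousAt.continuousWithinAt)
    (fun t ht => hQ t (by simpa using (ball_subset_closedBall ht.1.1)) ht.1.2) L3
  have hsph : ∀ t ∈ sphere (0 : ℂ) |1|, ‖t‖ = 1 ∧ t ≠ 0 := by
    intro t ht
    have : ‖t‖ = 1 := by simpa using ht
    exact ⟨this, fun h => by simp [h] at this⟩
  have c1 : CircleIntegrable (fun z : ℂ => (1 / (z - 0) ^ (k + 1 + 1)) • ψ z) 0 1 := by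
    refine ContinuousOn.circleIntegrable' fun t ht => ?_
    obtain ⟨h1, h2⟩ := hsph t ht
    have a1 := (hψd t h1.le).continuousAt
    have a3 : (t - 0) ^ (k + 1 + 1) ≠ 0 := pow_ne_zero _ (by simpa using h2)
    refine ContinuousAt.continuousWithinAt ?_
    fun_prop (disch := assumption)
  have c2 : CircleIntegrable
      (fun z : ℂ => (z - 0)⁻¹ • ((G z - ψ z) / z ^ (k + 1))) 0 1 := by
    refine ContinuousOn.circleIntegrable' fun t ht => ?_
    obtain ⟨h1, h2⟩ := hsph t ht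
    have a1 := (hQ t h1.le h2).continuousAt
    have a2 : ContinuousAt (fun z : ℂ => (z - 0)⁻¹) t :=
      ContinuousAt.inv₀ (by fun_prop) (by simpa using h2)
    exact (a2.smul a1).continuousWithinAt
  have I3 := circleIntegral.integral_add c1 c2
  rw [I1, I2] at I3
  set Φ : ℝ → ℂ := fun θ => ((‖1 + α * circleMap 0 1 θ ^ k‖ ^ 2 : ℝ) : ℂ) *
    ⟪disc A B k (circleMap 0 1 θ), H (circleMap 0 1 θ)⟫_ℂ with hΦ
  have I4 : (∮ z in C(0, 1), ((1 / (z - 0) ^ (k + 1 + 1)) • ψ z +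
      (z - 0)⁻¹ • ((G z - ψ z) / z ^ (k + 1)))) = I * ∫ θ in (0 : ℝ)..2 * Real.pi, Φ θ := by
    rw [circleIntegral, ← intervalIntegral.integral_const_mul]
    refine intervalIntegral.integral_congr fun θ _ => ?_
    simp only [deriv_circleMap, hΦ]
    set t := circleMap 0 1 θ with ht
    obtain ⟨h1, h2⟩ := hsph t (circleMap_mem_sphere' 0 1 θ)
    have hc : conj t = t⁻¹ := (Complex.inv_eq_conj h1).symm
    have hτ' : ‖t ^ k‖ ≤ 1 := by rw [norm_pow]; exact pow_le_one₀ (norm_nonneg _) h1.le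
    have h3 := den_ne hAB hτ'
    rw [← hα] at h3
    have h4 : conj (1 + α * t ^ k) ≠ 0 := (map_ne_zero _).2 h3
    have h5 : ((‖1 + α * t ^ k‖ ^ 2 : ℝ) : ℂ) = (1 + α * t ^ k) * conj (1 + α * t ^ k) := by
      rw [Complex.mul_conj, Complex.normSq_eq_norm_sq]
    rw [h5, disc, inner_smul_left, inner_add_left, inner_smul_left, ← hα, map_div₀, map_pow, hc]
    simp only [hG, smul_eq_mul, sub_zero]
    generalize conj (1 + α * t ^ k) = D at h4
    have h6 : t ^ k ≠ 0 := pow_ne_zero _ h2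
    rw [inv_pow, pow_succ, pow_succ]
    generalize t ^ k = τ at h6
    field_simp
    ring
  have hΦc : Continuous Φ := by
    have hm : ∀ θ, ‖circleMap 0 1 θ‖ ≤ 1 := fun θ => by simp
    have d1 : Continuous fun θ => disc A B k (circleMap 0 1 θ) :=
      continuous_iff_continuousAt.2 fun θ => (disc_diff hAB k (hm θ)).continuousAt.comp
        (continuous_circleMap 0 1).continuousAt
    have d2 : Continuous fun θ => H (circleMap 0 1 θ) :=
      continuous_iff_continuousAt.2 fun θ => (hHd _ (hm θ)).continuousAt.comp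
        (continuous_circleMap 0 1).continuousAt
    have d3 := continuous_circleMap 0 1
    simp only [hΦ]
    exact (by fun_prop : Continuous fun θ =>
      ((‖1 + α * circleMap 0 1 θ ^ k‖ ^ 2 : ℝ) : ℂ)).mul (d1.inner d2)
  have I5 : 0 ≤ (∫ θ in (0 : ℝ)..2 * Real.pi, Φ θ).re := by
    have := (reCLM.intervalIntegral_comp_comm (hΦc.intervalIntegrable 0 (2 * Real.pi))
      (μ := MeasureTheory.volume))
    simp only [reCLM_apply] at this
    rw [← this]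
    refine intervalIntegral.integral_nonneg (by positivity) fun θ _ => ?_
    simp only [hΦ, re_ofReal_mul]
    exact mul_nonneg (by positivity) (hpos _ (disc_mem hAB k (by simp)))
  rw [I4] at I3
  have e : (∫ θ in (0 : ℝ)..2 * Real.pi, Φ θ) = ((2 * Real.pi : ℝ) : ℂ) *
      (⟪A, Λ A⟫_ℂ + ⟪B, Λ B⟫_ℂ + iteratedDeriv (k + 1) ψ 0 / (k + 1).factorial) := by
    apply mul_left_cancel₀ I_ne_zero
    rw [I3]
    simp only [smul_eq_mul]
    push_cast
    ring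
  rw [e, re_ofReal_mul] at I5
  exact nonneg_of_mul_nonneg_right I5 (by positivity) 

end Pool.Agent.H28.Shear
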