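import Mathlib
import Pool.Agent.H28.Shear

open Filter Topology Metric Complex
open scoped InnerProductSpace ComplexConjugate

namespace Pool.Agent.H28.Shear

variable {E : Type*} [NormedAddCommGroup E] [InnerProductSpace ℂ E]

lemma line_deriv [CompleteSpace E] {h : E → E} (ha : AnalyticOnNhd ℂ h (ball 0 1)) (A B : E) (m : ℕ) :
    iteratedDeriv m (fun t : ℂ => ⟪B, h (t • A)⟫_ℂ) 0 =
      ⟪B, iteratedFDeriv ℂ m h 0 (fun _ => A)⟫_ℂ := by
  obtain ⟨p, r, hp⟩ := ha 0 (mem_ball_self one_pos)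
  set u : ℂ →L[ℂ] E := ContinuousLinearMap.toSpanSingleton ℂ A with hu
  have hp' : HasFPowerSeriesOnBall h p (u 0) r := by simpa using hp
  have h1 := ((innerSL ℂ B).comp_hasFPowerSeriesOnBall hp'.compContinuousLinearMap).factorial_smul
    1 m
  have h2 := hp.factorial_smul A m
  rw [iteratedFDeriv_apply_eq_iteratedDeriv_mul_prod, Finset.prod_const_one, one_smul] at h1
  have e : (fun t : ℂ => ⟪B, h (t • A)⟫_ℂ) = ⇑((innerSL ℂ) B) ∘ h ∘ ⇑u := by
    funext t; simp [hu]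
  rw [e, ← h1, ← h2, ← Nat.cast_smul_eq_nsmul ℂ, ← Nat.cast_smul_eq_nsmul ℂ, inner_smul_right]
  simp [hu, FormalMultilinearSeries.compContinuousLinearMap,
    ContinuousLinearMap.compFormalMultilinearSeries]

lemma lim_one {c α β x y : ℝ} {m : ℕ} (hx : 0 ≤ x) (hy : 0 ≤ y) (hxy : x ^ 2 + y ^ 2 = 1)
    (h : ∀ x y : ℝ, 0 ≤ x → 0 ≤ y → x ^ 2 + y ^ 2 < 1 → c * x * y ^ m ≤ α * x ^ 2 + β * y ^ 2) :
    c * x * y ^ m ≤ α * x ^ 2 + β * y ^ 2 := by
  have h1 : Tendsto (fun r : ℝ => c * (r * x) * (r * y) ^ m) (𝓝[<] 1)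
      (𝓝 (c * (1 * x) * (1 * y) ^ m)) :=
    ((by fun_prop : Continuous fun r : ℝ => c * (r * x) * (r * y) ^ m).tendsto 1).mono_left
      nhdsWithin_le_nhds
  have h2 : Tendsto (fun r : ℝ => α * (r * x) ^ 2 + β * (r * y) ^ 2) (𝓝[<] 1)
      (𝓝 (α * (1 * x) ^ 2 + β * (1 * y) ^ 2)) :=
    ((by fun_prop : Continuous fun r : ℝ => α * (r * x) ^ 2 + β * (r * y) ^ 2).tendsto 1).mono_left
      nhdsWithin_le_nhds
  have := le_of_tendsto_of_tendsto h1 h2 (by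
    filter_upwards [Ioo_mem_nhdsLT (show (0 : ℝ) < 1 by norm_num)] with r hr
    refine h _ _ (mul_nonneg hr.1.le hx) (mul_nonneg hr.1.le hy) ?_
    have : (r * x) ^ 2 + (r * y) ^ 2 = r ^ 2 := by
      rw [mul_pow, mul_pow, ← mul_add, hxy, mul_one]
    rw [this]
    nlinarith [hr.1, hr.2])
  simpa using this

/-- The quotient to be minimised. -/
noncomputable def quo (α β : ℝ) (k : ℕ) (s : ℝ) : ℝ :=
  (α * s + β * (1 - s)) / (√s * √(1 - s) ^ k)

lemma quo_min {α β s₀ : ℝ} {k : ℕ} (hα : 0 < α) (hβ : 0 < β) (hk : 1 ≤ k) (h0 : 0 < s₀)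
    (h1 : s₀ < 1) (hp : (α - β) * (k - 1) * s₀ ^ 2 + (α + k * β) * s₀ - β = 0)
    {s : ℝ} (hs0 : 0 < s) (hs1 : s < 1) : quo α β k s₀ ≤ quo α β k s := by
  set f : ℝ → ℝ := fun s => 2 * Real.log (α * s + β * (1 - s)) - Real.log s - k * Real.log (1 - s)
    with hf
  have hl : ∀ s : ℝ, 0 < s → s < 1 → 0 < α * s + β * (1 - s) := fun s a b => by
    have : 0 < 1 - s := by linarith
    positivity
  have hq : ∀ s : ℝ, 0 < s → s < 1 → 0 < quo α β k s := fun s a b => by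
    have h2 : 0 < 1 - s := by linarith
    have := hl s a b
    unfold quo
    positivity
  have hlog : ∀ s : ℝ, 0 < s → s < 1 → Real.log (quo α β k s) = f s / 2 := fun s a b => by
    have h2 : 0 < 1 - s := by linarith
    have := hl s a b
    unfold quo
    rw [Real.log_div this.ne' (by positivity), Real.log_mul (by positivity) (by positivity),
      Real.log_pow, Real.log_sqrt a.le, Real.log_sqrt h2.le]
    simp only [hf]
    ring
  have hk' : (1 : ℝ) ≤ k := by exact_mod_cast hk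
  set f' : ℝ → ℝ := fun s => (s - s₀) * (((α - β) * (k - 1) * (s + s₀) + (α + k * β)) /
    ((α * s + β * (1 - s)) * s * (1 - s))) with hf'
  have hd : ∀ s : ℝ, 0 < s → s < 1 → HasDerivAt f (f' s) s := fun s a b => by
    have h2 : 0 < 1 - s := by linarith
    have h3 := hl s a b
    have d1 : HasDerivAt (fun s : ℝ => α * s + β * (1 - s)) (α * 1 + β * (-1)) s :=
      ((hasDerivAt_id s).const_mul α).add (((hasDerivAt_id s).const_sub 1).const_mul β)
    have d2 := ((d1.log h3.ne').const_mul 2).sub (Real.hasDerivAt_log a.ne')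
    have d3 := d2.sub ((((hasDerivAt_id s).const_sub 1).log h2.ne').const_mul (k : ℝ))
    refine HasDerivAt.congr_deriv d3 ?_
    simp only [hf', id]
    field_simp
    linear_combination hp
  have hpos : ∀ s : ℝ, 0 < s → s < 1 → 0 ≤ ((α - β) * (k - 1) * (s + s₀) + (α + k * β)) /
      ((α * s + β * (1 - s)) * s * (1 - s)) := fun s a b => by
    have h2 : 0 < 1 - s := by linarith
    have h3 := hl s a b
    refine div_nonneg ?_ (by positivity)
    have e0 : s₀ * ((α - β) * (k - 1) * (0 + s₀) + (α + k * β)) = β := by linear_combination hp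
    have e1 : (1 - s₀) * ((α - β) * (k - 1) * (1 + s₀) + (α + k * β)) = k * α := by
      linear_combination (-1 : ℝ) * hp
    have p0 : 0 < (α - β) * (k - 1) * (0 + s₀) + (α + k * β) := by
      have : 0 < s₀ * ((α - β) * (k - 1) * (0 + s₀) + (α + k * β)) := by
        rw [e0]; exact hβ
      exact pos_of_mul_pos_right this h0.le
    have p1 : 0 < (α - β) * (k - 1) * (1 + s₀) + (α + k * β) := by
      have : 0 < (1 - s₀) * ((α - β) * (k - 1) * (1 + s₀) + (α + k * β)) := by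
        rw [e1]; positivity
      exact pos_of_mul_pos_right this (by linarith)
    nlinarith [mul_pos a p1, mul_pos h2 p0]
  rw [← Real.log_le_log_iff (hq _ h0 h1) (hq _ hs0 hs1), hlog _ h0 h1, hlog _ hs0 hs1]
  suffices f s₀ ≤ f s by linarith
  rcases lt_trichotomy s s₀ with hlt | rfl | hlt
  · obtain ⟨c, hc, hc'⟩ := exists_hasDerivAt_eq_slope f f' hlt
      (fun x hx => (hd x (by linarith [hx.1]) (by linarith [hx.2])).continuousAt.continuousWithinAt)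
      (fun x hx => hd x (by linarith [hx.1]) (by linarith [hx.2]))
    have : f' c ≤ 0 := mul_nonpos_of_nonpos_of_nonneg (by linarith [hc.2])
      (hpos c (by linarith [hc.1]) (by linarith [hc.2]))
    rw [hc', div_nonpos_iff] at this
    rcases this with h | h
    · linarith [h.2]
    · linarith [h.1]
  · exact le_rfl
  · obtain ⟨c, hc, hc'⟩ := exists_hasDerivAt_eq_slope f f' hlt
      (fun x hx => (hd x (by linarith [hx.1]) (by linarith [hx.2])).continuousAt.continuousWithinAt)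
      (fun x hx => hd x (by linarith [hx.1]) (by linarith [hx.2]))
    have : 0 ≤ f' c := mul_nonneg (by linarith [hc.1])
      (hpos c (by linarith [hc.1]) (by linarith [hc.2]))
    rw [hc', div_nonneg_iff] at this
    rcases this with h | h
    · linarith [h.1]
    · linarith [h.2]

lemma quo_strict {α β a : ℝ} {k : ℕ} (hα : 0 < α) (hβ : 0 < β) (hk : 2 ≤ k)
    (ha : ∀ s : ℝ, 0 < s → s < 1 → a ≤ quo α β k s) {x y : ℝ} (hx : 0 ≤ x) (hy : 0 ≤ y)
    (h0 : 0 < x ^ 2 + y ^ 2) (h1 : x ^ 2 + y ^ 2 < 1) : a * x * y ^ k < α * x ^ 2 + β * y ^ 2 := by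
  have hR : 0 < α * x ^ 2 + β * y ^ 2 := by
    have := min_le_left α β
    have := min_le_right α β
    have := lt_min hα hβ
    nlinarith [sq_nonneg x, sq_nonneg y, mul_pos this h0]
  rcases hx.eq_or_lt with rfl | hx'
  · simpa using hR
  rcases hy.eq_or_lt with rfl | hy'
  · rw [zero_pow (by omega)]; simpa using hR
  set ρ := √(x ^ 2 + y ^ 2) with hρ
  have hρ0 : 0 < ρ := Real.sqrt_pos.2 h0
  have hρ2 : ρ ^ 2 = x ^ 2 + y ^ 2 := Real.sq_sqrt h0.le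
  have hρ1 : ρ < 1 := by nlinarith
  have e1 : 1 - (x / ρ) ^ 2 = (y / ρ) ^ 2 := by
    field_simp; linarith
  have := ha ((x / ρ) ^ 2) (by positivity) (by
    have : 0 < (y / ρ) ^ 2 := by positivity
    linarith)
  rw [quo, e1, Real.sqrt_sq (by positivity), Real.sqrt_sq (by positivity),
    le_div_iff₀ (by positivity)] at this
  obtain ⟨j, rfl⟩ : ∃ j, k = j + 2 := ⟨k - 2, by omega⟩
  have e2 : a * x * y ^ (j + 2) = ρ ^ (j + 3) * (a * (x / ρ * (y / ρ) ^ (j + 2))) := by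
    rw [div_pow]; field_simp; ring
  have e3 : ρ ^ (j + 3) * (α * (x / ρ) ^ 2 + β * (y / ρ) ^ 2)
      = ρ ^ (j + 1) * (α * x ^ 2 + β * y ^ 2) := by
    field_simp; ring
  have h4 : ρ ^ (j + 1) < 1 := pow_lt_one₀ hρ0.le hρ1 (by omega)
  calc a * x * y ^ (j + 2) = ρ ^ (j + 3) * (a * (x / ρ * (y / ρ) ^ (j + 2))) := e2
    _ ≤ ρ ^ (j + 3) * (α * (x / ρ) ^ 2 + β * (y / ρ) ^ 2) := by gcongr
    _ = ρ ^ (j + 1) * (α * x ^ 2 + β * y ^ 2) := e3
    _ < α * x ^ 2 + β * y ^ 2 := by nlinarith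

lemma le_quo {c α β s : ℝ} {k : ℕ} (h0 : 0 < s) (h1 : s < 1)
    (h : ∀ x y : ℝ, 0 ≤ x → 0 ≤ y → x ^ 2 + y ^ 2 < 1 → c * x * y ^ k ≤ α * x ^ 2 + β * y ^ 2) :
    c ≤ quo α β k s := by
  have h2 : 0 < 1 - s := by linarith
  have := lim_one (Real.sqrt_nonneg s) (Real.sqrt_nonneg (1 - s))
    (by rw [Real.sq_sqrt h0.le, Real.sq_sqrt h2.le]; ring) h
  rw [Real.sq_sqrt h0.le, Real.sq_sqrt h2.le] at this
  rw [quo, le_div_iff₀ (by positivity), ← mul_assoc]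
  exact this

lemma coef_le [CompleteSpace E] {h : E → E} (ha : AnalyticOnNhd ℂ h (ball 0 1)) (h0 : h 0 = 0)
    (hpos : ∀ z ∈ ball (0 : E) 1, 0 ≤ (⟪z, h z⟫_ℂ).re) {e w : E} (he : ‖e‖ = 1) (hw : ‖w‖ = 1)
    {α β : ℝ} (hα : ⟪w, fderiv ℂ h 0 w⟫_ℂ = α) (hβ : ⟪e, fderiv ℂ h 0 e⟫_ℂ = β) {m : ℕ}
    (hm : 2 ≤ m) (x y : ℝ) (hx : 0 ≤ x) (hy : 0 ≤ y) (hxy : x ^ 2 + y ^ 2 < 1) :
    ‖⟪w, iteratedFDeriv ℂ m h 0 (fun _ => e)⟫_ℂ / m.factorial‖ * x * y ^ m ≤
      α * x ^ 2 + β * y ^ 2 := by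
  obtain ⟨k, rfl⟩ : ∃ k, m = k + 1 := ⟨m - 1, by omega⟩
  set c : ℂ := ⟪w, iteratedFDeriv ℂ (k + 1) h 0 (fun _ => e)⟫_ℂ / (k + 1).factorial with hc
  obtain ⟨u, hu, huc⟩ : ∃ u : ℂ, ‖u‖ = 1 ∧ conj u * c = -(‖c‖ : ℂ) := by
    by_cases h : c = 0
    · exact ⟨1, by simp, by simp [h]⟩
    · have hn : (‖c‖ : ℂ) ≠ 0 := by simpa using h
      refine ⟨-(c / ‖c‖), by simp [h], ?_⟩
      rw [map_neg, map_div₀, conj_ofReal, neg_mul, div_mul_eq_mul_div, conj_mul', sq,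
        mul_div_assoc, div_self hn, mul_one]
  have hn : ‖(y : ℂ) • e‖ ^ 2 + ‖((x : ℂ) * u) • w‖ ^ 2 < 1 := by
    rw [norm_smul, norm_smul, norm_mul, he, hw, hu, norm_real, norm_real, Real.norm_of_nonneg hx,
      Real.norm_of_nonneg hy]
    linarith
  have := key ha h0 hpos hn (k := k) (by omega)
  rw [line_deriv ha] at this
  have e1 : iteratedFDeriv ℂ (k + 1) h 0 (fun _ => (y : ℂ) • e) =
      ((y : ℂ) ^ (k + 1)) • iteratedFDeriv ℂ (k + 1) h 0 (fun _ => e) := by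
    rw [ContinuousMultilinearMap.map_smul_univ]; simp
  have huu : conj u * u = 1 := by rw [conj_mul', hu]; simp
  have e2 : ⟪(y : ℂ) • e, fderiv ℂ h 0 ((y : ℂ) • e)⟫_ℂ +
      ⟪((x : ℂ) * u) • w, fderiv ℂ h 0 (((x : ℂ) * u) • w)⟫_ℂ +
      ⟪((x : ℂ) * u) • w, iteratedFDeriv ℂ (k + 1) h 0 (fun _ => (y : ℂ) • e)⟫_ℂ /
        (k + 1).factorial = ((α * x ^ 2 + β * y ^ 2 - ‖c‖ * x * y ^ (k + 1) : ℝ) : ℂ) := by
    simp only [e1, map_smul, inner_smul_left, inner_smul_right, hα, hβ, map_mul, conj_ofReal]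
    push_cast
    rw [hc] at huc
    push_cast at huc
    linear_combination (x : ℂ) ^ 2 * α * huu + (x : ℂ) * y ^ (k + 1) * huc
  rw [e2, ofReal_re] at this
  linarith

/-- The sheared map. -/
noncomputable def shear (Λ : E →L[ℂ] E) (e w : E) (a : ℝ) (m : ℕ) (z : E) : E :=
  Λ z + ((a : ℂ) * ⟪e, z⟫_ℂ ^ m) • w

lemma shear_an (Λ : E →L[ℂ] E) (e w : E) (a : ℝ) (m : ℕ) (s : Set E) :
    AnalyticOnNhd ℂ (shear Λ e w a m) s := fun z _ =>
  (Λ.analyticAt z).add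
    ((analyticAt_const.mul (((innerSL ℂ e).analyticAt z).pow m)).smul analyticAt_const)

lemma shear_fderiv (Λ : E →L[ℂ] E) (e w : E) (a : ℝ) {m : ℕ} (hm : 2 ≤ m) :
    fderiv ℂ (shear Λ e w a m) 0 = Λ := by
  have h1 := (((((innerSL ℂ e).hasFDerivAt (x := 0)).pow m).const_mul (a : ℂ)).smul_const w)
  have h2 := (Λ.hasFDerivAt (x := 0)).add h1
  have h3 : m - 1 ≠ 0 := by omega
  refine (HasFDerivAt.fderiv h2).trans ?_
  ext v
  simp [h3]

lemma shear_coef [CompleteSpace E] (Λ : E →L[ℂ] E) {e w : E} (he : ‖e‖ = 1) (hw : ‖w‖ = 1)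
    (a : ℝ) {m : ℕ} (hm : 2 ≤ m) :
    ⟪w, iteratedFDeriv ℂ m (shear Λ e w a m) 0 (fun _ => e)⟫_ℂ / m.factorial = a := by
  rw [← line_deriv (shear_an Λ e w a m _)]
  have e1 : (fun t : ℂ => ⟪w, shear Λ e w a m (t • e)⟫_ℂ) =
      (fun t : ℂ => ⟪w, Λ e⟫_ℂ * t ^ 1) + fun t : ℂ => (a : ℂ) * t ^ m := by
    funext t
    simp only [shear, inner_add_right, map_smul, inner_smul_right, inner_self_eq_norm_sq_to_K,
      he, hw, Pi.add_apply]
    simp [mul_comm]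
  rw [e1, iteratedDeriv_add (by fun_prop) (by fun_prop), iteratedDeriv_const_mul_field,
    iteratedDeriv_const_mul_field, iteratedDeriv_pow, iteratedDeriv_pow,
    Nat.descFactorial_of_lt (show 1 < m by omega), Nat.descFactorial_self]
  have : (m.factorial : ℂ) ≠ 0 := by exact_mod_cast m.factorial_ne_zero
  simp [this]

lemma shear_re (Λ : E →L[ℂ] E) (e w : E) {a : ℝ} (ha : 0 ≤ a) (m : ℕ) (z : E) :
    (⟪z, Λ z⟫_ℂ).re - a * ‖⟪w, z⟫_ℂ‖ * ‖⟪e, z⟫_ℂ‖ ^ m ≤ (⟪z, shear Λ e w a m z⟫_ℂ).re := by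
  rw [shear, inner_add_right, add_re, inner_smul_right]
  have h1 := neg_le_of_abs_le (abs_re_le_norm ((a : ℂ) * ⟪e, z⟫_ℂ ^ m * ⟪z, w⟫_ℂ))
  rw [norm_mul, norm_mul, norm_pow, norm_real, Real.norm_of_nonneg ha,
    norm_inner_symm z w] at h1
  linarith

end Pool.Agent.H28.Shear
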