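import Mathlib
import Pool.Agent.H28.Shear2
import Pool.Agent.H28.Osgood

open Filter Topology Metric Complex Set
open scoped InnerProductSpace ComplexConjugate
open Pool.Agent.H28.Shear

namespace Pool.Agent.H28.Loew

variable {E : Type} [NormedAddCommGroup E] [InnerProductSpace ℂ E] [FiniteDimensional ℂ E]

/-- Second derivative along a complex line through the origin. -/
noncomputable def Q (G : E → E) (z : E) : E := iteratedDeriv 2 (fun t : ℂ => G (t • z)) 0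

omit [FiniteDimensional ℂ E] in
lemma line_d (z : E) : deriv (fun t : ℂ => t • z) = fun _ => z := by
  funext t
  simpa using ((hasDerivAt_id t).smul_const z).deriv

omit [FiniteDimensional ℂ E] in
lemma line_d2 (z : E) : iteratedDeriv 2 (fun t : ℂ => t • z) 0 = 0 := by
  rw [iteratedDeriv_succ, iteratedDeriv_one, line_d]; simp

lemma Q_eq {G : E → E} (hG : AnalyticAt ℂ G 0) (z : E) :
    Q G z = iteratedFDeriv ℂ 2 G 0 (fun _ => z) := by
  haveI : CompleteSpace E := FiniteDimensional.complete ℂ E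
  have := iteratedDeriv_vcomp_two (g := G) (f := fun t : ℂ => t • z) (x := 0)
    (by simpa using hG.contDiffAt) (by fun_prop)
  rw [line_d2, line_d] at this
  exact this.trans (by simp)

lemma quo_two : quo 1 1 2 (1 / 3) = 3 * √3 / 2 := by
  have h3 : √3 * √3 = 3 := Real.mul_self_sqrt (by norm_num)
  have h1 : √(1 / 3 : ℝ) = √3 / 3 := by
    rw [Real.sqrt_eq_iff_mul_self_eq (by norm_num) (by positivity)]
    nlinarith
  rw [quo, Real.sq_sqrt (by norm_num), h1, div_eq_iff (by positivity)]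
  nlinarith

lemma Q_le {h : E → E} (ha : AnalyticOnNhd ℂ h (ball 0 1)) (h0 : h 0 = 0)
    (hd : fderiv ℂ h 0 = ContinuousLinearMap.id ℂ E)
    (hpos : ∀ z ∈ ball (0 : E) 1, 0 ≤ (⟪z, h z⟫_ℂ).re) {z : E} (hz : ‖z‖ = 1) :
    ‖Q h z‖ ≤ 3 * √3 := by
  haveI : CompleteSpace E := FiniteDimensional.complete ℂ E
  have : ‖Q h z‖ / 2 ≤ quo 1 1 2 (1 / 3) := by
    refine le_quo (by norm_num) (by norm_num) ?_
    intro x y hx hy hxy
    by_cases hv : Q h z = 0
    · rw [hv, norm_zero, zero_div, zero_mul, zero_mul]; positivity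
    have hn : 0 < ‖Q h z‖ := norm_pos_iff.2 hv
    set w : E := ((‖Q h z‖⁻¹ : ℝ) : ℂ) • Q h z with hw
    have hw1 : ‖w‖ = 1 := by
      rw [hw, norm_smul, norm_real, norm_inv, norm_norm, inv_mul_cancel₀ hn.ne']
    have := coef_le ha h0 hpos hz hw1 (α := 1) (β := 1)
      (by simp [hd, inner_self_eq_norm_sq_to_K, hw1])
      (by simp [hd, inner_self_eq_norm_sq_to_K, hz]) le_rfl x y hx hy hxy
    rw [← Q_eq (ha 0 (mem_ball_self one_pos))] at this
    have e : ‖⟪w, Q h z⟫_ℂ‖ = ‖Q h z‖ := by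
      rw [hw, inner_smul_left, inner_self_eq_norm_sq_to_K, norm_mul, conj_ofReal, norm_real,
        norm_inv, norm_norm, norm_pow]
      simp only [coe_algebraMap, norm_real, norm_norm]
      field_simp
    rw [norm_div, e] at this
    simpa using this
  rw [quo_two] at this
  linarith

lemma Q_schwarz {v : E → E} (ha : AnalyticOnNhd ℂ v (ball 0 1)) (h0 : v 0 = 0)
    (hm : MapsTo v (ball 0 1) (ball 0 1)) {l : ℝ} (hl : l < 1)
    (hd : fderiv ℂ v 0 = (l : ℂ) • ContinuousLinearMap.id ℂ E) {z : E} (hz : ‖z‖ = 1) :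
    ‖Q v z‖ ≤ 3 * √3 * (1 - l) := by
  haveI : CompleteSpace E := FiniteDimensional.complete ℂ E
  have hl' : 0 < 1 - l := by linarith
  set c : ℂ := (((1 - l)⁻¹ : ℝ) : ℂ) with hc
  have hv0 := ha 0 (mem_ball_self one_pos)
  have h1 := Q_le (h := fun y => c • (y - v y))
    (fun y hy => analyticAt_const.smul (analyticAt_id.sub (ha y hy))) (by simp [h0])
    (by
      have := (((hasFDerivAt_id (0 : E)).sub hv0.differentiableAt.hasFDerivAt).const_smul c).fderiv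
      refine this.trans ?_
      rw [hd]
      ext y
      have h2 : c * (1 - (l : ℂ)) = 1 := by
        rw [hc]; exact_mod_cast inv_mul_cancel₀ hl'.ne'
      simp only [ContinuousLinearMap.smul_apply, ContinuousLinearMap.sub_apply,
        ContinuousLinearMap.id_apply]
      rw [show y - (l : ℂ) • y = (1 - (l : ℂ)) • y by rw [sub_smul, one_smul], smul_smul, h2,
        one_smul])
    (by
      intro y hy
      have h2 := norm_le_norm_of_mapsTo_ball ha.differentiableOn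
        (hm.mono_right ball_subset_closedBall) h0 (mem_ball_zero_iff.1 hy)
      rw [inner_smul_right, hc, re_ofReal_mul, inner_sub_right, sub_re]
      refine mul_nonneg (by positivity) ?_
      have h3 : (⟪y, y⟫_ℂ).re = ‖y‖ ^ 2 := by
        simp [inner_self_eq_norm_sq_to_K, ← ofReal_pow]
      have h4 := (re_le_norm _).trans (norm_inner_le_norm (𝕜 := ℂ) y (v y))
      nlinarith [norm_nonneg y]) hz
  have h2 : Q (fun y => c • (y - v y)) z = c • (-Q v z) := by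
    have h3 : ContDiffAt ℂ 2 (fun t : ℂ => v (t • z)) 0 :=
      (hv0.comp_of_eq (by fun_prop) (by simp)).contDiffAt
    rw [Q, iteratedDeriv_fun_const_smul_field, iteratedDeriv_fun_sub (by fun_prop) h3, line_d2,
      zero_sub, Q]
  rw [h2, norm_smul, norm_neg, hc, norm_real, Real.norm_of_nonneg (by positivity),
    inv_mul_le_iff₀ hl'] at h1
  linarith

lemma trans_map {f g : E → E} (hf : AnalyticOnNhd ℂ f (ball 0 1))
    (hg : AnalyticOnNhd ℂ g (ball 0 1)) (hi : InjOn g (ball 0 1))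
    (hs : f '' ball 0 1 ⊆ g '' ball 0 1) :
    ∃ v : E → E, AnalyticOnNhd ℂ v (ball 0 1) ∧ MapsTo v (ball 0 1) (ball 0 1) ∧
      ∀ z ∈ ball (0 : E) 1, g (v z) = f z := by
  haveI : CompleteSpace E := FiniteDimensional.complete ℂ E
  haveI : Nonempty E := ⟨0⟩
  set v : E → E := fun z => Function.invFunOn g (ball 0 1) (f z) with hv
  have h1 : ∀ z ∈ ball (0 : E) 1, v z ∈ ball (0 : E) 1 ∧ g (v z) = f z := fun z hz =>
    Function.invFunOn_pos (hs ⟨z, hz, rfl⟩)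
  refine ⟨v, fun z hz => ?_, fun z hz => (h1 z hz).1, fun z hz => (h1 z hz).2⟩
  obtain ⟨e, he⟩ := Osgood.osgood (hg _ (h1 z hz).1) (isOpen_ball.mem_nhds (h1 z hz).1) hi
  obtain ⟨k, k1, k2, -, k4, -⟩ := Osgood.loc_inv (hg _ (h1 z hz).1) e he
  rw [(h1 z hz).2] at k1 k2 k4
  have k5 : ∀ᶠ y in 𝓝 (f z), k y ∈ ball (0 : E) 1 :=
    k1.continuousAt.eventually (isOpen_ball.mem_nhds (by rw [k2]; exact (h1 z hz).1))
  refine (k1.comp (hf z hz)).congr ?_
  filter_upwards [(hf z hz).continuousAt.eventually (k4.and k5), isOpen_ball.mem_nhds hz]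
    with y hy hy'
  exact hi hy.2 (h1 y hy').1 (hy.1.trans (h1 y hy').2.symm)

lemma step {f g : E → E} (hf : AnalyticOnNhd ℂ f (ball 0 1))
    (hg : AnalyticOnNhd ℂ g (ball 0 1)) (hi : InjOn g (ball 0 1))
    (hs : f '' ball 0 1 ⊆ g '' ball 0 1) (hf0 : f 0 = 0) (hg0 : g 0 = 0) {s t : ℝ} (hst : s < t)
    (hfd : fderiv ℂ f 0 = ((Real.exp s : ℝ) : ℂ) • ContinuousLinearMap.id ℂ E)
    (hgd : fderiv ℂ g 0 = ((Real.exp t : ℝ) : ℂ) • ContinuousLinearMap.id ℂ E)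
    {z : E} (hz : ‖z‖ = 1) :
    ‖((Real.exp (-2 * s) : ℝ) : ℂ) • Q f z - ((Real.exp (-2 * t) : ℝ) : ℂ) • Q g z‖ ≤
      3 * √3 * (Real.exp (t - s) * (Real.exp (-s) - Real.exp (-t))) := by
  haveI : CompleteSpace E := FiniteDimensional.complete ℂ E
  obtain ⟨v, va, vm, vg⟩ := trans_map hf hg hi hs
  have m0 : (0 : E) ∈ ball (0 : E) 1 := mem_ball_self one_pos
  have v0 : v 0 = 0 := hi (vm m0) m0 (by rw [vg 0 m0, hf0, hg0])
  have hev : g ∘ v =ᶠ[𝓝 0] f := by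
    filter_upwards [isOpen_ball.mem_nhds m0] with y hy using vg y hy
  have het : ((Real.exp t : ℝ) : ℂ) ≠ 0 := by exact_mod_cast (Real.exp_pos t).ne'
  have vd : fderiv ℂ v 0 = ((Real.exp (s - t) : ℝ) : ℂ) • ContinuousLinearMap.id ℂ E := by
    have h1 := fderiv_comp 0 (hg _ (vm m0)).differentiableAt (va 0 m0).differentiableAt
    rw [hev.fderiv_eq, v0, hfd, hgd] at h1
    ext y
    have h2 := congrArg (fun L : E →L[ℂ] E => L y) h1
    simp only [ContinuousLinearMap.smul_apply, ContinuousLinearMap.id_apply,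
      ContinuousLinearMap.comp_apply] at h2 ⊢
    apply smul_right_injective E het
    simp only
    rw [← h2, smul_smul, ← ofReal_mul, ← Real.exp_add]
    congr 3; ring
  have hγ : AnalyticAt ℂ (fun u : ℂ => v (u • z)) 0 :=
    (va 0 m0).comp_of_eq (by fun_prop) (by simp)
  have h1 := iteratedDeriv_vcomp_two (g := g) (f := fun u : ℂ => v (u • z)) (x := 0)
    (by simpa [v0] using (hg 0 m0).contDiffAt) hγ.contDiffAt
  have h2 : deriv (fun u : ℂ => v (u • z)) 0 = ((Real.exp (s - t) : ℝ) : ℂ) • z := by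
    have a1 : HasDerivAt (fun u : ℂ => u • z) z 0 := by
      simpa using (hasDerivAt_id (0 : ℂ)).smul_const z
    have a2 : HasFDerivAt v (fderiv ℂ v 0) ((0 : ℂ) • z) := by
      rw [zero_smul]; exact (va 0 m0).differentiableAt.hasFDerivAt
    have := (a2.comp_hasDerivAt 0 a1).deriv
    rw [vd] at this
    exact this
  have h3 : (g ∘ fun u : ℂ => v (u • z)) =ᶠ[𝓝 0] fun u : ℂ => f (u • z) := by
    have : Tendsto (fun u : ℂ => u • z) (𝓝 0) (𝓝 0) := by
      simpa using (by fun_prop : Continuous fun u : ℂ => u • z).tendsto 0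
    exact this.eventually hev
  rw [h3.iteratedDeriv_eq, h2, zero_smul, v0, hgd, ContinuousMultilinearMap.map_smul_univ,
    ← Q_eq (hg 0 m0)] at h1
  have h4 : Q f z = ((Real.exp (s - t) ^ 2 : ℝ) : ℂ) • Q g z + ((Real.exp t : ℝ) : ℂ) • Q v z := by
    rw [Q, h1]; simp [Q]
  have h5 := Q_schwarz va v0 vm (l := Real.exp (s - t))
    (Real.exp_lt_one_iff.2 (by linarith)) vd hz
  have e1 : Real.exp (-2 * s) * Real.exp (s - t) ^ 2 = Real.exp (-2 * t) := by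
    rw [← Real.exp_nat_mul, ← Real.exp_add]; congr 1; push_cast; ring
  rw [h4, smul_add, smul_smul, smul_smul, ← ofReal_mul, ← ofReal_mul, e1, add_sub_cancel_left,
    norm_smul, norm_real, Real.norm_of_nonneg (by positivity)]
  have e2 : Real.exp (t - s) * (Real.exp (-s) - Real.exp (-t)) =
      Real.exp (-2 * s) * Real.exp t * (1 - Real.exp (s - t)) := by
    simp only [mul_sub, ← Real.exp_add, mul_one]
    congr 2 <;> ring
  rw [e2]
  have : 0 < Real.exp (-2 * s) * Real.exp t := by positivity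
  nlinarith

lemma chain_le {F : ℝ → E → E}
    (h1 : ∀ t, 0 ≤ t → AnalyticOnNhd ℂ (F t) (ball 0 1) ∧ InjOn (F t) (ball 0 1) ∧ F t 0 = 0 ∧
      fderiv ℂ (F t) 0 = ((Real.exp t : ℝ) : ℂ) • ContinuousLinearMap.id ℂ E)
    (h2 : ∀ s t, 0 ≤ s → s ≤ t → F s '' ball 0 1 ⊆ F t '' ball 0 1) {z : E} (hz : ‖z‖ = 1)
    {T : ℝ} (hT : 0 < T) :
    ‖Q (F 0) z - ((Real.exp (-2 * T) : ℝ) : ℂ) • Q (F T) z‖ ≤ 3 * √3 := by
  have key : ∀ δ : ℝ, 0 < δ → ∀ k : ℕ,
      ‖Q (F 0) z - ((Real.exp (-2 * (k * δ)) : ℝ) : ℂ) • Q (F (k * δ)) z‖ ≤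
        3 * √3 * (Real.exp δ * (1 - Real.exp (-(k * δ)))) := by
    intro δ hδ k
    induction k with
    | zero => simp
    | succ k ih =>
      have a0 : (0 : ℝ) ≤ k * δ := by positivity
      have a1 : (k : ℝ) * δ < ((k + 1 : ℕ) : ℝ) * δ := by push_cast; linarith
      have a2 := h1 _ a0
      have a3 := h1 _ (a0.trans a1.le)
      have := step a2.1 a3.1 a3.2.1 (h2 _ _ a0 a1.le) a2.2.2.1 a3.2.2.1 a1 a2.2.2.2 a3.2.2.2 hz
      rw [show ((k + 1 : ℕ) : ℝ) * δ - k * δ = δ by push_cast; ring] at this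
      refine (norm_sub_le_norm_sub_add_norm_sub _ _ _).trans ((add_le_add ih this).trans_eq ?_)
      ring
  have lim : Tendsto (fun N : ℕ => 3 * √3 * Real.exp (T / ((N : ℝ) + 1))) atTop
      (𝓝 (3 * √3 * Real.exp 0)) := by
    refine Tendsto.const_mul _ ((Real.continuous_exp.tendsto 0).comp ?_)
    simpa [div_eq_mul_inv] using
      (tendsto_one_div_add_atTop_nhds_zero_nat (𝕜 := ℝ)).const_mul T
  rw [Real.exp_zero, mul_one] at lim
  refine ge_of_tendsto' lim fun N => ?_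
  have := key (T / ((N : ℝ) + 1)) (by positivity) (N + 1)
  rw [show ((N + 1 : ℕ) : ℝ) * (T / ((N : ℝ) + 1)) = T by push_cast; field_simp] at this
  refine this.trans ?_
  have := Real.exp_pos (-T)
  have := Real.exp_pos (T / ((N : ℝ) + 1))
  gcongr
  nlinarith

lemma Q_cauchy {G : E → E} (hG : AnalyticOnNhd ℂ G (ball 0 1)) {C : ℝ}
    (hC : ∀ y ∈ closedBall (0 : E) (1 / 2), ‖G y‖ ≤ C) {z : E} (hz : ‖z‖ = 1) :
    ‖Q G z‖ ≤ 8 * C := by
  haveI : CompleteSpace E := FiniteDimensional.complete ℂ E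
  have hd : DifferentiableOn ℂ (fun t : ℂ => G (t • z)) (closedBall 0 (1 / 2)) := by
    intro t ht
    have : t • z ∈ ball (0 : E) 1 := by
      rw [mem_ball_zero_iff, norm_smul, hz, mul_one]
      linarith [mem_closedBall_zero_iff.1 ht]
    exact ((hG _ this).comp_of_eq (f := fun t : ℂ => t • z) (by fun_prop)
      rfl).differentiableAt.differentiableWithinAt
  have := norm_iteratedDeriv_le_of_forall_mem_sphere_norm_le 2 (by norm_num)
    (hd.mono closure_ball_subset_closedBall).diffContOnCl (C := C) (fun t ht => hC _ (by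
      rw [mem_closedBall_zero_iff, norm_smul, hz, mul_one, mem_sphere_zero_iff_norm.1 ht]))
  refine this.trans_eq ?_
  norm_num [Nat.factorial]
  ring

lemma poly_ineq {u μ : ℝ} (hu : 0 ≤ u) (hu3 : u ^ 2 ≤ 3) (h0 : 0 ≤ μ) (h1 : μ ≤ 1) :
    (1 - μ) ^ 2 * (1 + μ * (3 * u - u ^ 3) + 3 / 4 * μ ^ 2 * (3 - u ^ 2) ^ 2) ≤ 1 := by
  have a1 : 0 ≤ 4 * μ ^ 2 + (3 - 3 / 4 * (3 - u ^ 2) ^ 2) * μ + (2 - 3 * u + u ^ 3) := by
    have e : 4 * μ ^ 2 + (3 - 3 / 4 * (3 - u ^ 2) ^ 2) * μ + (2 - 3 * u + u ^ 3)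
        = 4 * μ ^ 2 - 3 / 4 * ((1 + u) * (5 - u ^ 2)) * ((1 - u) * μ) + (1 - u) ^ 2 * (u + 2) := by
      ring
    rw [e]
    rcases le_total 1 u with h | h
    · have : 0 ≤ (1 + u) * (5 - u ^ 2) * ((u - 1) * μ) := by
        have : 0 ≤ 5 - u ^ 2 := by linarith
        have : 0 ≤ u - 1 := by linarith
        positivity
      nlinarith [sq_nonneg μ, mul_nonneg (sq_nonneg (1 - u)) (by linarith : 0 ≤ u + 2)]
    · have hp : 0 ≤ (1 - u) * μ := mul_nonneg (by linarith) h0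
      rcases le_total u (1 / 4) with h' | h'
      · have b1 : (1 + u) * (5 - u ^ 2) ≤ 25 / 4 := by nlinarith
        have b2 := mul_le_mul_of_nonneg_right b1 hp
        nlinarith [sq_nonneg (2 * μ - 5 / 4 * (1 - u)), mul_nonneg (sq_nonneg (1 - u)) hu,
          sq_nonneg (1 - u)]
      · have b1 : (1 + u) * (5 - u ^ 2) ≤ 8 := by
          nlinarith [mul_nonneg (sq_nonneg (1 - u)) (by linarith : 0 ≤ u + 3)]
        have b2 := mul_le_mul_of_nonneg_right b1 hp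
        nlinarith [sq_nonneg (2 * μ - 3 / 2 * (1 - u)),
          mul_nonneg (sq_nonneg (1 - u)) (by linarith : 0 ≤ u - 1 / 4)]
  have a2 : 1 + μ * (3 * u - u ^ 3) + 3 / 4 * μ ^ 2 * (3 - u ^ 2) ^ 2
      ≤ 1 + 2 * μ + 3 * μ ^ 2 + 4 * μ ^ 3 := by nlinarith [mul_nonneg h0 a1]
  have a3 : (1 - μ) ^ 2 * (1 + 2 * μ + 3 * μ ^ 2 + 4 * μ ^ 3) = 1 - μ ^ 4 * (5 - 4 * μ) := by ring
  have a4 : 0 ≤ μ ^ 4 * (5 - 4 * μ) := mul_nonneg (by positivity) (by linarith)
  nlinarith [mul_le_mul_of_nonneg_left a2 (sq_nonneg (1 - μ))]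

omit [FiniteDimensional ℂ E] in
lemma star_mem {e w z : E} (hw : ‖w‖ = 1) (hz : ‖z‖ < 1)
    (hb : ‖⟪w, z⟫_ℂ‖ ^ 2 + ‖⟪e, z⟫_ℂ‖ ^ 2 ≤ ‖z‖ ^ 2) {l : ℝ} (h0 : 0 ≤ l) (h1 : l ≤ 1) :
    ‖(l : ℂ) • (z + ((((3 * √3 / 2) * (1 - l) : ℝ) : ℂ) * ⟪e, z⟫_ℂ ^ 2) • w)‖ < 1 := by
  have h3 : √3 * √3 = 3 := Real.mul_self_sqrt (by norm_num)
  have h30 : 0 ≤ √3 := Real.sqrt_nonneg _
  set μ := 1 - l with hμ
  have hμ0 : 0 ≤ μ := by linarith
  set x := ‖⟪w, z⟫_ℂ‖ with hx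
  set y := ‖⟪e, z⟫_ℂ‖ with hy
  have hx0 : 0 ≤ x := norm_nonneg _
  have hy0 : 0 ≤ y := norm_nonneg _
  set c : ℂ := (((3 * √3 / 2) * μ : ℝ) : ℂ) * ⟪e, z⟫_ℂ ^ 2 with hc
  have hcn : ‖c‖ = 3 * √3 / 2 * μ * y ^ 2 := by
    rw [hc, norm_mul, norm_pow, norm_real, Real.norm_of_nonneg (by positivity)]
  have e1 : ‖z + c • w‖ ^ 2 ≤ ‖z‖ ^ 2 + 2 * (‖c‖ * x) + ‖c‖ ^ 2 := by
    rw [@norm_add_sq ℂ, inner_smul_right, norm_smul, hw, mul_one]
    have := re_le_norm (c * ⟪z, w⟫_ℂ)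
    rw [norm_mul, norm_inner_symm z w] at this
    simp only [RCLike.re_to_complex]
    linarith
  have hr : ‖z‖ ^ 2 < 1 := by nlinarith [norm_nonneg z]
  rcases hμ0.eq_or_lt with hm | hm
  · have : l = 1 := by linarith
    simp [hc, ← hm, this, hz]
  have hy2 : y ^ 2 ≤ 1 - x ^ 2 := by linarith
  have hx2 : x ^ 2 ≤ 1 := by nlinarith [sq_nonneg y]
  have p := poly_ineq (u := √3 * x) (μ := μ) (by positivity) (by nlinarith) hμ0 (by linarith)
  have q1 : ‖c‖ ≤ 3 * √3 / 2 * μ * (1 - x ^ 2) := by rw [hcn]; gcongr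
  have q2 : ‖c‖ ^ 2 ≤ (3 * √3 / 2 * μ * (1 - x ^ 2)) ^ 2 := by gcongr
  have q3 : ‖c‖ * x ≤ 3 * √3 / 2 * μ * (1 - x ^ 2) * x := by gcongr
  have r1 : μ * (3 * (√3 * x) - (√3 * x) ^ 3) = 2 * (3 * √3 / 2 * μ * (1 - x ^ 2) * x) := by
    linear_combination (-μ * √3 * x ^ 3) * h3
  have r2 : 3 / 4 * μ ^ 2 * (3 - (√3 * x) ^ 2) ^ 2 = (3 * √3 / 2 * μ * (1 - x ^ 2)) ^ 2 := by
    have : (√3 * x) ^ 2 = 3 * x ^ 2 := by linear_combination x ^ 2 * h3
    rw [this]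
    linear_combination (-9 / 4 * μ ^ 2 * (1 - x ^ 2) ^ 2) * h3
  rw [r1, r2, show 1 - μ = l by rw [hμ]; ring] at p
  rw [norm_smul, norm_real, Real.norm_of_nonneg h0]
  refine lt_of_pow_lt_pow_left₀ 2 zero_le_one ?_
  rw [mul_pow, one_pow]
  rcases h0.eq_or_lt with hl | hl
  · rw [← hl]; norm_num
  have : ‖z + c • w‖ ^ 2 < 1 + 2 * (3 * √3 / 2 * μ * (1 - x ^ 2) * x) +
      (3 * √3 / 2 * μ * (1 - x ^ 2)) ^ 2 := by linarith
  exact lt_of_lt_of_le (mul_lt_mul_of_pos_left this (by positivity)) p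

end Pool.Agent.H28.Loew
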