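import Mathlib

set_option autoImplicit false

open Filter Topology

namespace Pool.Agent.H28.MBasis

variable {𝕜 : Type*} [RCLike 𝕜] {X : Type*} [NormedAddCommGroup X] [NormedSpace 𝕜 X]

/-- A biorthogonal system (zero terms allowed) with dense span in a separable normed space. -/
theorem exists_system [TopologicalSpace.SeparableSpace X] :
    ∃ (y : ℕ → X) (f : ℕ → StrongDual 𝕜 X), (∀ i j, i ≠ j → f i (y j) = 0) ∧
      (∀ i, y i = 0 → f i = 0) ∧ (∀ i, y i ≠ 0 → f i (y i) = 1) ∧
      Dense (Submodule.span 𝕜 (Set.range y) : Set X) := by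
  classical
  have hg : ∀ v : X, ∃ g : StrongDual 𝕜 X, (v = 0 → g = 0) ∧ (v ≠ 0 → g v = 1) := by
    intro v
    by_cases hv : v = 0
    · exact ⟨0, fun _ => rfl, fun h => absurd hv h⟩
    · obtain ⟨g, -, hg⟩ := exists_dual_vector 𝕜 v (norm_ne_zero_iff.2 hv)
      refine ⟨((‖v‖ : 𝕜))⁻¹ • g, fun h => absurd h hv, fun _ => ?_⟩
      have : (‖v‖ : 𝕜) ≠ 0 := by exact_mod_cast norm_ne_zero_iff.2 hv
      simp [hg, this]
  choose g hg0 hg1 using hg
  let d : ℕ → X := TopologicalSpace.denseSeq X
  let P : ℕ → X →L[𝕜] X := fun n => Nat.rec 0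
    (fun n Q => Q + ((g (d n - Q (d n))).comp (1 - Q)).smulRight (d n - Q (d n))) n
  let y : ℕ → X := fun n => d n - P n (d n)
  let f : ℕ → StrongDual 𝕜 X := fun n => (g (y n)).comp (1 - P n)
  have hP : ∀ n v, P n v = ∑ j ∈ Finset.range n, f j v • y j := by
    intro n v
    induction n with
    | zero => simp [P]
    | succ n ih => rw [Finset.sum_range_succ, ← ih]; rfl
  have hf0 : ∀ i, y i = 0 → f i = 0 := fun i h => by simp [f, hg0 _ h]
  have hfv : ∀ n v, f n v = g (y n) (v - P n v) := fun n v => rfl
  have key : ∀ n, ∀ i < n, ∀ j < n, f i (y j) = if i = j ∧ y i ≠ 0 then 1 else 0 := by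
    intro n
    induction n with
    | zero => intro i hi; omega
    | succ n ih =>
      have h1 : ∀ i < n, f i (y n) = 0 := by
        intro i hi
        have : y n = d n - ∑ j ∈ Finset.range n, f j (d n) • y j := by rw [← hP]
        rw [this, map_sub, map_sum, Finset.sum_eq_single i]
        · by_cases hy : y i = 0
          · simp [hf0 i hy]
          · rw [map_smul, ih i hi i hi]; simp [hy]
        · intro j hj hji
          rw [map_smul, ih i hi j (Finset.mem_range.1 hj)]; simp [Ne.symm hji]
        · intro h; exact absurd (Finset.mem_range.2 hi) h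
      have h2 : ∀ j < n, f n (y j) = 0 := by
        intro j hj
        have : P n (y j) = y j := by
          rw [hP, Finset.sum_eq_single j]
          · rw [ih j hj j hj]
            by_cases hy : y j = 0 <;> simp [hy]
          · intro i hi hij
            rw [ih i (Finset.mem_range.1 hi) j hj]; simp [hij]
          · intro h; exact absurd (Finset.mem_range.2 hj) h
        rw [hfv, this, sub_self, map_zero]
      have h3 : f n (y n) = if y n ≠ 0 then 1 else 0 := by
        have : P n (y n) = 0 := by
          rw [hP]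
          exact Finset.sum_eq_zero (fun i hi => by rw [h1 i (Finset.mem_range.1 hi), zero_smul])
        rw [hfv, this, sub_zero]
        split_ifs with hy
        · exact hg1 _ hy
        · simp [not_not.1 hy]
      intro i hi j hj
      rcases Nat.lt_succ_iff_lt_or_eq.1 hi with hi | rfl <;>
        rcases Nat.lt_succ_iff_lt_or_eq.1 hj with hj | rfl
      · exact ih i hi j hj
      · rw [h1 i hi, if_neg (fun h => hi.ne h.1)]
      · rw [h2 j hj, if_neg (fun h => hj.ne' h.1)]
      · rw [h3]; simp
  refine ⟨y, f, fun i j hij => ?_, hf0, fun i hi => ?_, ?_⟩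
  · rw [key (i + j + 1) i (by omega) j (by omega), if_neg (fun h => hij h.1)]
  · rw [key (i + 1) i (by omega) i (by omega), if_pos ⟨rfl, hi⟩]
  · refine (TopologicalSpace.denseRange_denseSeq X).mono ?_
    rintro _ ⟨n, rfl⟩
    have : d n = y n + ∑ j ∈ Finset.range n, f j (d n) • y j := by rw [← hP]; simp [y]
    show d n ∈ Submodule.span 𝕜 (Set.range y)
    rw [this]
    exact Submodule.add_mem _ (Submodule.subset_span ⟨n, rfl⟩)
      (Submodule.sum_mem _ (fun j _ => Submodule.smul_mem _ _ (Submodule.subset_span ⟨j, rfl⟩)))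

theorem eq_zero_of_dense_span {y : ℕ → X} (hd : Dense (Submodule.span 𝕜 (Set.range y) : Set X))
    (φ : StrongDual 𝕜 X) (h : ∀ n, φ (y n) = 0) : φ = 0 := by
  apply ContinuousLinearMap.ext_on hd
  rintro _ ⟨n, rfl⟩
  simp [h n]

end Pool.Agent.H28.MBasis
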