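import Mathlib

open MeasureTheory Set ENNReal

namespace Pool.Agent.H28.Marcin

theorem inner_bd {b c a r : ℝ} (hb : 0 < b) (hbc : b < c) (hca : c < a) (hr : 0 ≤ r) :
    ∫⁻ t in Ioi (0 : ℝ), ENNReal.ofReal (if t < r then r ^ b * t ^ (-b) else r ^ a * t ^ (-a))
      * ENNReal.ofReal (t ^ (c - 1))
      ≤ ENNReal.ofReal (1 / (c - b) + 1 / (a - c)) * ENNReal.ofReal (r ^ c) := by
  rcases hr.eq_or_lt with rfl | hr
  · rw [setLIntegral_congr_fun measurableSet_Ioi (g := fun _ => 0)]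
    · simp
    · intro t ht
      have : ¬ t < 0 := not_lt.2 (le_of_lt ht)
      simp [this, Real.zero_rpow (show a ≠ 0 by linarith)]
  have hsub : Ioi (0 : ℝ) ⊆ Ioo 0 r ∪ Ici r := fun t ht => by
    rcases lt_or_ge t r with h | h
    · exact Or.inl ⟨ht, h⟩
    · exact Or.inr h
  refine (lintegral_mono_set hsub).trans ((lintegral_union_le _ _ _).trans ?_)
  have h1 : 0 < c - b := by linarith
  have h2 : 0 < a - c := by linarith
  rw [ENNReal.ofReal_add (by positivity) (by positivity), add_mul]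
  refine add_le_add (le_of_eq ?_) (le_of_eq ?_)
  · rw [setLIntegral_congr_fun measurableSet_Ioo
      (g := fun t => ENNReal.ofReal (r ^ b * t ^ (c - b - 1)))]
    · rw [setLIntegral_congr Ioo_ae_eq_Ioc, ← ofReal_integral_eq_lintegral_ofReal,
        ← intervalIntegral.integral_of_le hr.le, intervalIntegral.integral_const_mul,
        integral_rpow (Or.inl (by linarith)), ← ENNReal.ofReal_mul (by positivity)]
      · congr 1
        rw [sub_add_cancel, Real.zero_rpow h1.ne', sub_zero]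
        have : r ^ c = r ^ b * r ^ (c - b) := by rw [← Real.rpow_add hr]; congr 1; ring
        rw [this]; ring
      · exact ((intervalIntegral.intervalIntegrable_rpow' (a := 0) (b := r)
          (r := c - b - 1) (by linarith)).1).const_mul _
      · filter_upwards [ae_restrict_mem measurableSet_Ioc] with t ht
        have := ht.1
        positivity
    · intro t ht
      have h0 := ht.1
      simp only [ht.2, if_true]
      rw [← ENNReal.ofReal_mul (by positivity), mul_assoc, ← Real.rpow_add h0]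
      congr 3; ring
  · rw [setLIntegral_congr_fun measurableSet_Ici
      (g := fun t => ENNReal.ofReal (r ^ a * t ^ (c - a - 1)))]
    · rw [← setLIntegral_congr Ioi_ae_eq_Ici, ← ofReal_integral_eq_lintegral_ofReal,
        integral_const_mul, integral_Ioi_rpow_of_lt (by linarith) hr,
        ← ENNReal.ofReal_mul (by positivity)]
      · congr 1
        rw [sub_add_cancel]
        have : r ^ c = r ^ a * r ^ (c - a) := by rw [← Real.rpow_add hr]; congr 1; ring
        rw [this]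
        have h3 : c - a ≠ 0 := by linarith
        field_simp
        ring
      · exact (integrableOn_Ioi_rpow_of_lt (a := c - a - 1) (by linarith) hr).const_mul _
      · filter_upwards [ae_restrict_mem measurableSet_Ioi] with t ht
        have : 0 < t := hr.trans ht
        positivity
    · intro t ht
      have h0 : 0 < t := hr.trans_le ht
      have : ¬ t < r := not_lt.2 ht
      simp only [this, if_false]
      rw [← ENNReal.ofReal_mul (by positivity), mul_assoc, ← Real.rpow_add h0]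
      congr 3; ring

theorem core {Ω : Type*} [MeasurableSpace Ω] (μ : Measure Ω) [SFinite μ] {b c a : ℝ}
    (hb : 0 < b) (hbc : b < c) (hca : c < a) {G r : Ω → ℝ} (hG0 : ∀ ω, 0 ≤ G ω)
    (hG : AEMeasurable G μ) (hr0 : ∀ ω, 0 ≤ r ω) (hr : Measurable r)
    (h : ∀ t > 0, μ {ω | t < G ω} ≤ ∫⁻ ω, ENNReal.ofReal
      (if t < r ω then r ω ^ b * t ^ (-b) else r ω ^ a * t ^ (-a)) ∂μ) :
    ∫⁻ ω, ENNReal.ofReal (G ω ^ c) ∂μ ≤ ENNReal.ofReal (c * (1 / (c - b) + 1 / (a - c)))
      * ∫⁻ ω, ENNReal.ofReal (r ω ^ c) ∂μ := by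
  have hc : 0 < c := by linarith
  rw [lintegral_rpow_eq_lintegral_meas_lt_mul μ (Filter.Eventually.of_forall hG0) hG hc,
    ENNReal.ofReal_mul hc.le, mul_assoc]
  gcongr
  calc ∫⁻ t in Ioi 0, μ {ω | t < G ω} * ENNReal.ofReal (t ^ (c - 1))
      ≤ ∫⁻ t in Ioi (0 : ℝ), ∫⁻ ω, ENNReal.ofReal
        (if t < r ω then r ω ^ b * t ^ (-b) else r ω ^ a * t ^ (-a))
          * ENNReal.ofReal (t ^ (c - 1)) ∂μ := by
        refine setLIntegral_mono' measurableSet_Ioi fun t ht => ?_
        rw [lintegral_mul_const' _ _ ENNReal.ofReal_ne_top]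
        gcongr
        exact h t ht
    _ = ∫⁻ ω, (∫⁻ t in Ioi (0 : ℝ), ENNReal.ofReal
        (if t < r ω then r ω ^ b * t ^ (-b) else r ω ^ a * t ^ (-a))
          * ENNReal.ofReal (t ^ (c - 1))) ∂μ := by
        refine lintegral_lintegral_swap (Measurable.aemeasurable ?_)
        refine Measurable.mul (Measurable.ennreal_ofReal ?_) (by fun_prop)
        refine Measurable.ite (measurableSet_lt measurable_fst (hr.comp measurable_snd)) ?_ ?_
        · exact ((hr.comp measurable_snd).pow_const b).mul (measurable_fst.pow_const _)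
        · exact ((hr.comp measurable_snd).pow_const a).mul (measurable_fst.pow_const _)
    _ ≤ ∫⁻ ω, ENNReal.ofReal (1 / (c - b) + 1 / (a - c)) * ENNReal.ofReal (r ω ^ c) ∂μ :=
        lintegral_mono fun ω => inner_bd hb hbc hca (hr0 ω)
    _ = _ := lintegral_const_mul' _ _ ENNReal.ofReal_ne_top

theorem cheb {Ω E : Type*} [MeasurableSpace Ω] (μ : Measure Ω) [NormedAddCommGroup E]
    {p : ℝ≥0∞} (hp : p ≠ 0) (hp' : p ≠ ⊤) {g h : Ω → E} {M t : ℝ} (hM : 0 < M) (ht : 0 < t)
    (hg : AEStronglyMeasurable g μ) (hb : eLpNorm g p μ ≤ ENNReal.ofReal M * eLpNorm h p μ) :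
    μ {ω | M * t ≤ ‖g ω‖} ≤ ∫⁻ ω, ENNReal.ofReal (‖h ω‖ ^ p.toReal * t ^ (-p.toReal)) ∂μ := by
  have hq : 0 < p.toReal := ENNReal.toReal_pos hp hp'
  have h1 := mul_meas_ge_le_pow_eLpNorm' μ hp hp' hg (ENNReal.ofReal (M * t))
  have e : {ω | ENNReal.ofReal (M * t) ≤ ‖g ω‖ₑ} = {ω | M * t ≤ ‖g ω‖} := by
    ext ω
    simp only [mem_setOf_eq]
    rw [← ofReal_norm_eq_enorm, ENNReal.ofReal_le_ofReal_iff (norm_nonneg _)]
  rw [e] at h1
  have h2 := h1.trans (ENNReal.rpow_le_rpow hb hq.le)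
  rw [ENNReal.mul_rpow_of_nonneg _ _ hq.le, eLpNorm_eq_lintegral_rpow_enorm_toReal hp hp',
    ← ENNReal.rpow_mul, one_div_mul_cancel hq.ne', ENNReal.rpow_one,
    ENNReal.ofReal_mul hM.le, ENNReal.mul_rpow_of_nonneg _ _ hq.le, mul_assoc] at h2
  have hM1 : ENNReal.ofReal M ^ p.toReal ≠ 0 := by simp [hM]
  have hM2 : ENNReal.ofReal M ^ p.toReal ≠ ⊤ := ENNReal.rpow_ne_top_of_nonneg hq.le (by simp)
  have h3 := (ENNReal.mul_le_mul_iff_right hM1 hM2).1 h2
  have e2 : ∀ ω, ENNReal.ofReal (‖h ω‖ ^ p.toReal * t ^ (-p.toReal))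
      = ENNReal.ofReal (t ^ (-p.toReal)) * ‖h ω‖ₑ ^ p.toReal := by
    intro ω
    rw [ENNReal.ofReal_mul (by positivity), mul_comm, ← ofReal_norm_eq_enorm,
      ENNReal.ofReal_rpow_of_nonneg (norm_nonneg _) hq.le]
  simp only [e2]
  rw [lintegral_const_mul' _ _ ENNReal.ofReal_ne_top]
  refine le_trans (le_of_eq ?_) (mul_le_mul_right h3 _)
  rw [← mul_assoc, ENNReal.ofReal_rpow_of_pos ht, ← ENNReal.ofReal_mul (by positivity),
    ← Real.rpow_add ht]
  simp

theorem interp {Ω E : Type*} [MeasurableSpace Ω] (μ : Measure Ω) [SFinite μ]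
    [NormedAddCommGroup E] {β γ α : ℝ≥0∞} (h0 : β ≠ 0) (h1 : β < γ) (h2 : γ < α) (h3 : α < ⊤) :
    ∃ C : ℝ, 0 < C ∧ ∀ (g h : Ω → E) (M : ℝ), 0 < M → AEStronglyMeasurable g μ →
      StronglyMeasurable h → (∀ t > 0, ∃ g₀ g₁ : Ω → E, AEStronglyMeasurable g₀ μ ∧
        AEStronglyMeasurable g₁ μ ∧ g =ᵐ[μ] g₀ + g₁ ∧
        eLpNorm g₀ β μ ≤ ENNReal.ofReal M * eLpNorm (fun ω => if t < ‖h ω‖ then h ω else 0) β μ ∧
        eLpNorm g₁ α μ ≤ ENNReal.ofReal M * eLpNorm (fun ω => if t < ‖h ω‖ then 0 else h ω) α μ) →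
      eLpNorm g γ μ ≤ ENNReal.ofReal (C * M) * eLpNorm h γ μ := by
  have hγt : γ ≠ ⊤ := (h2.trans h3).ne
  have hβt : β ≠ ⊤ := (h1.trans (h2.trans h3)).ne
  have hγ0 : γ ≠ 0 := (lt_of_le_of_lt zero_le h1).ne'
  have hα0 : α ≠ 0 := (lt_of_le_of_lt zero_le h2).ne'
  have hb : 0 < β.toReal := ENNReal.toReal_pos h0 hβt
  have hbc : β.toReal < γ.toReal := (ENNReal.toReal_lt_toReal hβt hγt).2 h1
  have hca : γ.toReal < α.toReal := (ENNReal.toReal_lt_toReal hγt h3.ne).2 h2
  set b := β.toReal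
  set c := γ.toReal
  set a := α.toReal
  have hc : 0 < c := by linarith
  have ha : 0 < a := by linarith
  have hK : 0 < c * (1 / (c - b) + 1 / (a - c)) := by
    have : 0 < c - b := by linarith
    have : 0 < a - c := by linarith
    positivity
  set K := c * (1 / (c - b) + 1 / (a - c))
  refine ⟨2 * K ^ (1 / c), by positivity, fun g h M hM hg hh H => ?_⟩
  have := core μ hb hbc hca (G := fun ω => ‖g ω‖ / (2 * M)) (r := fun ω => ‖h ω‖)
    (fun ω => by positivity) (hg.norm.aemeasurable.div_const _) (fun ω => norm_nonneg _)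
    hh.norm.measurable (fun t ht => ?_)
  · rw [eLpNorm_eq_lintegral_rpow_enorm_toReal hγ0 hγt,
      eLpNorm_eq_lintegral_rpow_enorm_toReal hγ0 hγt]
    have e1 : ∀ ω, ‖g ω‖ₑ ^ c
        = ENNReal.ofReal ((2 * M) ^ c) * ENNReal.ofReal ((‖g ω‖ / (2 * M)) ^ c) := by
      intro ω
      rw [← ENNReal.ofReal_mul (by positivity), ← Real.mul_rpow (by positivity) (by positivity),
        mul_div_cancel₀ _ (by positivity), ← ofReal_norm_eq_enorm,
        ENNReal.ofReal_rpow_of_nonneg (norm_nonneg _) hc.le]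
    have e2 : ∀ ω, ‖h ω‖ₑ ^ c = ENNReal.ofReal (‖h ω‖ ^ c) := fun ω => by
      rw [← ofReal_norm_eq_enorm, ENNReal.ofReal_rpow_of_nonneg (norm_nonneg _) hc.le]
    change (∫⁻ ω, ‖g ω‖ₑ ^ c ∂μ) ^ (1 / c) ≤ _ * (∫⁻ ω, ‖h ω‖ₑ ^ c ∂μ) ^ (1 / c)
    simp only [e1, e2]
    rw [lintegral_const_mul' _ _ ENNReal.ofReal_ne_top]
    refine (ENNReal.rpow_le_rpow (mul_le_mul_right this _) (by positivity)).trans (le_of_eq ?_)
    rw [← mul_assoc, ENNReal.mul_rpow_of_nonneg _ _ (by positivity),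
      ← ENNReal.ofReal_mul (by positivity), ENNReal.ofReal_rpow_of_pos (by positivity),
      Real.mul_rpow (by positivity) hK.le, ← Real.rpow_mul (by positivity),
      mul_one_div_cancel hc.ne', Real.rpow_one]
    congr 2; ring
  · obtain ⟨g₀, g₁, m0, m1, e, b0, b1⟩ := H t ht
    have c0 := cheb μ h0 hβt hM ht m0 b0
    have c1 := cheb μ hα0 h3.ne hM ht m1 b1
    have hsub : {ω | t < ‖g ω‖ / (2 * M)} ≤ᵐ[μ]
        ({ω | M * t ≤ ‖g₀ ω‖} ∪ {ω | M * t ≤ ‖g₁ ω‖} : Set Ω) := by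
      filter_upwards [e] with ω hω h4
      have h5 : t < ‖g ω‖ / (2 * M) := h4
      rw [lt_div_iff₀ (by positivity), hω, Pi.add_apply] at h5
      have := norm_add_le (g₀ ω) (g₁ ω)
      by_contra h6
      change ¬ (M * t ≤ ‖g₀ ω‖ ∨ M * t ≤ ‖g₁ ω‖) at h6
      push Not at h6
      linarith [h6.1, h6.2]
    refine (measure_mono_ae hsub).trans ((measure_union_le _ _).trans ((add_le_add c0 c1).trans
      (le_of_eq ?_)))
    rw [← lintegral_add_left']
    · refine lintegral_congr fun ω => ?_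
      split_ifs
      · rw [norm_zero, Real.zero_rpow ha.ne']; simp [b]
      · rw [norm_zero, Real.zero_rpow hb.ne']; simp [a]
    · refine Measurable.aemeasurable (Measurable.ennreal_ofReal (Measurable.mul_const ?_ _))
      refine Measurable.pow_const ?_ _
      exact (hh.ite (measurableSet_lt measurable_const hh.norm.measurable)
        stronglyMeasurable_const).norm.measurable

end Pool.Agent.H28.Marcin
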