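import Mathlib

set_option autoImplicit false
open scoped Topology

namespace Pool.Agent.H28.Mero

noncomputable def vec (a b c d e : ℂ) : EuclideanSpace ℂ (Fin 5) :=
  a • EuclideanSpace.single (0 : Fin 5) (1 : ℂ) + b • EuclideanSpace.single (1 : Fin 5) (1 : ℂ) +
  c • EuclideanSpace.single (2 : Fin 5) (1 : ℂ) + d • EuclideanSpace.single (3 : Fin 5) (1 : ℂ) +
  e • EuclideanSpace.single (4 : Fin 5) (1 : ℂ)

lemma nsq (a b c d e : ℂ) :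
    ‖vec a b c d e‖ ^ 2 = ‖a‖ ^ 2 + ‖b‖ ^ 2 + ‖c‖ ^ 2 + ‖d‖ ^ 2 + ‖e‖ ^ 2 := by
  rw [EuclideanSpace.norm_sq_eq, Fin.sum_univ_five]
  simp [vec]

lemma vec_two (a b c d e : ℂ) : vec a b c d e 2 = c := by simp [vec]

lemma smul_vec (t a b c d e : ℂ) : t • vec a b c d e = vec (t * a) (t * b) (t * c) (t * d) (t * e) := by
  simp only [vec, smul_add, smul_smul]

lemma an_vec {a b c d e : (Fin 4 → ℂ) → ℂ} {x : Fin 4 → ℂ} (ha : AnalyticAt ℂ a x)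
    (hb : AnalyticAt ℂ b x) (hc : AnalyticAt ℂ c x) (hd : AnalyticAt ℂ d x) (he : AnalyticAt ℂ e x) :
    AnalyticAt ℂ (fun w => vec (a w) (b w) (c w) (d w) (e w)) x :=
  ((((ha.smul analyticAt_const).add (hb.smul analyticAt_const)).add (hc.smul analyticAt_const)).add
    (hd.smul analyticAt_const)).add (he.smul analyticAt_const)

noncomputable def den (w : Fin 4 → ℂ) : ℂ := w 0 * w 2 + Complex.I * (w 0 + w 2)
noncomputable def num (w : Fin 4 → ℂ) : ℂ := w 0 * w 2 - Complex.I * (w 0 + w 2)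
noncomputable def pp (w : Fin 4 → ℂ) : EuclideanSpace ℂ (Fin 5) :=
  vec (Complex.I * den w) ((1 + Complex.I) * w 1 * den w) (w 0 * num w)
    (w 0 * (2 * w 0 * w 3)) (w 0 * (2 * w 2 * w 1))
noncomputable def qq (w : Fin 4 → ℂ) : ℂ := (Complex.I + w 0) * den w
noncomputable def gg (w : Fin 4 → ℂ) : EuclideanSpace ℂ (Fin 5) := (qq w)⁻¹ • pp w

lemma an_coord (i : Fin 4) (x : Fin 4 → ℂ) : AnalyticAt ℂ (fun w : Fin 4 → ℂ => w i) x :=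
  (ContinuousLinearMap.proj (R := ℂ) (φ := fun _ : Fin 4 => ℂ) i).analyticAt x

lemma an_den (x : Fin 4 → ℂ) : AnalyticAt ℂ den x :=
  ((an_coord 0 x).mul (an_coord 2 x)).add (analyticAt_const.mul ((an_coord 0 x).add (an_coord 2 x)))

lemma an_num (x : Fin 4 → ℂ) : AnalyticAt ℂ num x :=
  ((an_coord 0 x).mul (an_coord 2 x)).sub (analyticAt_const.mul ((an_coord 0 x).add (an_coord 2 x)))

lemma an_pp (x : Fin 4 → ℂ) : AnalyticAt ℂ pp x :=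
  an_vec (analyticAt_const.mul (an_den x))
    ((analyticAt_const.mul (an_coord 1 x)).mul (an_den x))
    ((an_coord 0 x).mul (an_num x))
    ((an_coord 0 x).mul ((analyticAt_const.mul (an_coord 0 x)).mul (an_coord 3 x)))
    ((an_coord 0 x).mul ((analyticAt_const.mul (an_coord 2 x)).mul (an_coord 1 x)))

lemma an_qq (x : Fin 4 → ℂ) : AnalyticAt ℂ qq x :=
  (analyticAt_const.add (an_coord 0 x)).mul (an_den x)

lemma an_gg (x : Fin 4 → ℂ) (h : qq x ≠ 0) : AnalyticAt ℂ gg x :=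
  ((an_qq x).inv h).smul (an_pp x)

lemma diff_sq (w : Fin 4 → ℂ) :
    ‖den w‖ ^ 2 = ‖num w‖ ^ 2 + 4 * (‖w 0‖ ^ 2 * (w 2).im + ‖w 2‖ ^ 2 * (w 0).im) := by
  simp only [Complex.sq_norm, Complex.normSq_apply, den, num]
  simp
  ring

lemma add_sq (z : ℂ) : ‖Complex.I + z‖ ^ 2 = 1 + 2 * z.im + ‖z‖ ^ 2 := by
  simp only [Complex.sq_norm, Complex.normSq_apply]
  simp
  ring

lemma ne_of_im (z : ℂ) (h : 0 ≤ z.im) : Complex.I + z ≠ 0 := by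
  intro h0
  have := congrArg Complex.im h0
  simp at this
  linarith

lemma pq (w : Fin 4 → ℂ) :
    ‖qq w‖ ^ 2 - ‖pp w‖ ^ 2 = 2 * ((w 0).im - ‖w 1‖ ^ 2) * ‖den w‖ ^ 2 +
      4 * ‖w 0‖ ^ 2 * (‖w 0‖ ^ 2 * ((w 2).im - ‖w 3‖ ^ 2) + ‖w 2‖ ^ 2 * ((w 0).im - ‖w 1‖ ^ 2)) := by
  have h2 : ‖(1 : ℂ) + Complex.I‖ ^ 2 = 2 := by
    simp only [Complex.sq_norm, Complex.normSq_apply]; simp; norm_num
  have h3 := diff_sq w
  unfold pp qq
  rw [nsq]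
  simp only [norm_mul, mul_pow, h2, add_sq, Complex.norm_I, Complex.norm_ofNat]
  have h4 : ‖num w‖ ^ 2 = ‖den w‖ ^ 2 - 4 * (‖w 0‖ ^ 2 * (w 2).im + ‖w 2‖ ^ 2 * (w 0).im) := by
    linarith
  rw [h4]
  ring

lemma den_ne (w : Fin 4 → ℂ) (h0 : 0 < (w 0).im) (h1 : 0 < (w 2).im) : den w ≠ 0 := by
  intro h
  have := diff_sq w
  have a0 : w 0 ≠ 0 := by intro h; rw [h] at h0; simp at h0
  have a1 : w 2 ≠ 0 := by intro h; rw [h] at h1; simp at h1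
  have b0 : 0 < ‖w 0‖ ^ 2 := by positivity
  have b1 : 0 < ‖w 2‖ ^ 2 := by positivity
  rw [h, norm_zero] at this
  nlinarith [mul_pos b0 h1, mul_pos b1 h0, sq_nonneg ‖num w‖]

lemma qq_ne (w : Fin 4 → ℂ) (h0 : ‖w 1‖ ^ 2 < (w 0).im) (h1 : ‖w 3‖ ^ 2 < (w 2).im) : qq w ≠ 0 := by
  have a0 : 0 < (w 0).im := lt_of_le_of_lt (sq_nonneg _) h0
  have a1 : 0 < (w 2).im := lt_of_le_of_lt (sq_nonneg _) h1
  exact mul_ne_zero (ne_of_im _ a0.le) (den_ne w a0 a1)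

lemma gg_norm (w : Fin 4 → ℂ) : ‖gg w‖ = ‖pp w‖ / ‖qq w‖ := by
  unfold gg
  rw [norm_smul, norm_inv, div_eq_inv_mul]

lemma gg_lt (w : Fin 4 → ℂ) (h0 : ‖w 1‖ ^ 2 < (w 0).im) (h1 : ‖w 3‖ ^ 2 < (w 2).im) :
    ‖gg w‖ < 1 := by
  have hq := qq_ne w h0 h1
  have a0 : 0 < (w 0).im := lt_of_le_of_lt (sq_nonneg _) h0
  have a1 : 0 < (w 2).im := lt_of_le_of_lt (sq_nonneg _) h1
  have hd := den_ne w a0 a1
  have hd' : 0 < ‖den w‖ ^ 2 := by positivity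
  rw [gg_norm, div_lt_one (norm_pos_iff.2 hq)]
  have h := pq w
  have s0 : 0 < (w 0).im - ‖w 1‖ ^ 2 := by linarith
  have s1 : 0 < (w 2).im - ‖w 3‖ ^ 2 := by linarith
  have t1 : 0 < 2 * ((w 0).im - ‖w 1‖ ^ 2) * ‖den w‖ ^ 2 := by positivity
  have t2 : 0 ≤ 4 * ‖w 0‖ ^ 2 *
    (‖w 0‖ ^ 2 * ((w 2).im - ‖w 3‖ ^ 2) + ‖w 2‖ ^ 2 * ((w 0).im - ‖w 1‖ ^ 2)) := by positivity
  exact lt_of_pow_lt_pow_left₀ 2 (norm_nonneg _) (by linarith)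

lemma gg_ge (w : Fin 4 → ℂ) (hq : qq w ≠ 0) : ‖Complex.I + w 0‖⁻¹ ≤ ‖gg w‖ := by
  have h1 : ‖den w‖ ≤ ‖pp w‖ := by
    apply le_of_sq_le_sq _ (norm_nonneg _) |>.trans' le_rfl
    unfold pp
    rw [nsq, norm_mul, Complex.norm_I, one_mul]
    nlinarith [sq_nonneg ‖(1 + Complex.I) * w 1 * den w‖, sq_nonneg ‖w 0 * num w‖,
      sq_nonneg ‖w 0 * (2 * w 0 * w 3)‖, sq_nonneg ‖w 0 * (2 * w 2 * w 1)‖]
  have hd : den w ≠ 0 := right_ne_zero_of_mul hq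
  have hi : Complex.I + w 0 ≠ 0 := left_ne_zero_of_mul hq
  have hd' : 0 < ‖den w‖ := norm_pos_iff.2 hd
  have hi' : 0 < ‖Complex.I + w 0‖ := norm_pos_iff.2 hi
  rw [gg_norm, qq, norm_mul, le_div_iff₀ (by positivity), ← mul_assoc, inv_mul_cancel₀ hi'.ne', one_mul]
  exact h1

lemma gg_one (m : Fin 4 → ℂ) (h0 : (m 0).im = ‖m 1‖ ^ 2) (h1 : (m 2).im = ‖m 3‖ ^ 2)
    (hq : qq m ≠ 0) : ‖gg m‖ = 1 := by
  have h := pq m
  rw [h0, h1] at h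
  rw [gg_norm, div_eq_one_iff_eq (norm_ne_zero_iff.2 hq)]
  have : ‖pp m‖ ^ 2 = ‖qq m‖ ^ 2 := by nlinarith
  exact (pow_left_inj₀ (norm_nonneg _) (norm_nonneg _) two_ne_zero).1 this

lemma den_zero (m : Fin 4 → ℂ) (h0 : 0 ≤ (m 0).im) (h1 : 0 ≤ (m 2).im) (hd : den m = 0) :
    m 0 = 0 := by
  have h := diff_sq m
  rw [hd, norm_zero] at h
  have a : 0 ≤ ‖m 0‖ ^ 2 * (m 2).im := by positivity
  have b : 0 ≤ ‖m 2‖ ^ 2 * (m 0).im := by positivity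
  have hn : num m = 0 := by
    have : ‖num m‖ ^ 2 = 0 := by nlinarith [sq_nonneg ‖num m‖]
    simpa using this
  unfold den at hd
  unfold num at hn
  have e1 : m 0 * m 2 = 0 := by linear_combination (1 / 2 : ℂ) * hd + (1 / 2 : ℂ) * hn
  have e2 : Complex.I * (m 0 + m 2) = 0 := by linear_combination hd - e1
  have e3 : m 0 + m 2 = 0 := by simpa using e2
  have e4 : m 0 * m 0 = 0 := by linear_combination (m 0) * e3 - e1
  simpa using e4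

end Pool.Agent.H28.Mero
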