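import Mathlib

set_option autoImplicit false

namespace Pool.Agent.H28.NormEq

lemma bound {V W : Type} [AddCommGroup V] [Module ℝ V] [FiniteDimensional ℝ V]
    [NormedAddCommGroup W] [NormedSpace ℝ W]
    (ν : Seminorm ℝ V) (hν : ∀ X, ν X = 0 → X = 0) (L : V →ₗ[ℝ] W) :
    ∃ C : ℝ, 0 < C ∧ ∀ X, ‖L X‖ ≤ C * ν X := by
  letI : NormedAddCommGroup V :=
    AddGroupNorm.toNormedAddCommGroup
      { toFun := ν, map_zero' := map_zero ν, add_le' := map_add_le_add ν,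
        neg' := map_neg_eq_map ν, eq_zero_of_map_eq_zero' := hν }
  letI : NormedSpace ℝ V := ⟨fun c x => (map_smul_eq_mul ν c x).le⟩
  let L' := LinearMap.toContinuousLinearMap L
  refine ⟨‖L'‖ + 1, by positivity, fun X => ?_⟩
  have h2 := L'.le_opNorm X
  have h3 : ‖X‖ = ν X := rfl
  have h4 := apply_nonneg ν X
  rw [h3] at h2
  have : L' X = L X := rfl
  rw [this] at h2
  nlinarith

lemma lower {N : ℕ} (ν : Seminorm ℝ (Matrix (Fin N) (Fin N) ℝ)) (hν : ∀ X, ν X = 0 → X = 0) :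
    ∃ c : ℝ, 0 < c ∧ ∀ X r s, c * |X r s| ≤ ν X := by
  let L : Matrix (Fin N) (Fin N) ℝ →ₗ[ℝ] (Fin N → Fin N → ℝ) :=
    { toFun := fun X r s => X r s, map_add' := fun _ _ => rfl, map_smul' := fun _ _ => rfl }
  obtain ⟨C, hC, h⟩ := bound ν hν L
  refine ⟨1 / C, by positivity, fun X r s => ?_⟩
  have h1 : |X r s| ≤ ‖L X‖ := (norm_le_pi_norm (L X r) s).trans (norm_le_pi_norm (L X) r)
  rw [one_div, inv_mul_le_iff₀ hC]
  exact h1.trans (h X)

lemma upper {N : ℕ} (ν : Seminorm ℝ (Matrix (Fin N) (Fin N) ℝ)) :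
    ∃ C : ℝ, 0 ≤ C ∧ ∀ (X : Matrix (Fin N) (Fin N) ℝ) (b : ℝ), (∀ r s, |X r s| ≤ b) →
      ν X ≤ C * b := by
  refine ⟨∑ r, ∑ s, ν (Matrix.single r s 1), by positivity, fun X b hb => ?_⟩
  have e : X = ∑ r, ∑ s, X r s • Matrix.single r s (1 : ℝ) := by
    conv_lhs => rw [Matrix.matrix_eq_sum_single X]
    simp
  have sub : ∀ {ι : Type} [Fintype ι] (f : ι → Matrix (Fin N) (Fin N) ℝ),
      ν (∑ i, f i) ≤ ∑ i, ν (f i) := fun f =>
    Finset.le_sum_of_subadditive ν (map_zero ν).le (map_add_le_add ν) _ f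
  conv_lhs => rw [e]
  rw [Finset.sum_mul]
  refine (sub _).trans (Finset.sum_le_sum fun r _ => ?_)
  rw [Finset.sum_mul]
  refine (sub _).trans (Finset.sum_le_sum fun s _ => ?_)
  rw [map_smul_eq_mul, mul_comm]
  exact mul_le_mul_of_nonneg_left (hb r s) (apply_nonneg _ _)

end Pool.Agent.H28.NormEq
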