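import Mathlib

set_option autoImplicit false

open Set Real

namespace Pool.Agent.H28.QG

variable {V E : Type} [Fintype E] [DecidableEq V]

/-- `ψ` is a nonzero real eigenfunction for `μ` on the metric graph with edges `e = [0, L e]`
running from `s e` to `t e`, with δ-conditions of strengths `α`. -/
def Eig (s t : E → V) (L : E → ℝ) (α : V → ℝ) (μ : ℝ) (ψ : E → ℝ → ℝ) : Prop :=
  ∃ (φ : E → ℝ → ℝ) (u : V → ℝ),
    (∀ e, ∀ x ∈ Icc 0 (L e), HasDerivWithinAt (ψ e) (φ e x) (Icc 0 (L e)) x ∧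
      HasDerivWithinAt (φ e) (-μ * ψ e x) (Icc 0 (L e)) x) ∧
    (∀ e, ψ e 0 = u (s e) ∧ ψ e (L e) = u (t e)) ∧
    (∀ v, ∑ e, ((if s e = v then φ e 0 else 0) - if t e = v then φ e (L e) else 0) = α v * u v) ∧
    ∃ e, ∃ x ∈ Icc 0 (L e), ψ e x ≠ 0

/-- `μ` is an eigenvalue with exactly one eigenvalue below it. -/
def Second (s t : E → V) (L : E → ℝ) (α : V → ℝ) (μ : ℝ) : Prop :=
  (∃ ψ, Eig s t L α μ ψ) ∧ ∃! l, l < μ ∧ ∃ ψ, Eig s t L α l ψ

/-- The hot spots: points where some second eigenfunction has a global maximum or minimum. -/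
def Hot (s t : E → V) (L : E → ℝ) (α : V → ℝ) : Set (E × ℝ) :=
  {p | p.2 ∈ Icc 0 (L p.1) ∧ ∃ μ ψ, Second s t L α μ ∧ Eig s t L α μ ψ ∧
    ((∀ e, ∀ y ∈ Icc 0 (L e), ψ e y ≤ ψ p.1 p.2) ∨ ∀ e, ∀ y ∈ Icc 0 (L e), ψ p.1 p.2 ≤ ψ e y)}

/-- The graph that keeps all vertices and the edges in `S` is connected. -/
def Conn (s t : E → V) (S : Set E) : Prop :=
  ∀ a b, Relation.EqvGen (fun a b => ∃ e ∈ S, s e = a ∧ t e = b) a b

def Fund (l : ℝ) (c z : ℝ → ℝ) : Prop :=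
  (∀ x, HasDerivAt c (-l * z x) x ∧ HasDerivAt z (c x) x) ∧ c 0 = 1 ∧ z 0 = 0

def VE (s t : E → V) (L : E → ℝ) (α : V → ℝ) (c z : ℝ → ℝ) (u : V → ℝ) : Prop :=
  ∀ v, ∑ e, ((if s e = v then (u (t e) - c (L e) * u (s e)) / z (L e) else 0) +
    if t e = v then (u (s e) - c (L e) * u (t e)) / z (L e) else 0) = α v * u v

noncomputable def ef (s t : E → V) (L : E → ℝ) (c z : ℝ → ℝ) (u : V → ℝ) (e : E) (x : ℝ) : ℝ :=
  u (s e) * c x + (u (t e) - c (L e) * u (s e)) / z (L e) * z x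

lemma const {f : ℝ → ℝ} {L : ℝ} (h : ∀ x ∈ Icc 0 L, HasDerivWithinAt f 0 (Icc 0 L) x) :
    ∀ x ∈ Icc 0 L, f x = f 0 :=
  constant_of_has_deriv_right_zero (fun x hx => (h x hx).continuousWithinAt) fun x hx =>
    (h x (Ico_subset_Icc_self hx)).mono_of_mem_nhdsWithin (Icc_mem_nhdsGE_of_mem hx)

lemma pyth {l : ℝ} {c z : ℝ → ℝ} (F : Fund l c z) {x : ℝ} (hx : 0 ≤ x) :
    c x ^ 2 + l * z x ^ 2 = 1 := by
  have := const (f := fun x => c x * c x + l * (z x * z x)) (L := x) (fun y _ => by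
    have := ((F.1 y).1.mul (F.1 y).1).add (((F.1 y).2.mul (F.1 y).2).const_mul l)
    exact (this.congr_deriv (by ring)).hasDerivWithinAt) x ⟨hx, le_rfl⟩
  rw [F.2.1, F.2.2] at this
  linarith

lemma ode {l L : ℝ} {c z ψ φ : ℝ → ℝ} (F : Fund l c z)
    (h : ∀ x ∈ Icc 0 L, HasDerivWithinAt ψ (φ x) (Icc 0 L) x ∧
      HasDerivWithinAt φ (-l * ψ x) (Icc 0 L) x) :
    ∀ x ∈ Icc 0 L, ψ x = ψ 0 * c x + φ 0 * z x ∧ φ x = φ 0 * c x - l * ψ 0 * z x := by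
  intro x hx
  have h1 := const (f := fun x => ψ x * c x - φ x * z x) (fun y hy => by
    have := ((h y hy).1.mul (F.1 y).1.hasDerivWithinAt).sub
      ((h y hy).2.mul (F.1 y).2.hasDerivWithinAt)
    exact this.congr_deriv (by ring)) x hx
  have h2 := const (f := fun x => φ x * c x + l * (ψ x * z x)) (fun y hy => by
    have := ((h y hy).2.mul (F.1 y).1.hasDerivWithinAt).add
      (((h y hy).1.mul (F.1 y).2.hasDerivWithinAt).const_mul l)
    exact this.congr_deriv (by ring)) x hx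
  have h3 := pyth F hx.1
  rw [F.2.1, F.2.2] at h1 h2
  exact ⟨by linear_combination c x * h1 + z x * h2 - ψ x * h3,
    by linear_combination c x * h2 - l * z x * h1 - φ x * h3⟩

lemma Eig.ve {s t : E → V} {L : E → ℝ} {α : V → ℝ} {l : ℝ} {ψ : E → ℝ → ℝ} {c z : ℝ → ℝ}
    (h : Eig s t L α l ψ) (F : Fund l c z) (hL : ∀ e, 0 ≤ L e ∧ z (L e) ≠ 0) :
    ∃ u, VE s t L α c z u ∧ u ≠ 0 ∧ ∀ e, ∀ x ∈ Icc 0 (L e), ψ e x = ef s t L c z u e x := by
  obtain ⟨φ, u, h1, h2, h3, e0, x0, hx0, h4⟩ := h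
  have a1 : ∀ e, φ e 0 = (u (t e) - c (L e) * u (s e)) / z (L e) := fun e => by
    rw [eq_div_iff (hL e).2, ← (h2 e).1, ← (h2 e).2, (ode F (h1 e) _ ⟨(hL e).1, le_rfl⟩).1]
    ring
  have a2 : ∀ e, -φ e (L e) = (u (s e) - c (L e) * u (t e)) / z (L e) := fun e => by
    rw [eq_div_iff (hL e).2, ← (h2 e).1, ← (h2 e).2, (ode F (h1 e) _ ⟨(hL e).1, le_rfl⟩).1,
      (ode F (h1 e) _ ⟨(hL e).1, le_rfl⟩).2]
    linear_combination ψ e 0 * pyth F (hL e).1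
  have a3 : ∀ e, ∀ x ∈ Icc 0 (L e), ψ e x = ef s t L c z u e x := fun e x hx => by
    rw [ef, ← a1, ← (h2 e).1, (ode F (h1 e) x hx).1]
  refine ⟨u, fun v => ?_, fun hu => h4 ?_, a3⟩
  · rw [← h3 v]
    refine Finset.sum_congr rfl fun e _ => ?_
    rw [← a1, ← a2]
    split_ifs <;> ring
  · simp [a3 e0 x0 hx0, ef, hu]

lemma VE.eig {s t : E → V} {L : E → ℝ} {α : V → ℝ} {l : ℝ} {c z : ℝ → ℝ} {u : V → ℝ}
    (h : VE s t L α c z u) (F : Fund l c z) (hL : ∀ e, 0 ≤ L e ∧ z (L e) ≠ 0)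
    (hu : ∃ e, u (s e) ≠ 0 ∨ u (t e) ≠ 0) : Eig s t L α l (ef s t L c z u) := by
  have a : ∀ e, ef s t L c z u e 0 = u (s e) ∧ ef s t L c z u e (L e) = u (t e) := fun e =>
    ⟨by simp [ef, F.2.1, F.2.2], by rw [ef, div_mul_cancel₀ _ (hL e).2]; ring⟩
  refine ⟨fun e x => u (s e) * (-l * z x) + (u (t e) - c (L e) * u (s e)) / z (L e) * c x, u,
    fun e x _ => ⟨?_, ?_⟩, a, fun v => ?_, ?_⟩
  · exact (((F.1 x).1.const_mul _).add ((F.1 x).2.const_mul _)).hasDerivWithinAt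
  · exact (((((F.1 x).2.const_mul _).const_mul _).add ((F.1 x).1.const_mul _)).congr_deriv
      (by rw [ef]; ring)).hasDerivWithinAt
  · rw [← h v]
    refine Finset.sum_congr rfl fun e _ => ?_
    have b : u (s e) * (-l * z (L e)) + (u (t e) - c (L e) * u (s e)) / z (L e) * c (L e) =
        -((u (s e) - c (L e) * u (t e)) / z (L e)) := by
      have := (hL e).2
      field_simp
      linear_combination (-u (s e)) * pyth F (hL e).1
    simp only [b, F.2.1, F.2.2]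
    split_ifs <;> ring
  · obtain ⟨e, he | he⟩ := hu
    · exact ⟨e, 0, ⟨le_rfl, (hL e).1⟩, by rwa [(a e).1]⟩
    · exact ⟨e, L e, ⟨(hL e).1, le_rfl⟩, by rwa [(a e).2]⟩

lemma Second.uniq {s t : E → V} {L : E → ℝ} {α : V → ℝ} {a b : ℝ}
    (ha : Second s t L α a) (hb : Second s t L α b) : a = b := by
  have key : ∀ a b, Second s t L α a → Second s t L α b → ¬ a < b := fun a b ha hb h => by
    obtain ⟨l, hl, -⟩ := ha.2
    exact hl.1.ne (hb.2.unique ⟨hl.1.trans h, hl.2⟩ ⟨h, ha.1⟩)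
  exact le_antisymm (not_lt.1 (key b a hb ha)) (not_lt.1 (key a b ha hb))

lemma fund0 : Fund 0 (fun _ => 1) fun x => x :=
  ⟨fun x => ⟨by simpa using hasDerivAt_const x (1 : ℝ), hasDerivAt_id x⟩, rfl, rfl⟩

lemma fundp {k : ℝ} (hk : k ≠ 0) :
    Fund (k ^ 2) (fun x => cos (k * x)) fun x => sin (k * x) / k := by
  refine ⟨fun x => ⟨?_, ?_⟩, by simp, by simp⟩
  · exact ((hasDerivAt_id x).const_mul k).cos.congr_deriv (by simp; field_simp)
  · exact (((hasDerivAt_id x).const_mul k).sin.div_const k).congr_deriv (by simp; field_simp)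

lemma fundn {k : ℝ} (hk : k ≠ 0) :
    Fund (-k ^ 2) (fun x => cosh (k * x)) fun x => sinh (k * x) / k := by
  refine ⟨fun x => ⟨?_, ?_⟩, by simp, by simp⟩
  · exact ((hasDerivAt_id x).const_mul k).cosh.congr_deriv (by simp; field_simp)
  · exact (((hasDerivAt_id x).const_mul k).sinh.div_const k).congr_deriv (by simp; field_simp)

lemma low {l : ℝ} (h : l < (π / 2) ^ 2) (h0 : l ≠ 0) : ∃ c z, Fund l c z ∧ 0 < z (1 / 2) ∧
    0 < c (1 / 2) ∧ 0 < c 1 ∧ c 1 ≠ 1 ∧ c 1 = 2 * c (1 / 2) ^ 2 - 1 ∧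
    z 1 = 2 * z (1 / 2) * c (1 / 2) := by
  rcases h0.lt_or_gt with h0 | h0
  · obtain ⟨k, hk, rfl⟩ : ∃ k : ℝ, 0 < k ∧ l = -k ^ 2 :=
      ⟨√(-l), sqrt_pos.2 (by linarith), by rw [sq_sqrt (by linarith), neg_neg]⟩
    have e : k * 1 = 2 * (k * (1 / 2)) := by ring
    refine ⟨_, _, fundn hk.ne', div_pos (sinh_pos_iff.2 (by positivity)) hk, cosh_pos _,
      cosh_pos _, (one_lt_cosh.2 (by positivity)).ne', ?_, ?_⟩
    · simp only [e, cosh_two_mul]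
      linarith [cosh_sq (k * (1 / 2))]
    · simp only [e, sinh_two_mul]
      ring
  · obtain ⟨k, hk, rfl⟩ : ∃ k : ℝ, 0 < k ∧ l = k ^ 2 :=
      ⟨√l, sqrt_pos.2 h0, by rw [sq_sqrt h0.le]⟩
    have hk2 : k < π / 2 := lt_of_pow_lt_pow_left₀ 2 (by positivity) h
    have e : k * 1 = 2 * (k * (1 / 2)) := by ring
    have p := pi_pos
    have q : 0 < sin (k * (1 / 2)) := sin_pos_of_pos_of_lt_pi (by positivity) (by linarith)
    refine ⟨_, _, fundp hk.ne', div_pos q hk, cos_pos_of_mem_Ioo ⟨by linarith, by linarith⟩,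
      cos_pos_of_mem_Ioo ⟨by linarith, by linarith⟩, ?_, ?_, ?_⟩
    · simp only [e, cos_two_mul]
      nlinarith [sin_sq_add_cos_sq (k * (1 / 2))]
    · simp only [e, cos_two_mul]
    · simp only [e, sin_two_mul]
      ring

end Pool.Agent.H28.QG
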