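import Mathlib

set_option autoImplicit false

namespace Pool.Agent.H28.RSol

/-- Solution of a recurrence of order `K`. -/
noncomputable def rsol (K : ℕ) (F : ℕ → (Fin K → ℝ) → ℝ) (x : ℕ → ℝ) (n : ℕ) : ℝ :=
  if _h : n < K then x n else F (n - K) fun j => rsol K F x (n - K + j)
termination_by n
decreasing_by have := j.2; omega

lemma exists_sol (K : ℕ) (F : ℕ → (Fin K → ℝ) → ℝ) (x₀ : ℕ → ℝ) :
    ∃ x : ℕ → ℝ, (∀ j < K, x j = x₀ j) ∧ ∀ n, x (n + K) = F n fun j => x (n + j) := by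
  refine ⟨rsol K F x₀, fun j hj => ?_, fun n => ?_⟩
  · rw [rsol, dif_pos hj]
  · rw [rsol, dif_neg (by omega), Nat.add_sub_cancel]

end Pool.Agent.H28.RSol
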