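import Mathlib

/-! A translation semigroup whose norm is small along sparse unit intervals. -/

namespace Pool.Agent.H28.SlowSG

open Filter Topology Set
open scoped Pointwise ENNReal

/-- sparse times -/
def P : ℕ → ℕ
  | 0 => 1
  | a + 1 => (a + 1) * (((a + 1) * P a + 2 * a + 4) * (P a + 1)) + 3

/-- exponents -/
def ex (a : ℕ) : ℕ := (a + 1) * P a + a + 4

/-- thresholds -/
def Q (a : ℕ) : ℕ := (ex a + a) * (P a + 1)

theorem P_succ (a : ℕ) : P (a + 1) = (a + 1) * Q a + 3 := by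
  simp only [P, Q, ex]; ring

theorem P_mono : StrictMono P := strictMono_nat_of_lt_succ fun a => by
  have : P a + 1 ≤ Q a := Nat.le_mul_of_pos_left _ (by unfold ex; omega)
  rw [P_succ]; nlinarith

theorem ex_mono : StrictMono ex := strictMono_nat_of_lt_succ fun a => by
  have := P_mono (Nat.lt_succ_self a)
  unfold ex; nlinarith

/-- generators -/
def G : Set ℝ := Icc 0 1 ∪ ⋃ a, Icc (P a : ℝ) (P a + 1)

/-- word length -/
noncomputable def s (t : ℝ) : ℕ := sInf {K : ℕ | t ∈ K • G}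

theorem mem_nat (n : ℕ) (t : ℝ) (h0 : 0 ≤ t) (h : t ≤ n) : t ∈ n • G := by
  induction n generalizing t with
  | zero => simpa using le_antisymm (by simpa using h) h0
  | succ n ih =>
    rw [succ_nsmul]
    push_cast at h
    rcases le_total t 1 with h1 | h1
    · exact ⟨0, ih 0 le_rfl (by positivity), t, Or.inl ⟨h0, h1⟩, zero_add t⟩
    · exact ⟨t - 1, ih _ (by linarith) (by linarith), 1, Or.inl ⟨zero_le_one, le_rfl⟩,
        sub_add_cancel t 1⟩

theorem s_le {t : ℝ} {K : ℕ} (h : t ∈ K • G) : s t ≤ K := Nat.sInf_le h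

theorem mem_s {t : ℝ} (h : 0 ≤ t) : t ∈ s t • G :=
  Nat.sInf_mem (s := {K : ℕ | t ∈ K • G}) ⟨_, mem_nat ⌈t⌉₊ t h (Nat.le_ceil t)⟩

theorem s_add {t u : ℝ} (ht : 0 ≤ t) (hu : 0 ≤ u) : s (t + u) ≤ s t + s u :=
  s_le (by rw [add_nsmul]; exact ⟨t, mem_s ht, u, mem_s hu, rfl⟩)

theorem low (a K : ℕ) (t : ℝ) (h : t ∈ K • G) :
    0 ≤ t ∧ (t < P (a + 1) → t ≤ K * (P a + 1)) := by
  induction K generalizing t with
  | zero => simp_all
  | succ K ih =>
    rw [succ_nsmul] at h
    obtain ⟨u, hu, g, hg, rfl⟩ := h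
    have hP : (0 : ℝ) ≤ P a := by positivity
    have : 0 ≤ g ∧ (g < P (a + 1) → g ≤ P a + 1) := by
      rcases hg with hg | hg
      · exact ⟨hg.1, fun _ => by linarith [hg.2]⟩
      · obtain ⟨b, hb⟩ := mem_iUnion.1 hg
        refine ⟨le_trans (by positivity) hb.1, fun h => ?_⟩
        have h1 : P b < P (a + 1) := by exact_mod_cast hb.1.trans_lt h
        have h2 : (P b : ℝ) ≤ P a := by
          exact_mod_cast P_mono.monotone (Nat.lt_succ_iff.1 (P_mono.lt_iff_lt.1 h1))
        linarith [hb.2]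
    obtain ⟨h1, h2⟩ := ih u hu
    refine ⟨add_nonneg h1 this.1, fun h => ?_⟩
    simp only at h ⊢
    push_cast
    linarith [h2 (by linarith), this.2 (by linarith)]

/-- ambient space -/
abbrev E : Type := lp (fun _ : ℕ × ℝ => ℝ) ∞

/-- weight -/
noncomputable def W (t : ℝ) : ℝ := 2 ^ s t

theorem W_pos (t : ℝ) : 0 < W t := by unfold W; positivity

theorem W_le (n : ℕ) (t : ℝ) (h0 : 0 ≤ t) (h : t ≤ n) : W t ≤ 2 ^ n :=
  pow_le_pow_right₀ one_le_two (s_le (mem_nat n t h0 h))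

/-- coefficient of the weighted translation -/
noncomputable def co (τ : ℝ) (p : ℕ × ℝ) : ℝ :=
  if |τ| ≤ p.2 ∧ p.2 ≤ P (p.1 + 1) then W p.2 / W (p.2 - |τ|) else 0

theorem co_le (τ : ℝ) (p : ℕ × ℝ) : |co τ p| ≤ W |τ| := by
  unfold co
  split_ifs with h
  · rw [abs_of_pos (div_pos (W_pos _) (W_pos _)), div_le_iff₀ (W_pos _), W, W, W, ← pow_add]
    refine pow_le_pow_right₀ one_le_two ?_
    simpa using s_add (abs_nonneg τ) (sub_nonneg.2 h.1)
  · simpa using (W_pos _).le

theorem bd (τ : ℝ) (y : E) (p : ℕ × ℝ) : ‖co τ p * y (p.1, p.2 - |τ|)‖ ≤ W |τ| * ‖y‖ := by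
  rw [norm_mul]
  exact mul_le_mul (co_le τ p) (lp.norm_apply_le_norm (by simp) y _) (norm_nonneg _) (W_pos _).le

/-- weighted translation -/
noncomputable def S (τ : ℝ) : E →L[ℝ] E :=
  LinearMap.mkContinuous
    { toFun := fun y => ⟨fun p => co τ p * y (p.1, p.2 - |τ|),
        memℓp_infty ⟨_, forall_mem_range.2 (bd τ y)⟩⟩
      map_add' := fun x y => lp.ext (funext fun p => mul_add _ _ _)
      map_smul' := fun c x => lp.ext (funext fun p => mul_left_comm _ _ _) } (W |τ|)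
    fun y => lp.norm_le_of_forall_le' _ (bd τ y)

theorem S_apply (τ : ℝ) (y : E) (p : ℕ × ℝ) : S τ y p = co τ p * y (p.1, p.2 - |τ|) := rfl

theorem S_le (τ : ℝ) (y : E) : ‖S τ y‖ ≤ W |τ| * ‖y‖ := lp.norm_le_of_forall_le' _ (bd τ y)

/-- tent -/
noncomputable def tent (u : ℝ) : ℝ := max 0 (1 - |u - 1|)

theorem tent_zero {u : ℝ} (h : u ≤ 0 ∨ 2 ≤ u) : tent u = 0 :=
  max_eq_left (by rcases h with h | h <;> cases abs_cases (u - 1) <;> linarith)

theorem tent_le (u : ℝ) : |tent u| ≤ 1 := by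
  rw [abs_of_nonneg (le_max_left _ _)]
  exact max_le zero_le_one (by linarith [abs_nonneg (u - 1)])

theorem tent_lip (u v : ℝ) : |tent u - tent v| ≤ |u - v| := by
  refine (abs_max_sub_max_le_max _ _ _ _).trans (max_le (by simp) ?_)
  rw [sub_sub_sub_cancel_left]
  simpa [abs_sub_comm] using abs_abs_sub_abs_le (v - 1) (u - 1)

/-- moving tents -/
noncomputable def zf (c : ℕ → ℝ) (τ : ℝ) (p : ℕ × ℝ) : ℝ :=
  if p.2 ≤ P (p.1 + 1) then c p.1 * W p.2 * tent (p.2 - |τ|) else 0

theorem zf_le (c : ℕ → ℝ) (τ γ : ℝ) (n : ℕ) (hγ : 0 ≤ γ) (hn : |τ| + 2 ≤ n)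
    (h : ∀ b, |τ| < P (b + 1) → |c b| ≤ γ) (p : ℕ × ℝ) : ‖zf c τ p‖ ≤ γ * 2 ^ n := by
  unfold zf
  split_ifs with hp
  · by_cases h1 : p.2 - |τ| ≤ 0 ∨ 2 ≤ p.2 - |τ|
    · rw [tent_zero h1]; simp; positivity
    · push Not at h1
      rw [Real.norm_eq_abs, abs_mul, abs_mul, abs_of_pos (W_pos _)]
      refine (mul_le_of_le_one_right (mul_nonneg (abs_nonneg _) (W_pos _).le) (tent_le _)).trans ?_
      exact mul_le_mul (h _ (by linarith)) (W_le n _ (by linarith [abs_nonneg τ]) (by linarith))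
        (W_pos _).le hγ
  · simp; positivity

/-- moving tents as vectors -/
noncomputable def zz (c : ℕ → ℝ) (hc : ∀ b, |c b| ≤ 1) (τ : ℝ) : E :=
  ⟨zf c τ, memℓp_infty ⟨_, forall_mem_range.2
    (zf_le c τ 1 _ zero_le_one (Nat.le_ceil _) fun b _ => hc b)⟩⟩

theorem S_zz (c : ℕ → ℝ) (hc : ∀ b, |c b| ≤ 1) (σ τ : ℝ) :
    S σ (zz c hc τ) = zz c hc (|σ| + |τ|) := by
  refine lp.ext (funext fun p => ?_)
  change co σ p * zf c τ (p.1, p.2 - |σ|) = zf c _ p
  have e : |(|σ| + |τ|)| = |σ| + |τ| := abs_of_nonneg (by positivity)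
  unfold co zf
  rw [e]
  by_cases h2 : p.2 ≤ P (p.1 + 1)
  · by_cases h1 : |σ| ≤ p.2
    · rw [if_pos ⟨h1, h2⟩, if_pos (by linarith [abs_nonneg σ]), if_pos h2, sub_sub]
      have := (W_pos (p.2 - |σ|)).ne'
      field_simp
    · rw [if_neg (by tauto), if_pos h2, tent_zero (u := p.2 - (|σ| + |τ|))
        (Or.inl (by linarith [abs_nonneg τ]))]
      simp
  · rw [if_neg (by tauto), if_neg h2, zero_mul]

theorem sg (a b : ℕ) : |(Pi.single a 1 : ℕ → ℝ) b| ≤ 1 := by
  rw [Pi.single_apply]; split_ifs <;> simp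

/-- single moving tents -/
noncomputable def o (q : ℕ × ℝ) : E := zz _ (sg q.1) q.2

theorem o_lip (a : ℕ) : Continuous fun τ => o (a, τ) := by
  refine (LipschitzWith.of_dist_le_mul (K := 2 ^ P (a + 1)) fun τ σ => ?_).continuous
  rw [dist_eq_norm, Real.dist_eq]
  refine lp.norm_le_of_forall_le' _ fun p => ?_
  change ‖zf _ τ p - zf _ σ p‖ ≤ _
  unfold zf
  have h0 : (0 : ℝ) ≤ ((2 ^ P (a + 1) : NNReal) : ℝ) * |τ - σ| := by positivity
  split_ifs with hp
  · by_cases ha : p.1 = a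
    · rcases le_total p.2 0 with h | h
      · rw [tent_zero (Or.inl (by linarith [abs_nonneg τ])),
          tent_zero (Or.inl (by linarith [abs_nonneg σ]))]
        simpa using h0
      · rw [← mul_sub, ha, Pi.single_eq_same, one_mul, Real.norm_eq_abs, abs_mul,
          abs_of_pos (W_pos _)]
        refine mul_le_mul (by simpa using W_le _ _ h (ha ▸ hp)) ((tent_lip _ _).trans ?_)
          (abs_nonneg _) (by positivity)
        rw [sub_sub_sub_cancel_left, abs_sub_comm τ]
        exact abs_abs_sub_abs_le _ _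
    · simpa [Pi.single_eq_of_ne ha] using h0
  · simpa using h0

theorem o_zero (a : ℕ) (τ : ℝ) (h : (P (a + 1) : ℝ) ≤ |τ|) : o (a, τ) = 0 := by
  refine norm_le_zero_iff.1 (lp.norm_le_of_forall_le' _ fun p => ?_)
  change ‖zf _ τ p‖ ≤ 0
  unfold zf
  split_ifs with hp
  · by_cases ha : p.1 = a
    · rw [tent_zero (Or.inl (by rw [ha] at hp; linarith))]; simp
    · simp [Pi.single_eq_of_ne ha]
  · simp

/-- span of the tents -/
noncomputable abbrev Y : Submodule ℝ E := Submodule.span ℝ (range o)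

theorem ind {p : E → Prop} (hc : IsClosed {y | p y}) (h0 : p 0) (ha : ∀ x y, p x → p y → p (x + y))
    (hs : ∀ (c : ℝ) x, p x → p (c • x)) (ho : ∀ q, p (o q)) (y : E)
    (hy : y ∈ Y.topologicalClosure) : p y := by
  refine closure_minimal (s := (Y : Set E)) (fun y hy => ?_) hc hy
  induction hy using Submodule.span_induction with
  | mem x hx => obtain ⟨q, rfl⟩ := hx; exact ho q
  | zero => exact h0
  | add x y _ _ hx hy => exact ha x y hx hy
  | smul c x _ hx => exact hs c x hx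

theorem S_o (σ : ℝ) (q : ℕ × ℝ) : S σ (o q) = o (q.1, |σ| + |q.2|) := S_zz _ _ _ _

theorem S_mem (σ : ℝ) : ∀ y ∈ Y.topologicalClosure, S σ y ∈ Y.topologicalClosure :=
  ind (Y.isClosed_topologicalClosure.preimage (S σ).continuous) (by simp)
    (fun x y hx hy => by rw [map_add]; exact add_mem hx hy)
    (fun c x hx => by rw [map_smul]; exact Submodule.smul_mem _ _ hx)
    fun q => S_o σ q ▸ subset_closure (Submodule.subset_span ⟨_, rfl⟩)

theorem S_cont : ∀ y ∈ Y.topologicalClosure, Continuous fun t => S t y := by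
  refine ind (isClosed_of_closure_subset fun y hy => ?_) (by simpa using continuous_const)
    (fun x y hx hy => by simp only [map_add]; exact hx.add hy)
    (fun c x hx => by simp only [map_smul]; exact hx.const_smul c)
    fun q => by simp only [S_o]; exact (o_lip q.1).comp (continuous_abs.add continuous_const)
  refine continuous_iff_continuousAt.2 fun t => ?_
  obtain ⟨n, hn⟩ := exists_nat_gt |t|
  refine continuousAt_of_locally_uniform_approx_of_continuousAt fun u hu => ?_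
  obtain ⟨ε, hε, hu⟩ := Metric.mem_uniformity_dist.1 hu
  obtain ⟨x, hx, hxy⟩ := Metric.mem_closure_iff.1 hy (ε / 2 ^ n) (by positivity)
  refine ⟨{r | |r| < n}, (isOpen_lt continuous_abs continuous_const).mem_nhds hn, fun r => S r x,
    Continuous.continuousAt hx, fun r hr => hu ?_⟩
  rw [dist_eq_norm, ← map_sub]
  rw [dist_eq_norm, lt_div_iff₀' (by positivity)] at hxy
  exact ((S_le _ _).trans (mul_le_mul_of_nonneg_right (W_le n _ (abs_nonneg _) (le_of_lt hr))
    (norm_nonneg _))).trans_lt hxy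

/-- coefficients -/
noncomputable def cf (b : ℕ) : ℝ := (1 / 2) ^ ex b

theorem cf_le (a b : ℕ) (h : a ≤ b) : |cf b| ≤ (1 / 2) ^ ex a := by
  rw [cf, abs_of_pos (by positivity)]
  exact pow_le_pow_of_le_one (by norm_num) (by norm_num) (ex_mono.monotone h)

theorem cf1 (b : ℕ) : |cf b| ≤ 1 := (cf_le b b le_rfl).trans (pow_le_one₀ (by norm_num) (by norm_num))

theorem z_mem : zz cf cf1 0 ∈ Y.topologicalClosure := by
  refine Metric.mem_closure_iff.2 fun ε hε => ?_
  obtain ⟨n, hn⟩ := exists_pow_lt_of_lt_one (by positivity : 0 < ε / 4) (by norm_num : (1 / 2 : ℝ) < 1)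
  refine ⟨∑ b ∈ Finset.range n, cf b • o (b, 0), Submodule.sum_mem _ fun b _ =>
    Submodule.smul_mem _ _ (Submodule.subset_span ⟨_, rfl⟩), ?_⟩
  rw [dist_eq_norm]
  refine (lp.norm_le_of_forall_le' ((1 / 2) ^ n * 2 ^ 2) fun p => ?_).trans_lt (by linarith)
  have := zf_le (fun b => if b < n then 0 else cf b) 0 ((1 / 2) ^ n) 2 (by positivity) (by simp)
    (fun b _ => by
      split_ifs with h
      · simp
      · exact (cf_le n b (not_lt.1 h)).trans
          (pow_le_pow_of_le_one (by norm_num) (by norm_num) (ex_mono.id_le n))) p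
  refine le_of_eq_of_le (congrArg _ ?_) this
  rw [lp.coeFn_sub, Pi.sub_apply, lp.coeFn_sum, Finset.sum_apply]
  change zf cf 0 p - ∑ b ∈ Finset.range n, cf b * zf (Pi.single b 1) 0 p = _
  unfold zf
  by_cases h : p.2 ≤ P (p.1 + 1) <;> by_cases h' : p.1 < n <;>
    simp [h, h', Pi.single_apply, mul_assoc]

theorem core : ∃ (X : Type) (_ : NormedAddCommGroup X) (_ : NormedSpace ℝ X) (_ : CompleteSpace X)
    (_ : TopologicalSpace.SeparableSpace X) (T : ℝ → X →L[ℝ] X) (z : X),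
    T 0 = 1 ∧ (∀ s t, 0 ≤ s → 0 ≤ t → T (s + t) = T s * T t) ∧
    (∀ x, Continuous fun t => T t x) ∧
    (∃ X0 : Submodule ℝ X, Dense (X0 : Set X) ∧ ∀ x ∈ X0, Tendsto (fun t => T t x) atTop (𝓝 0)) ∧
    (∀ a (t : ℝ), P a ≤ t → t ≤ P a + 1 → ∀ x, ‖T t x‖ ≤ 2 * ‖x‖) ∧
    (∀ (a : ℕ) (t : ℝ), P a ≤ t → t ≤ (a + 1) * P a + 1 → ‖T t z‖ ≤ (1 / 2) ^ a) ∧
    (∀ (a : ℕ) (t : ℝ), Q a < t → t ≤ (a + 1) * Q a + 1 → 2 ^ a ≤ ‖T t z‖) := by
  have hsep : TopologicalSpace.IsSeparable (range o) := by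
    refine (TopologicalSpace.IsSeparable.iUnion fun a => TopologicalSpace.isSeparable_range
      (o_lip a)).mono ?_
    rintro _ ⟨q, rfl⟩
    exact mem_iUnion.2 ⟨q.1, q.2, rfl⟩
  refine ⟨Y.topologicalClosure, inferInstance, inferInstance, inferInstance,
    hsep.span.closure.separableSpace, fun t => (S t).restrict (S_mem t), ⟨_, z_mem⟩, ?_,
    fun σ τ hσ hτ => ?_, fun x => (S_cont _ x.2).subtype_mk _,
    ⟨Y.comap Y.topologicalClosure.subtype, ?_, fun x hx => ?_⟩, fun a t h1 h2 x => ?_,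
    fun a t h1 h2 => ?_, fun a t h1 h2 => ?_⟩
  · refine ContinuousLinearMap.ext fun x => Subtype.ext ?_
    refine ind (p := fun y => S 0 y = y) (isClosed_eq (S 0).continuous continuous_id) (by simp)
      (fun x y hx hy => by rw [map_add, hx, hy]) (fun c x hx => by rw [map_smul, hx])
      (fun q => ?_) _ x.2
    rw [S_o]
    refine lp.ext (funext fun p => ?_)
    change zf _ _ p = zf _ _ p
    simp [zf]
  · refine ContinuousLinearMap.ext fun x => Subtype.ext ?_
    refine ind (p := fun y => S (σ + τ) y = S σ (S τ y)) (isClosed_eq (by fun_prop) (by fun_prop))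
      (by simp) (fun x y hx hy => by simp only [map_add, hx, hy])
      (fun c x hx => by simp only [map_smul, hx]) (fun q => ?_) _ x.2
    simp only [S_o]
    rw [abs_of_nonneg (add_nonneg hσ hτ), abs_of_nonneg hσ, abs_of_nonneg hτ,
      abs_of_nonneg (add_nonneg hτ (abs_nonneg _)), add_assoc]
  · refine Subtype.dense_iff.2 fun y hy => closure_mono (fun x hx => ?_) hy
    exact ⟨⟨x, subset_closure hx⟩, hx, rfl⟩
  · refine tendsto_subtype_rng.2 ?_
    change Tendsto (fun t => S t x.1) atTop (𝓝 0)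
    have hx : x.1 ∈ Y := hx
    generalize x.1 = y at hx
    induction hx using Submodule.span_induction with
    | mem x hx =>
      obtain ⟨q, rfl⟩ := hx
      refine tendsto_const_nhds.congr' ?_
      filter_upwards [eventually_ge_atTop (P (q.1 + 1) : ℝ)] with t ht
      rw [S_o, o_zero]
      exact ht.trans ((le_abs_self t).trans ((le_add_of_nonneg_right (abs_nonneg _)).trans
        (le_abs_self _)))
    | zero => simp
    | add x y _ _ hx hy => simpa only [map_add, add_zero] using hx.add hy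
    | smul c x _ hx => simpa only [map_smul, smul_zero] using hx.const_smul c
  · refine (S_le t x.1).trans (mul_le_mul_of_nonneg_right ?_ (norm_nonneg _))
    rw [abs_of_nonneg (le_trans (by positivity) h1)]
    have : s t ≤ 1 := s_le (by rw [one_nsmul]; exact Or.inr (mem_iUnion.2 ⟨a, h1, h2⟩))
    simpa [W] using pow_le_pow_right₀ (one_le_two (α := ℝ)) this
  · change ‖S t (zz cf cf1 0)‖ ≤ _
    have h0 : 0 ≤ t := le_trans (by positivity) h1
    rw [S_zz, abs_zero, add_zero, abs_of_nonneg h0]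
    refine lp.norm_le_of_forall_le' _ fun p => (zf_le cf t ((1 / 2) ^ ex a) ((a + 1) * P a + 3)
      (by positivity) (by rw [abs_of_nonneg h0]; push_cast; linarith) (fun b hb => ?_) p).trans ?_
    · rw [abs_of_nonneg h0] at hb
      have : P a < P (b + 1) := by exact_mod_cast h1.trans_lt hb
      exact cf_le a b (Nat.lt_succ_iff.1 (P_mono.lt_iff_lt.1 this))
    · rw [show ex a = (a + 1) + ((a + 1) * P a + 3) by unfold ex; ring, pow_add, mul_assoc,
        ← mul_pow, pow_succ]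
      norm_num
  · change _ ≤ ‖S t (zz cf cf1 0)‖
    have h0 : 0 ≤ t := le_trans (by positivity) h1.le
    rw [S_zz, abs_zero, add_zero, abs_of_nonneg h0]
    refine le_trans ?_ (lp.norm_apply_le_norm (by simp) _ (a, t + 1))
    change _ ≤ ‖zf cf t (a, t + 1)‖
    have h3 : t + 1 < P (a + 1) := by rw [P_succ]; push_cast; linarith
    have h4 : ex a + a ≤ s (t + 1) := by
      by_contra h
      have h5 := (low a _ _ (mem_s (by linarith : 0 ≤ t + 1))).2 h3
      have h6 : (s (t + 1) : ℝ) ≤ (ex a + a : ℕ) := by exact_mod_cast (not_le.1 h).le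
      have h7 : (Q a : ℝ) = (ex a + a : ℕ) * (P a + 1) := by unfold Q; push_cast; ring
      nlinarith [(Nat.cast_nonneg (P a) : (0 : ℝ) ≤ P a)]
    rw [zf, if_pos h3.le, abs_of_nonneg h0, add_sub_cancel_left, tent]
    refine le_trans ?_ (le_abs_self _)
    have : (2 : ℝ) ^ (ex a + a) ≤ W (t + 1) := pow_le_pow_right₀ one_le_two h4
    have h8 : cf a * 2 ^ (ex a + a) = 2 ^ a := by
      rw [cf, pow_add, ← mul_assoc, ← mul_pow]; norm_num
    have h9 : 0 < cf a := by unfold cf; positivity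
    simp only [sub_self, abs_zero, sub_zero, zero_le_one, max_eq_right, mul_one]
    nlinarith

theorem close {X : Type} [NormedAddCommGroup X] [TopologicalSpace.SeparableSpace X] (S : Set X)
    (hS : ¬ S.Countable) (δ : ℝ) (hδ : 0 < δ) : ∃ x ∈ S, ∃ y ∈ S, x ≠ y ∧ ‖x - y‖ < δ := by
  by_contra h
  push Not at h
  refine hS (PairwiseDisjoint.countable_of_isOpen (s := fun x => Metric.ball x (δ / 2))
    (fun x hx y hy hxy => Metric.ball_disjoint_ball ?_) (fun _ _ => Metric.isOpen_ball)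
    fun x _ => ⟨x, Metric.mem_ball_self (half_pos hδ)⟩)
  rw [add_halves, dist_eq_norm]
  exact h x hx y hy hxy

end Pool.Agent.H28.SlowSG
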