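import Mathlib
import Pool.Agent.H28.KoebeChain

open Filter Topology Metric Complex Set
open scoped InnerProductSpace ComplexConjugate

namespace Pool.Agent.H28.Supp

open Pool.Agent.H28.Growth Pool.Agent.H28.KoebeChain

lemma harnack_odd {h : E → E} (hd : DifferentiableOn ℂ h (ball 0 1)) (h0 : h 0 = 0)
    (hD : fderiv ℂ h 0 = ContinuousLinearMap.id ℂ E) (hodd : ∀ z, h (-z) = -h z)
    (hpos : ∀ z ∈ ball (0 : E) 1, z ≠ 0 → 0 < (⟪z, h z⟫_ℂ).re) {y : E} (hy : ‖y‖ < 1)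
    (hy0 : y ≠ 0) : ‖y‖ ^ 2 * (1 - ‖y‖ ^ 2) ≤ (⟪y, h y⟫_ℂ).re * (1 + ‖y‖ ^ 2) := by
  set ρ := ‖y‖ with hρ
  have hρ0 : 0 < ρ := norm_pos_iff.2 hy0
  set u : E := ((ρ⁻¹ : ℝ) : ℂ) • y with hu
  have hu1 : ‖u‖ = 1 := by
    rw [hu, norm_smul, norm_real, norm_inv, norm_norm, inv_mul_cancel₀ hρ0.ne']
  have hyu : (ρ : ℂ) • u = y := by
    rw [hu, smul_smul, ← ofReal_mul, mul_inv_cancel₀ hρ0.ne']; simp
  set ψ : ℂ → ℂ := fun ζ => ⟪u, h (ζ • u)⟫_ℂ with hψ
  have hm : ∀ ζ ∈ ball (0 : ℂ) 1, ζ • u ∈ ball (0 : E) 1 := fun ζ hζ => by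
    rw [mem_ball_zero_iff, norm_smul, hu1, mul_one]; exact mem_ball_zero_iff.1 hζ
  have hψd : DifferentiableOn ℂ ψ (ball 0 1) :=
    (innerSL ℂ u).differentiable.comp_differentiableOn
      (hd.comp (by fun_prop : Differentiable ℂ fun ζ : ℂ => ζ • u).differentiableOn hm)
  have hψ0 : ψ 0 = 0 := by simp [hψ, h0]
  have hψ1 : deriv ψ 0 = 1 := by
    have a1 : HasDerivAt (fun ζ : ℂ => ζ • u) u 0 := by
      simpa using (hasDerivAt_id (0 : ℂ)).smul_const u
    have a2 : HasFDerivAt h (ContinuousLinearMap.id ℂ E) ((0 : ℂ) • u) := by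
      rw [zero_smul, ← hD]
      exact (hd.differentiableAt (ball_mem_nhds _ one_pos)).hasFDerivAt
    have := ((innerSL ℂ u).hasFDerivAt.comp_hasDerivAt 0 (a2.comp_hasDerivAt 0 a1)).deriv
    refine this.trans ?_
    simp [inner_self_eq_norm_sq_to_K, hu1]
  set p := dslope ψ 0 with hp
  have hpd : DifferentiableOn ℂ p (ball 0 1) :=
    (differentiableOn_dslope (ball_mem_nhds _ one_pos)).2 hψd
  have hp0 : p 0 = 1 := by rw [hp, dslope_same, hψ1]
  have hpv : ∀ ζ : ℂ, ζ ≠ 0 → ⟪ζ • u, h (ζ • u)⟫_ℂ = ((‖ζ‖ ^ 2 : ℝ) : ℂ) * p ζ := by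
    intro ζ hζ
    rw [hp, dslope_of_ne _ hζ, slope_def_field, hψ0, inner_smul_left, sub_zero, sub_zero]
    push_cast
    rw [← conj_mul']
    field_simp
    rfl
  have hev : ∀ ζ, p (-ζ) = p ζ := by
    intro ζ
    by_cases hζ : ζ = 0
    · simp [hζ]
    have h1 := hpv (-ζ) (neg_ne_zero.2 hζ)
    rw [neg_smul, hodd, inner_neg_neg, hpv ζ hζ, norm_neg] at h1
    exact (mul_left_cancel₀ (by exact_mod_cast pow_ne_zero 2 (norm_ne_zero_iff.2 hζ)) h1).symm
  have hre : ∀ ζ ∈ ball (0 : ℂ) 1, 0 < (p ζ).re := by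
    intro ζ hζ
    by_cases h : ζ = 0
    · rw [h, hp0]; simp
    · have := hpos _ (hm ζ hζ) (smul_ne_zero h (by rintro h'; simp [h'] at hu1))
      rw [hpv ζ h, re_ofReal_mul] at this
      exact pos_of_mul_pos_right this (by positivity)
  have hne : ∀ ζ ∈ ball (0 : ℂ) 1, p ζ + 1 ≠ 0 := by
    intro ζ hζ h
    have := congrArg re h
    simp at this
    linarith [hre ζ hζ]
  have hρb : (ρ : ℂ) ∈ ball (0 : ℂ) 1 := by
    rw [mem_ball_zero_iff, norm_real, Real.norm_of_nonneg hρ0.le]; exact hy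
  set w : ℂ → ℂ := fun ζ => (p ζ - 1) / (p ζ + 1) with hw
  have hwd : DifferentiableOn ℂ w (ball 0 1) := (hpd.sub_const 1).div (hpd.add_const 1) hne
  have hw0 : w 0 = 0 := by simp [hw, hp0]
  have hw1 : HasDerivAt w 0 0 := by
    have a1 := (hwd.differentiableAt (ball_mem_nhds _ one_pos)).hasDerivAt
    have a2 : HasDerivAt w (deriv w 0) (-0) := by rwa [neg_zero]
    have a3 := a2.comp (0 : ℂ) (hasDerivAt_neg (0 : ℂ))
    have a4 : (w ∘ Neg.neg) = w := by funext ζ; simp only [hw, hev, Function.comp]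
    rw [a4] at a3
    have := a1.unique a3
    have h2 : deriv w 0 = 0 := by linear_combination this / 2
    rwa [h2] at a1
  have hs := dist_le_mul_div_pow_of_mapsTo_ball_of_isLittleO (n := 1) (R₂ := 1) hwd (by
      intro ζ hζ
      rw [hw0, mem_closedBall_zero_iff, norm_div, div_le_one (norm_pos_iff.2 (hne ζ hζ))]
      rw [← sq_le_sq₀ (norm_nonneg _) (norm_nonneg _), Complex.sq_norm, Complex.sq_norm,
        normSq_apply, normSq_apply]
      simp only [sub_re, one_re, sub_im, one_im, add_re, add_im]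
      nlinarith [hre ζ hζ]) (by simpa using (hasDerivAt_iff_isLittleO.1 hw1).norm_right) hρb
  rw [hw0, dist_zero_right, dist_zero_right, div_one, one_mul, norm_real,
    Real.norm_of_nonneg hρ0.le, one_add_one_eq_two] at hs
  simp only [hw] at hs
  rw [norm_div, div_le_iff₀ (norm_pos_iff.2 (hne _ hρb)),
    ← sq_le_sq₀ (norm_nonneg _) (by positivity), mul_pow, Complex.sq_norm, Complex.sq_norm,
    normSq_apply, normSq_apply] at hs
  simp only [sub_re, one_re, sub_im, one_im, add_re, add_im, sub_zero, add_zero] at hs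
  have h1 := hpv ρ (by exact_mod_cast hρ0.ne')
  rw [hyu, norm_real, Real.norm_of_nonneg hρ0.le] at h1
  rw [h1, re_ofReal_mul]
  have ha := hre _ hρb
  set a := (p ρ).re
  set b := (p ρ).im
  have hρ2 : ρ ^ 2 ≤ 1 := by nlinarith
  have hτ : 0 ≤ ρ ^ 2 := sq_nonneg ρ
  generalize ρ ^ 2 = τ at *
  have h2 : (a - 1) ^ 2 ≤ (τ * (a + 1)) ^ 2 := by
    have : τ ^ 2 * (b * b) ≤ b * b := by
      have : τ ^ 2 ≤ 1 := by nlinarith
      nlinarith [mul_self_nonneg b]
    nlinarith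
  have h3 := (abs_le_of_sq_le_sq' h2 (by positivity)).1
  have h4 : 1 - τ ≤ a * (1 + τ) := by linarith
  nlinarith [mul_le_mul_of_nonneg_left h4 hτ]

/-- Starlike maps. -/
def Star (g : E → E) : Prop :=
  DifferentiableOn ℂ g (ball 0 1) ∧ InjOn g (ball 0 1) ∧ g 0 = 0 ∧
    fderiv ℂ g 0 = ContinuousLinearMap.id ℂ E ∧
    ∀ z ∈ ball (0 : E) 1, z ≠ 0 →
      0 < (⟪z, (fderiv ℂ g z).inverse (ContinuousLinearMap.id ℂ E (g z))⟫_ℂ).re

lemma prod_inv {φ : ℂ → ℂ} {d : ℂ} {z : E} (hd : HasDerivAt φ d (z 0)) (h0 : d ≠ 0) :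
    (fderiv ℂ (fun y : E => pt (φ (y 0)) (y 1)) z).inverse (pt (φ (z 0)) (z 1)) =
      pt (φ (z 0) / d) (z 1) := by
  have h1 := (fd_pt (g := fun a => a) hd (hasDerivAt_id (z 1))).fderiv
  rw [h1, ContinuousLinearMap.inverse_eq (g :=
    (d⁻¹ • EuclideanSpace.proj (𝕜 := ℂ) (0 : Fin 2)).smulRight (EuclideanSpace.single 0 1) +
      ((1 : ℂ) • EuclideanSpace.proj (𝕜 := ℂ) (1 : Fin 2)).smulRight (EuclideanSpace.single 1 1))]
  · refine ext2 ?_ ?_ <;> simp [div_eq_inv_mul]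
  · refine ContinuousLinearMap.ext fun v => ext2 ?_ ?_ <;> simp
    field_simp
  · refine ContinuousLinearMap.ext fun v => ext2 ?_ ?_ <;> simp
    field_simp

lemma inner_pt (z : E) (q : ℂ) : (⟪z, pt (z 0 * q) (z 1)⟫_ℂ).re =
    ‖z 0‖ ^ 2 * q.re + ‖z 1‖ ^ 2 := by
  have e : ⟪z, pt (z 0 * q) (z 1)⟫_ℂ = ((‖z 0‖ ^ 2 : ℝ) : ℂ) * q + ((‖z 1‖ ^ 2 : ℝ) : ℂ) := by
    simp only [PiLp.inner_apply, Fin.sum_univ_two, pt0, pt1, RCLike.inner_apply]
    push_cast
    rw [← mul_conj', ← mul_conj']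
    ring
  rw [e, add_re, re_ofReal_mul, ofReal_re]

lemma inner_pt_pos {z : E} (hz0 : z ≠ 0) {q : ℂ} (hq : 0 < q.re) :
    0 < (⟪z, pt (z 0 * q) (z 1)⟫_ℂ).re := by
  rw [inner_pt]
  have h2 : 0 < ‖z‖ ^ 2 := by positivity
  rw [nsq] at h2
  rcases (sq_nonneg ‖z 0‖).eq_or_lt with h | h
  · rw [← h] at h2 ⊢; simpa using h2
  · positivity

lemma prod_star {φ φ' q : ℂ → ℂ} (hd : ∀ a, ‖a‖ < 1 → HasDerivAt φ (φ' a) a ∧ φ' a ≠ 0 ∧
      φ a / φ' a = a * q a ∧ 0 < (q a).re) (h0 : φ 0 = 0) (h1 : φ' 0 = 1)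
    (hi : ∀ a b, ‖a‖ < 1 → ‖b‖ < 1 → φ a = φ b → a = b) :
    Star (fun y : E => pt (φ (y 0)) (y 1)) := by
  refine ⟨diff_pt (g := fun a => a) (fun a ha => (hd a ha).1.differentiableAt)
    (fun a _ => differentiableAt_id), fun x hx y hy hxy => ?_, ext2 (by simp [h0]) (by simp),
    (fd_zero (h1 ▸ (hd 0 (by simp)).1) (hasDerivAt_id 0)).trans (one_smul _ _), ?_⟩
  · have e0 := congrArg (fun w : E => w 0) hxy
    have e1 := congrArg (fun w : E => w 1) hxy
    simp only [pt0, pt1] at e0 e1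
    exact ext2 (hi _ _ (c_lt hx 0) (c_lt hy 0) e0) e1
  · intro z hz hz0
    obtain ⟨a1, a2, a3, a4⟩ := hd _ (c_lt hz 0)
    rw [ContinuousLinearMap.id_apply, prod_inv a1 a2, a3]
    exact inner_pt_pos hz0 a4

lemma sq_lt {a : ℂ} (ha : ‖a‖ < 1) : ‖a ^ 2‖ < 1 := by
  rw [norm_pow]; nlinarith [norm_nonneg a]

/-- The two-slit map. -/
noncomputable def f0 (y : E) : E := pt (y 0 / (1 - y 0 ^ 2)) (y 1)

lemma phi_d {a : ℂ} (ha : ‖a‖ < 1) :
    HasDerivAt (fun a : ℂ => a / (1 - a ^ 2)) ((1 + a ^ 2) / (1 - a ^ 2) ^ 2) a ∧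
      (1 + a ^ 2) / (1 - a ^ 2) ^ 2 ≠ 0 ∧
      a / (1 - a ^ 2) / ((1 + a ^ 2) / (1 - a ^ 2) ^ 2) = a * ((1 - a ^ 2) / (1 + a ^ 2)) ∧
      0 < ((1 - a ^ 2) / (1 + a ^ 2)).re := by
  obtain ⟨h1, h2⟩ := one_sub_ne (sq_lt ha)
  refine ⟨?_, div_ne_zero h2 (pow_ne_zero 2 h1), by field_simp, ?_⟩
  · refine HasDerivAt.congr_deriv ((hasDerivAt_id a).fun_div
      ((hasDerivAt_pow 2 a).const_sub 1) h1) ?_
    simp only [id]
    field_simp
    ring
  · have := cay_re (a := -a ^ 2) (by simpa using sq_lt ha)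
    simpa [cay, sub_eq_add_neg] using this

lemma f0_star : Star f0 := by
  refine prod_star (φ := fun a : ℂ => a / (1 - a ^ 2)) (fun a ha => phi_d ha) (by simp) (by simp)
    fun a b ha hb h => ?_
  rw [div_eq_div_iff (one_sub_ne (sq_lt ha)).1 (one_sub_ne (sq_lt hb)).1] at h
  have h2 : ‖a * b‖ < 1 := by rw [norm_mul]; nlinarith [norm_nonneg a, norm_nonneg b]
  have h3 : (a - b) * (1 + a * b) = 0 := by linear_combination h
  exact sub_eq_zero.1 ((mul_eq_zero.1 h3).resolve_right (one_sub_ne h2).2)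

lemma four_ne {x : ℂ} (hx : ‖x‖ < 4) : 4 + x ≠ 0 := by
  intro h
  have : x = -4 := by linear_combination h
  simp [this] at hx

/-- Two auxiliary starlike maps. -/
noncomputable def gs (σ : ℂ) (y : E) : E := pt (y 0 * (4 + σ * y 0) / (4 * (1 - σ * y 0))) (y 1)

lemma gs_star {σ : ℂ} (hσ : ‖σ‖ = 1) : Star (gs σ) := by
  have hb : ∀ a : ℂ, ‖a‖ < 1 → ‖σ * a‖ < 1 := fun a ha => by rwa [norm_mul, hσ, one_mul]
  refine prod_star (φ := fun a : ℂ => a * (4 + σ * a) / (4 * (1 - σ * a)))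
    (φ' := fun a => (4 + (2 * (σ * a) - (σ * a) ^ 2)) / (4 * (1 - σ * a) ^ 2))
    (q := fun a => ((1 - σ * a)⁻¹ + σ * a / (4 + σ * a))⁻¹) (fun a ha => ?_) (by simp) (by simp)
    fun a b ha hb' h => ?_
  · have h0 := hb a ha
    have h1 := (one_sub_ne h0).1
    have h2 : 4 + σ * a ≠ 0 := four_ne (by linarith)
    have h3 : 4 + (2 * (σ * a) - (σ * a) ^ 2) ≠ 0 := by
      refine four_ne ((norm_sub_le _ _).trans_lt ?_)
      have := sq_lt h0
      rw [norm_mul, norm_ofNat]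
      linarith
    have h4 : 0 < ((1 - σ * a)⁻¹ + σ * a / (4 + σ * a)).re := by
      have a1 : (1 - σ * a)⁻¹ = (cay (σ * a) + 1) / 2 := by rw [cay]; field_simp; ring
      have a2 : ‖σ * a / (4 + σ * a)‖ ≤ 1 / 2 := by
        have := norm_sub_norm_le (4 : ℂ) (-(σ * a))
        rw [sub_neg_eq_add, norm_neg, norm_ofNat] at this
        rw [norm_div, div_le_iff₀ (by linarith)]
        linarith
      have a3 := neg_le_of_abs_le ((abs_re_le_norm _).trans a2)
      have a4 := cay_re h0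
      rw [add_re, a1]
      simp only [div_ofNat_re, add_re, one_re]
      linarith
    refine ⟨?_, div_ne_zero h3 (mul_ne_zero (by norm_num) (pow_ne_zero 2 h1)), ?_, ?_⟩
    · have d1 : HasDerivAt (fun a : ℂ => σ * a) σ a := by
        simpa using (hasDerivAt_id a).const_mul σ
      refine HasDerivAt.congr_deriv (((hasDerivAt_id a).fun_mul (d1.const_add 4)).fun_div
        ((d1.const_sub 1).const_mul 4) (mul_ne_zero (by norm_num) h1)) ?_
      simp only [id]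
      field_simp
      ring
    · have e : (1 - σ * a)⁻¹ + σ * a / (4 + σ * a) =
          (4 + (2 * (σ * a) - (σ * a) ^ 2)) / ((1 - σ * a) * (4 + σ * a)) := by
        field_simp; ring
      rw [e]
      generalize 4 + (2 * (σ * a) - (σ * a) ^ 2) = N at h3
      field_simp
    · rw [inv_re]
      refine div_pos h4 (normSq_pos.2 ?_)
      intro h; simp [h] at h4
  · rw [div_eq_div_iff (mul_ne_zero (by norm_num) (one_sub_ne (hb a ha)).1)
      (mul_ne_zero (by norm_num) (one_sub_ne (hb b hb')).1)] at h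
    have h3 : (a - b) * (4 + (σ * a + σ * b - σ * a * (σ * b))) = 0 := by
      linear_combination h / 4
    refine sub_eq_zero.1 ((mul_eq_zero.1 h3).resolve_right (four_ne ?_))
    refine (norm_sub_le _ _).trans_lt ?_
    have a1 := hb a ha
    have a2 := hb b hb'
    have a3 := norm_add_le (σ * a) (σ * b)
    rw [norm_mul (σ * a)]
    nlinarith [norm_nonneg (σ * a), norm_nonneg (σ * b)]

lemma f0_eq {z : E} (hz : z ∈ ball (0 : E) 1) :
    f0 z = (1 / 5 : ℂ) • z + ((2 / 5 : ℂ) • gs 1 z + (2 / 5 : ℂ) • gs (-1) z) := by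
  obtain ⟨h1, h2⟩ := one_sub_ne (c_lt hz 0)
  have h3 := (one_sub_ne (sq_lt (c_lt hz 0))).1
  refine ext2 ?_ ?_
  · simp only [f0, gs, pt0, PiLp.add_apply, PiLp.smul_apply, smul_eq_mul, one_mul, neg_mul,
      sub_neg_eq_add]
    field_simp
    ring
  · simp only [f0, gs, pt1, PiLp.add_apply, PiLp.smul_apply, smul_eq_mul]
    ring

lemma pert_star {ψ : E → E} (hd : DifferentiableOn ℂ ψ (ball 0 1)) (h0 : ψ 0 = 0)
    (hD : fderiv ℂ ψ 0 = 0) (hb : ∀ z ∈ ball (0 : E) 1, ‖fderiv ℂ ψ z‖ ≤ 1 / 4) :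
    Star (fun z => z + ψ z) := by
  have hda : ∀ z ∈ ball (0 : E) 1, DifferentiableAt ℂ ψ z := fun z hz =>
    hd.differentiableAt (isOpen_ball.mem_nhds hz)
  have hl : ∀ x ∈ ball (0 : E) 1, ∀ y ∈ ball (0 : E) 1, ‖ψ y - ψ x‖ ≤ 1 / 4 * ‖y - x‖ :=
    fun x hx y hy => (convex_ball 0 1).norm_image_sub_le_of_norm_fderiv_le hda hb hx hy
  have hf : ∀ z ∈ ball (0 : E) 1, fderiv ℂ (fun z => z + ψ z) z =
      ContinuousLinearMap.id ℂ E + fderiv ℂ ψ z := fun z hz =>
    ((hasFDerivAt_id z).add (hda z hz).hasFDerivAt).fderiv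
  refine ⟨differentiableOn_id.add hd, fun x hx y hy hxy => ?_, by simp [h0],
    by rw [hf 0 (mem_ball_self one_pos), hD, add_zero], fun z hz hz0 => ?_⟩
  · have h1 := hl x hx y hy
    have h2 : ψ y - ψ x = -(y - x) := by
      simp only at hxy
      rw [neg_sub, sub_eq_sub_iff_add_eq_add, add_comm, ← hxy]
    rw [h2, norm_neg] at h1
    have : ‖y - x‖ = 0 := by linarith [norm_nonneg (y - x)]
    exact (sub_eq_zero.1 (norm_eq_zero.1 this)).symm
  · set D := fderiv ℂ ψ z with hDz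
    have hDb : ∀ v, ‖D v‖ ≤ 1 / 4 * ‖v‖ := fun v => D.le_of_opNorm_le (hb z hz) v
    have hinj : Function.Injective (ContinuousLinearMap.id ℂ E + D) := by
      rw [injective_iff_map_eq_zero]
      intro v hv
      have h1 : v = -D v := eq_neg_of_add_eq_zero_left hv
      have h2 := hDb v
      rw [← norm_neg, ← h1] at h2
      exact norm_eq_zero.1 (by linarith [norm_nonneg v])
    have hinv : (ContinuousLinearMap.id ℂ E + D).IsInvertible :=
      ⟨(LinearEquiv.ofInjectiveEndo ((ContinuousLinearMap.id ℂ E + D : E →L[ℂ] E) : E →ₗ[ℂ] E)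
        hinj).toContinuousLinearEquiv, by ext x; rfl⟩
    rw [hf z hz, ContinuousLinearMap.id_apply]
    set u := (ContinuousLinearMap.id ℂ E + D).inverse (z + ψ z) with hu
    have h1 : z + ψ z = u + D u := hinv.inverse_apply_eq.1 hu.symm
    have h2 : ‖ψ z‖ ≤ 1 / 4 * ‖z‖ := by simpa [h0] using hl 0 (mem_ball_self one_pos) z hz
    have h3 : u - z = ψ z - D u := by
      rw [sub_eq_sub_iff_add_eq_add, ← h1, add_comm]
    have h4 : ‖u - z‖ ≤ 1 / 4 * ‖z‖ + 1 / 4 * ‖u‖ := by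
      rw [h3]; exact (norm_sub_le _ _).trans (add_le_add h2 (hDb u))
    have h5 : ‖u‖ ≤ ‖z‖ + ‖u - z‖ := norm_le_norm_add_norm_sub' u z
    have h6 : (⟪z, u⟫_ℂ).re = ‖z‖ ^ 2 + (⟪z, u - z⟫_ℂ).re := by
      rw [inner_sub_right, sub_re, inner_self_eq_norm_sq_to_K]
      simp [← ofReal_pow]
    have h7 := neg_le_of_abs_le ((abs_re_le_norm _).trans (norm_inner_le_norm (𝕜 := ℂ) z (u - z)))
    have h8 : 0 < ‖z‖ := norm_pos_iff.2 hz0
    rw [h6]
    nlinarith

lemma id_star : Star (fun z => z) := by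
  have := pert_star (ψ := fun _ => 0) (differentiableOn_const _) rfl (by simp) (by simp)
  simpa using this

lemma not_supp {L : (E → E) → ℂ}
    (hadd : ∀ g₁ g₂ : E → E, DifferentiableOn ℂ g₁ (ball 0 1) → DifferentiableOn ℂ g₂ (ball 0 1) →
      L (g₁ + g₂) = L g₁ + L g₂)
    (hsm : ∀ (c : ℂ) (g : E → E), DifferentiableOn ℂ g (ball 0 1) → L (c • g) = c * L g)
    {K : Set E} (hK : IsCompact K) (hKb : K ⊆ ball 0 1) {C : ℝ}
    (hC : ∀ g : E → E, DifferentiableOn ℂ g (ball 0 1) → ∀ M : ℝ, (∀ x ∈ K, ‖g x‖ ≤ M) →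
      ‖L g‖ ≤ C * M)
    (hmax : ∀ g, Star g → (L g).re ≤ (L f0).re) {g : E → E} (hg : Star g) :
    (L g).re = (L fun z => z).re := by
  have hnear : ∀ g₁ g₂ : E → E, DifferentiableOn ℂ g₁ (ball 0 1) →
      DifferentiableOn ℂ g₂ (ball 0 1) → ∀ M, (∀ x ∈ K, ‖g₁ x - g₂ x‖ ≤ M) →
      ‖L g₁ - L g₂‖ ≤ C * M := by
    intro g₁ g₂ h1 h2 M hM
    have := hC (g₁ + (-1 : ℂ) • g₂) (h1.add (h2.const_smul _)) M (fun x hx => by
      simpa [sub_eq_add_neg] using hM x hx)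
    rwa [hadd _ _ h1 (h2.const_smul _), hsm _ _ h2, neg_one_mul, ← sub_eq_add_neg] at this
  have hid : DifferentiableOn ℂ (fun z : E => z) (ball 0 1) := differentiableOn_id
  have s1 := gs_star (σ := 1) (by simp)
  have s2 := gs_star (σ := -1) (by simp)
  have hI : (L f0).re ≤ (L fun z => z).re := by
    have d1 := hid.const_smul (1 / 5 : ℂ)
    have d2 := s1.1.const_smul (2 / 5 : ℂ)
    have d3 := s2.1.const_smul (2 / 5 : ℂ)
    have := hnear f0 ((1 / 5 : ℂ) • (fun z => z) + ((2 / 5 : ℂ) • gs 1 + (2 / 5 : ℂ) • gs (-1)))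
      f0_star.1 (d1.add (d2.add d3)) 0 (fun x hx => by simp [f0_eq (hKb hx)])
    rw [mul_zero, norm_le_zero_iff, sub_eq_zero, hadd _ _ d1 (d2.add d3), hadd _ _ d2 d3,
      hsm _ _ hid, hsm _ _ s1.1, hsm _ _ s2.1] at this
    have e := congrArg re this
    have a1 := hmax _ s1
    have a2 := hmax _ s2
    norm_num at e
    linarith
  have hdil : ∀ r : ℝ, 0 < r → r < 1 →
      DifferentiableOn ℂ (fun z => ((r : ℂ))⁻¹ • g ((r : ℂ) • z)) (ball 0 1) ∧
      (L fun z => ((r : ℂ))⁻¹ • g ((r : ℂ) • z)).re = (L fun z => z).re := by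
    intro r h0 h1
    have hr : (r : ℂ) ≠ 0 := by exact_mod_cast h0.ne'
    have hn : ∀ z ∈ ball (0 : E) 1, ‖(r : ℂ) • z‖ ≤ r := fun z hz => by
      rw [norm_smul, norm_real, Real.norm_of_nonneg h0.le]
      exact mul_le_of_le_one_right h0.le (mem_ball_zero_iff.1 hz).le
    have hm : ∀ z ∈ ball (0 : E) 1, (r : ℂ) • z ∈ ball (0 : E) 1 := fun z hz =>
      mem_ball_zero_iff.2 ((hn z hz).trans_lt h1)
    have hsub : closedBall (0 : E) ((1 + r) / 2) ⊆ ball 0 1 := closedBall_subset_ball (by linarith)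
    obtain ⟨M, hM⟩ := (isCompact_closedBall (0 : E) ((1 + r) / 2)).exists_bound_of_continuousOn
      (hg.1.continuousOn.mono hsub)
    have hfd : ∀ y : E, ‖y‖ ≤ r → ‖fderiv ℂ g y‖ ≤ (M + M) / ((1 - r) / 2) := by
      intro y hy
      have hs2 : ball y ((1 - r) / 2) ⊆ closedBall (0 : E) ((1 + r) / 2) := by
        intro x hx
        rw [mem_closedBall_zero_iff]
        have := norm_le_norm_add_norm_sub' x y
        rw [mem_ball_iff_norm] at hx
        linarith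
      refine norm_fderiv_le_div_of_mapsTo_ball (hg.1.mono (hs2.trans hsub)) (fun x hx => ?_)
        (by linarith)
      rw [mem_closedBall_iff_norm]
      exact (norm_sub_le _ _).trans (add_le_add (hM _ (hs2 hx))
        (hM _ (hs2 (mem_ball_self (by linarith)))))
    set B := (M + M) / ((1 - r) / 2) + 1 with hB
    have hB0 : 0 < B := by
      have := (norm_nonneg _).trans (hfd 0 (by simpa using h0.le))
      linarith
    set G : E → E := fun z => ((r : ℂ))⁻¹ • g ((r : ℂ) • z) with hG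
    have hGd : ∀ z ∈ ball (0 : E) 1, HasFDerivAt G (fderiv ℂ g ((r : ℂ) • z)) z := by
      intro z hz
      have a1 := ((hg.1.differentiableAt (isOpen_ball.mem_nhds (hm z hz))).hasFDerivAt.comp z
        ((hasFDerivAt_id z).const_smul (r : ℂ))).const_smul (r : ℂ)⁻¹
      refine a1.congr_fderiv ?_
      ext v : 1
      simp only [ContinuousLinearMap.smul_apply, ContinuousLinearMap.comp_apply,
        ContinuousLinearMap.id_apply, map_smul, smul_smul, inv_mul_cancel₀ hr, one_smul]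
    have hGD : DifferentiableOn ℂ G (ball 0 1) := fun z hz =>
      (hGd z hz).differentiableAt.differentiableWithinAt
    refine ⟨hGD, ?_⟩
    have key : ∀ ε : ℝ, |ε| ≤ 1 / (4 * B) → ε * ((L G).re - (L fun z => z).re) ≤ 0 := by
      intro ε hε
      have hψ : ∀ z ∈ ball (0 : E) 1, HasFDerivAt (fun z => (ε : ℂ) • (G z - z))
          ((ε : ℂ) • (fderiv ℂ g ((r : ℂ) • z) - ContinuousLinearMap.id ℂ E)) z := fun z hz =>
        ((hGd z hz).sub (hasFDerivAt_id z)).const_smul (ε : ℂ)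
      have hs := pert_star (ψ := fun z => (ε : ℂ) • (G z - z))
        (fun z hz => (hψ z hz).differentiableAt.differentiableWithinAt) (by simp only [hG, smul_zero, hg.2.2.1, sub_zero])
        (by rw [(hψ 0 (mem_ball_self one_pos)).fderiv, smul_zero, hg.2.2.2.1]; simp)
        (fun z hz => by
          rw [(hψ z hz).fderiv, norm_smul, norm_real, Real.norm_eq_abs]
          have a1 : ‖fderiv ℂ g ((r : ℂ) • z) - ContinuousLinearMap.id ℂ E‖ ≤ B :=
            (norm_sub_le _ _).trans (add_le_add (hfd _ (hn z hz)) ContinuousLinearMap.norm_id_le)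
          calc _ ≤ 1 / (4 * B) * B := by gcongr
            _ = 1 / 4 := by field_simp)
      have a1 := (hmax _ hs).trans hI
      have e : (fun z => z + (ε : ℂ) • (G z - z)) =
          (fun z => z) + (ε : ℂ) • (G + (-1 : ℂ) • fun z => z) := by
        funext z; simp [sub_eq_add_neg]
      have d1 := hid.const_smul (-1 : ℂ)
      rw [e, hadd _ _ hid ((hGD.add d1).const_smul _), hsm _ _ (hGD.add d1), hadd _ _ hGD d1,
        hsm _ _ hid, add_re, re_ofReal_mul] at a1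
      simp only [add_re, neg_mul, one_mul, neg_re] at a1
      linarith
    have hp : 0 < 1 / (4 * B) := by positivity
    have a1 := key (1 / (4 * B)) (by rw [abs_of_pos hp])
    have a2 := key (-(1 / (4 * B))) (by rw [abs_neg, abs_of_pos hp])
    nlinarith
  refine eq_of_forall_dist_le fun ε hε => ?_
  have hδ : 0 < ε / (|C| + 1) := by positivity
  have hev : ∀ᶠ r : ℝ in 𝓝 1, ∀ x ∈ K, ‖g x - ((r : ℂ))⁻¹ • g ((r : ℂ) • x)‖ ≤ ε / (|C| + 1) := by
    refine hK.eventually_forall_of_forall_eventually fun x hx => ?_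
    have c1 : ContinuousAt g x := hg.1.continuousOn.continuousAt (isOpen_ball.mem_nhds (hKb hx))
    have c2 : ContinuousAt (fun p : ℝ × E => g ((p.1 : ℂ) • p.2)) (1, x) :=
      c1.comp_of_eq (by fun_prop) (by simp)
    have c3 : ContinuousAt (fun p : ℝ × E => g p.2) (1, x) := c1.comp_of_eq (by fun_prop) rfl
    have c4 : ContinuousAt (fun p : ℝ × E => ((p.1 : ℂ))⁻¹) (1, x) :=
      ContinuousAt.inv₀ (by fun_prop) (by simp)
    exact (c3.sub (c4.smul c2)).norm.eventually (ge_mem_nhds (by simpa using hδ))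
  obtain ⟨r, hr, hr'⟩ := ((hev.filter_mono nhdsWithin_le_nhds).and
    (Ioo_mem_nhdsLT (show (0 : ℝ) < 1 by norm_num))).exists
  obtain ⟨a1, a2⟩ := hdil r hr'.1 hr'.2
  have a3 := hnear _ _ hg.1 a1 _ hr
  rw [← a2, Real.dist_eq, ← sub_re]
  refine ((abs_re_le_norm _).trans a3).trans ?_
  calc C * (ε / (|C| + 1)) ≤ (|C| + 1) * (ε / (|C| + 1)) := by
        gcongr; linarith [le_abs_self C]
    _ = ε := by field_simp

end Pool.Agent.H28.Supp
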