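import Mathlib

set_option autoImplicit false
set_option linter.unusedSectionVars false

open Finset

namespace Pool.Agent.H28.TJoin

variable {V E : Type*} [Fintype V] [DecidableEq V] [Fintype E] [DecidableEq E]

/-- point mass mod 2 -/
def dl {V : Type*} [DecidableEq V] (u : V) : V → ZMod 2 := fun v => if u = v then 1 else 0

/-- boundary mod 2 of an edge set -/
def bd (s t : E → V) (J : E → ZMod 2) : V → ZMod 2 := fun v => ∑ e, J e * (dl (s e) v + dl (t e) v)

/-- length of an edge set -/
def len (c : E → ℕ) (J : E → ZMod 2) : ℕ := ∑ e, (J e).val * c e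

theorem z2 (a : ZMod 2) : a = 0 ∨ a = 1 := by revert a; decide

theorem z2add (a : ZMod 2) : a + a = 0 := by revert a; decide

theorem fadd {A : Type*} (f : A → ZMod 2) : f + f = 0 := funext fun a => z2add (f a)

theorem bd_add (s t : E → V) (J K : E → ZMod 2) : bd s t (J + K) = bd s t J + bd s t K := by
  funext v
  simp only [bd, Pi.add_apply, add_mul, sum_add_distrib]

theorem bd_zero (s t : E → V) : bd s t 0 = 0 := by
  funext v; simp [bd]

theorem bd_dl (s t : E → V) (e : E) : bd s t (dl e) = dl (s e) + dl (t e) := by
  funext v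
  simp only [bd, Pi.add_apply]
  rw [sum_eq_single e]
  · simp [dl]
  · intro x _ hx; simp [dl, Ne.symm hx]
  · simp

theorem len_remove (c : E → ℕ) (J : E → ZMod 2) (e : E) (h : J e = 1) :
    len c (J + dl e) + c e = len c J := by
  unfold len
  rw [← add_sum_erase _ _ (mem_univ e), ← add_sum_erase _ (fun x => (J x).val * c x) (mem_univ e)]
  have h1 : ∑ x ∈ univ.erase e, ((J + dl e) x).val * c x = ∑ x ∈ univ.erase e, (J x).val * c x :=
    sum_congr rfl (fun x hx => by simp [dl, Ne.symm (mem_erase.1 hx).1])
  have h2 : (J + dl e) e = 0 := by simp only [Pi.add_apply, h, dl, if_true]; decide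
  rw [h1, h2, h]
  simp [ZMod.val_one]; ring

theorem len_zero_edge (c : E → ℕ) (J : E → ZMod 2) (e : E) (h : c e = 0) :
    len c (J + dl e) = len c J := by
  unfold len
  refine sum_congr rfl (fun x _ => ?_)
  by_cases hx : e = x
  · subst hx; simp [h]
  · simp [dl, hx]

/-- other end -/
def oth (s t : E → V) (b : V) (e : E) : V := if s e = b then t e else s e

theorem oth_spec (s t : E → V) (b : V) (e : E) (h : dl (s e) b + dl (t e) b = 1) :
    dl (s e) + dl (t e) = dl b + dl (oth s t b e) ∧ oth s t b e ≠ b := by
  unfold oth
  by_cases h1 : s e = b <;> by_cases h2 : t e = b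
  · simp only [dl, h1, h2, if_true] at h; exact absurd h (by decide)
  · simp [h1, h2]
  · simp [h1, h2, add_comm]
  · simp [dl, h1, h2] at h

theorem lemD (s t : E → V) (D : E → ZMod 2) (a b : V) (h : ∀ v, v ≠ a → v ≠ b → bd s t D v = 0)
    (e1 e2 : E) (h12 : e1 ≠ e2) (d1 : D e1 = 1) (d2 : D e2 = 1)
    (i1 : dl (s e1) b + dl (t e1) b = 1) (i2 : dl (s e2) b + dl (t e2) b = 1) :
    ∃ (C : E → ZMod 2) (e e' : E), e ≠ e' ∧ dl (s e) b + dl (t e) b = 1 ∧ dl (s e') b + dl (t e') b = 1 ∧
      (∀ x, C x = 1 → D x = 1) ∧ bd s t C = 0 ∧
      ∀ x, dl (s x) b + dl (t x) b = 1 → (C x = 1 ↔ x = e ∨ x = e') := by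
  classical
  let R : V → V → Prop := fun u v => ∃ P : E → ZMod 2,
    (∀ x, P x = 1 → D x = 1 ∧ dl (s x) b + dl (t x) b = 0) ∧ bd s t P = dl u + dl v
  have Rrefl : ∀ u, R u u := fun u => ⟨0, fun x hx => absurd hx (by simp), by rw [bd_zero, fadd]⟩
  have Rsymm : ∀ u v, R u v → R v u := fun u v ⟨P, h1, h2⟩ => ⟨P, h1, by rw [h2, add_comm]⟩
  have Rtrans : ∀ u v w, R u v → R v w → R u w := by
    rintro u v w ⟨P, h1, h2⟩ ⟨Q, h3, h4⟩
    refine ⟨P + Q, fun x hx => ?_, ?_⟩
    · rcases z2 (P x) with h5 | h5
      · exact h3 x (by simpa [h5] using hx)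
      · exact h1 x h5
    · rw [bd_add, h2, h4, add_assoc, ← add_assoc (dl v), fadd, zero_add]
  have Redge : ∀ x, D x = 1 → dl (s x) b + dl (t x) b = 0 → R (s x) (t x) := by
    intro x hx hb
    refine ⟨dl x, fun y hy => ?_, bd_dl s t x⟩
    have : x = y := by by_contra hne; simp [dl, hne] at hy
    subst this; exact ⟨hx, hb⟩
  have Rb : ∀ u, u ≠ b → ¬ R u b := by
    rintro u hu ⟨P, h1, h2⟩
    have h3 := congrFun h2 b
    have h4 : bd s t P b = 0 := by
      refine sum_eq_zero (fun x _ => ?_)
      rcases z2 (P x) with h5 | h5
      · simp [h5]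
      · simp [(h1 x h5).2]
    rw [h4] at h3
    simp [dl, hu] at h3
  have build : ∀ e e', e ≠ e' → D e = 1 → D e' = 1 → dl (s e) b + dl (t e) b = 1 →
      dl (s e') b + dl (t e') b = 1 → R (oth s t b e) (oth s t b e') →
      ∃ (C : E → ZMod 2) (e e' : E), e ≠ e' ∧ dl (s e) b + dl (t e) b = 1 ∧ dl (s e') b + dl (t e') b = 1 ∧
      (∀ x, C x = 1 → D x = 1) ∧ bd s t C = 0 ∧
      ∀ x, dl (s x) b + dl (t x) b = 1 → (C x = 1 ↔ x = e ∨ x = e') := by
    rintro e e' hne de de' ie ie' ⟨P, h1, h2⟩
    have hP : ∀ x, dl (s x) b + dl (t x) b = 1 → P x = 0 := by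
      intro x hx
      rcases z2 (P x) with h5 | h5
      · exact h5
      · rw [(h1 x h5).2] at hx; exact absurd hx (by decide)
    refine ⟨P + dl e + dl e', e, e', hne, ie, ie', fun x hx => ?_, ?_, fun x hx => ?_⟩
    · by_cases x1 : e = x
      · rwa [← x1]
      by_cases x2 : e' = x
      · rwa [← x2]
      exact (h1 x (by simpa [dl, x1, x2] using hx)).1
    · rw [bd_add, bd_add, h2, bd_dl, bd_dl, (oth_spec s t b e ie).1, (oth_spec s t b e' ie').1]
      funext v
      simp only [Pi.add_apply, Pi.zero_apply]
      generalize dl (oth s t b e) v = p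
      generalize dl (oth s t b e') v = q
      generalize dl b v = r
      revert p q r; decide
    · simp only [Pi.add_apply, hP x hx, zero_add]
      by_cases x1 : e = x
      · subst x1; simp [dl, Ne.symm hne]
      by_cases x2 : e' = x
      · subst x2; simp [dl, hne]
      simp [dl, x1, x2, Ne.symm x1, Ne.symm x2]
  have key : ∀ e, D e = 1 → dl (s e) b + dl (t e) b = 1 → ¬ R (oth s t b e) a →
      ∃ e', e ≠ e' ∧ D e' = 1 ∧ dl (s e') b + dl (t e') b = 1 ∧ R (oth s t b e) (oth s t b e') := by
    intro e de ie hR
    by_contra hno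
    push Not at hno
    let Z : Finset V := univ.filter (fun v => R (oth s t b e) v)
    have hbZ : ¬ R (oth s t b e) b := Rb _ (oth_spec s t b e ie).2
    have h1 : ∑ v ∈ Z, bd s t D v = 0 := by
      refine sum_eq_zero (fun v hv => h v ?_ ?_)
      · rintro rfl; exact hR (mem_filter.1 hv).2
      · rintro rfl; exact hbZ (mem_filter.1 hv).2
    have hdl : ∀ u, ∑ v ∈ Z, dl u v = if R (oth s t b e) u then 1 else 0 := by
      intro u
      simp only [dl, sum_ite_eq, Z, mem_filter, mem_univ, true_and]
    have h2 : ∑ v ∈ Z, bd s t D v = 1 := by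
      unfold bd
      rw [sum_comm, sum_eq_single e]
      · rw [← mul_sum, de, one_mul]
        have := (oth_spec s t b e ie).1
        simp only [← Pi.add_apply (dl (s e)), this]
        simp only [Pi.add_apply, sum_add_distrib, hdl, if_neg hbZ, if_pos (Rrefl _), zero_add]
      · intro x _ hx
        rw [← mul_sum]
        rcases z2 (D x) with dx | dx
        · simp [dx]
        rw [dx, one_mul]
        rcases z2 (dl (s x) b + dl (t x) b) with ix | ix
        · have h3 := Redge x dx ix
          rw [sum_add_distrib, hdl, hdl]
          by_cases h4 : R (oth s t b e) (s x)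
          · rw [if_pos h4, if_pos (Rtrans _ _ _ h4 h3)]; decide
          · rw [if_neg h4, if_neg (fun h5 => h4 (Rtrans _ _ _ h5 (Rsymm _ _ h3))), add_zero]
        · have := (oth_spec s t b x ix).1
          simp only [← Pi.add_apply (dl (s x)), this]
          simp only [Pi.add_apply, sum_add_distrib, hdl, if_neg hbZ,
            if_neg (hno x (Ne.symm hx) dx ix), zero_add]
      · simp
    rw [h1] at h2
    exact absurd h2 (by decide)
  by_cases r1 : R (oth s t b e1) a
  · by_cases r2 : R (oth s t b e2) a
    · exact build e1 e2 h12 d1 d2 i1 i2 (Rtrans _ _ _ r1 (Rsymm _ _ r2))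
    · obtain ⟨e', h1, h2, h3, h4⟩ := key e2 d2 i2 r2
      exact build e2 e' h1 d2 h2 i2 h3 h4
  · obtain ⟨e', h1, h2, h3, h4⟩ := key e1 d1 i1 r1
    exact build e1 e' h1 d1 h2 i1 h3 h4

/-- signed weight -/
def wt (c : E → ℕ) (F C : E → ZMod 2) : ℤ :=
  ∑ e, ((C e).val : ℤ) * (if F e = 1 then -(c e : ℤ) else c e)

theorem wt_eq (c : E → ℕ) (F C : E → ZMod 2) : wt c F C = (len c (F + C) : ℤ) - len c F := by
  unfold wt len
  push_cast
  rw [← sum_sub_distrib]
  refine sum_congr rfl (fun e _ => ?_)
  rcases z2 (F e) with h | h <;> rcases z2 (C e) with h' | h' <;>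
    simp [h, h', ZMod.val_one, z2add]

theorem len_parity (s t : E → V) (c : E → ℕ) (χ : V → ZMod 2)
    (hχ : ∀ e, (c e : ZMod 2) = χ (s e) + χ (t e)) (J : E → ZMod 2) :
    (len c J : ZMod 2) = ∑ v, χ v * bd s t J v := by
  unfold len bd
  push_cast
  simp only [mul_sum]
  rw [sum_comm]
  refine sum_congr rfl (fun e _ => ?_)
  rw [ZMod.natCast_zmod_val, hχ]
  have : ∀ v, χ v * (J e * (dl (s e) v + dl (t e) v))
      = J e * ((if s e = v then χ v else 0) + (if t e = v then χ v else 0)) := by
    intro v; simp only [dl]; split_ifs <;> ring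
  simp only [this, ← mul_sum, sum_add_distrib, sum_ite_eq, mem_univ, if_true]

/-- One reduction step of Sebo's proof of Seymour's theorem. -/
theorem reduce_step (s t : E → V) (c : E → ℕ) (χ : V → ZMod 2) (F : E → ZMod 2)
    (hχ : ∀ e, (c e : ZMod 2) = χ (s e) + χ (t e))
    (hmin : ∀ J, bd s t J = bd s t F → len c F ≤ len c J)
    (hpos : ∀ e, s e ≠ t e → 1 ≤ c e) (hF : len c F ≠ 0) :
    ∃ (b : V) (eb : E), F eb = 1 ∧ dl (s eb) b + dl (t eb) b = 1 ∧
      (∀ e, F e = 1 → dl (s e) b + dl (t e) b = 1 → e = eb) ∧
      ∀ J, bd s t J = bd s t F → len (fun e => c e - (dl (s e) b + dl (t e) b).val) F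
        ≤ len (fun e => c e - (dl (s e) b + dl (t e) b).val) J := by
  classical
  obtain ⟨e1, -, he1⟩ := exists_ne_zero_of_sum_ne_zero hF
  have fe1 : F e1 = 1 := by
    rcases z2 (F e1) with h | h
    · simp [h] at he1
    · exact h
  have ce1 : c e1 ≠ 0 := fun h => he1 (by simp [h])
  have hex : ∃ n, ∃ (a b : V) (K : E → ZMod 2), bd s t K = bd s t F + (dl a + dl b) ∧ len c K = n :=
    ⟨_, s e1, t e1, F + dl e1, by rw [bd_add, bd_dl], rfl⟩
  obtain ⟨a, b, K, hK, hKn⟩ := Nat.find_spec hex
  have hKmin : ∀ (a' b' : V) (K' : E → ZMod 2), bd s t K' = bd s t F + (dl a' + dl b') →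
      len c K ≤ len c K' := fun a' b' K' h => hKn ▸ Nat.find_min' hex ⟨a', b', K', h, rfl⟩
  have hlt : len c K < len c F := by
    have h1 := hKmin (s e1) (t e1) (F + dl e1) (by rw [bd_add, bd_dl])
    have h2 := len_remove c F e1 fe1
    omega
  have hab : a ≠ b := by
    rintro rfl
    rw [fadd, add_zero] at hK
    have := hmin K hK
    omega
  have hnl : ∀ e, dl (s e) b + dl (t e) b = 1 → 1 ≤ c e := by
    intro e he
    apply hpos
    intro h
    rw [h, z2add] at he
    exact absurd he (by decide)
  have claim1 : ∀ K', bd s t K' = bd s t F + (dl a + dl b) → len c K' = len c K →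
      ∀ e, dl (s e) b + dl (t e) b = 1 → K' e = 0 := by
    intro K' h1 h2 e he
    rcases z2 (K' e) with h | h
    · exact h
    exfalso
    have h3 := len_remove c K' e h
    have h4 := hKmin a (oth s t b e) (K' + dl e) (by
      rw [bd_add, bd_dl, h1, (oth_spec s t b e he).1, add_assoc, add_assoc, ← add_assoc (dl b), fadd,
        zero_add])
    have := hnl e he
    omega
  have claim2 : ∀ F', bd s t F' = bd s t F → len c F' = len c F → ∀ x y, x ≠ y → F' x = 1 → F' y = 1 →
      dl (s x) b + dl (t x) b = 1 → dl (s y) b + dl (t y) b = 1 → False := by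
    intro F' h1 h2 x y hxy fx fy ix iy
    have hD : bd s t (F' + K) = dl a + dl b := by
      rw [bd_add, h1, hK, ← add_assoc, fadd, zero_add]
    obtain ⟨C, e, e', -, ie, -, hsub, hC, hiff⟩ := lemD s t (F' + K) a b
      (fun v h3 h4 => by rw [hD]; simp [dl, Ne.symm h3, Ne.symm h4]) x y hxy
      (by simp [fx, claim1 K hK rfl x ix]) (by simp [fy, claim1 K hK rfl y iy]) ix iy
    have h3 := hmin (F' + C) (by rw [bd_add, hC, add_zero, h1])
    have h4 := hKmin a b (K + C) (by rw [bd_add, hC, add_zero, hK])
    have h5 : len c (F' + C) + len c (K + C) = len c F' + len c K := by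
      unfold len
      rw [← sum_add_distrib, ← sum_add_distrib]
      refine sum_congr rfl (fun z _ => ?_)
      have h6 := hsub z
      simp only [Pi.add_apply] at h6 ⊢
      rcases z2 (F' z) with p | p <;> rcases z2 (K z) with q | q <;> rcases z2 (C z) with r | r <;>
        simp_all [ZMod.val_one, z2add]
    have h7 := claim1 (K + C) (by rw [bd_add, hC, add_zero, hK]) (by omega) e ie
    rw [Pi.add_apply, claim1 K hK rfl e ie, (hiff e ie).2 (Or.inl rfl)] at h7
    exact absurd h7 (by decide)
  have hFb : bd s t F b = 1 := by
    have h1 : bd s t K b = 0 := by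
      refine sum_eq_zero (fun x _ => ?_)
      rcases z2 (dl (s x) b + dl (t x) b) with h | h
      · rw [h, mul_zero]
      · rw [claim1 K hK rfl x h, zero_mul]
    rw [hK] at h1
    simp only [Pi.add_apply, dl, hab, if_false, if_true, zero_add] at h1
    rcases z2 (bd s t F b) with h | h
    · rw [h] at h1; exact absurd h1 (by decide)
    · exact h
  obtain ⟨eb, -, heb⟩ := exists_ne_zero_of_sum_ne_zero (by
    have := hFb; unfold bd at this; rw [this]; decide :
      ∑ e, F e * (dl (s e) b + dl (t e) b) ≠ 0)
  have feb : F eb = 1 := by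
    rcases z2 (F eb) with h | h
    · simp [h] at heb
    · exact h
  have ieb : dl (s eb) b + dl (t eb) b = 1 := by
    rcases z2 (dl (s eb) b + dl (t eb) b) with h | h
    · simp [h] at heb
    · exact h
  refine ⟨b, eb, feb, ieb, fun e h1 h2 => ?_, ?_⟩
  · by_contra hne
    exact claim2 F rfl rfl e eb hne h1 feb h2 ieb
  set c' : E → ℕ := fun e => c e - (dl (s e) b + dl (t e) b).val with hc'
  have hwt0 : ∀ C, bd s t C = 0 → 0 ≤ wt c F C := by
    intro C hC
    have := hmin (F + C) (by rw [bd_add, hC, add_zero])
    rw [wt_eq]; omega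
  have hwt' : ∀ C, wt c' F C = wt c F C - ∑ e, ((C e).val : ℤ) * (dl (s e) b + dl (t e) b).val *
      (if F e = 1 then -1 else 1) := by
    intro C
    unfold wt
    rw [← sum_sub_distrib]
    refine sum_congr rfl (fun e _ => ?_)
    rcases z2 (dl (s e) b + dl (t e) b) with h | h
    · simp [hc', h]
    · have := hnl e h
      simp only [hc', h, ZMod.val_one, Nat.cast_sub this]
      split_ifs <;> push_cast <;> ring
  have claim3 : ∀ n, ∀ C : E → ZMod 2, (univ.filter (fun e => C e = 1)).card ≤ n → bd s t C = 0 →
      0 ≤ wt c' F C := by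
    intro n
    induction n with
    | zero =>
      intro C hC _
      have : C = 0 := by
        funext e
        rcases z2 (C e) with h | h
        · exact h
        · have : e ∈ univ.filter (fun e => C e = 1) := by simp [h]
          rw [card_eq_zero.1 (Nat.le_zero.1 hC)] at this
          simp at this
      simp [this, wt]
    | succ n ih =>
      intro C hcard hC
      by_cases hx : ∃ x, C x = 1 ∧ dl (s x) b + dl (t x) b = 1
      swap
      · rw [hwt', sum_eq_zero, sub_zero]
        · exact hwt0 C hC
        · intro e _
          rcases z2 (C e) with h | h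
          · simp [h]
          rcases z2 (dl (s e) b + dl (t e) b) with h' | h'
          · simp [h']
          exact absurd ⟨e, h, h'⟩ hx
      obtain ⟨x, cx, ix⟩ := hx
      have hy : ∃ y, x ≠ y ∧ C y = 1 ∧ dl (s y) b + dl (t y) b = 1 := by
        by_contra hno
        push Not at hno
        have h1 := congrFun hC b
        unfold bd at h1
        rw [sum_eq_single x, cx, ix, Pi.zero_apply] at h1
        · exact absurd h1 (by decide)
        · intro y _ hy
          rcases z2 (C y) with h | h
          · simp [h]
          rcases z2 (dl (s y) b + dl (t y) b) with h' | h'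
          · simp [h']
          exact absurd h' (hno y (Ne.symm hy) h)
        · simp
      obtain ⟨y, hxy, cy, iy⟩ := hy
      obtain ⟨C1, e, e', hne, ie, ie', hsub, hC1, hiff⟩ := lemD s t C b b
        (fun v _ _ => by rw [hC]; rfl) x y hxy cx cy ix iy
      have c1e : C1 e = 1 := (hiff e ie).2 (Or.inl rfl)
      have c1e' : C1 e' = 1 := (hiff e' ie').2 (Or.inr rfl)
      have hsplit : wt c' F C = wt c' F C1 + wt c' F (C + C1) := by
        unfold wt
        rw [← sum_add_distrib]
        refine sum_congr rfl (fun z _ => ?_)
        have h6 := hsub z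
        simp only [Pi.add_apply]
        rcases z2 (C z) with q | q <;> rcases z2 (C1 z) with r | r <;>
          simp_all [ZMod.val_one, z2add]
      have hrest : 0 ≤ wt c' F (C + C1) := by
        refine ih _ ?_ (by rw [bd_add, hC, hC1, add_zero])
        have : univ.filter (fun z => (C + C1) z = 1) ⊂ univ.filter (fun z => C z = 1) := by
          rw [ssubset_iff_of_subset]
          · refine ⟨e, by simp [hsub e c1e], ?_⟩
            simp only [mem_filter, mem_univ, true_and, Pi.add_apply, c1e, hsub e c1e]
            decide
          · intro z hz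
            simp only [mem_filter, mem_univ, true_and, Pi.add_apply] at hz ⊢
            rcases z2 (C1 z) with r | r
            · simpa [r] using hz
            · exact hsub z r
        have := card_lt_card this
        omega
      have hsum : ∑ z, ((C1 z).val : ℤ) * (dl (s z) b + dl (t z) b).val * (if F z = 1 then -1 else 1)
          = (if F e = 1 then -1 else 1) + (if F e' = 1 then -1 else 1) := by
        rw [← sum_subset (subset_univ {e, e'}), sum_pair hne, c1e, c1e', ie, ie']
        · simp [ZMod.val_one]
        · intro z _ hz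
          simp only [mem_insert, mem_singleton] at hz
          rcases z2 (dl (s z) b + dl (t z) b) with h' | h'
          · simp [h']
          rcases z2 (C1 z) with h | h
          · simp [h]
          exact absurd ((hiff z h').1 h) hz
      have h0 := hwt0 C1 hC1
      have hfirst : 0 ≤ wt c' F C1 := by
        rw [hwt', hsum]
        by_cases f1 : F e = 1
        · rw [if_pos f1]; split_ifs <;> omega
        by_cases f2 : F e' = 1
        · rw [if_neg f1, if_pos f2]; omega
        rw [if_neg f1, if_neg f2]
        have hne0 : wt c F C1 ≠ 0 := by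
          intro h
          rw [wt_eq] at h
          refine claim2 (F + C1) (by rw [bd_add, hC1, add_zero]) (by omega) e e' hne ?_ ?_ ie ie'
          · simp [c1e, (z2 (F e)).resolve_right f1]
          · simp [c1e', (z2 (F e')).resolve_right f2]
        have hpar : ((wt c F C1 : ℤ) : ZMod 2) = 0 := by
          rw [wt_eq]
          push_cast
          rw [len_parity s t c χ hχ, len_parity s t c χ hχ, bd_add, hC1, add_zero, sub_self]
        have := (ZMod.intCast_zmod_eq_zero_iff_dvd _ 2).1 hpar
        omega
      omega
  intro J hJ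
  have h1 := claim3 _ (F + J) le_rfl (by rw [bd_add, hJ, fadd])
  rw [wt_eq, ← add_assoc, fadd, zero_add] at h1
  omega

/-- Seymour's theorem on packing cuts, in potential form. -/
theorem seymour (F : E → ZMod 2) : ∀ (n : ℕ) (s t : E → V) (c : E → ℕ) (χ : V → ZMod 2),
    ∑ e, c e + (univ.filter (fun e => s e ≠ t e)).card < n →
    (∀ e, (c e : ZMod 2) = χ (s e) + χ (t e)) →
    (∀ J, bd s t J = bd s t F → len c F ≤ len c J) →
    ∃ f : E → V → ℤ, (∀ e, F e = 1 → f e (s e) - f e (t e) = c e) ∧
      ∀ e', ∑ e, |f e (s e') - f e (t e')| ≤ c e' := by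
  classical
  intro n
  induction n with
  | zero => intro s t c χ h; omega
  | succ n ih =>
    intro s t c χ hn hχ hmin
    by_cases hF : len c F = 0
    · refine ⟨0, fun e he => ?_, fun e' => by simp⟩
      have := (sum_eq_zero_iff.1 hF) e (mem_univ e)
      rw [he, ZMod.val_one, one_mul] at this
      simp [this]
    by_cases hz : ∃ e0, s e0 ≠ t e0 ∧ c e0 = 0
    · obtain ⟨e0, hne, hc0⟩ := hz
      let π : V → V := fun v => if v = t e0 then s e0 else v
      have hπχ : ∀ v, χ (π v) = χ v := by
        intro v
        simp only [π]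
        split_ifs with h
        · have := hχ e0
          rw [hc0, Nat.cast_zero] at this
          rw [h]
          rcases z2 (χ (s e0)) with p | p <;> rcases z2 (χ (t e0)) with q | q <;> simp_all
        · rfl
      refine Exists.elim (ih (π ∘ s) (π ∘ t) c χ ?_ ?_ ?_) (fun f ⟨hf1, hf2⟩ => ?_)
      rotate_right
      · exact ⟨fun e v => f e (π v), hf1, hf2⟩
      · have : univ.filter (fun e => (π ∘ s) e ≠ (π ∘ t) e) ⊂ univ.filter (fun e => s e ≠ t e) := by
          rw [ssubset_iff_of_subset]
          · exact ⟨e0, by simp [hne], by simp [π, hne]⟩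
          · intro z hz
            simp only [mem_filter, mem_univ, true_and, Function.comp] at hz ⊢
            intro h; exact hz (by rw [h])
        have := card_lt_card this
        omega
      · intro e; simp only [Function.comp, hπχ]; exact hχ e
      · intro J hJ
        have hb : ∀ (X : E → ZMod 2) v, bd (π ∘ s) (π ∘ t) X v =
            if v = t e0 then 0 else if v = s e0 then bd s t X (s e0) + bd s t X (t e0) else bd s t X v := by
          intro X v
          have hd : ∀ u, dl (π u) v = if v = t e0 then 0 else if v = s e0 then dl u (s e0) + dl u (t e0)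
              else dl u v := by
            intro u
            simp only [dl, π]
            by_cases h1 : u = t e0 <;> by_cases h2 : v = t e0 <;> by_cases h3 : v = s e0 <;>
              simp_all [eq_comm]
          simp only [bd, Function.comp, hd]
          split_ifs
          · simp
          · rw [← sum_add_distrib]; exact sum_congr rfl (fun e _ => by ring)
          · rfl
        have h1 : ∀ v, v ≠ t e0 → v ≠ s e0 → bd s t J v = bd s t F v := by
          intro v p q
          have := congrFun hJ v
          rwa [hb, hb, if_neg p, if_neg q, if_neg p, if_neg q] at this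
        have h2 : bd s t J (s e0) + bd s t J (t e0) = bd s t F (s e0) + bd s t F (t e0) := by
          have := congrFun hJ (s e0)
          rwa [hb, hb, if_neg hne, if_pos rfl, if_neg hne, if_pos rfl] at this
        by_cases h3 : bd s t J (s e0) = bd s t F (s e0)
        · apply hmin
          funext v
          by_cases p : v = t e0
          · rw [p]; rw [h3] at h2; exact add_left_cancel h2
          by_cases q : v = s e0
          · rw [q, h3]
          exact h1 v p q
        · rw [← len_zero_edge c J e0 hc0]
          apply hmin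
          rw [bd_add, bd_dl]
          funext v
          simp only [Pi.add_apply]
          revert h2 h3
          by_cases p : v = t e0
          · rw [p]
            simp only [dl, hne, if_false, if_true, zero_add]
            generalize bd s t J (s e0) = a1
            generalize bd s t J (t e0) = a2
            generalize bd s t F (s e0) = a3
            generalize bd s t F (t e0) = a4
            revert a1 a2 a3 a4; decide
          by_cases q : v = s e0
          · rw [q]
            simp only [dl, Ne.symm hne, if_false, if_true, add_zero]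
            generalize bd s t J (s e0) = a1
            generalize bd s t J (t e0) = a2
            generalize bd s t F (s e0) = a3
            generalize bd s t F (t e0) = a4
            revert a1 a2 a3 a4; decide
          intro _ _
          simp [dl, Ne.symm p, Ne.symm q, h1 v p q]
    have hpos : ∀ e, s e ≠ t e → 1 ≤ c e := by
      intro e he
      by_contra h
      exact hz ⟨e, he, by omega⟩
    obtain ⟨b, eb, feb, ieb, huniq, hmin'⟩ := reduce_step s t c χ F hχ hmin hpos hF
    have hnl : ∀ e, dl (s e) b + dl (t e) b = 1 → 1 ≤ c e := by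
      intro e he
      apply hpos
      intro h
      rw [h, z2add] at he
      exact absurd he (by decide)
    refine Exists.elim (ih s t (fun e => c e - (dl (s e) b + dl (t e) b).val) (χ + dl b) ?_ ?_ hmin')
      (fun f ⟨hf1, hf2⟩ => ?_)
    rotate_right
    · let σ : ℤ := if s eb = b then 1 else -1
      let g : V → ℤ := fun v => if v = b then σ else 0
      have hg : ∀ e, |g (s e) - g (t e)| = (dl (s e) b + dl (t e) b).val := by
        intro e
        simp only [g, dl, σ]
        by_cases p : s e = b <;> by_cases q : t e = b <;> by_cases r : s eb = b <;>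
          simp [p, q, r, ZMod.val_one, z2add]
      have hgb : g (s eb) - g (t eb) = 1 := by
        simp only [g, σ]
        by_cases p : s eb = b <;> by_cases q : t eb = b
        · simp only [dl, p, q, if_true] at ieb; exact absurd ieb (by decide)
        · simp [p, q]
        · simp [p, q]
        · simp [dl, p, q] at ieb
      refine ⟨fun e v => f e v + if e = eb then g v else 0, fun e he => ?_, fun e' => ?_⟩
      · have h1 := hf1 e he
        by_cases h : e = eb
        · subst h
          rw [ieb, ZMod.val_one, Nat.cast_sub (hnl e ieb)] at h1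
          simp only [if_true]
          push_cast at h1
          linarith
        · have h2 : dl (s e) b + dl (t e) b = 0 :=
            (z2 _).resolve_right (fun h3 => h (huniq e he h3))
          rw [h2] at h1
          simpa [h] using h1
      · have h1 := hf2 e'
        have h2 : ∑ e, |(f e (s e') + if e = eb then g (s e') else 0) - (f e (t e') + if e = eb then g (t e') else 0)|
            ≤ ∑ e, (|f e (s e') - f e (t e')| + if e = eb then |g (s e') - g (t e')| else 0) := by
          refine sum_le_sum (fun e _ => ?_)
          split_ifs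
          · rw [add_sub_add_comm]; exact abs_add_le _ _
          · simp
        rw [sum_add_distrib, sum_ite_eq', if_pos (mem_univ _), hg] at h2
        refine h2.trans ?_
        rcases z2 (dl (s e') b + dl (t e') b) with h | h
        · simpa [h] using h1
        · rw [h, ZMod.val_one, Nat.cast_sub (hnl e' h)] at h1
          rw [h, ZMod.val_one]
          push_cast at h1 ⊢
          linarith
    · have : ∑ e, (c e - (dl (s e) b + dl (t e) b).val) < ∑ e, c e := by
        refine sum_lt_sum (fun e _ => Nat.sub_le _ _) ⟨eb, mem_univ _, ?_⟩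
        have := hnl eb ieb
        rw [ieb, ZMod.val_one]; omega
      omega
    · intro e
      have h1 : ∀ u, dl b u = dl u b := fun u => by simp [dl, eq_comm]
      simp only [Pi.add_apply, h1]
      rcases z2 (dl (s e) b + dl (t e) b) with h | h
      · rw [h, ZMod.val_zero, Nat.sub_zero, hχ, add_add_add_comm, h, add_zero]
      · rw [h, ZMod.val_one, Nat.cast_sub (hnl e h), hχ, add_add_add_comm, h]
        generalize χ (s e) + χ (t e) = p
        revert p; decide

/-- Eulerian orientation of a closed edge set. -/
theorem orient : ∀ (n : ℕ) (s t : E → V) (C : E → ZMod 2),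
    (univ.filter (fun e => C e = 1)).card ≤ n → bd s t C = 0 →
    ∃ σ : E → ℝ, (∀ e, σ e = 1 ∨ σ e = -1) ∧
      ∀ g : V → ℝ, ∑ e, ((C e).val : ℝ) * σ e * (g (s e) - g (t e)) = 0 := by
  classical
  intro n
  induction n with
  | zero =>
    intro s t C hC _
    refine ⟨fun _ => 1, fun _ => Or.inl rfl, fun g => sum_eq_zero (fun e _ => ?_)⟩
    rcases z2 (C e) with h | h
    · simp [h]
    · have : e ∈ univ.filter (fun e => C e = 1) := by simp [h]
      rw [card_eq_zero.1 (Nat.le_zero.1 hC)] at this
      simp at this
  | succ n ih =>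
    intro s t C hcard hC
    by_cases hx : ∃ x, C x = 1 ∧ s x ≠ t x
    swap
    · push Not at hx
      refine ⟨fun _ => 1, fun _ => Or.inl rfl, fun g => sum_eq_zero (fun e _ => ?_)⟩
      rcases z2 (C e) with h | h
      · simp [h]
      · simp [hx e h]
    obtain ⟨x, cx, hx⟩ := hx
    have ix : dl (s x) (t x) + dl (t x) (t x) = 1 := by simp [dl, hx]
    have hy : ∃ y, x ≠ y ∧ C y = 1 ∧ dl (s y) (t x) + dl (t y) (t x) = 1 := by
      by_contra hno
      push Not at hno
      have h1 := congrFun hC (t x)
      unfold bd at h1
      rw [sum_eq_single x, cx, ix, Pi.zero_apply] at h1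
      · exact absurd h1 (by decide)
      · intro y _ hy
        rcases z2 (C y) with h | h
        · simp [h]
        rcases z2 (dl (s y) (t x) + dl (t y) (t x)) with h' | h'
        · simp [h']
        exact absurd h' (hno y (Ne.symm hy) h)
      · simp
    obtain ⟨y, hxy, cy, iy⟩ := hy
    let t' : E → V := Function.update t x (oth s t (t x) y)
    have hCx : (C + dl y) x = 1 := by simp [dl, Ne.symm hxy, cx]
    have hCy : (C + dl y) y = 0 := by simp only [Pi.add_apply, cy, dl, if_true]; decide
    have hCz : ∀ z, z ≠ y → (C + dl y) z = C z := fun z hz => by simp [dl, Ne.symm hz]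
    refine Exists.elim (ih s t' (C + dl y) ?_ ?_) (fun σ ⟨hσ, hg⟩ => ?_)
    rotate_right
    · let ρ : ℝ := if s y = t x then σ x else -σ x
      refine ⟨Function.update σ y ρ, fun e => ?_, fun g => ?_⟩
      · by_cases h : e = y
        · subst h
          rw [Function.update_self]
          simp only [ρ]
          rcases hσ x with p | p <;> split_ifs <;> simp [p]
        · rw [Function.update_of_ne h]; exact hσ e
      · have h1 := hg g
        have hyx : y ∈ univ.erase x := by simp [Ne.symm hxy]
        rw [← add_sum_erase _ _ (mem_univ x), ← add_sum_erase _ _ hyx] at h1 ⊢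
        have h2 : ∑ z ∈ (univ.erase x).erase y, ((C z).val : ℝ) * Function.update σ y ρ z * (g (s z) - g (t z))
            = ∑ z ∈ (univ.erase x).erase y, (((C + dl y) z).val : ℝ) * σ z * (g (s z) - g (t' z)) := by
          refine sum_congr rfl (fun z hz => ?_)
          have p := (mem_erase.1 hz).1
          have q := (mem_erase.1 (mem_erase.1 hz).2).1
          simp only [hCz z p, Function.update_of_ne p, t', Function.update_of_ne q]
        rw [h2, ← h1, hCx, hCy, cx, cy, Function.update_of_ne hxy, Function.update_self]
        simp only [t', Function.update_self, ρ, oth, ZMod.val_one, ZMod.val_zero]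
        by_cases p : s y = t x
        · simp only [p, if_true]; push_cast; ring
        · have q : t y = t x := by
            by_contra q
            simp [dl, p, q] at iy
          simp only [p, if_false, q]; push_cast; ring
    · have : univ.filter (fun z => (C + dl y) z = 1) ⊂ univ.filter (fun z => C z = 1) := by
        rw [ssubset_iff_of_subset]
        · refine ⟨y, by simp [cy], ?_⟩
          simp only [mem_filter, mem_univ, true_and, hCy]
          decide
        · intro z hz
          simp only [mem_filter, mem_univ, true_and] at hz ⊢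
          by_cases p : z = y
          · rwa [p]
          · rwa [hCz z p] at hz
      have := card_lt_card this
      omega
    · have h1 : bd s t' (C + dl y) = bd s t (C + dl y) + (dl (t x) + dl (oth s t (t x) y)) := by
        generalize C + dl y = C' at hCx
        funext v
        simp only [bd, Pi.add_apply]
        rw [← add_sum_erase _ _ (mem_univ x),
          ← add_sum_erase _ (fun e => C' e * (dl (s e) v + dl (t e) v)) (mem_univ x)]
        have h2 : ∑ z ∈ univ.erase x, C' z * (dl (s z) v + dl (t' z) v)
            = ∑ z ∈ univ.erase x, C' z * (dl (s z) v + dl (t z) v) :=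
          sum_congr rfl (fun z hz => by simp only [t', Function.update_of_ne (mem_erase.1 hz).1])
        rw [h2, hCx]
        simp only [t', Function.update_self]
        generalize dl (s x) v = a1
        generalize dl (t x) v = a2
        generalize dl (oth s t (t x) y) v = a3
        generalize ∑ z ∈ univ.erase x, C' z * (dl (s z) v + dl (t z) v) = a4
        revert a1 a2 a3 a4; decide
      rw [h1, bd_add, hC, zero_add, bd_dl, (oth_spec s t (t x) y iy).1, fadd]

end Pool.Agent.H28.TJoin
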