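import Mathlib

open MeasureTheory
open scoped ENNReal NNReal ComplexConjugate

noncomputable section

namespace Pool.Agent.H28.UAlg

variable {S : Type} [TopologicalSpace S]

/-- The standing hypotheses on the algebra `A ⊆ C(S)` (constants are in every `Subalgebra`):
closed, every continuous character is evaluation at exactly one point, and every element
invertible in `A` is an exponential of an element of `A`. -/
def Good (A : Subalgebra ℂ C(S, ℂ)) : Prop :=
  IsClosed (A : Set C(S, ℂ)) ∧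
  (∀ χ : A →ₐ[ℂ] ℂ, Continuous χ → ∃! s : S, ∀ f : A, χ f = (f : C(S, ℂ)) s) ∧
  (∀ f ∈ A, (∃ h ∈ A, f * h = 1) → ∃ g ∈ A, ∀ s, f s = Complex.exp (g s))

variable [MeasurableSpace S]

/-- Equivalence of measures with respect to `A`. -/
def Equiv (A : Subalgebra ℂ C(S, ℂ)) (μ ν : FiniteMeasure S) : Prop :=
  ∀ f ∈ A, ∫ s, f s ∂(μ : Measure S) = ∫ s, f s ∂(ν : Measure S)

/-- Measures absolutely continuous with respect to `μ` and equivalent to `μ`. -/
def E (A : Subalgebra ℂ C(S, ℂ)) (μ : FiniteMeasure S) : Set (FiniteMeasure S) :=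
  {ν | (ν : Measure S) ≪ (μ : Measure S) ∧ Equiv A μ ν}

/-- The closure of `E A μ` in the weak topology of finite measures. -/
def K [OpensMeasurableSpace S] (A : Subalgebra ℂ C(S, ℂ)) (μ : FiniteMeasure S) :
    Set (FiniteMeasure S) :=
  closure (E A μ)

open Classical in
/-- `∫ log |f| dμ ∈ [-∞, ∞]`, positive part minus negative part, with `log 0 = -∞`. -/
def logInt (μ : FiniteMeasure S) (f : C(S, ℂ)) : EReal :=
  ((∫⁻ s, ENNReal.ofReal (Real.log ‖f s‖) ∂(μ : Measure S) : ℝ≥0∞) : EReal) -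
    ((∫⁻ s, (if f s = 0 then ⊤ else ENNReal.ofReal (-Real.log ‖f s‖)) ∂(μ : Measure S) : ℝ≥0∞) :
      EReal)

/-- `σ` is a greatest element of `M` for the log-modulus order. -/
def Greatest (A : Subalgebra ℂ C(S, ℂ)) (M : Set (FiniteMeasure S)) (σ : FiniteMeasure S) :
    Prop :=
  σ ∈ M ∧ ∀ ν ∈ M, ∀ f ∈ A, logInt ν f ≤ logInt σ f

/-- The functions `f + conj g`, `f, g ∈ A`, are norm dense in `L¹(μ)`. -/
def L1Dense (A : Subalgebra ℂ C(S, ℂ)) (μ : FiniteMeasure S) : Prop :=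
  ∀ F : S → ℂ, Integrable F (μ : Measure S) → ∀ ε : ℝ, 0 < ε →
    ∃ f ∈ A, ∃ g ∈ A, ∫ s, ‖F s - (f s + conj (g s))‖ ∂(μ : Measure S) < ε

/-- The closure of `{f + conj g : f, g ∈ A}` in `L^∞(μ)` for the topology `σ(L^∞, L¹)`. -/
def WkClosure (A : Subalgebra ℂ C(S, ℂ)) (μ : FiniteMeasure S) :
    Set (Lp ℂ ⊤ (μ : Measure S)) :=
  {h | ∀ (m : ℕ) (k : Fin m → S → ℂ), (∀ j, Integrable (k j) (μ : Measure S)) →
    ∀ ε : ℝ, 0 < ε → ∃ f ∈ A, ∃ g ∈ A, ∀ j,
      ‖∫ s, (h s - (f s + conj (g s))) * k j s ∂(μ : Measure S)‖ < ε}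

end Pool.Agent.H28.UAlg
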