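import Mathlib
import Pool.Agent.H28.UAlgDefs

open MeasureTheory Filter Topology
open scoped ENNReal NNReal ComplexConjugate

noncomputable section

namespace Pool.Agent.H28.UAlg

abbrev D := Metric.closedBall (0 : ℂ) 1

abbrev PD (ι : Type) := ι → D

variable {ι : Type}

lemma D_norm (z : D) : ‖(z : ℂ)‖ ≤ 1 := mem_closedBall_zero_iff.1 z.2

def coord (n : ι) : C(PD ι, ℂ) := ⟨fun s => (s n : ℂ), by fun_prop⟩

def Poly (ι : Type) : Subalgebra ℂ C(PD ι, ℂ) := Algebra.adjoin ℂ (Set.range (coord (ι := ι)))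

def Alg (ι : Type) : Subalgebra ℂ C(PD ι, ℂ) := (Poly ι).topologicalClosure

lemma coord_mem (n : ι) : coord n ∈ Alg ι :=
  (Poly ι).le_topologicalClosure (Algebra.subset_adjoin ⟨n, rfl⟩)

lemma Alg_closed : IsClosed (Alg ι : Set C(PD ι, ℂ)) := (Poly ι).isClosed_topologicalClosure

lemma Alg_le (B : Subalgebra ℂ C(PD ι, ℂ)) (hB : IsClosed (B : Set C(PD ι, ℂ)))
    (h : ∀ n, coord n ∈ B) : Alg ι ≤ B :=
  Subalgebra.topologicalClosure_minimal
    (Algebra.adjoin_le (by rintro _ ⟨n, rfl⟩; exact h n)) hB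

lemma char_eq (χ : Alg ι →ₐ[ℂ] ℂ) (hχ : Continuous χ) :
    ∃! s : PD ι, ∀ f : Alg ι, χ f = (f : C(PD ι, ℂ)) s := by
  haveI : CompleteSpace (Alg ι) := Alg_closed.completeSpace_coe
  have hn : ∀ n, ‖χ ⟨coord n, coord_mem n⟩‖ ≤ 1 := by
    intro n
    refine (AlgHom.norm_apply_le_self_mul_norm_one χ _).trans ?_
    have h1 : ‖(⟨coord n, coord_mem n⟩ : Alg ι)‖ ≤ 1 :=
      (ContinuousMap.norm_le _ zero_le_one).2 fun s => D_norm _
    have h2 : ‖(1 : Alg ι)‖ ≤ 1 :=
      (ContinuousMap.norm_le _ zero_le_one).2 fun s => by simp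
    exact mul_le_one₀ h1 (norm_nonneg _) h2
  set s : PD ι := fun n => ⟨χ ⟨coord n, coord_mem n⟩, by simpa using hn n⟩ with hs
  refine ⟨s, ?_, fun t ht => ?_⟩
  · let ev : Alg ι →ₐ[ℂ] ℂ := (ContinuousMap.evalAlgHom ℂ ℂ s).comp (Alg ι).val
    let B : Subalgebra ℂ C(PD ι, ℂ) := (AlgHom.equalizer χ ev).map (Alg ι).val
    have hB : IsClosed (B : Set C(PD ι, ℂ)) := by
      refine Alg_closed.isClosedEmbedding_subtypeVal.isClosedMap _ ?_
      refine isClosed_eq hχ ?_
      exact (continuous_eval_const s).comp continuous_subtype_val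
    have := Alg_le B hB fun n => ⟨⟨coord n, coord_mem n⟩, rfl, rfl⟩
    intro f
    obtain ⟨g, hg, hgf⟩ := this f.2
    obtain rfl : g = f := Subtype.ext hgf
    exact hg
  · funext n
    exact Subtype.ext (ht ⟨coord n, coord_mem n⟩).symm

lemma near_one (u : C(PD ι, ℂ)) (hu : u ∈ Alg ι) (h : ‖1 - u‖ < 1) :
    ∃ g ∈ Alg ι, ∀ s, u s = Complex.exp (g s) := by
  set v := 1 - u with hv
  have hvm : v ∈ Alg ι := (Alg ι).sub_mem (Alg ι).one_mem hu
  have hs : Summable fun n : ℕ => ((n : ℂ)⁻¹) • v ^ n := by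
    refine Summable.of_norm_bounded (summable_geometric_of_lt_one (norm_nonneg v) h) fun n => ?_
    rw [norm_smul]
    have h1 : ‖(n : ℂ)⁻¹‖ ≤ 1 := by
      rw [norm_inv, Complex.norm_natCast]
      exact Nat.cast_inv_le_one n
    have h2 : ‖v ^ n‖ ≤ ‖v‖ ^ n := by
      refine (ContinuousMap.norm_le _ (by positivity)).2 fun s => ?_
      rw [ContinuousMap.pow_apply, norm_pow]
      exact pow_le_pow_left₀ (norm_nonneg _) (v.norm_coe_le_norm s) n
    calc _ ≤ 1 * ‖v‖ ^ n := mul_le_mul h1 h2 (norm_nonneg _) zero_le_one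
      _ = _ := one_mul _
  have hmem : (∑' n : ℕ, ((n : ℂ)⁻¹) • v ^ n) ∈ Alg ι := by
    refine Alg_closed.mem_of_tendsto hs.hasSum (Eventually.of_forall fun t => ?_)
    exact (Alg ι).sum_mem fun n _ => (Alg ι).smul_mem ((Alg ι).pow_mem hvm n) _
  refine ⟨-∑' n : ℕ, ((n : ℂ)⁻¹) • v ^ n, (Alg ι).neg_mem hmem, fun s => ?_⟩
  have hvs : ‖v s‖ < 1 := (v.norm_coe_le_norm s).trans_lt h
  have h1 := Complex.hasSum_taylorSeries_neg_log hvs
  have h2 := hs.hasSum.mapL (ContinuousMap.evalCLM ℂ s)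
  have h3 : (∑' n : ℕ, ((n : ℂ)⁻¹) • v ^ n) s = -Complex.log (1 - v s) := by
    refine HasSum.unique ?_ h1
    have e : (fun n : ℕ => v s ^ n / (n : ℂ)) =
        fun b : ℕ => (ContinuousMap.evalCLM ℂ s) (((b : ℂ)⁻¹) • v ^ b) := by
      funext n
      simp [div_eq_inv_mul]
    rw [e]
    exact h2
  have h4 : 1 - v s = u s := by simp [hv]
  have h5 : u s ≠ 0 := by
    intro h0
    rw [← h4, sub_eq_zero] at h0
    rw [← h0] at hvs
    simp at hvs
  rw [ContinuousMap.neg_apply, h3, neg_neg, h4, Complex.exp_log h5]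

def scal : C(unitInterval × PD ι, PD ι) :=
  ⟨fun p n => ⟨((p.1 : ℝ) : ℂ) * (p.2 n : ℂ), by
      have h1 := D_norm (p.2 n)
      have h2 : ‖((p.1 : ℝ) : ℂ)‖ ≤ 1 := by
        rw [Complex.norm_real, Real.norm_of_nonneg p.1.2.1]; exact p.1.2.2
      simpa using mul_le_one₀ h2 (norm_nonneg _) h1⟩,
    continuous_pi fun n => Continuous.subtype_mk (by fun_prop) _⟩

def dil (f : C(PD ι, ℂ)) : C(unitInterval, C(PD ι, ℂ)) := (f.comp scal).curry

lemma dil_mem (f : C(PD ι, ℂ)) (hf : f ∈ Alg ι) (t : unitInterval) : dil f t ∈ Alg ι := by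
  let φ := ContinuousMap.compRightAlgHom ℂ ℂ ((scal (ι := ι)).curry t)
  have h := Alg_le ((Alg ι).comap φ)
    (Alg_closed.preimage (ContinuousMap.continuous_precomp _)) fun n => by
      have : φ (coord n) = ((t : ℝ) : ℂ) • coord n := by
        ext s; rfl
      rw [Subalgebra.mem_comap, this]
      exact (Alg ι).smul_mem (coord_mem n) _
  exact h hf

lemma good : Good (Alg ι) := by
  refine ⟨Alg_closed, char_eq, ?_⟩
  rintro f hf ⟨h, hh, hfh⟩
  have hmul : ∀ t s, dil f t s * dil h t s = 1 := fun t s =>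
    congrArg (fun F : C(PD ι, ℂ) => F (scal (t, s))) hfh
  have key := PreconnectedSpace.induction₂' (α := unitInterval)
    (fun x y => ∃ g ∈ Alg ι, ∀ s, dil f y s = dil f x s * Complex.exp (g s)) (fun x => by
      have c1 : Continuous fun y => ‖1 - dil f y * dil h x‖ := by fun_prop
      have c2 : Continuous fun y => ‖1 - dil f x * dil h y‖ := by fun_prop
      have e0 : ‖1 - dil f x * dil h x‖ < 1 := by
        have : dil f x * dil h x = 1 := by ext s; exact hmul x s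
        simp [this]
      filter_upwards [(c1.tendsto x).eventually (gt_mem_nhds e0),
        (c2.tendsto x).eventually (gt_mem_nhds e0)] with y h1 h2
      obtain ⟨g1, hg1, e1⟩ := near_one _ ((Alg ι).mul_mem (dil_mem f hf y) (dil_mem h hh x)) h1
      obtain ⟨g2, hg2, e2⟩ := near_one _ ((Alg ι).mul_mem (dil_mem f hf x) (dil_mem h hh y)) h2
      refine ⟨⟨g1, hg1, fun s => ?_⟩, ⟨g2, hg2, fun s => ?_⟩⟩
      · rw [← e1, ContinuousMap.mul_apply]
        linear_combination (-(dil f y s)) * hmul x s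
      · rw [← e2, ContinuousMap.mul_apply]
        linear_combination (-(dil f x s)) * hmul y s)
    ⟨by
      rintro x y z ⟨g1, hg1, e1⟩ ⟨g2, hg2, e2⟩
      refine ⟨g1 + g2, (Alg ι).add_mem hg1 hg2, fun s => ?_⟩
      rw [e2, e1, ContinuousMap.add_apply, Complex.exp_add, mul_assoc]⟩ 0 1
  obtain ⟨g, hg, e⟩ := key
  set o : PD ι := fun _ => ⟨0, by simp⟩
  have h0 : ∀ s, dil f 0 s = f o := fun s => by
    change f (scal (0, s)) = f o
    congr 1
    funext n
    apply Subtype.ext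
    simp [scal, o]
  have h1 : ∀ s, dil f 1 s = f s := fun s => by
    change f (scal (1, s)) = f s
    congr 1
    funext n
    apply Subtype.ext
    simp [scal]
  have hne : f o ≠ 0 := by
    have := hmul 0 o
    rw [h0] at this
    exact left_ne_zero_of_mul_eq_one this
  refine ⟨algebraMap ℂ _ (Complex.log (f o)) + g, (Alg ι).add_mem ((Alg ι).algebraMap_mem _) hg,
    fun s => ?_⟩
  rw [← h1, e, h0, ContinuousMap.add_apply, Complex.exp_add]
  simp [Complex.exp_log hne]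

end Pool.Agent.H28.UAlg
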