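import Mathlib
import Pool.Agent.H28.UAlg

open MeasureTheory Filter Topology
open scoped ENNReal NNReal ComplexConjugate

noncomputable section

namespace Pool.Agent.H28.UAlg

abbrev T1 := AddCircle (1 : ℝ)

abbrev m : Measure T1 := AddCircle.haarAddCircle

variable {ι : Type} [DecidableEq ι]

def o (ι : Type) : PD ι := fun _ => ⟨0, by simp⟩

def ax (n : ι) (z : D) : PD ι := fun j => if j = n then z else ⟨0, by simp⟩

lemma norm_f1 (θ : T1) : ‖fourier 1 θ‖ = 1 := by
  rw [fourier_apply]; exact Circle.norm_coe _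

def circ (θ : T1) : D := ⟨fourier 1 θ, mem_closedBall_zero_iff.2 (norm_f1 θ).le⟩

def e (n : ι) : C(T1, PD ι) :=
  ⟨fun θ => ax n (circ θ), continuous_pi fun j => by
    unfold ax
    split_ifs
    · exact Continuous.subtype_mk (fourier 1).continuous _
    · exact continuous_const⟩

lemma e_self (n : ι) (θ : T1) : (e n θ n : ℂ) = fourier 1 θ := by
  simp only [e, ax, ContinuousMap.coe_mk, if_true, circ]

lemma e_ne {n j : ι} (h : j ≠ n) (θ : T1) : (e n θ j : ℂ) = 0 := by
  simp only [e, ax, ContinuousMap.coe_mk, h, if_false]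

lemma f1_inj : Function.Injective (fun θ : T1 => fourier 1 θ) := by
  intro x y h
  simp only [fourier_one] at h
  exact AddCircle.injective_toCircle one_ne_zero (Subtype.ext h)

lemma e_inj (n : ι) : Function.Injective (e n) := fun x y h => f1_inj <| by
  simp only [← e_self n, h]

lemma e_disj : Pairwise (Function.onFun Disjoint fun n : ι => Set.range (e n)) := by
  intro i j hij
  rw [Function.onFun, Set.disjoint_left]
  rintro _ ⟨x, rfl⟩ ⟨y, hy⟩
  have h1 := e_self i x
  rw [← hy, e_ne hij] at h1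
  have := norm_f1 x
  rw [← h1] at this
  simp at this

lemma mean_fourier (k : ℤ) (hk : k ≠ 0) : ∫ θ, fourier k θ ∂m = 0 :=
  integral_eq_zero_of_add_right_eq_neg (μ := m) (fourier_add_half_inv_index hk one_pos)

lemma cint {X E : Type*} [TopologicalSpace X] [CompactSpace X] [MeasurableSpace X]
    [OpensMeasurableSpace X] [NormedAddCommGroup E] [SecondCountableTopology E]
    (μ : Measure X) [IsFiniteMeasure μ] {f : X → E} (hf : Continuous f) : Integrable f μ :=
  hf.integrable_of_hasCompactSupport (HasCompactSupport.of_compactSpace _)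

def intL {X : Type*} [TopologicalSpace X] [CompactSpace X] [MeasurableSpace X]
    [OpensMeasurableSpace X] (μ : Measure X) [IsFiniteMeasure μ] : C(X, ℂ) →L[ℂ] ℂ :=
  LinearMap.mkContinuous
    { toFun := fun f => ∫ x, f x ∂μ
      map_add' := fun f g => integral_add (cint μ f.continuous) (cint μ g.continuous)
      map_smul' := fun c f => integral_smul c _ } (μ.real Set.univ) fun f => by
    rw [mul_comm]
    exact norm_integral_le_of_norm_le_const (Eventually.of_forall f.norm_coe_le_norm)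

lemma intL_apply {X : Type*} [TopologicalSpace X] [CompactSpace X] [MeasurableSpace X]
    [OpensMeasurableSpace X] (μ : Measure X) [IsFiniteMeasure μ] (f : C(X, ℂ)) :
    intL μ f = ∫ x, f x ∂μ := rfl

lemma f1_pow (k : ℕ) (θ : T1) : fourier 1 θ ^ k = fourier k θ := by
  induction k with
  | zero => simp
  | succ k ih => rw [pow_succ, ih, ← fourier_add]; push_cast; rfl

lemma mean_A (n : ι) (f : C(PD ι, ℂ)) (hf : f ∈ Alg ι) : ∫ θ, f (e n θ) ∂m = f (o ι) := by
  have hp : ∀ f ∈ Poly ι, ∃ p : Polynomial ℂ, ∀ z : D, f (ax n z) = p.eval (z : ℂ) := by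
    intro f hf
    induction hf using Algebra.adjoin_induction with
    | mem x hx =>
      obtain ⟨j, rfl⟩ := hx
      by_cases h : j = n
      · exact ⟨Polynomial.X, fun z => by simp [coord, ax, h]⟩
      · exact ⟨0, fun z => by simp [coord, ax, h]⟩
    | algebraMap r => exact ⟨Polynomial.C r, fun z => by simp⟩
    | add x y _ _ hx hy =>
      obtain ⟨p, hp⟩ := hx
      obtain ⟨q, hq⟩ := hy
      exact ⟨p + q, fun z => by simp [hp, hq]⟩
    | mul x y _ _ hx hy =>
      obtain ⟨p, hp⟩ := hx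
      obtain ⟨q, hq⟩ := hy
      exact ⟨p * q, fun z => by simp [hp, hq]⟩
  have hq : ∀ p : Polynomial ℂ, ∫ θ, p.eval (fourier 1 θ) ∂m = p.eval 0 := by
    intro p
    induction p using Polynomial.induction_on' with
    | add p q hp hq =>
      simp only [Polynomial.eval_add]
      rw [integral_add (cint m (by fun_prop)) (cint m (by fun_prop)), hp, hq]
    | monomial k a =>
      simp only [Polynomial.eval_monomial, f1_pow]
      rw [integral_const_mul]
      rcases Nat.eq_zero_or_pos k with rfl | hk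
      · simp
      · rw [mean_fourier _ (by exact_mod_cast hk.ne'), zero_pow hk.ne']
  have hcl : IsClosed {f : C(PD ι, ℂ) | intL m (f.comp (e n)) = f (o ι)} :=
    isClosed_eq ((intL m).continuous.comp (ContinuousMap.continuous_precomp _))
      (continuous_eval_const _)
  refine closure_minimal (s := (Poly ι : Set C(PD ι, ℂ))) (fun g hg => ?_) hcl hf
  obtain ⟨p, hp⟩ := hp g hg
  have h0 : o ι = ax n ⟨0, by simp⟩ := by
    funext j
    simp [o, ax]
  change ∫ θ, g (ax n (circ θ)) ∂m = g (o ι)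
  rw [h0, hp]
  simp only [hp]
  exact hq p

def Z : Submodule ℂ C(T1, ℂ) := Submodule.span ℂ {φ | ∃ k : ℤ, k ≠ 0 ∧ φ = fourier k}

lemma mem_closure_Z (φ : C(T1, ℂ)) :
    φ - (∫ θ, φ θ ∂m) • (1 : C(T1, ℂ)) ∈ closure (Z : Set C(T1, ℂ)) := by
  let P : C(T1, ℂ) →L[ℂ] C(T1, ℂ) :=
    ContinuousLinearMap.id ℂ _ - (intL m).smulRight (1 : C(T1, ℂ))
  have h1 : φ ∈ closure (Submodule.span ℂ (Set.range (@fourier (1 : ℝ))) : Set C(T1, ℂ)) := by
    rw [← Submodule.topologicalClosure_coe, span_fourier_closure_eq_top]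
    trivial
  refine map_mem_closure (f := P) P.continuous h1 fun ψ hψ => ?_
  have : Submodule.span ℂ (Set.range (@fourier (1 : ℝ))) ≤ Z.comap (P : C(T1, ℂ) →ₗ[ℂ] _) := by
    rw [Submodule.span_le]
    rintro _ ⟨k, rfl⟩
    change fourier k - (∫ θ, fourier k θ ∂m) • (1 : C(T1, ℂ)) ∈ Z
    by_cases hk : k = 0
    · subst hk
      have : fourier 0 - (∫ θ, fourier 0 θ ∂m) • (1 : C(T1, ℂ)) = 0 := by
        ext θ; simp
      rw [this]
      exact Z.zero_mem
    · have : fourier k - (∫ θ, fourier k θ ∂m) • (1 : C(T1, ℂ)) = fourier k := by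
        ext θ
        rw [mean_fourier k hk]
        simp only [ContinuousMap.sub_apply, ContinuousMap.smul_apply, smul_eq_mul, zero_mul,
          sub_zero]
      rw [this]
      exact Submodule.subset_span ⟨k, hk, rfl⟩
  exact this hψ

lemma lift_Z (n : ι) (p : C(T1, ℂ)) (hp : p ∈ Z) :
    ∃ f ∈ Alg ι, ∃ g ∈ Alg ι, (∀ θ, f (e n θ) + conj (g (e n θ)) = p θ) ∧
      ∀ j, j ≠ n → ∀ θ, f (e j θ) + conj (g (e j θ)) = 0 := by
  induction hp using Submodule.span_induction with
  | mem x hx =>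
    obtain ⟨k, hk, rfl⟩ := hx
    obtain ⟨l, rfl | rfl⟩ := Int.eq_nat_or_neg k
    · have hl : l ≠ 0 := by exact_mod_cast hk
      refine ⟨coord n ^ l, (Alg ι).pow_mem (coord_mem n) l, 0, (Alg ι).zero_mem, fun θ => ?_,
        fun j hj θ => ?_⟩
      · simp only [ContinuousMap.pow_apply, coord, ContinuousMap.coe_mk, e_self, f1_pow]
        simp
      · simp only [ContinuousMap.pow_apply, coord, ContinuousMap.coe_mk, e_ne hj.symm]
        simp [hl]
    · have hl : l ≠ 0 := by
        rintro rfl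
        simp at hk
      refine ⟨0, (Alg ι).zero_mem, coord n ^ l, (Alg ι).pow_mem (coord_mem n) l, fun θ => ?_,
        fun j hj θ => ?_⟩
      · simp only [ContinuousMap.pow_apply, coord, ContinuousMap.coe_mk, e_self, f1_pow]
        rw [fourier_neg, ContinuousMap.zero_apply, zero_add]
      · simp only [ContinuousMap.pow_apply, coord, ContinuousMap.coe_mk, e_ne hj.symm]
        simp [hl]
  | zero => exact ⟨0, (Alg ι).zero_mem, 0, (Alg ι).zero_mem, by simp, by simp⟩
  | add x y _ _ hx hy =>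
    obtain ⟨f, hf, g, hg, h1, h2⟩ := hx
    obtain ⟨f', hf', g', hg', h1', h2'⟩ := hy
    refine ⟨f + f', (Alg ι).add_mem hf hf', g + g', (Alg ι).add_mem hg hg', fun θ => ?_,
      fun j hj θ => ?_⟩
    · simp only [ContinuousMap.add_apply, map_add]
      linear_combination h1 θ + h1' θ
    · simp only [ContinuousMap.add_apply, map_add]
      linear_combination h2 j hj θ + h2' j hj θ
  | smul a x _ hx =>
    obtain ⟨f, hf, g, hg, h1, h2⟩ := hx
    refine ⟨a • f, (Alg ι).smul_mem hf _, conj a • g, (Alg ι).smul_mem hg _, fun θ => ?_,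
      fun j hj θ => ?_⟩
    · simp only [ContinuousMap.smul_apply, smul_eq_mul, map_mul, Complex.conj_conj]
      linear_combination a * h1 θ
    · simp only [ContinuousMap.smul_apply, smul_eq_mul, map_mul, Complex.conj_conj]
      linear_combination a * h2 j hj θ

variable [Countable ι]

lemma e_emb (n : ι) : MeasurableEmbedding (e n) :=
  ((e n).continuous.isClosedEmbedding (e_inj n)).measurableEmbedding

def glue (μ : ι → Measure T1) : Measure (PD ι) := Measure.sum fun n => (μ n).map (e n)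

lemma hasSum_glue {E : Type*} [NormedAddCommGroup E] [NormedSpace ℝ E] (μ : ι → Measure T1)
    (F : PD ι → E) (hF : Integrable F (glue μ)) :
    HasSum (fun n => ∫ θ, F (e n θ) ∂μ n) (∫ s, F s ∂glue μ) := by
  have := hasSum_integral_measure hF
  simp only [(e_emb _).integral_map] at this
  exact this

lemma integral_glue_single {E : Type*} [NormedAddCommGroup E] [NormedSpace ℝ E]
    (μ : ι → Measure T1) (F : PD ι → E) (hF : Integrable F (glue μ)) (n : ι)
    (h : ∀ j, j ≠ n → ∀ θ, F (e j θ) = 0) : ∫ s, F s ∂glue μ = ∫ θ, F (e n θ) ∂μ n := by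
  refine (hasSum_glue μ F hF).unique (hasSum_single n fun j hj => ?_)
  simp [h j hj]

lemma ae_glue (μ : ι → Measure T1) (P : PD ι → Prop) :
    (∀ᵐ s ∂glue μ, P s) ↔ ∀ n, ∀ᵐ θ ∂μ n, P (e n θ) := by
  unfold glue
  rw [Measure.ae_sum_iff]
  simp only [(e_emb _).ae_map_iff]

lemma finite_comp (μ : ι → Measure T1) [IsFiniteMeasure (glue μ)] (n : ι) :
    IsFiniteMeasure (μ n) := by
  constructor
  have h1 : (μ n).map (e n) ≤ glue μ := Measure.le_sum (fun n => (μ n).map (e n)) n
  have h2 := (h1 Set.univ).trans_lt (measure_lt_top _ _)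
  rwa [(e_emb n).map_apply, Set.preimage_univ] at h2

lemma decomp (μ : ι → Measure T1) (ν : Measure (PD ι)) (h : ν ≪ glue μ) :
    ν = glue fun n => ν.comap (e n) := by
  have h1 : ∀ᵐ s ∂ν, s ∈ ⋃ n : ι, Set.range (e n) :=
    h.ae_le ((ae_glue μ _).2 fun n => Eventually.of_forall fun θ => Set.mem_iUnion.2 ⟨n, θ, rfl⟩)
  unfold glue
  simp only [(e_emb _).map_comap]
  rw [← Measure.restrict_iUnion e_disj fun n => (e_emb n).measurableSet_range,
    Measure.restrict_eq_self_of_ae_mem h1]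

lemma compare (μ ν : ι → Measure T1) [IsFiniteMeasure (glue μ)] [IsFiniteMeasure (glue ν)]
    (h : ∀ f ∈ Alg ι, ∫ s, f s ∂glue μ = ∫ s, f s ∂glue ν) (n : ι) (φ : C(T1, ℂ)) :
    ∫ θ, φ θ ∂ν n - ∫ θ, φ θ ∂μ n =
      (((ν n).real Set.univ - (μ n).real Set.univ : ℝ) : ℂ) * ∫ θ, φ θ ∂m := by
  haveI := finite_comp μ n
  haveI := finite_comp ν n
  have hZ : ∀ p ∈ closure (Z : Set C(T1, ℂ)), intL (ν n) p = intL (μ n) p := by
    intro p hp
    refine closure_minimal (fun p hp => ?_)
      (isClosed_eq (intL (ν n)).continuous (intL (μ n)).continuous) hp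
    obtain ⟨f, hf, g, hg, h1, h2⟩ := lift_Z n p hp
    have c : Continuous fun s => f s + conj (g s) := by fun_prop
    have e1 := integral_glue_single μ _ (cint _ c) n h2
    have e2 := integral_glue_single ν _ (cint _ c) n h2
    simp only [h1] at e1 e2
    change ∫ θ, p θ ∂ν n = ∫ θ, p θ ∂μ n
    rw [← e1, ← e2, integral_add (cint _ f.continuous) (cint _ (by fun_prop)),
      integral_add (cint _ f.continuous) (cint _ (by fun_prop)), integral_conj, integral_conj,
      h f hf, h g hg]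
  have := hZ _ (mem_closure_Z φ)
  simp only [map_sub, map_smul, intL_apply, ContinuousMap.one_apply, integral_const,
    smul_eq_mul, Complex.real_smul, mul_one] at this
  push_cast
  linear_combination this

lemma compare_real (μ ν : ι → Measure T1) [IsFiniteMeasure (glue μ)] [IsFiniteMeasure (glue ν)]
    (h : ∀ f ∈ Alg ι, ∫ s, f s ∂glue μ = ∫ s, f s ∂glue ν) (n : ι) (φ : T1 → ℝ)
    (hφ : Continuous φ) :
    ∫ θ, φ θ ∂ν n - ∫ θ, φ θ ∂μ n =
      ((ν n).real Set.univ - (μ n).real Set.univ) * ∫ θ, φ θ ∂m := by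
  have := compare μ ν h n ⟨fun θ => (φ θ : ℂ), by fun_prop⟩
  simp only [ContinuousMap.coe_mk, integral_complex_ofReal] at this
  exact_mod_cast this

def W (θ : T1) : ℝ≥0 := ‖1 - fourier 1 θ‖₊

lemma W_cont : Continuous W := by unfold W; fun_prop

lemma W_le (θ : T1) : (W θ : ℝ) ≤ 2 := by
  have := norm_sub_le (1 : ℂ) (fourier 1 θ)
  rw [norm_f1, norm_one] at this
  simp only [W, coe_nnnorm]
  linarith

lemma W_ae : ∀ᵐ θ ∂m, W θ ≠ 0 := by
  have h0 : m {0} = 0 := by
    have : (volume : Measure T1) {0} = 0 := by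
      have := AddCircle.volume_closedBall (T := (1 : ℝ)) (x := 0) 0
      simpa using this
    rw [AddCircle.volume_eq_smul_haarAddCircle] at this
    simpa using this
  have : ∀ᵐ θ ∂m, θ ≠ 0 := by
    rw [ae_iff]
    simpa using h0
  filter_upwards [this] with θ hθ h
  apply hθ
  apply f1_inj
  simp only [W, nnnorm_eq_zero, sub_eq_zero] at h
  simp only [← h]
  simp

def wm (a : ℝ≥0) : Measure T1 := m.withDensity fun θ => ((a * W θ : ℝ≥0) : ℝ≥0∞)

lemma integral_wm {E : Type*} [NormedAddCommGroup E] [NormedSpace ℝ E] (a : ℝ≥0) (g : T1 → E) :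
    ∫ θ, g θ ∂wm a = ∫ θ, ((a : ℝ) * (W θ : ℝ)) • g θ ∂m :=
  integral_withDensity_eq_integral_smul (W_cont.measurable.const_mul a) g

lemma wm_univ (a : ℝ≥0) : wm a Set.univ ≤ 2 * a := by
  unfold wm
  rw [withDensity_apply _ MeasurableSet.univ, Measure.restrict_univ]
  refine (lintegral_mono (g := fun _ => 2 * (a : ℝ≥0∞)) fun θ => ?_).trans (by simp)
  have : a * W θ ≤ 2 * a := by
    rw [mul_comm 2 a]
    exact mul_le_mul_of_nonneg_left (by exact_mod_cast W_le θ) zero_le
  change ((a * W θ : ℝ≥0) : ℝ≥0∞) ≤ 2 * (a : ℝ≥0∞)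
  exact_mod_cast this

instance (a : ℝ≥0) : IsFiniteMeasure (wm a) :=
  ⟨(wm_univ a).trans_lt (ENNReal.mul_lt_top (by simp) (by simp))⟩

lemma bump (δ : ℝ) (hδ : 0 < δ) : ∃ ψ : T1 → ℝ, Continuous ψ ∧ (∀ θ, 0 ≤ ψ θ) ∧
    ∫ θ, ψ θ ∂m = 1 ∧ ∫ θ, (W θ : ℝ) * ψ θ ∂m ≤ δ := by
  have hc : Continuous fun θ => max 0 (δ - (W θ : ℝ)) := by
    have := W_cont
    fun_prop
  have hpos : 0 < ∫ θ, max 0 (δ - (W θ : ℝ)) ∂m := by
    refine hc.integral_pos_of_hasCompactSupport_nonneg_nonzero (HasCompactSupport.of_compactSpace _)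
      (fun θ => le_max_left _ _) (x := 0) ?_
    have : W 0 = 0 := by simp [W]
    rw [this]
    simpa using hδ
  set c := ∫ θ, max 0 (δ - (W θ : ℝ)) ∂m with hcdef
  refine ⟨fun θ => c⁻¹ * max 0 (δ - (W θ : ℝ)), by fun_prop, fun θ => by positivity, ?_, ?_⟩
  · rw [integral_const_mul, inv_mul_cancel₀ hpos.ne']
  · have hW := W_cont
    calc _ ≤ ∫ θ, δ * (c⁻¹ * max 0 (δ - (W θ : ℝ))) ∂m := by
          refine integral_mono (cint _ (by fun_prop)) (cint _ (by fun_prop)) fun θ => ?_
          rcases le_total (δ - (W θ : ℝ)) 0 with h | h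
          · simp [max_eq_left h]
          · exact mul_le_mul_of_nonneg_right (by linarith) (by positivity)
      _ = δ := by rw [integral_const_mul, integral_const_mul, inv_mul_cancel₀ hpos.ne', mul_one]

lemma nonneg_of_thin (a : ℝ≥0) (ν : Measure T1) (c : ℝ)
    (h : ∀ φ : T1 → ℝ, Continuous φ → ∫ θ, φ θ ∂ν - ∫ θ, φ θ ∂wm a = c * ∫ θ, φ θ ∂m) :
    0 ≤ c := by
  refine le_of_forall_pos_le_add fun ε hε => ?_
  obtain ⟨ψ, h1, h2, h3, h4⟩ := bump (ε / (a + 1)) (by positivity)
  have := h ψ h1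
  rw [h3, integral_wm, mul_one] at this
  simp only [smul_eq_mul, mul_assoc, integral_const_mul] at this
  have h5 : 0 ≤ ∫ θ, ψ θ ∂ν := integral_nonneg h2
  have h6 : (a : ℝ) * ∫ θ, (W θ : ℝ) * ψ θ ∂m ≤ ε := by
    refine (mul_le_mul_of_nonneg_left h4 a.2).trans ?_
    rw [← mul_div_assoc, div_le_iff₀ (by positivity)]
    change (a : ℝ) * ε ≤ ε * ((a : ℝ) + 1)
    nlinarith
  linarith

lemma unique_equiv (a : ι → ℝ≥0) [IsFiniteMeasure (glue fun n => wm (a n))]
    (ν : Measure (PD ι)) [IsFiniteMeasure ν] (hac : ν ≪ glue fun n => wm (a n))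
    (h : ∀ f ∈ Alg ι, ∫ s, f s ∂(glue fun n => wm (a n)) = ∫ s, f s ∂ν) :
    ν = glue fun n => wm (a n) := by
  have hd := decomp _ ν hac
  set ν' := fun n => ν.comap (e n) with hν'
  haveI : IsFiniteMeasure (glue ν') := hd ▸ inferInstance
  rw [hd] at h
  have hc := compare_real _ ν' h
  have h0 : ∀ n, 0 ≤ (ν' n).real Set.univ - (wm (a n)).real Set.univ := fun n =>
    nonneg_of_thin (a n) (ν' n) _ (hc n)
  have s1 := hasSum_glue ν' (fun _ => (1 : ℝ)) (integrable_const _)
  have s2 := hasSum_glue (fun n => wm (a n)) (fun _ => (1 : ℝ)) (integrable_const _)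
  have h1 := h 1 (Alg ι).one_mem
  simp only [ContinuousMap.one_apply, integral_const, Complex.real_smul, mul_one,
    Complex.ofReal_inj, smul_eq_mul] at h1 s1 s2
  have s3 := s1.sub s2
  rw [h1, sub_self] at s3
  have hz := (hasSum_zero_iff_of_nonneg h0).1 s3
  rw [hd]
  congr 1
  funext n
  haveI := finite_comp ν' n
  refine ext_of_forall_integral_eq_of_IsFiniteMeasure fun φ => ?_
  have := hc n φ φ.continuous
  rw [congrFun hz n, Pi.zero_apply, zero_mul] at this
  linarith

end Pool.Agent.H28.UAlg
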