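import Mathlib
import Pool.Agent.H28.UAlg2

open MeasureTheory Filter Topology
open scoped ENNReal NNReal ComplexConjugate

noncomputable section

namespace Pool.Agent.H28.UAlg

section General

variable {S : Type} [TopologicalSpace S] [CompactSpace S] [MeasurableSpace S] [BorelSpace S]

lemma top_mul_int {μ : Measure S} (h : Lp ℂ ⊤ μ) {k : S → ℂ} (hk : Integrable k μ) :
    Integrable (fun s => h s * k s) μ :=
  (Lp.memLp h).integrable_mul (memLp_one_iff_integrable.2 hk)

lemma cont_mul_int {μ : Measure S} {u : S → ℂ} (hu : Continuous u) {k : S → ℂ}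
    (hk : Integrable k μ) : Integrable (fun s => u s * k s) μ :=
  hk.bdd_mul (c := ‖(⟨u, hu⟩ : C(S, ℂ))‖) hu.aestronglyMeasurable
    (Eventually.of_forall (⟨u, hu⟩ : C(S, ℂ)).norm_coe_le_norm)

lemma split_int {μ : Measure S} (h : Lp ℂ ⊤ μ) {u : S → ℂ} (hu : Continuous u) {k : S → ℂ}
    (hk : Integrable k μ) :
    ∫ s, (h s - u s) * k s ∂μ = ∫ s, h s * k s ∂μ - ∫ s, u s * k s ∂μ := by
  simp only [sub_mul]
  exact integral_sub (top_mul_int h hk) (cont_mul_int hu hk)

def wkSub (A : Subalgebra ℂ C(S, ℂ)) (μ : FiniteMeasure S) :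
    Submodule ℂ (Lp ℂ ⊤ (μ : Measure S)) where
  carrier := WkClosure A μ
  zero_mem' := by
    intro r k hk ε hε
    refine ⟨0, A.zero_mem, 0, A.zero_mem, fun j => ?_⟩
    rw [integral_congr_ae (g := fun _ => 0)]
    · simpa using hε
    · filter_upwards [Lp.coeFn_zero ℂ ⊤ (μ : Measure S)] with s hs
      rw [hs]
      simp
  add_mem' := by
    intro h1 h2 hh1 hh2 r k hk ε hε
    obtain ⟨f1, hf1, g1, hg1, e1⟩ := hh1 r k hk (ε / 2) (by linarith)
    obtain ⟨f2, hf2, g2, hg2, e2⟩ := hh2 r k hk (ε / 2) (by linarith)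
    refine ⟨f1 + f2, A.add_mem hf1 hf2, g1 + g2, A.add_mem hg1 hg2, fun j => ?_⟩
    have i1 : Integrable (fun s => (h1 s - (f1 s + conj (g1 s))) * k j s) μ := by
      simp only [sub_mul]
      exact (top_mul_int h1 (hk j)).sub (cont_mul_int (by fun_prop) (hk j))
    have i2 : Integrable (fun s => (h2 s - (f2 s + conj (g2 s))) * k j s) μ := by
      simp only [sub_mul]
      exact (top_mul_int h2 (hk j)).sub (cont_mul_int (by fun_prop) (hk j))
    rw [integral_congr_ae (g := fun s => (h1 s - (f1 s + conj (g1 s))) * k j s +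
      (h2 s - (f2 s + conj (g2 s))) * k j s), integral_add i1 i2]
    · refine (norm_add_le _ _).trans_lt ?_
      linarith [e1 j, e2 j]
    · filter_upwards [Lp.coeFn_add h1 h2] with s hs
      rw [hs]
      simp only [Pi.add_apply, ContinuousMap.add_apply, map_add]
      ring
  smul_mem' := by
    intro c h hh r k hk ε hε
    obtain ⟨f, hf, g, hg, e1⟩ := hh r (fun j s => c * k j s) (fun j => (hk j).const_mul c) ε hε
    refine ⟨c • f, A.smul_mem hf _, conj c • g, A.smul_mem hg _, fun j => ?_⟩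
    rw [integral_congr_ae (g := fun s => (h s - (f s + conj (g s))) * (c * k j s))]
    · exact e1 j
    · filter_upwards [Lp.coeFn_smul c h] with s hs
      rw [hs]
      simp only [Pi.smul_apply, ContinuousMap.smul_apply, smul_eq_mul, map_mul, Complex.conj_conj]
      ring

lemma wk_annih (A : Subalgebra ℂ C(S, ℂ)) (μ : FiniteMeasure S) (k : S → ℂ)
    (hk : Integrable k (μ : Measure S))
    (hA : ∀ f ∈ A, ∀ g ∈ A, ∫ s, (f s + conj (g s)) * k s ∂(μ : Measure S) = 0)
    (h : Lp ℂ ⊤ (μ : Measure S)) (hh : h ∈ WkClosure A μ) :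
    ∫ s, h s * k s ∂(μ : Measure S) = 0 := by
  by_contra hne
  obtain ⟨f, hf, g, hg, e1⟩ := hh 1 (fun _ => k) (fun _ => hk) _ (norm_pos_iff.2 hne)
  have := e1 0
  rw [split_int h (by fun_prop) hk, hA f hf g hg, sub_zero] at this
  exact lt_irrefl _ this

lemma logInt_eq (μ : FiniteMeasure S) (f : C(S, ℂ)) (c : ℝ) (hc : 0 < c)
    (h : ∀ᵐ s ∂(μ : Measure S), c ≤ ‖f s‖) :
    logInt μ f = ((∫ s, Real.log (max c ‖f s‖) ∂(μ : Measure S) : ℝ) : EReal) := by
  have hcont : Continuous fun s => Real.log (max c ‖f s‖) :=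
    Continuous.log (by fun_prop) fun s => (hc.trans_le (le_max_left _ _)).ne'
  have hi : Integrable (fun s => Real.log (max c ‖f s‖)) (μ : Measure S) := cint _ hcont
  rw [integral_eq_lintegral_pos_part_sub_lintegral_neg_part hi]
  unfold logInt
  rw [lintegral_congr_ae (g := fun s => ENNReal.ofReal (Real.log (max c ‖f s‖))),
    lintegral_congr_ae (f := fun s => if f s = 0 then ⊤ else _)
      (g := fun s => ENNReal.ofReal (-Real.log (max c ‖f s‖)))]
  · rw [EReal.coe_sub, EReal.coe_ennreal_toReal hi.lintegral_lt_top.ne,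
      EReal.coe_ennreal_toReal (Integrable.lintegral_lt_top
        (f := fun s => -Real.log (max c ‖f s‖)) hi.neg).ne]
  · filter_upwards [h] with s hs
    rw [if_neg (norm_pos_iff.1 (hc.trans_le hs)), max_eq_right hs]
  · filter_upwards [h] with s hs
    rw [max_eq_right hs]

end General

lemma ulim {Y : Type*} [SeminormedAddCommGroup Y] [NormedSpace ℂ Y] (U : Ultrafilter ℕ)
    (l : ℕ → StrongDual ℂ Y) (C : ℝ) (hl : ∀ n, ‖l n‖ ≤ C) :
    ∃ L : StrongDual ℂ Y, ∀ y, Tendsto (fun n => l n y) U (𝓝 (L y)) := by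
  obtain ⟨L, -, hL⟩ := (WeakDual.isCompact_closedBall (0 : StrongDual ℂ Y) C).ultrafilter_le_nhds
    (U.map fun n => StrongDual.toWeakDual (l n)) (by
      rw [Ultrafilter.coe_map, le_principal_iff, mem_map]
      exact Eventually.of_forall fun n => by simpa using hl n)
  exact ⟨WeakDual.toStrongDual L, fun y => ((WeakDual.eval_continuous y).tendsto L).comp hL⟩

lemma not_refl {L : Type*} [NormedAddCommGroup L] [NormedSpace ℂ L] (B : Submodule ℂ L)
    (x : ℕ → L) (l : ℕ → StrongDual ℂ L) (C : ℝ) (hx : ∀ r, ‖x r‖ ≤ C) (hl : ∀ n, ‖l n‖ ≤ C)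
    (hB : ∀ n, ∀ b ∈ B, l n b = 0) (h1 : ∀ n, ∀ᶠ r in atTop, l n (x r) = -1)
    (h0 : ∀ r, ∀ᶠ n in atTop, l n (x r) = 0) :
    ¬ Function.Surjective (NormedSpace.inclusionInDoubleDual ℂ (L ⧸ B)) := by
  intro hs
  set U := Ultrafilter.of (atTop : Filter ℕ)
  have hU : (U : Filter ℕ) ≤ atTop := Ultrafilter.of_le _
  obtain ⟨Φ, hΦ⟩ := ulim U (fun r => NormedSpace.inclusionInDoubleDual ℂ (L ⧸ B) (B.mkQ (x r))) C
    fun r => (NormedSpace.double_dual_bound ℂ _ _).trans
      ((Submodule.Quotient.norm_mk_le B (x r)).trans (hx r))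
  obtain ⟨z, rfl⟩ := hs Φ
  obtain ⟨z, rfl⟩ := B.mkQ_surjective z
  obtain ⟨Λ, hΛ⟩ := ulim U l C hl
  have key : ∀ (φ : StrongDual ℂ L), (∀ b ∈ B, φ b = 0) → ∀ c : ℂ,
      (∀ᶠ r in atTop, φ (x r) = c) → φ z = c := by
    intro φ hφ c hc
    have := hΦ (B.liftQL φ fun b hb => hφ b hb)
    exact tendsto_nhds_unique this (tendsto_const_nhds.congr' ((hc.filter_mono hU).mono
      fun r hr => hr.symm))
  have e1 : Λ z = -1 := tendsto_nhds_unique (hΛ z)
    (tendsto_const_nhds.congr fun n => (key (l n) (hB n) _ (h1 n)).symm)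
  have e2 : Λ z = 0 := key Λ (fun b hb => tendsto_nhds_unique (hΛ b)
      (tendsto_const_nhds.congr fun n => (hB n b hb).symm)) 0
    (Eventually.of_forall fun r => tendsto_nhds_unique (hΛ (x r))
      (tendsto_const_nhds.congr' (((h0 r).filter_mono hU).mono fun n hn => hn.symm)))
  rw [e1] at e2
  simp at e2

variable {ι : Type} [DecidableEq ι] [Countable ι]

def kn (a : ι → ℝ≥0) (n : ι) (s : PD ι) : ℂ :=
  ((‖(s n : ℂ)‖ / (a n * ‖1 - (s n : ℂ)‖) : ℝ) : ℂ)

omit [Countable ι] in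
lemma kn_ne (a : ι → ℝ≥0) {n j : ι} (h : j ≠ n) (θ : T1) : kn a n (e j θ) = 0 := by
  simp [kn, e_ne h.symm]

omit [Countable ι] in
lemma kn_self (a : ι → ℝ≥0) (n : ι) (ha : a n ≠ 0) :
    ∀ᵐ θ ∂m, ((a n : ℝ) * (W θ : ℝ)) • kn a n (e n θ) = 1 := by
  filter_upwards [W_ae] with θ hθ
  have h1 : (W θ : ℝ) ≠ 0 := by exact_mod_cast hθ
  have h2 : (a n : ℝ) ≠ 0 := by exact_mod_cast ha
  have h3 : ‖1 - fourier 1 θ‖ = (W θ : ℝ) := rfl
  rw [kn, e_self, norm_f1, h3, Complex.real_smul, ← Complex.ofReal_mul,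
    mul_one_div_cancel (mul_ne_zero h2 h1), Complex.ofReal_one]

lemma kn_int (a : ι → ℝ≥0) (n : ι) (ha : a n ≠ 0) :
    Integrable (kn a n) (glue fun n => wm (a n)) := by
  refine integrable_sum_measure (fun j => ?_) ?_
  · rw [(e_emb j).integrable_map_iff]
    by_cases h : j = n
    · subst h
      unfold wm
      rw [integrable_withDensity_iff_integrable_smul (W_cont.measurable.const_mul _)]
      exact (integrable_const (1 : ℂ)).congr ((kn_self a j ha).mono fun θ hθ => hθ.symm)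
    · have : kn a n ∘ e j = fun _ => 0 := funext fun θ => kn_ne a h θ
      rw [this]
      exact integrable_zero _ _ _
  · refine (hasSum_single n fun j hj => ?_).summable
    rw [(e_emb j).integral_map]
    simp [kn_ne a hj]

lemma integral_mul_kn (a : ι → ℝ≥0) (n : ι) (ha : a n ≠ 0) (F : PD ι → ℂ) (hF : Continuous F) :
    ∫ s, F s * kn a n s ∂(glue fun n => wm (a n)) = ∫ θ, F (e n θ) ∂m := by
  rw [integral_glue_single _ _ (cont_mul_int hF (kn_int a n ha)) n
    fun j hj θ => by rw [kn_ne a hj, mul_zero], integral_wm]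
  refine integral_congr_ae ((kn_self a n ha).mono fun θ hθ => ?_)
  simp only
  rw [← mul_smul_comm, hθ, mul_one]

lemma integral_norm_kn (a : ι → ℝ≥0) (n : ι) (ha : a n ≠ 0) :
    ∫ s, ‖kn a n s‖ ∂(glue fun n => wm (a n)) = 1 := by
  rw [integral_glue_single _ _ (kn_int a n ha).norm n
    fun j hj θ => by rw [kn_ne a hj, norm_zero], integral_wm,
    integral_congr_ae (g := fun _ => 1)]
  · simp
  · filter_upwards [kn_self a n ha] with θ hθ
    have := congrArg norm hθ
    rwa [norm_smul, norm_one, Real.norm_of_nonneg (by positivity)] at this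

lemma integral_mul_kn_sub (a : ι → ℝ≥0) (ha : ∀ n, a n ≠ 0) (n j : ι) (F : PD ι → ℂ)
    (hF : Continuous F) :
    ∫ s, F s * (kn a n s - kn a j s) ∂(glue fun n => wm (a n)) =
      ∫ θ, F (e n θ) ∂m - ∫ θ, F (e j θ) ∂m := by
  simp only [mul_sub]
  rw [integral_sub (cont_mul_int hF (kn_int a n (ha n))) (cont_mul_int hF (kn_int a j (ha j))),
    integral_mul_kn a n (ha n) F hF, integral_mul_kn a j (ha j) F hF]

omit [Countable ι] in
lemma mean_AA (n : ι) (f : C(PD ι, ℂ)) (hf : f ∈ Alg ι) (g : C(PD ι, ℂ)) (hg : g ∈ Alg ι) :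
    ∫ θ, (f (e n θ) + conj (g (e n θ))) ∂m = f (o ι) + conj (g (o ι)) := by
  rw [integral_add (cint _ (by fun_prop)) (cint _ (by fun_prop)), integral_conj, mean_A n f hf,
    mean_A n g hg]

lemma kn_annih (a : ι → ℝ≥0) (ha : ∀ n, a n ≠ 0) (n j : ι) (f : C(PD ι, ℂ)) (hf : f ∈ Alg ι)
    (g : C(PD ι, ℂ)) (hg : g ∈ Alg ι) :
    ∫ s, (f s + conj (g s)) * (kn a n s - kn a j s) ∂(glue fun n => wm (a n)) = 0 := by
  rw [integral_mul_kn_sub a ha n j _ (by fun_prop), mean_AA n f hf g hg, mean_AA j f hf g hg,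
    sub_self]

lemma E_eq (a : ι → ℝ≥0) [h : IsFiniteMeasure (glue fun n => wm (a n))] :
    E (Alg ι) ⟨glue fun n => wm (a n), h⟩ = {⟨glue fun n => wm (a n), h⟩} := by
  ext ν
  constructor
  · rintro ⟨h1, h2⟩
    exact Subtype.ext (unique_equiv a ν h1 h2)
  · rintro rfl
    exact ⟨Measure.AbsolutelyContinuous.rfl, fun _ _ => rfl⟩

lemma K_eq (a : ι → ℝ≥0) [h : IsFiniteMeasure (glue fun n => wm (a n))] :
    K (Alg ι) ⟨glue fun n => wm (a n), h⟩ = {⟨glue fun n => wm (a n), h⟩} := by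
  rw [K, E_eq, closure_singleton]

lemma approx_Z (a : ℝ≥0) (φ : C(T1, ℂ)) (η : ℝ) (hη : 0 < η) :
    ∃ p ∈ Z, ∫ θ, ‖φ θ - p θ‖ ∂wm a ≤ η := by
  set c := ∫ θ, φ θ ∂m with hc
  set δ := η / ((a + 1) * (2 + ‖c‖)) with hδ
  have hδ0 : 0 < δ := by positivity
  obtain ⟨ψ, h1, h2, h3, h4⟩ := bump δ hδ0
  set φ' : C(T1, ℂ) := φ - c • ⟨fun θ => (ψ θ : ℂ), by fun_prop⟩ with hφ'
  have hm : ∫ θ, φ' θ ∂m = 0 := by
    simp only [hφ', ContinuousMap.sub_apply, ContinuousMap.smul_apply, ContinuousMap.coe_mk,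
      smul_eq_mul]
    rw [integral_sub (cint _ φ.continuous) (cint _ (by fun_prop)), integral_const_mul,
      integral_complex_ofReal, h3]
    simp [hc]
  have hcl := mem_closure_Z φ'
  have e0 : φ' - (∫ θ, φ' θ ∂m) • (1 : C(T1, ℂ)) = φ' := by
    ext θ
    rw [hm]
    simp only [ContinuousMap.sub_apply, ContinuousMap.smul_apply, smul_eq_mul, zero_mul, sub_zero]
  rw [e0] at hcl
  obtain ⟨p, hp, hd⟩ := Metric.mem_closure_iff.1 hcl δ hδ0
  refine ⟨p, hp, ?_⟩
  have hW := W_cont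
  rw [integral_wm]
  calc _ ≤ ∫ θ, ((a : ℝ) * (2 * δ) + (a : ℝ) * ‖c‖ * ((W θ : ℝ) * ψ θ)) ∂m := by
        refine integral_mono (cint _ (by fun_prop)) (cint _ (by fun_prop)) fun θ => ?_
        have b1 : ‖φ' θ - p θ‖ ≤ δ := by
          rw [dist_eq_norm] at hd
          exact ((φ' - p).norm_coe_le_norm θ).trans hd.le
        have b2 : ‖φ θ - p θ‖ ≤ δ + ‖c‖ * ψ θ := by
          have : φ θ - p θ = (φ' θ - p θ) + c * (ψ θ : ℂ) := by
            simp only [hφ', ContinuousMap.sub_apply, ContinuousMap.smul_apply,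
              ContinuousMap.coe_mk, smul_eq_mul]
            ring
          rw [this]
          refine (norm_add_le _ _).trans (add_le_add b1 ?_)
          rw [norm_mul, Complex.norm_real, Real.norm_of_nonneg (h2 θ)]
        have b3 := W_le θ
        have b4 : (0 : ℝ) ≤ W θ := (W θ).2
        have b5 : (0 : ℝ) ≤ a := a.2
        simp only [smul_eq_mul]
        calc _ ≤ ((a : ℝ) * (W θ : ℝ)) * (δ + ‖c‖ * ψ θ) :=
              mul_le_mul_of_nonneg_left b2 (by positivity)
          _ = (a : ℝ) * ((W θ : ℝ) * δ) + (a : ℝ) * ‖c‖ * ((W θ : ℝ) * ψ θ) := by ring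
          _ ≤ _ := by gcongr
    _ ≤ (a : ℝ) * (2 * δ) + (a : ℝ) * ‖c‖ * δ := by
        rw [integral_add (cint _ (by fun_prop)) (cint _ (by fun_prop)), integral_const_mul,
          integral_const_mul ((a : ℝ) * ‖c‖)]
        have b5 : (0 : ℝ) ≤ a := a.2
        simp only [integral_const, probReal_univ, smul_eq_mul, one_mul]
        gcongr
    _ ≤ ((a : ℝ) + 1) * (2 + ‖c‖) * δ := by
        have := norm_nonneg c
        nlinarith [mul_nonneg this hδ0.le]
    _ = η := by rw [hδ]; field_simp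

lemma l1dense [Fintype ι] (a : ι → ℝ≥0) [h : IsFiniteMeasure (glue fun n => wm (a n))] :
    L1Dense (Alg ι) ⟨glue fun n => wm (a n), h⟩ := by
  intro F hF ε hε
  change Integrable F (glue fun n => wm (a n)) at hF
  obtain ⟨G, hG, hGi⟩ := hF.exists_boundedContinuous_integral_sub_le (ε := ε / 4) (by linarith)
  set η := ε / 4 / (Fintype.card ι + 1) with hη
  choose p hp hp' using fun n => approx_Z (a n) (G.toContinuousMap.comp (e n)) η (by positivity)
  choose f hf g hg h1 h2 using fun n => lift_Z n (p n) (hp n)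
  refine ⟨∑ n, f n, (Alg ι).sum_mem fun n _ => hf n, ∑ n, g n, (Alg ι).sum_mem fun n _ => hg n, ?_⟩
  set u : PD ι → ℂ := fun s => (∑ n, f n) s + conj ((∑ n, g n) s) with hu
  have uc : Continuous u := by fun_prop
  have hue : ∀ n θ, u (e n θ) = p n θ := by
    intro n θ
    simp only [hu, ContinuousMap.coe_sum, Finset.sum_apply, map_sum, ← Finset.sum_add_distrib]
    rw [Finset.sum_eq_single n (fun j _ hj => h2 j n hj.symm θ) (by simp), h1]
  have b1 : ∫ s, ‖G s - u s‖ ∂(glue fun n => wm (a n)) ≤ ε / 4 := by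
    rw [← (hasSum_glue _ _ (cint _ (by fun_prop))).tsum_eq, tsum_fintype]
    simp only [hue]
    refine (Finset.sum_le_card_nsmul _ _ η fun n _ => hp' n).trans ?_
    rw [nsmul_eq_mul, hη, Finset.card_univ, ← mul_div_assoc, div_le_iff₀ (by positivity)]
    nlinarith
  change ∫ s, ‖F s - u s‖ ∂(glue fun n => wm (a n)) < ε
  have i1 : Integrable (fun s => ‖F s - G s‖) (glue fun n => wm (a n)) := (hF.sub hGi).norm
  have i2 : Integrable (fun s => ‖G s - u s‖) (glue fun n => wm (a n)) := cint _ (by fun_prop)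
  calc _ ≤ ∫ s, (‖F s - G s‖ + ‖G s - u s‖) ∂(glue fun n => wm (a n)) :=
        integral_mono (hF.sub (cint _ uc)).norm (i1.add i2) fun s => norm_sub_le_norm_sub_add_norm_sub _ _ _
    _ < ε := by
        rw [integral_add i1 i2]
        linarith

end Pool.Agent.H28.UAlg
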