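import Pool.Agent.H28.QG

set_option autoImplicit false

open Set Real Pool.Agent.H28.QG

namespace Pool.Agent.H28.Wheel

def s : Fin 9 → Fin 6 := ![0, 1, 2, 3, 0, 1, 2, 3, 4]
def t : Fin 9 → Fin 6 := ![1, 2, 3, 0, 4, 4, 4, 4, 5]
noncomputable def L : Fin 9 → ℝ := ![1, 1, 1, 1, 1, 1, 1, 1, 1 / 2]

lemma Lc (e : Fin 9) : L e = 1 ∨ L e = 1 / 2 := by fin_cases e <;> simp [L]

lemma Lp (e : Fin 9) : 0 < L e := by rcases Lc e with h | h <;> rw [h] <;> norm_num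

lemma hL (z : ℝ → ℝ) (hz : z 1 ≠ 0) (hz' : z (1 / 2) ≠ 0) (e : Fin 9) : 0 ≤ L e ∧ z (L e) ≠ 0 :=
  ⟨(Lp e).le, by rcases Lc e with h | h <;> rwa [h]⟩

lemma ve (c z : ℝ → ℝ) (hz : z 1 ≠ 0) (hz' : z (1 / 2) ≠ 0) (u : Fin 6 → ℝ) :
    VE s t L 0 c z u ↔ u 1 + u 3 + u 4 = 3 * c 1 * u 0 ∧ u 2 + u 0 + u 4 = 3 * c 1 * u 1 ∧
      u 3 + u 1 + u 4 = 3 * c 1 * u 2 ∧ u 0 + u 2 + u 4 = 3 * c 1 * u 3 ∧
      (u 0 + u 1 + u 2 + u 3 - 4 * c 1 * u 4) * z (1 / 2) + (u 5 - c (1 / 2) * u 4) * z 1 = 0 ∧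
      u 4 = c (1 / 2) * u 5 := by
  simp only [VE, Fin.forall_fin_succ, Fin.sum_univ_succ, s, t, L]
  rw [one_div] at *
  simp [hz', sub_eq_zero]
  generalize z 2⁻¹ = w at *
  refine and_congr ?_ (and_congr ?_ (and_congr ?_ (and_congr ?_ (and_congr ?_ Iff.rfl)))) <;>
    field_simp <;> constructor <;> intro h <;> linarith

lemma sym {g w C Z : ℝ} {u : Fin 6 → ℝ} (hg : 0 < g) (hw : 0 < w) (hC : 0 ≤ C) (h1 : C ≠ 1)
    (e1 : C = 2 * g ^ 2 - 1) (e2 : Z = 2 * w * g)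
    (h : u 1 + u 3 + u 4 = 3 * C * u 0 ∧ u 2 + u 0 + u 4 = 3 * C * u 1 ∧
      u 3 + u 1 + u 4 = 3 * C * u 2 ∧ u 0 + u 2 + u 4 = 3 * C * u 3 ∧
      (u 0 + u 1 + u 2 + u 3 - 4 * C * u 4) * w + (u 5 - g * u 4) * Z = 0 ∧ u 4 = g * u 5) :
    u 4 = 0 ∧ u 5 = 0 ∧ u 0 + u 2 = 0 ∧ u 1 + u 3 = 0 := by
  obtain ⟨a, b, c, d, e, f⟩ := h
  have k1 : u 0 + u 1 + u 2 + u 3 + (1 - 5 * C) * u 4 = 0 :=
    mul_left_cancel₀ hw.ne' (by
      rw [e2] at e
      linear_combination e + 2 * w * f - w * u 4 * e1)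
  have k2 : u 4 = 0 := by
    have : (1 - C) * (15 * C + 2) * u 4 = 0 := by
      linear_combination (a + b + c + d) + (3 * C - 2) * k1
    simpa [sub_ne_zero.2 h1.symm, (by positivity : 15 * C + 2 ≠ 0)] using this
  have k3 : u 0 + u 2 - (u 1 + u 3) = 0 := by
    have : (3 * C + 2) * (u 0 + u 2 - (u 1 + u 3)) = 0 := by linear_combination -a + b - c + d
    simpa [(by positivity : 3 * C + 2 ≠ 0)] using this
  rw [k2] at k1
  exact ⟨k2, by simpa [k2, hg.ne'] using f, by linarith, by linarith⟩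

lemma z1 : sin (π / 2 * 1) / (π / 2) ≠ 0 := by simp

lemma q4 : π / 2 * (1 / 2) = π / 4 := by ring

lemma z2 : 0 < sin (π / 2 * (1 / 2)) / (π / 2) := by rw [q4, sin_pi_div_four]; positivity

lemma eig (A B : ℝ) (h : A ^ 2 + B ^ 2 = 1) : Eig s t L 0 ((π / 2) ^ 2)
    (ef s t L (fun x => cos (π / 2 * x)) (fun x => sin (π / 2 * x) / (π / 2))
      ![A, B, -A, -B, 0, 0]) :=
  ((ve _ _ z1 z2.ne' _).2 (by simp)).eig (fundp (by positivity))
    (hL (fun x => sin (π / 2 * x) / (π / 2)) z1 z2.ne') ⟨0, by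
    by_contra h'
    simp [s, t] at h'
    rw [h'.1, h'.2] at h
    norm_num at h⟩

lemma second : Second s t L 0 ((π / 2) ^ 2) := by
  refine ⟨⟨_, eig 1 0 (by norm_num)⟩, 0, ⟨by positivity, _,
    ((ve _ _ one_ne_zero (by norm_num) 1).2 (by norm_num)).eig fund0
      (hL (fun x => x) one_ne_zero (by norm_num)) ⟨0, by simp⟩⟩, ?_⟩
  rintro l ⟨hl, ψ, h⟩
  by_contra h0
  obtain ⟨c, z, G, z0, c0, c1, c2, c3, c4⟩ := low hl h0
  have z3 : z 1 ≠ 0 := by rw [c4]; positivity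
  obtain ⟨u, hu, u0, -⟩ := h.ve G (hL z z3 z0.ne')
  rw [ve c z z3 z0.ne'] at hu
  obtain ⟨a, b, d, e⟩ := sym c0 z0 c1.le c2 c3 c4 hu
  have f : u 0 = 0 := mul_left_cancel₀ c1.ne' (by linarith [hu.1])
  have g : u 1 = 0 := mul_left_cancel₀ c1.ne' (by linarith [hu.2.1])
  refine u0 (funext fun v => ?_)
  fin_cases v <;> simp <;> linarith

lemma rim {x : ℝ} (hx : x ∈ Icc (0 : ℝ) 1) : ((0 : Fin 9), x) ∈ Hot s t L 0 := by
  have q := cos_sq_add_sin_sq (π / 2 * x)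
  refine ⟨hx, _, _, second, eig _ _ q, Or.inl fun e y _ => ?_⟩
  have r : ∀ A B : ℝ, A * (π / 2) * (B / (π / 2)) = A * B := fun A B => by field_simp
  have q2 := cos_sq_add_sin_sq (π / 2 * y)
  fin_cases e <;> simp [ef, s, t, L, -inv_div, r] <;>
    generalize cos (π / 2 * x) = a at * <;> generalize sin (π / 2 * x) = b at * <;>
    generalize cos (π / 2 * y) = c at * <;> generalize sin (π / 2 * y) = d at * <;>
    nlinarith [sq_nonneg (a - c), sq_nonneg (a + c), sq_nonneg (b - d), sq_nonneg (b + d),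
      sq_nonneg (b - c), sq_nonneg (b + c), sq_nonneg (a - d), sq_nonneg (a + d)]

lemma inf : (Hot s t L 0).Infinite :=
  ((Icc_infinite (zero_lt_one' ℝ)).image (f := fun x => ((0 : Fin 9), x))
    fun _ _ _ _ h => congrArg Prod.snd h).mono (by rintro _ ⟨x, hx, rfl⟩; exact rim hx)

lemma hub : ((8 : Fin 9), (0 : ℝ)) ∉ Hot s t L 0 := by
  rintro ⟨-, μ, ψ, h1, h2, h3⟩
  rw [h1.uniq second] at h2
  obtain ⟨u, hu, u0, hψ⟩ := h2.ve (fundp (by positivity))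
    (hL (fun x => sin (π / 2 * x) / (π / 2)) z1 z2.ne')
  rw [ve _ _ z1 z2.ne'] at hu
  obtain ⟨a, b, d, e⟩ := sym (by rw [q4, cos_pi_div_four]; positivity) z2 (by simp) (by simp)
    (by rw [q4, cos_pi_div_four]; simp [div_pow]; norm_num)
    (by rw [q4, cos_pi_div_four, sin_pi_div_four]; simp; field_simp; simp) hu
  have v : ∀ e, ψ e 0 = u (s e) := fun e => by simp [hψ e 0 ⟨le_rfl, (Lp e).le⟩, ef]
  have m : ∀ e, (0 : ℝ) ∈ Icc 0 (L e) := fun e => ⟨le_rfl, (Lp e).le⟩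
  refine u0 (funext fun w => ?_)
  rcases h3 with h | h <;>
  · have h0 := h 0 0 (m _)
    have h1 := h 1 0 (m _)
    have h2 := h 2 0 (m _)
    have h3 := h 3 0 (m _)
    simp [v, s] at h0 h1 h2 h3
    fin_cases w <;> simp <;> linarith

lemma conn : Conn s t univ := by
  have k : ∀ a, Relation.EqvGen (fun a b => ∃ e ∈ (univ : Set (Fin 9)), s e = a ∧ t e = b) a 4 := by
    intro a
    fin_cases a
    exacts [.rel _ _ ⟨4, trivial, rfl, rfl⟩, .rel _ _ ⟨5, trivial, rfl, rfl⟩,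
      .rel _ _ ⟨6, trivial, rfl, rfl⟩, .rel _ _ ⟨7, trivial, rfl, rfl⟩, .refl _,
      .symm _ _ (.rel _ _ ⟨8, trivial, rfl, rfl⟩)]
  exact fun a b => .trans _ _ _ (k a) (.symm _ _ (k b))

lemma bridge : ¬ Conn s t {8}ᶜ := fun h => by
  have k : ∀ a b, Relation.EqvGen (fun a b => ∃ e ∈ ({8}ᶜ : Set (Fin 9)), s e = a ∧ t e = b) a b →
      (a = 5 ↔ b = 5) := by
    intro a b h
    induction h with
    | rel a b h =>
      obtain ⟨e, he, rfl, rfl⟩ := h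
      revert e
      simp only [mem_compl_singleton_iff]
      decide
    | refl => rfl
    | symm _ _ _ h => exact h.symm
    | trans _ _ _ _ _ h1 h2 => exact h1.trans h2
  exact absurd (k _ _ (h 4 5)) (by decide)

end Pool.Agent.H28.Wheel
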