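import Pool.Agent.H27.Rein2

set_option autoImplicit false

open MeasureTheory Set Filter Topology Metric UnitAddTorus
open scoped ComplexConjugate
open Pool.Agent.H27.Rein

namespace Pool.Agent.H28.Wieg

def box (S T : Set ℂ) : Set (Fin 2 → ℂ) := {z | z 0 ∈ S ∧ z 1 ∈ T}

lemma box_eq (S T : Set ℂ) : box S T = Set.pi univ ![S, T] := by
  ext z; simp [box, Fin.forall_fin_two]

lemma vol_box (S T : Set ℂ) : volume (box S T) = volume S * volume T := by
  rw [box_eq, volume_pi_pi, Fin.prod_univ_two]; rfl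

lemma open_box {S T : Set ℂ} (hS : IsOpen S) (hT : IsOpen T) : IsOpen (box S T) :=
  (hS.preimage (continuous_apply (0 : Fin 2))).inter (hT.preimage (continuous_apply (1 : Fin 2)))

lemma conn_box {S T : Set ℂ} (hS : IsPreconnected S) (hT : IsPreconnected T) :
    IsPreconnected (box S T) := by
  rw [box_eq]
  exact isPreconnected_univ_pi (by rw [Fin.forall_fin_two]; exact ⟨hS, hT⟩)

lemma cpt_box {S T : Set ℂ} (hS : IsCompact S) (hT : IsCompact T) : IsCompact (box S T) := by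
  rw [box_eq]
  exact isCompact_univ_pi (by rw [Fin.forall_fin_two]; exact ⟨hS, hT⟩)

lemma norm_rot (θ : UnitAddTorus (Fin 2)) (z : Fin 2 → ℂ) (j : Fin 2) : ‖rot θ z j‖ = ‖z j‖ := by
  rw [rot, norm_mul, norm_f, one_mul]

def sh (a b : ℝ) : Set ℂ := {w | a ≤ ‖w‖ ∧ ‖w‖ ≤ b}

lemma sh_eq (a b : ℝ) : sh a b = closedBall 0 b \ ball 0 a := by
  ext w; simp [sh, and_comm]

lemma cpt_sh (a b : ℝ) : IsCompact (sh a b) := by
  rw [sh_eq]; exact (isCompact_closedBall _ _).diff isOpen_ball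

lemma vol_ball (r : ℝ) (hr : 0 ≤ r) : volume (ball (0 : ℂ) r) = ENNReal.ofReal (r ^ 2 * Real.pi) := by
  rw [Complex.volume_ball, ENNReal.ofReal_mul (by positivity), ENNReal.ofReal_pow hr,
    ← ENNReal.ofReal_coe_nnreal, NNReal.coe_real_pi]

lemma vol_sh {a b : ℝ} (ha : 0 ≤ a) (hab : a ≤ b) :
    volume (sh a b) = ENNReal.ofReal ((b ^ 2 - a ^ 2) * Real.pi) := by
  have hb : 0 ≤ b := ha.trans hab
  rw [sh_eq, measure_diff ((ball_subset_ball hab).trans ball_subset_closedBall)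
    measurableSet_ball.nullMeasurableSet (by rw [vol_ball a ha]; simp), vol_ball a ha,
    Complex.volume_closedBall, ← ENNReal.ofReal_pow hb, ← ENNReal.ofReal_coe_nnreal,
    NNReal.coe_real_pi, ← ENNReal.ofReal_mul (by positivity), ← ENNReal.ofReal_sub _ (by positivity)]
  congr 1; ring

noncomputable def dl (n : ℕ) : ℝ := 1 / (32 ^ n * ((n : ℝ) + 1) ^ 2)

lemma dl_pos (n : ℕ) : 0 < dl n := by unfold dl; positivity

lemma dl_le (n : ℕ) : dl n ≤ 1 := by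
  unfold dl
  rw [div_le_one (by positivity)]
  have h1 : (1 : ℝ) ≤ 32 ^ n := one_le_pow₀ (by norm_num)
  have h2 : (1 : ℝ) ≤ ((n : ℝ) + 1) ^ 2 := one_le_pow₀ (by linarith [Nat.cast_nonneg (α := ℝ) n])
  nlinarith

def BB (n : ℕ) : Set (Fin 2 → ℂ) := box (ball 0 (8 ^ n)) (ball 0 (4 ^ n)⁻¹)

def AA (n : ℕ) : Set (Fin 2 → ℂ) := box {w | 1 < ‖w‖ ∧ ‖w‖ < 1 + dl n} (ball 0 (2 ^ n))

def Om : Set (Fin 2 → ℂ) := (⋃ n, BB n) ∪ ⋃ n, AA n

lemma BB_sub (n : ℕ) : BB n ⊆ Om := (subset_iUnion BB n).trans subset_union_left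
lemma AA_sub (n : ℕ) : AA n ⊆ Om := (subset_iUnion AA n).trans subset_union_right

lemma open_Om : IsOpen Om :=
  (isOpen_iUnion fun _ => open_box isOpen_ball isOpen_ball).union
    (isOpen_iUnion fun _ => open_box ((isOpen_lt continuous_const continuous_norm).inter
      (isOpen_lt continuous_norm continuous_const)) isOpen_ball)

lemma zero_BB (n : ℕ) : (0 : Fin 2 → ℂ) ∈ BB n :=
  ⟨mem_ball_self (by positivity), mem_ball_self (by positivity)⟩

lemma conn_BB (n : ℕ) : IsPreconnected (BB n) :=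
  conn_box (convex_ball _ _).isPreconnected (convex_ball _ _).isPreconnected

lemma conn_Om : IsConnected Om := by
  refine ⟨⟨0, BB_sub 0 (zero_BB 0)⟩, isPreconnected_of_forall 0 ?_⟩
  rintro y (hy | hy)
  · obtain ⟨n, hn⟩ := mem_iUnion.1 hy
    exact ⟨BB n, BB_sub n, zero_BB n, hn, conn_BB n⟩
  · obtain ⟨n, hn⟩ := mem_iUnion.1 hy
    refine ⟨BB 1 ∪ box {y 0} (ball 0 (2 ^ n)), union_subset (BB_sub 1) ?_, Or.inl (zero_BB 1),
      Or.inr ⟨rfl, hn.2⟩, ?_⟩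
    · intro z hz
      refine AA_sub n ⟨?_, hz.2⟩
      have : z 0 = y 0 := hz.1
      rw [this]; exact hn.1
    · refine IsPreconnected.union ![y 0, 0] ⟨?_, ?_⟩ ⟨rfl, ?_⟩ (conn_BB 1)
        (conn_box isPreconnected_singleton (convex_ball _ _).isPreconnected)
      · have := hn.1.2
        have h2 := dl_le n
        simp only [Matrix.cons_val_zero, mem_ball_zero_iff]
        linarith
      · simp
      · simp

lemma inv_Om : H27.Rein.Inv Om := by
  rintro θ z (hz | hz)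
  · obtain ⟨n, hn⟩ := mem_iUnion.1 hz
    refine BB_sub n ⟨?_, ?_⟩
    · simpa [norm_rot] using hn.1
    · simpa [norm_rot] using hn.2
  · obtain ⟨n, hn⟩ := mem_iUnion.1 hz
    refine AA_sub n ⟨?_, ?_⟩
    · simpa [norm_rot] using hn.1
    · simpa [norm_rot] using hn.2

lemma inv_sh (a b c d : ℝ) : H27.Rein.Inv (box (sh a b) (sh c d)) := by
  intro θ z hz
  refine ⟨?_, ?_⟩
  · simpa [sh, norm_rot] using hz.1
  · simpa [sh, norm_rot] using hz.2

lemma sh_U {a b c d : ℝ} (ha : 0 < a) (hc : 0 < c) : box (sh a b) (sh c d) ⊆ Ust 2 := by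
  intro z hz
  rw [Ust, mem_setOf_eq, Fin.forall_fin_two]
  exact ⟨norm_pos_iff.1 (ha.trans_le hz.1.1), norm_pos_iff.1 (hc.trans_le hz.2.1)⟩

/-- compact pieces far out -/
def K1 (n : ℕ) : Set (Fin 2 → ℂ) := box (sh (8 ^ n / 4) (8 ^ n / 2)) (sh ((4 ^ n)⁻¹ / 4) ((4 ^ n)⁻¹ / 2))

/-- compact pieces of the spikes -/
def K2 (n : ℕ) : Set (Fin 2 → ℂ) := box (sh (1 + dl n / 4) (1 + dl n / 2)) (sh (2 ^ n / 4) (2 ^ n / 2))

lemma K1_sub (n : ℕ) : K1 n ⊆ Om ∩ Ust 2 := by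
  refine subset_inter (fun z hz => BB_sub n ⟨?_, ?_⟩) (sh_U (by positivity) (by positivity))
  · have : (0 : ℝ) < 8 ^ n := by positivity
    have := hz.1.2
    rw [mem_ball_zero_iff]; linarith
  · have : (0 : ℝ) < (4 ^ n)⁻¹ := by positivity
    have := hz.2.2
    rw [mem_ball_zero_iff]; linarith

lemma K2_sub (n : ℕ) : K2 n ⊆ Om ∩ Ust 2 := by
  have h0 := dl_pos n
  refine subset_inter (fun z hz => AA_sub n ⟨⟨?_, ?_⟩, ?_⟩) (sh_U (by positivity) (by positivity))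
  · linarith [hz.1.1]
  · linarith [hz.1.2]
  · have : (0 : ℝ) < 2 ^ n := by positivity
    have := hz.2.2
    rw [mem_ball_zero_iff]; linarith

lemma vol_K1 (n : ℕ) : (4 : ℝ) ^ n / 4 ≤ volume.real (K1 n) := by
  have h8 : (0 : ℝ) < 8 ^ n := by positivity
  have h4 : (0 : ℝ) < (4 ^ n)⁻¹ := by positivity
  rw [measureReal_def, K1, vol_box, vol_sh (by positivity) (by linarith),
    vol_sh (by positivity) (by linarith), ← ENNReal.ofReal_mul (by nlinarith [Real.pi_pos]),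
    ENNReal.toReal_ofReal (by
      apply mul_nonneg <;> apply mul_nonneg _ Real.pi_pos.le <;> nlinarith)]
  have e : ((8 : ℝ) ^ n) ^ 2 * ((4 ^ n)⁻¹) ^ 2 = 4 ^ n := by
    rw [← mul_pow, ← div_eq_mul_inv, ← div_pow, ← pow_mul, mul_comm, pow_mul]; norm_num
  have e2 : (((8 : ℝ) ^ n / 2) ^ 2 - (8 ^ n / 4) ^ 2) * Real.pi *
      ((((4 ^ n)⁻¹ / 2) ^ 2 - ((4 ^ n)⁻¹ / 4) ^ 2) * Real.pi) =
      (9 / 256 * Real.pi ^ 2) * (((8 : ℝ) ^ n) ^ 2 * ((4 ^ n)⁻¹) ^ 2) := by ring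
  rw [e2, e]
  have : (0 : ℝ) < 4 ^ n := by positivity
  have h3 : 9 ≤ Real.pi ^ 2 := by nlinarith [Real.pi_gt_three]
  nlinarith

lemma vol_K2 (n : ℕ) : dl n * 4 ^ n / 2 ≤ volume.real (K2 n) := by
  have h0 := dl_pos n
  have h2 : (0 : ℝ) < 2 ^ n := by positivity
  rw [measureReal_def, K2, vol_box, vol_sh (by positivity) (by linarith),
    vol_sh (by positivity) (by linarith), ← ENNReal.ofReal_mul (by
      apply mul_nonneg _ Real.pi_pos.le; nlinarith),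
    ENNReal.toReal_ofReal (by
      apply mul_nonneg <;> apply mul_nonneg _ Real.pi_pos.le <;> nlinarith)]
  have e : ((2 : ℝ) ^ n) ^ 2 = 4 ^ n := by
    rw [← pow_mul, mul_comm, pow_mul]; norm_num
  have e2 : (((1 + dl n / 2) ^ 2 - (1 + dl n / 4) ^ 2) * Real.pi) *
      ((((2 : ℝ) ^ n / 2) ^ 2 - (2 ^ n / 4) ^ 2) * Real.pi) =
      (dl n / 2 + 3 / 16 * dl n ^ 2) * (3 / 16 * Real.pi ^ 2) * ((2 : ℝ) ^ n) ^ 2 := by ring
  rw [e2, e]
  have : (0 : ℝ) < 4 ^ n := by positivity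
  have h3 : 9 ≤ Real.pi ^ 2 := by nlinarith [Real.pi_gt_three]
  have h4 : dl n / 2 ≤ (dl n / 2 + 3 / 16 * dl n ^ 2) * (3 / 16 * Real.pi ^ 2) := by
    nlinarith [sq_nonneg (dl n)]
  nlinarith

lemma big {s : ℝ} (hs : 3 < s) (M : ℝ) :
    ∃ n : ℕ, 2 ≤ n ∧ M < volume.real (K2 n) * ((2 : ℝ) ^ n) ^ s := by
  set r : ℝ := 2 ^ (s - 3) with hr
  have r1 : 1 < r := Real.one_lt_rpow (by norm_num) (by linarith)
  have hM : 0 < |M| + 1 := by positivity
  have t := (tendsto_pow_const_div_const_pow_of_one_lt 2 r1).comp (tendsto_add_atTop_nat 1)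
  obtain ⟨n, hn, hn2⟩ := ((t.eventually (gt_mem_nhds
    (show (0 : ℝ) < 1 / (2 * r * (|M| + 1)) by positivity))).and (eventually_ge_atTop 2)).exists
  refine ⟨n, hn2, lt_of_lt_of_le ?_ (mul_le_mul_of_nonneg_right (vol_K2 n) (by positivity))⟩
  have e : ((2 : ℝ) ^ n) ^ s = r ^ n * 8 ^ n := by
    rw [← mul_pow, hr, ← Real.rpow_natCast, ← Real.rpow_mul (by norm_num), mul_comm,
      Real.rpow_mul (by norm_num), Real.rpow_natCast]
    congr 1
    rw [show (8 : ℝ) = 2 ^ (3 : ℝ) by norm_num, ← Real.rpow_add (by norm_num)]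
    congr 1; ring
  rw [e]
  simp only [Function.comp] at hn
  push_cast at hn
  rw [div_lt_div_iff₀ (by positivity) (by positivity), pow_succ r] at hn
  have e2 : dl n * 4 ^ n / 2 * (r ^ n * 8 ^ n) = r ^ n / (2 * ((n : ℝ) + 1) ^ 2) := by
    unfold dl
    rw [show (32 : ℝ) ^ n = 4 ^ n * 8 ^ n by rw [← mul_pow]; norm_num]
    field_simp
  rw [e2, lt_div_iff₀ (by positivity)]
  have h5 : ((n : ℝ) + 1) ^ 2 * (2 * (|M| + 1)) < r ^ n := by
    have r0 : 0 < r := by linarith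
    nlinarith
  have h6 : 0 < ((n : ℝ) + 1) ^ 2 := by positivity
  nlinarith [le_abs_self M]

end Pool.Agent.H28.Wieg
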