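import Pool.Agent.H28.Wieg1

set_option autoImplicit false

open MeasureTheory Set Filter Topology Metric UnitAddTorus
open scoped ComplexConjugate
open Pool.Agent.H27.Rein

namespace Pool.Agent.H28.Wieg

lemma uniq1 {Ω : Set (Fin 2 → ℂ)} {h : (Fin 2 → ℂ) → ℂ} (hi : H27.Rein.Inv Ω)
    (hh : ContinuousOn h Ω) {z : Fin 2 → ℂ} (hz : z ∈ Ω) (β : Fin 2 → ℤ)
    (h0 : ∀ γ ≠ β, Fc h γ z = 0) : h z = Fc h β z := by
  let f : C(UnitAddTorus (Fin 2), ℂ) := ⟨fun θ => h (rot θ z), cont_orb hi hh hz⟩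
  have e : ∀ γ, mFourierCoeff f γ = Fc h γ z := fun γ => rfl
  have hs : Summable (mFourierCoeff f) :=
    summable_of_ne_finset_zero (s := {β}) fun γ hγ => by rw [e]; exact h0 γ (by simpa using hγ)
  have h1 := hasSum_mFourier_series_apply_of_summable hs 0
  have h2 : HasSum (fun i ↦ mFourierCoeff f i • mFourier i (0 : UnitAddTorus (Fin 2)))
      (mFourierCoeff f β • mFourier β (0 : UnitAddTorus (Fin 2))) :=
    hasSum_single β fun γ hγ => by rw [e, h0 γ hγ, zero_smul]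
  have := h1.unique h2
  rw [e] at this
  simpa [f, rot_zero, mFourier] using this

variable {h : (Fin 2 → ℂ) → ℂ}

lemma coef_bound (hh : DifferentiableOn ℂ h Om) (h2 : MemLp h 2 (volume.restrict Om))
    {γ : Fin 2 → ℤ} {a : ℂ} (ha : ∀ z ∈ Om ∩ Ust 2, Fc h γ z = a * mon γ z)
    {K : Set (Fin 2 → ℂ)} (hK : IsCompact K) (hKs : K ⊆ Om ∩ Ust 2) (hKi : H27.Rein.Inv K)
    {c : ℝ} (hc0 : 0 ≤ c) (hc : ∀ z ∈ K, c ≤ ‖mon γ z‖) :
    ‖a‖ ^ 2 * (volume.real K * c ^ 2) ≤ ∫ z in Om, ‖h z‖ ^ 2 := by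
  have ms := hK.measurableSet
  have ss : K ⊆ Om := fun z hz => (hKs hz).1
  have p := pairing inv_Om hh.continuousOn ha hK hKs hKi (φ := fun _ => 1) continuousOn_const
    (fun _ _ _ => rfl)
  have cm : ContinuousOn (mon γ) K := (cont_mon γ).mono fun z hz => (hKs hz).2
  have ch : ContinuousOn h K := hh.continuousOn.mono ss
  have e1 : ∫ z in K, conj (mon γ z) * 1 * mon γ z = ((∫ z in K, ‖mon γ z‖ ^ 2 : ℝ) : ℂ) := by
    rw [← integral_complex_ofReal]
    refine setIntegral_congr_fun ms fun z _ => ?_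
    simp only [mul_one]
    rw [Complex.conj_mul']; simp
  rw [e1] at p
  set N : ℝ := ∫ z in K, ‖mon γ z‖ ^ 2 with hN
  have iN : IntegrableOn (fun z => ‖mon γ z‖ ^ 2) K := (cm.norm.pow 2).integrableOn_compact hK
  have iH : IntegrableOn (fun z => ‖h z‖ ^ 2) K := (ch.norm.pow 2).integrableOn_compact hK
  have N0 : 0 ≤ N := integral_nonneg fun z => by positivity
  have b1 : ‖a‖ * (‖a‖ * N) ≤ (‖a‖ ^ 2 * N + ∫ z in K, ‖h z‖ ^ 2) / 2 := by
    have : ‖a‖ * N = ‖∫ z in K, conj (mon γ z) * 1 * h z‖ := by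
      rw [p, norm_mul, Complex.norm_real, Real.norm_of_nonneg N0]
    rw [this]
    refine (mul_le_mul_of_nonneg_left (norm_integral_le_integral_norm _) (norm_nonneg a)).trans ?_
    rw [← integral_const_mul, hN, ← integral_const_mul, ← integral_add (iN.const_mul _) iH,
      ← integral_div]
    refine setIntegral_mono_on ?_ (((iN.const_mul _).add iH).div_const _) ms fun z _ => ?_
    · exact ((((Complex.continuous_conj.comp_continuousOn cm).mul continuousOn_const).mul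
        ch).norm.integrableOn_compact hK).const_mul _
    · simp only [mul_one, norm_mul, Complex.norm_conj]
      nlinarith [sq_nonneg (‖a‖ * ‖mon γ z‖ - ‖h z‖)]
  have b2 : ∫ z in K, ‖h z‖ ^ 2 ≤ ∫ z in Om, ‖h z‖ ^ 2 :=
    setIntegral_mono_set ((memLp_two_iff_integrable_sq_norm h2.1).1 h2)
      (ae_of_all _ fun z => by positivity) ss.eventuallyLE
  have b3 : volume.real K * c ^ 2 ≤ N := by
    have : ∫ _ in K, c ^ 2 ≤ N :=
      setIntegral_mono_on (integrableOn_const hK.measure_lt_top.ne) iN ms fun z hz =>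
        pow_le_pow_left₀ hc0 (hc z hz) 2
    simpa using this
  nlinarith [mul_le_mul_of_nonneg_left b3 (sq_nonneg ‖a‖)]

lemma neg_zero (hh : DifferentiableOn ℂ h Om) {γ : Fin 2 → ℤ} {a : ℂ}
    (ha : ∀ z ∈ Om ∩ Ust 2, Fc h γ z = a * mon γ z) (j : Fin 2) (hj : γ j < 0) : a = 0 := by
  let q : ℝ → Fin 2 → ℂ := fun t => Function.update (fun _ => (1 / 2 : ℂ)) j (t : ℂ)
  have cq : Continuous q := continuous_const.update j Complex.continuous_ofReal
  have qn : ∀ t : ℝ, 0 ≤ t → t < 1 → q t ∈ Om := by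
    intro t h0 h1
    have : ∀ i, ‖q t i‖ < 1 := by
      intro i
      by_cases hij : i = j
      · subst hij; simpa [q, abs_of_nonneg h0] using h1
      · simp [q, hij]; norm_num
    exact BB_sub 0 ⟨by simpa using this 0, by simpa using this 1⟩
  obtain ⟨k, hk⟩ : ∃ k : ℕ, γ j = -((k + 1 : ℕ) : ℤ) := ⟨(-γ j - 1).toNat, by omega⟩
  set b : ℂ := ∏ i ∈ Finset.univ.erase j, (1 / 2 : ℂ) ^ γ i with hb
  have b0 : b ≠ 0 := Finset.prod_ne_zero_iff.2 fun i _ => zpow_ne_zero _ (by norm_num)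
  have l1 : Tendsto (fun t : ℝ => (t : ℂ) ^ (k + 1) * Fc h γ (q t)) (𝓝[>] 0) (𝓝 0) := by
    have c1 : ContinuousAt (fun t : ℝ => (t : ℂ) ^ (k + 1) * Fc h γ (q t)) 0 :=
      (Complex.continuous_ofReal.pow _).continuousAt.mul
        ((diff_Fc open_Om inv_Om hh γ (qn 0 le_rfl one_pos)).continuousAt.comp cq.continuousAt)
    have := c1.tendsto.mono_left (nhdsWithin_le_nhds (s := Ioi 0))
    simpa using this
  have l2 : (fun t : ℝ => (t : ℂ) ^ (k + 1) * Fc h γ (q t)) =ᶠ[𝓝[>] 0] fun _ => a * b := by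
    filter_upwards [Ioo_mem_nhdsGT one_pos] with t ht
    have t0 : (t : ℂ) ≠ 0 := Complex.ofReal_ne_zero.2 ht.1.ne'
    have hU : q t ∈ Ust 2 := by
      intro i
      by_cases hij : i = j
      · subst hij; simpa [q] using ht.1.ne'
      · simp [q, hij]
    rw [ha _ ⟨qn t ht.1.le ht.2, hU⟩, mon, ← Finset.mul_prod_erase _ _ (Finset.mem_univ j)]
    have : ∏ i ∈ Finset.univ.erase j, q t i ^ γ i = b :=
      Finset.prod_congr rfl fun i hi => by
        simp only [q]; rw [Function.update_of_ne (Finset.ne_of_mem_erase hi)]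
    rw [this, hk]
    simp only [q, Function.update_self, zpow_neg, zpow_natCast]
    field_simp
  have := tendsto_nhds_unique (l1.congr' l2) tendsto_const_nhds
  exact (mul_eq_zero.1 this.symm).resolve_right b0

lemma zero_of_unbdd {a : ℂ} {H : ℝ} (hb : ∀ M : ℝ, ∃ x, M < x ∧ ‖a‖ ^ 2 * x ≤ H) : a = 0 := by
  by_contra h0
  have : 0 < ‖a‖ ^ 2 := by positivity
  obtain ⟨x, h1, h2⟩ := hb (H / ‖a‖ ^ 2)
  rw [div_lt_iff₀ this] at h1
  linarith

lemma span (hh : DifferentiableOn ℂ h Om) (h2 : MemLp h 2 (volume.restrict Om)) :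
    ∃ a : ℂ, ∀ z ∈ Om ∩ Ust 2, h z = a * z 1 := by
  obtain ⟨a, ha⟩ := laurent open_Om conn_Om.2 inv_Om hh ![0, 1]
  refine ⟨a, fun z hz => ?_⟩
  rw [uniq1 inv_Om hh.continuousOn hz.1 ![0, 1], ha z hz]
  · simp [mon]
  intro γ hγ
  obtain ⟨b, hb⟩ := laurent open_Om conn_Om.2 inv_Om hh γ
  rw [hb z hz]
  suffices b = 0 by simp [this]
  rcases lt_or_ge (γ 0) 0 with g0 | g0
  · exact neg_zero hh hb 0 g0
  rcases lt_or_ge (γ 1) 0 with g1 | g1
  · exact neg_zero hh hb 1 g1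
  obtain ⟨m, hm⟩ := Int.eq_ofNat_of_zero_le g0
  obtain ⟨k, hk⟩ := Int.eq_ofNat_of_zero_le g1
  have em : ∀ z, ‖mon γ z‖ = ‖z 0‖ ^ m * ‖z 1‖ ^ k := by
    intro z; simp [mon, hm, hk]
  refine zero_of_unbdd (H := ∫ z in Om, ‖h z‖ ^ 2) fun M => ?_
  rcases le_or_gt 2 k with k2 | k2
  · obtain ⟨n, hn, hM⟩ := big (s := 4) (by norm_num) (256 * M)
    refine ⟨volume.real (K2 n) * ((2 ^ n / 4) ^ 2) ^ 2, ?_, coef_bound hh h2 hb
      (cpt_box (cpt_sh _ _) (cpt_sh _ _)) (K2_sub n) (inv_sh _ _ _ _) (by positivity) ?_⟩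
    · rw [show (4 : ℝ) = ((4 : ℕ) : ℝ) by norm_num, Real.rpow_natCast] at hM
      nlinarith
    · intro z hz
      have d := dl_pos n
      have z0 : 1 ≤ ‖z 0‖ := by linarith [hz.1.1]
      have p2 : (2 : ℝ) ^ 2 ≤ 2 ^ n := pow_le_pow_right₀ (by norm_num) hn
      have z1 : 1 ≤ ‖z 1‖ := by linarith [hz.2.1]
      rw [em]
      calc ((2 : ℝ) ^ n / 4) ^ 2 ≤ ‖z 1‖ ^ 2 := pow_le_pow_left₀ (by positivity) hz.2.1 2
        _ ≤ ‖z 1‖ ^ k := pow_le_pow_right₀ z1 k2
        _ ≤ _ := le_mul_of_one_le_left (by positivity) (one_le_pow₀ z0)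
  · obtain ⟨n, hn, hn4⟩ := (((tendsto_pow_atTop_atTop_of_one_lt (show (1 : ℝ) < 4 by norm_num)).eventually
      (eventually_gt_atTop (4 * M))).and (eventually_ge_atTop 4)).exists
    refine ⟨volume.real (K1 n) * 1 ^ 2, by linarith [vol_K1 n], coef_bound hh h2 hb
      (cpt_box (cpt_sh _ _) (cpt_sh _ _)) (K1_sub n) (inv_sh _ _ _ _) zero_le_one ?_⟩
    intro z hz
    have p8 : (8 : ℝ) ^ 4 ≤ 8 ^ n := pow_le_pow_right₀ (by norm_num) hn4
    have z0 : 1 ≤ ‖z 0‖ := by linarith [hz.1.1]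
    rw [em]
    obtain rfl | rfl : k = 0 ∨ k = 1 := by omega
    · simpa using one_le_pow₀ z0
    · have m1 : 1 ≤ m := by
        by_contra hm0
        apply hγ
        have : m = 0 := by omega
        subst this
        funext i
        fin_cases i
        · simpa using hm
        · simpa using hk
      have p2 : (2 : ℝ) ^ 4 ≤ 2 ^ n := pow_le_pow_right₀ (by norm_num) hn4
      have e : (8 : ℝ) ^ n * (4 ^ n)⁻¹ = 2 ^ n := by
        rw [← div_eq_mul_inv, ← div_pow]; norm_num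
      calc (1 : ℝ) ≤ (8 ^ n / 4) * ((4 ^ n)⁻¹ / 4) := by nlinarith
        _ ≤ ‖z 0‖ * ‖z 1‖ := mul_le_mul hz.1.1 hz.2.1 (by positivity) (by positivity)
        _ ≤ _ := by
          rw [pow_one]
          exact mul_le_mul_of_nonneg_right (le_self_pow₀ z0 (by omega)) (norm_nonneg _)

lemma piece {S : Set (Fin 2 → ℂ)} (hS : MeasurableSet S) {p c v : ℝ} (hc0 : 0 ≤ c)
    (hc : ∀ z ∈ S, ‖z 1‖ ^ p ≤ c) (hp : 0 ≤ p) (hv : volume S ≤ ENNReal.ofReal v) :
    ∫⁻ z in S, ‖z 1‖ₑ ^ p ≤ ENNReal.ofReal (c * v) := by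
  calc ∫⁻ z in S, ‖z 1‖ₑ ^ p ≤ ∫⁻ _ in S, ENNReal.ofReal c := by
        refine setLIntegral_mono' hS fun z hz => ?_
        rw [← ofReal_norm_eq_enorm, ENNReal.ofReal_rpow_of_nonneg (norm_nonneg _) hp]
        exact ENNReal.ofReal_le_ofReal (hc z hz)
    _ = ENNReal.ofReal c * volume S := by simp
    _ ≤ _ := by rw [ENNReal.ofReal_mul hc0]; gcongr

lemma memLp_w {p : ℝ} (h1 : 3 / 2 ≤ p) (h3 : p ≤ 3) :
    MemLp (fun z : Fin 2 → ℂ => z 1) (ENNReal.ofReal p) (volume.restrict Om) := by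
  have p0 : 0 < p := by linarith
  refine ⟨(continuous_apply (1 : Fin 2)).aestronglyMeasurable, ?_⟩
  rw [eLpNorm_lt_top_iff_lintegral_rpow_enorm_lt_top (by simpa using p0) ENNReal.ofReal_ne_top,
    ENNReal.toReal_ofReal p0.le]
  have hB : ∀ n : ℕ, ∫⁻ z in BB n, ‖z 1‖ₑ ^ p ≤ ENNReal.ofReal (Real.pi ^ 2 * (1 / 2) ^ n) := by
    intro n
    have := piece (S := BB n) (open_box isOpen_ball isOpen_ball).measurableSet (p := p)
      (c := (8 ^ n)⁻¹) (v := ((8 ^ n) ^ 2 * Real.pi) * (((4 ^ n)⁻¹) ^ 2 * Real.pi)) (by positivity)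
      (fun z hz => by
        have z1 : ‖z 1‖ ≤ (4 ^ n)⁻¹ := (mem_ball_zero_iff.1 hz.2).le
        have q1 : ((4 : ℝ) ^ n)⁻¹ ≤ 1 := inv_le_one_of_one_le₀ (one_le_pow₀ (by norm_num))
        calc ‖z 1‖ ^ p ≤ ((4 : ℝ) ^ n)⁻¹ ^ p := Real.rpow_le_rpow (norm_nonneg _) z1 p0.le
          _ ≤ ((4 : ℝ) ^ n)⁻¹ ^ (3 / 2 : ℝ) :=
            Real.rpow_le_rpow_of_exponent_ge (by positivity) q1 h1
          _ = (8 ^ n)⁻¹ := by
            rw [Real.inv_rpow (by positivity), ← Real.rpow_natCast, ← Real.rpow_mul (by norm_num),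
              mul_comm, Real.rpow_mul (by norm_num), Real.rpow_natCast]
            congr 2
            rw [show (4 : ℝ) = 2 ^ (2 : ℝ) by norm_num, ← Real.rpow_mul (by norm_num)]
            norm_num)
      p0.le (by
        rw [BB, vol_box, vol_ball _ (by positivity), vol_ball _ (by positivity),
          ← ENNReal.ofReal_mul (by positivity)])
    refine this.trans (le_of_eq ?_)
    congr 1
    rw [show (8 : ℝ) ^ n = (2 ^ n) ^ 3 by rw [← pow_mul, mul_comm, pow_mul]; norm_num,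
      show (4 : ℝ) ^ n = (2 ^ n) ^ 2 by rw [← pow_mul, mul_comm, pow_mul]; norm_num,
      show (1 / 2 : ℝ) ^ n = (2 ^ n)⁻¹ by rw [one_div, inv_pow]]
    field_simp
  have hA : ∀ n : ℕ, ∫⁻ z in AA n, ‖z 1‖ₑ ^ p ≤
      ENNReal.ofReal (3 * Real.pi ^ 2 * (1 / ((n : ℝ) + 1) ^ 2)) := by
    intro n
    have d0 := dl_pos n
    have d1 := dl_le n
    have := piece (S := AA n) (open_box ((isOpen_lt continuous_const continuous_norm).inter
      (isOpen_lt continuous_norm continuous_const)) isOpen_ball).measurableSet (p := p)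
      (c := 8 ^ n) (v := (3 * dl n * Real.pi) * ((2 ^ n) ^ 2 * Real.pi)) (by positivity)
      (fun z hz => by
        have z1 : ‖z 1‖ ≤ 2 ^ n := (mem_ball_zero_iff.1 hz.2).le
        have q1 : (1 : ℝ) ≤ 2 ^ n := one_le_pow₀ (by norm_num)
        calc ‖z 1‖ ^ p ≤ ((2 : ℝ) ^ n) ^ p := Real.rpow_le_rpow (norm_nonneg _) z1 p0.le
          _ ≤ ((2 : ℝ) ^ n) ^ ((3 : ℕ) : ℝ) :=
            Real.rpow_le_rpow_of_exponent_le q1 (by simpa using h3)
          _ = 8 ^ n := by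
            rw [Real.rpow_natCast, ← pow_mul, mul_comm, pow_mul]; norm_num)
      p0.le (by
        rw [AA, vol_box, vol_ball _ (by positivity),
          ENNReal.ofReal_mul (p := 3 * dl n * Real.pi) (by positivity)]
        gcongr
        refine (measure_mono (t := sh 1 (1 + dl n)) fun w hw => ⟨hw.1.le, hw.2.le⟩).trans ?_
        rw [vol_sh zero_le_one (by linarith)]
        apply ENNReal.ofReal_le_ofReal
        apply mul_le_mul_of_nonneg_right _ Real.pi_pos.le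
        nlinarith)
    refine this.trans (le_of_eq ?_)
    congr 1
    unfold dl
    rw [show (8 : ℝ) ^ n = (2 ^ n) ^ 3 by rw [← pow_mul, mul_comm, pow_mul]; norm_num,
      show (32 : ℝ) ^ n = (2 ^ n) ^ 5 by rw [← pow_mul, mul_comm, pow_mul]; norm_num]
    field_simp
  have sB : Summable fun n : ℕ => Real.pi ^ 2 * (1 / 2 : ℝ) ^ n :=
    summable_geometric_two.mul_left _
  have sA : Summable fun n : ℕ => 3 * Real.pi ^ 2 * (1 / ((n : ℝ) + 1) ^ 2) := by
    refine Summable.mul_left _ ?_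
    have := (summable_nat_add_iff 1).2 (Real.summable_one_div_nat_pow.2 one_lt_two)
    simpa using this
  refine lt_of_le_of_lt (lintegral_union_le _ _ _) (ENNReal.add_lt_top.2 ⟨?_, ?_⟩)
  · refine lt_of_le_of_lt ((lintegral_iUnion_le _ _).trans (ENNReal.tsum_le_tsum hB)) ?_
    rw [← ENNReal.ofReal_tsum_of_nonneg (fun n => by positivity) sB]
    exact ENNReal.ofReal_lt_top
  · refine lt_of_le_of_lt ((lintegral_iUnion_le _ _).trans (ENNReal.tsum_le_tsum hA)) ?_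
    rw [← ENNReal.ofReal_tsum_of_nonneg (fun n => by positivity) sA]
    exact ENNReal.ofReal_lt_top

end Pool.Agent.H28.Wieg
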